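import Pool.Agent.P.HB.Main

/-! Connectors: tokens with anchors that join the components of the hard graphs. -/

set_option autoImplicit false

open Finset

namespace Pool.Agent.HB

section defs
variable {τ : Type} [Fintype τ]

/-- pairs of a token and its anchor -/
def pairBP (τ J : Type) : BP τ (J × Bool) where
  act _ := True
  arc u k u' i := u.1 = u'.1 ∧ u.2 = false ∧ k = .anc ∧ u'.2 = true ∧ i < 3999
  att _ := False
  fin := False

/-- an end of a link edge -/
def lend {N : Type} (u : N) (a s : Bool) : Vx τ N := .inr (u, .inl ((.lnk a, s), 0))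

/-- a graph together with connectors, each of which sends at most two link edges -/
def Attach {V0 J : Type} (G0 : SimpleGraph V0) (tgt : J → Bool → Option (V0 ⊕ Vx τ (J × Bool))) :
    SimpleGraph (V0 ⊕ Vx τ (J × Bool)) :=
  SimpleGraph.fromRel fun v w => (G0 ⊕g (pairBP τ J).graph).Adj v w ∨
    ∃ j a, v = .inr (lend (j, false) a true) ∧ tgt j a = some w

abbrev CI (ι : Type) : Type := Option (ι × Fin 300)

/-- the links of the connected graph -/
def tgtH {ι : Type} {Kn : ℕ} (z : Fin Kn) :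
    Option (CI ι) → Bool → Option (VH τ ι Kn ⊕ Vx τ (Option (CI ι) × Bool))
  | none, _ => none
  | some c, false => some (.inl (c, lend z false false))
  | some _, true => some (.inr (lend (none, false) true false))

/-- the graph `H` with its connectors -/
def HC [Inhabited τ] {ι : Type} (F : ι → Clause τ) (halt : τ) {Kn : ℕ} (z : Fin Kn) :
    SimpleGraph (VH τ ι Kn ⊕ Vx τ (Option (CI ι) × Bool)) := Attach (HG F halt Kn) (tgtH z)

/-- the links of the witness -/
def tgtW {ι : Type} {Kn : ℕ} (z : Fin Kn) (𝒯 : Finset (Term τ)) :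
    Option (CI ι) ⊕ Fin (rr (Gm τ)) → Bool → Option ((Vx τ (NW τ 𝒯) ⊕ VH τ ι Kn) ⊕
      Vx τ ((Option (CI ι) ⊕ Fin (rr (Gm τ))) × Bool))
  | .inl none, _ => none
  | .inl (some c), false => some (.inl (.inr (c, lend z false false)))
  | .inr q, false => some (.inl (.inl (lend (q, .inl false) false false)))
  | _, true => some (.inr (lend (.inl none, false) true false))

/-- the witness with its connectors -/
def WC [Inhabited τ] {ι : Type} (F : ι → Clause τ) (halt : τ) {Kn : ℕ} (z : Fin Kn)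
    (𝒯 : Finset (Term τ)) := Attach (WG F halt Kn 𝒯) (tgtW (ι := ι) z 𝒯)

/-- two tokens with their anchors and a link between them -/
def conBP (τ : Type) (a : Bool) : BP τ ℕ where
  act u := u < 4
  arc u k u' i := ((u = 0 ∨ u = 2) ∧ k = .anc ∧ u' = u + 1 ∧ i < 3999) ∨
    (u = 0 ∧ k = .lnk a ∧ u' = 2 ∧ i = 0)
  att _ := False
  fin := False

end defs

section sparse
variable {τ : Type} [Fintype τ] {V0 J : Type}

theorem pair_na (M : Finset (J × Bool)) : 2 * (pairBP τ J).na M ≤ 3999 * M.card := by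
  classical
  have h1 : (pairBP τ J).na M ≤ 3999 * (M.filter fun u => u.2 = false ∧ (u.1, true) ∈ M).card := by
    rw [spb_na, ← spb_sum_ite]
    refine sum_le_sum fun u _ => ?_
    split_ifs with h
    · refine spb_one (u.1, true) .anc 3999 ?_
      rintro u' - k i ⟨h1, -, h2, h3, h4⟩
      exact ⟨Prod.ext h1.symm h3, h2, h4⟩
    · refine spb_zero ?_
      rintro u' hu' k i ⟨h1, h5, -, h3, -⟩
      exact h ⟨h5, (Prod.ext h1 h3.symm : (u.1, true) = u') ▸ hu'⟩
  have h2 : (M.filter fun u => u.2 = false ∧ (u.1, true) ∈ M).card ≤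
      (M.filter fun u => u.2 = false).card :=
    card_le_card fun u hu => mem_filter.2 ⟨(mem_filter.1 hu).1, (mem_filter.1 hu).2.1⟩
  have h3 : (M.filter fun u => u.2 = false ∧ (u.1, true) ∈ M).card ≤
      (M.filter fun u => ¬ u.2 = false).card := by
    refine card_le_card_of_injOn (fun u => (u.1, true)) (fun u hu => ?_) fun u hu u' hu' e => ?_
    · exact mem_coe.2 (mem_filter.2 ⟨(mem_filter.1 (mem_coe.1 hu)).2.2, by simp⟩)
    · exact Prod.ext (Prod.mk.inj e).1 ((mem_filter.1 (mem_coe.1 hu)).2.1.trans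
        (mem_filter.1 (mem_coe.1 hu')).2.1.symm)
  have h4 := card_filter_add_card_filter_not (s := M) (fun u => u.2 = false)
  omega

theorem attach_ec [Inhabited τ] [Fintype J] (G0 : SimpleGraph V0)
    (tgt : J → Bool → Option (V0 ⊕ Vx τ (J × Bool))) (X : Finset (V0 ⊕ Vx τ (J × Bool))) :
    mm (Gm τ) * ec (Attach G0 tgt) X + min 1 X.toRight.card ≤
      mm (Gm τ) * ec G0 X.toLeft + AA (Gm τ) * X.toRight.card := by
  classical
  have h1 := spa_ec_le (fun v w => (G0 ⊕g (pairBP τ J).graph).Adj v w ∨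
    ∃ j a, v = .inr (lend (j, false) a true) ∧ tgt j a = some w) (G0 ⊕g (pairBP τ J).graph).Adj
    (fun v w => ∃ j a, v = .inr (lend (j, false) a true) ∧ tgt j a = some w)
    (fun _ _ h => h.symm) (fun _ _ h => h) X
  have h2 : (spa_pairs (G0 ⊕g (pairBP τ J).graph).Adj X).card =
      ec (G0 ⊕g (pairBP τ J).graph) X := rfl
  have h3 := spc_sum G0 (pairBP τ J).graph X
  have h4 : (spa_pairs (fun v w => ∃ j a, v = .inr (lend (j, false) a true) ∧ tgt j a = some w)
      X).card ≤ ((pairBP τ J).met X.toRight).card * 2 := by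
    refine le_trans (card_le_card (t := (((pairBP τ J).met X.toRight) ×ˢ (univ : Finset Bool)).image
      fun q => (.inr (lend (q.1.1, false) q.2 true), (tgt q.1.1 q.2).getD (.inr (.inl false))))
      fun p hp => ?_) (card_image_le.trans (by simp))
    obtain ⟨h5, -, j, a, h6, h7⟩ := spa_mem_pairs.1 hp
    refine mem_image.2 ⟨((j, false), a), mem_product.2 ⟨spa_mem_met.2 ⟨trivial,
      .inl ((.lnk a, true), 0), mem_toRight.2 ?_⟩, mem_univ _⟩, Prod.ext h6.symm (by simp [h7])⟩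
    rw [h6] at h5
    exact h5
  have hp := bp_pot (pairBP τ J) X.toRight
  have h5 := pair_na (τ := τ) ((pairBP τ J).met X.toRight)
  have h6 : (pairBP τ J).nt ((pairBP τ J).met X.toRight) = 0 := by
    unfold BP.nt
    rw [card_eq_zero, filter_eq_empty_iff]
    exact fun _ _ h => h
  rw [if_neg fun h => h.1, h6] at hp
  have hm := spc_mm_pos (τ := τ)
  have hA := spc_AA_pos (τ := τ)
  have h7 : ec (Attach G0 tgt) X ≤ ec G0 X.toLeft + ec (pairBP τ J).graph X.toRight +
      4 * ((pairBP τ J).met X.toRight).card := by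
    unfold Attach
    omega
  have h8 := Nat.mul_le_mul_left (mm (Gm τ)) h7
  have h9 := Nat.mul_le_mul_left (mm (Gm τ)) h5
  rcases ((pairBP τ J).met X.toRight).eq_empty_or_nonempty with he | hne
  · have h10 := met_empty _ _ he
    rw [he, spc_na_empty, h10] at hp
    rw [he] at h8
    have h11 : min 1 X.toRight.card ≤ AA (Gm τ) * X.toRight.card :=
      (min_le_right _ _).trans (Nat.le_mul_of_pos_left _ hA)
    simp only [card_empty, mul_zero, add_zero] at hp h8
    nlinarith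
  · have h10 : 0 < mm (Gm τ) * ((pairBP τ J).met X.toRight).card := Nat.mul_pos hm hne.card_pos
    have h11 := min_le_left 1 X.toRight.card
    nlinarith [Nat.zero_le (AA (Gm τ) * (pl X.toRight + (pairBP τ J).junk X.toRight))]

theorem attach_inl (G0 : SimpleGraph V0) (tgt : J → Bool → Option (V0 ⊕ Vx τ (J × Bool)))
    {a b : V0} : (Attach G0 tgt).Adj (.inl a) (.inl b) ↔ G0.Adj a b := by
  simp only [Attach, SimpleGraph.fromRel_adj, SimpleGraph.sum_adj_inl, reduceCtorEq, false_and,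
    exists_false, or_false, ne_eq, Sum.inl.injEq]
  exact ⟨fun h => h.2.elim id fun h => h.symm, fun h => ⟨h.ne, Or.inl h⟩⟩

theorem attach_inr (G0 : SimpleGraph V0) (tgt : J → Bool → Option (V0 ⊕ Vx τ (J × Bool)))
    {a b : Vx τ (J × Bool)} (h : (pairBP τ J).rel a b) :
    (Attach G0 tgt).Adj (.inr a) (.inr b) := by
  refine (SimpleGraph.fromRel_adj _ _ _).2 ⟨fun e => copy_ne h (Sum.inr_injective e),
    Or.inl (Or.inl (SimpleGraph.sum_adj_inr.2 ?_))⟩
  exact (SimpleGraph.fromRel_adj _ _ _).2 ⟨copy_ne h, Or.inl h⟩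

theorem attach_lnk (G0 : SimpleGraph V0) (tgt : J → Bool → Option (V0 ⊕ Vx τ (J × Bool)))
    {j : J} {a : Bool} {w : V0 ⊕ Vx τ (J × Bool)} (h : tgt j a = some w)
    (hne : .inr (lend (j, false) a true) ≠ w) :
    (Attach G0 tgt).Adj (.inr (lend (j, false) a true)) w :=
  (SimpleGraph.fromRel_adj _ _ _).2 ⟨hne, Or.inl (Or.inr ⟨j, a, rfl, h⟩)⟩

/-- the three kinds of edges -/
theorem attach_cases (G0 : SimpleGraph V0) (tgt : J → Bool → Option (V0 ⊕ Vx τ (J × Bool)))
    {v w : V0 ⊕ Vx τ (J × Bool)} (h : (Attach G0 tgt).Adj v w) :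
    (∃ a b, G0.Adj a b ∧ s(v, w) = s(.inl a, .inl b)) ∨
    (∃ a b, (pairBP τ J).rel a b ∧ s(v, w) = s(.inr a, .inr b)) ∨
    ∃ j a u, tgt j a = some u ∧ s(v, w) = s(.inr (lend (j, false) a true), u) := by
  have key : ∀ v w : V0 ⊕ Vx τ (J × Bool), ((G0 ⊕g (pairBP τ J).graph).Adj v w ∨
      ∃ j a, v = .inr (lend (j, false) a true) ∧ tgt j a = some w) →
      (∃ a b, G0.Adj a b ∧ s(v, w) = s(.inl a, .inl b)) ∨
      (∃ a b, (pairBP τ J).rel a b ∧ s(v, w) = s(.inr a, .inr b)) ∨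
      ∃ j a u, tgt j a = some u ∧ s(v, w) = s(.inr (lend (j, false) a true), u) := by
    rintro v w (h | ⟨j, a, rfl, h⟩)
    · rcases v with a | a <;> rcases w with b | b
      · exact Or.inl ⟨a, b, SimpleGraph.sum_adj_inl.1 h, rfl⟩
      · simp at h
      · simp at h
      · rcases ((SimpleGraph.fromRel_adj _ _ _).1 (SimpleGraph.sum_adj_inr.1 h)).2 with h | h
        · exact Or.inr (Or.inl ⟨a, b, h, rfl⟩)
        · exact Or.inr (Or.inl ⟨b, a, h, Sym2.eq_swap⟩)
    · exact Or.inr (Or.inr ⟨j, a, w, h, rfl⟩)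
  rcases ((SimpleGraph.fromRel_adj _ _ _).1 h).2 with h | h
  · exact key v w h
  · rw [Sym2.eq_swap]
    exact key w v h

end sparse

section lower
variable {τ : Type} [Fintype τ] [Inhabited τ] {V : Type} [DecidableEq V] {G K : SimpleGraph V}
  {L0 L1 : ℕ} {Good : Term τ → Prop} {x y : V}

omit [Inhabited τ] in
theorem inv_con (hs : Sparse (Gm τ) G (LL (Gm τ) L1)) {a : Bool} (hI : Inv G Good L0 L1 K)
    {B : ℕ → Bl τ G} {z : Bool → V} (h : CopyD (conBP τ a) K x y B z) :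
    Inv G Good L0 L1 (K ⊔ SimpleGraph.edge x y) := by
  have hL := LL_ge (Γ := Gm τ) L1
  have hne : ∀ i i', i < 4 → i' < 4 → i ≠ i' → B i ≠ B i' :=
    fun i i' h1 h2 h3 e => h3 (h.inj i i' h1 h2 e)
  have hanc : ∀ u, u = 0 ∨ u = 2 → Rel (B u) .anc (B (u + 1)) := fun u hu =>
    rel_of_cnt hs hI.ok (hne _ _ (by omega) (by omega) (by omega)) (Or.inl rfl)
      (h.cn u .anc (u + 1) 3999 (show u < 4 by omega) (show u + 1 < 4 by omega) (by omega)
        (by omega) fun i hi => Or.inl ⟨hu, rfl, rfl, hi⟩)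
  have hloc : (∃ u, (conBP τ a).act u ∧ (B u).Base x y) ∨
      ∃ u k u' i, (conBP τ a).act u ∧ (conBP τ a).act u' ∧ u ≠ u' ∧
        (conBP τ a).arc u k u' i ∧ Loc x y (B u) k (B u') := by
    rcases h.loc with h1 | h1 | ⟨u, s, -, h1, -⟩ | ⟨h1, -⟩
    exacts [Or.inl h1, Or.inr h1, h1.elim, h1.elim]
  obtain ⟨u₀, hu₀, hsrc⟩ : ∃ u, u < 4 ∧ Src x y (B u) := by
    rcases hloc with ⟨u, h1, h2⟩ | ⟨u, k, u', i, h1, h2, h3, -, h4⟩
    exacts [⟨u, h1, Or.inl h2⟩, ⟨u, h1, Or.inr ⟨k, _, hne _ _ h1 h2 h3, h4⟩⟩]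
  refine ⟨hI.le.trans le_sup_left, invc_allok hI.ok ?_, fun T hT => ?_⟩
  · rcases hloc with ⟨u, -, h2⟩ | ⟨u, k, u', i, h1, h2, h3, h4, h5⟩
    · exact Or.inl (Or.inl ⟨_, h2⟩)
    · refine invc_loc h5 (hne _ _ h1 h2 h3) ?_ ?_
      · rintro s rfl
        rcases h4 with ⟨-, h6, -⟩ | ⟨-, h6, -⟩ <;> cases h6
      · intro hk
        rcases h4 with ⟨h6, rfl, rfl, -⟩ | ⟨-, rfl, -⟩
        · exact hanc u h6
        · rcases hk with h6 | ⟨c, h6⟩ <;> cases h6
  refine (hI.tok T hT).imp id fun hc => clean_other hc fun w c hr hw => ?_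
  obtain rfl := src_unique hs hL hw hsrc
  have h0 := tag_not_anc hs hL hr hT (hanc 0 (Or.inl rfl))
  have h2 := tag_not_anc hs hL hr hT (hanc 2 (Or.inr rfl))
  interval_cases u₀
  exacts [h0.1 rfl, h0.2 rfl, h2.1 rfl, h2.2 rfl]

omit [Inhabited τ] [DecidableEq V] in
theorem fire_of_hom {W : Type} {H : SimpleGraph W} {β : BP τ ℕ} (ψ : Vx τ ℕ → W)
    (h1 : ∀ a b, β.live a → β.live b → ψ a = ψ b → a = b) (h2 : ∀ a b, β.rel a b → H.Adj (ψ a) (ψ b))
    (f : W ↪ V) (hf : ∀ a b, H.Adj a b → K.Adj (f a) (f b) ∨ s(f a, f b) = s(x, y))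
    {a b : Vx τ ℕ} (hab : β.rel a b) (e : s(f (ψ a), f (ψ b)) = s(x, y)) :
    Fire β (fun a => f (ψ a)) K x y := by
  refine ⟨fun a b ha hb e => h1 a b ha hb (f.injective e), fun a b h => ?_, a, b, hab, e⟩
  rcases hf _ _ (h2 a b h) with h3 | h3
  · exact Or.inl h3
  · exact Or.inr ((SimpleGraph.edge_adj _ _ _ _).2
      ⟨Sym2.eq_iff.1 h3, fun e1 => (h2 a b h).ne (f.injective e1)⟩)

variable {ι : Type} {F : ι → Clause τ} {halt : τ} {Kn : ℕ}

/-- the four blobs around a link -/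
def conMap (z o : Fin Kn) (c : CI ι) (s : Bool) :
    Vx τ ℕ → VH τ ι Kn ⊕ Vx τ (Option (CI ι) × Bool)
  | .inl b => .inr (.inl b)
  | .inr (0, t) => .inr (.inr ((some c, false), t))
  | .inr (1, t) => .inr (.inr ((some c, true), t))
  | .inr (2, t) => cond s (.inr (.inr ((none, false), t))) (.inl (c, .inr (z, t)))
  | .inr (_ + 3, t) => cond s (.inr (.inr ((none, true), t))) (.inl (c, .inr (o, t)))

theorem comp_zero (c : CI ι) : (compBP F halt c).act 0 ∧ (compBP F halt c).act 1 ∧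
    ∀ i < 3999, (compBP F halt c).arc 0 .anc 1 i := by
  have hr1 : 1 ≤ rr (Gm τ) := rr_pos
  rcases c with _ | c
  · exact ⟨show 0 < 3 * rr (Gm τ) by omega, show 1 < 3 * rr (Gm τ) by omega,
      fun i hi => Or.inl ⟨rfl, rfl, rfl, hi⟩⟩
  · exact ⟨show 0 < (F c.1).length + 2 by omega, show 1 < (F c.1).length + 2 by omega,
      fun i hi => Or.inl ⟨rfl, rfl, rfl, hi⟩⟩

omit [Inhabited τ] in
theorem conMap_inj {z o : Fin Kn} (hz : z.1 = 0) (ho : o.1 = 1) (c : CI ι) (s : Bool)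
    (a b : Vx τ ℕ) (ha : (conBP τ s).live a) (hb : (conBP τ s).live b)
    (e : conMap z o c s a = conMap z o c s b) : a = b := by
  have hzo : z ≠ o := fun e => by rw [e] at hz; omega
  rcases a with a | ⟨u, t⟩ <;> rcases b with b | ⟨u', t'⟩
  · simpa [conMap] using e
  · change u' < 4 at hb
    interval_cases u' <;> cases s <;> simp [conMap] at e
  · change u < 4 at ha
    interval_cases u <;> cases s <;> simp [conMap] at e
  · change u < 4 at ha
    change u' < 4 at hb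
    interval_cases u <;> interval_cases u' <;> cases s <;> simp [conMap, hzo, hzo.symm] at e ⊢ <;>
      exact e

theorem conMap_adj {z o : Fin Kn} (hz : z.1 = 0) (ho : o.1 = 1) (c : CI ι) (s : Bool)
    (a b : Vx τ ℕ) (h : (conBP τ s).rel a b) :
    (HC F halt z).Adj (conMap z o c s a) (conMap z o c s b) := by
  obtain ⟨a0, a1, a2⟩ := comp_zero (F := F) (halt := halt) c
  have hP : ∀ (u : Option (CI ι) × Bool) t t', base t t' →
      (HC F halt z).Adj (.inr (.inr (u, t))) (.inr (.inr (u, t'))) := fun u t t' h =>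
    attach_inr _ _ ⟨trivial, trivial, Or.inl ⟨rfl, h⟩⟩
  have hQ : ∀ (j : Option (CI ι)) (i : Fin 4000), (i : ℕ) < 3999 →
      (HC F halt z).Adj (.inr (.inr ((j, false), .inl ((.anc, true), i))))
        (.inr (.inr ((j, true), .inl ((.anc, false), i)))) := fun j i hi =>
    attach_inr _ _ ⟨trivial, trivial, Or.inr ⟨by simp, .anc, i, ⟨rfl, rfl, rfl, rfl, hi⟩, rfl, rfl⟩⟩
  have hH : ∀ (u : Fin Kn) t t', (compBP F halt c).act u → base t t' →
      (HC F halt z).Adj (.inl (c, .inr (u, t))) (.inl (c, .inr (u, t'))) := fun u t t' hu h =>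
    (attach_inl _ _).2 (copy_adj F halt c ⟨hu, hu, Or.inl ⟨rfl, h⟩⟩)
  rcases a with a | ⟨u, t⟩ <;> rcases b with b | ⟨u', t'⟩
  · exact h.1.elim
  · exact h.2.1.elim
  · exact h.elim
  obtain ⟨h1, h2, ⟨h3, h4⟩ | ⟨h3, k, i, h4, h5, h6⟩⟩ := h
  · obtain rfl : u = u' := h3
    change u < 4 at h1
    interval_cases u <;> cases s
    all_goals first
      | exact hP _ _ _ h4
      | exact hH _ _ _ (hz ▸ a0) h4
      | exact hH _ _ _ (ho ▸ a1) h4
  · obtain rfl : t = _ := h5
    obtain rfl : t' = _ := h6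
    rcases h4 with ⟨h7, rfl, h8, h9⟩ | ⟨h7, rfl, h8, h9⟩
    · obtain rfl : u' = u + 1 := h8
      rcases h7 with h7 | h7
      · obtain rfl : u = 0 := h7
        exact hQ _ i h9
      · obtain rfl : u = 2 := h7
        cases s
        · refine (attach_inl _ _).2 (copy_adj F halt c ⟨show (compBP F halt c).act z.1 from hz ▸ a0,
            show (compBP F halt c).act o.1 from ho ▸ a1, Or.inr ⟨?_, .anc, i, ?_, rfl, rfl⟩⟩)
          · show z.1 ≠ o.1
            omega
          · show (compBP F halt c).arc z.1 .anc o.1 i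
            rw [hz, ho]
            exact a2 i h9
        · exact hQ _ i h9
    · obtain rfl : u = 0 := h7
      obtain rfl : u' = 2 := h8
      obtain rfl : i = 0 := Fin.ext h9
      cases s
      · exact attach_lnk _ _ (j := some c) (a := false) rfl (by simp [conMap])
      · exact attach_lnk _ _ (j := some c) (a := true) rfl (by simp [conMap, lend])

theorem fire_HC (hF : ∀ c, (F c).length + 2 ≤ Kn) (hr : 3 * rr (Gm τ) ≤ Kn) {z : Fin Kn}
    (hz : z.1 = 0) (h : (step (HC F halt z) K).Adj x y) (h' : ¬ K.Adj x y) :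
    (∃ c φ, Fire (compBP F halt c) φ K x y) ∨ ∃ s φ, Fire (conBP τ s) φ K x y := by
  have hr1 : 1 ≤ rr (Gm τ) := rr_pos
  obtain ⟨o, ho⟩ : ∃ o : Fin Kn, o.1 = 1 := ⟨⟨1, by omega⟩, rfl⟩
  obtain ⟨hxy, f, ⟨v, w, hvw, e⟩, hf⟩ := h.resolve_left h'
  have key : ∀ v' w', s(v, w) = s(v', w') → s(f v', f w') = s(x, y) := by
    intro v' w' e'
    rw [← e]
    exact (congrArg (Sym2.map f) e').symm
  have fire : ∀ c s a b, (conBP τ s).rel a b → s(v, w) = s(conMap z o c s a, conMap z o c s b) →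
      ∃ s φ, Fire (conBP τ s) φ K x y := fun c s a b h1 h2 =>
    ⟨s, _, fire_of_hom (conMap z o c s) (conMap_inj hz ho c s) (conMap_adj hz ho c s) f hf h1
      (key _ _ h2)⟩
  rcases attach_cases _ _ hvw with ⟨a, b, h1, h2⟩ | ⟨a, b, h1, h2⟩ | ⟨j, a, u, h1, h2⟩
  · refine Or.inl (fire_of_step F halt hF hr (Or.inr ⟨hxy, Function.Embedding.inl.trans f,
      ⟨a, b, h1, key _ _ h2⟩, fun a b h => hf _ _ ((attach_inl _ _).2 h)⟩) h')
  · right
    rcases a with a | ⟨⟨j, s⟩, t⟩ <;> rcases b with b | ⟨⟨j', s'⟩, t'⟩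
    · exact h1.1.elim
    · exact h1.2.1.elim
    · exact h1.elim
    obtain ⟨-, -, ⟨h3, h4⟩ | ⟨h3, k, i, ⟨h4, h5, h6, h7, h8⟩, h9, h10⟩⟩ := h1
    · obtain ⟨rfl, rfl⟩ := Prod.mk.inj h3
      rcases j with _ | c <;> cases s
      · exact fire none true (.inr (2, t)) (.inr (2, t'))
          ⟨show 2 < 4 by omega, show 2 < 4 by omega, Or.inl ⟨rfl, h4⟩⟩ h2
      · exact fire none true (.inr (3, t)) (.inr (3, t'))
          ⟨show 3 < 4 by omega, show 3 < 4 by omega, Or.inl ⟨rfl, h4⟩⟩ h2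
      · exact fire c true (.inr (0, t)) (.inr (0, t'))
          ⟨show 0 < 4 by omega, show 0 < 4 by omega, Or.inl ⟨rfl, h4⟩⟩ h2
      · exact fire c true (.inr (1, t)) (.inr (1, t'))
          ⟨show 1 < 4 by omega, show 1 < 4 by omega, Or.inl ⟨rfl, h4⟩⟩ h2
    · obtain rfl : j = j' := h4
      obtain rfl : s = false := h5
      obtain rfl : s' = true := h7
      rcases j with _ | c
      · exact fire none true (.inr (2, t)) (.inr (3, t')) ⟨show 2 < 4 by omega, show 3 < 4 by omega,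
          Or.inr ⟨by simp, k, i, Or.inl ⟨Or.inr rfl, h6, rfl, h8⟩, h9, h10⟩⟩ h2
      · exact fire c true (.inr (0, t)) (.inr (1, t')) ⟨show 0 < 4 by omega, show 1 < 4 by omega,
          Or.inr ⟨by simp, k, i, Or.inl ⟨Or.inl rfl, h6, rfl, h8⟩, h9, h10⟩⟩ h2
  · right
    rcases j with _ | c
    · cases h1
    · refine fire c a (lend 0 a true) (lend 2 a false) ⟨show 0 < 4 by omega, show 2 < 4 by omega,
        Or.inr ⟨by simp, .lnk a, 0, Or.inr ⟨rfl, rfl, rfl, rfl⟩, rfl, rfl⟩⟩ ?_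
      cases a <;> obtain rfl := Option.some.inj h1 <;> exact h2

end lower

end Pool.Agent.HB
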