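import Pool.Agent.P.HB.Conn1

/-! The two bounds for the graph with connectors. -/

set_option autoImplicit false

open Finset

namespace Pool.Agent.HB

section lower
variable {τ : Type} [Fintype τ] [Inhabited τ] {ι : Type} {F : ι → Clause τ} {halt : τ} {Kn : ℕ}
  {Good : Term τ → Prop}

theorem lowerC_det {V : Type} [Fintype V] [DecidableEq V] {G : SimpleGraph V} {L0 : ℕ}
    (hw : ∀ c, WF (F c)) (hso : ∀ c, Sound Good (F c)) (hG : ∀ l r, ¬ Good (.node halt l r))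
    (hF : ∀ c, (F c).length + 2 ≤ Kn) (hr : 3 * rr (Gm τ) ≤ Kn) {o : Fin Kn} (ho : o.1 = 0)
    (hs : Sparse (Gm τ) G (LL (Gm τ) (L0 + Kn))) (hsm : Small (Gm τ) G (LL (Gm τ) (L0 + Kn)) L0)
    (Rt : Finset V) (h3 : Rt.card = 3) (hpl : ∀ v ∈ Rt, Plain (Gm τ) G v)
    (hna : ∀ u ∈ Rt, ∀ v ∈ Rt, ¬ G.Adj u v) : bootClosure (HC F halt o) G ≠ ⊤ := by
  intro htop
  have hr1 : 1 ≤ rr (Gm τ) := rr_pos
  obtain ⟨K, -, hK⟩ := Finite.exists_le_maximal (p := fun K => Inv G Good L0 (L0 + Kn) K)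
    (lower_inv_self G Good L0 (L0 + Kn))
  have hI : Inv G Good L0 (L0 + Kn) K := hK.prop
  have hst : step (HC F halt o) K ≤ K := by
    intro x y hxy
    by_contra hn
    have hI' : Inv G Good L0 (L0 + Kn) (K ⊔ SimpleGraph.edge x y) := by
      rcases fire_HC hF hr ho hxy hn with ⟨c, φ, hf⟩ | ⟨s, φ, hf⟩
      swap
      · obtain ⟨B, z, hc⟩ := copy_of_fire hs hI.ok (β := conBP τ s) (show 0 < 4 by omega) hf
        exact inv_con hs hI hc
      rcases c with _ | ⟨c, j⟩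
      · have h0 : (finBP halt).act 0 := by
          change 0 < 3 * rr (Gm τ)
          omega
        obtain ⟨B, z, hc⟩ := copy_of_fire hs hI.ok (β := finBP halt) h0 hf
        exact inv_fin hs (by omega) hG hI hc
      · have h0 : (clauseBP (F c) (j : ℕ)).act 0 := by
          change 0 < (F c).length + 2
          omega
        obtain ⟨B, z, hc⟩ := copy_of_fire hs hI.ok (β := clauseBP (F c) (j : ℕ)) h0 hf
        have := hF c
        exact inv_clause hs hsm (hw c) (hso c) (by omega) j.2 hI hc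
    have hle : K ⊔ SimpleGraph.edge x y ≤ K := hK.le_of_ge hI' le_sup_left
    refine hn (hle (Or.inr ?_))
    rw [SimpleGraph.edge_adj]
    exact ⟨Or.inl ⟨rfl, rfl⟩, hxy.ne⟩
  have hle : (⊤ : SimpleGraph V) ≤ K := htop ▸ bootClosure_le _ hst hI.le
  obtain ⟨a, b, c, hab, hac, hbc, rfl⟩ := card_eq_three.1 h3
  have ha : a ∈ ({a, b, c} : Finset V) := by simp
  have hb : b ∈ ({a, b, c} : Finset V) := by simp
  have hc : c ∈ ({a, b, c} : Finset V) := by simp
  exact hbc (fin_match hs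
    (extra_fin hI.ok (hle hab) (hna a ha b hb) (hpl a ha) (hpl b hb))
    (extra_fin hI.ok (hle hac) (hna a ha c hc) (hpl a ha) (hpl c hc)))

theorem lowerC_theta (hw : ∀ c, WF (F c)) (hso : ∀ c, Sound Good (F c))
    (hG : ∀ l r, ¬ Good (.node halt l r)) (hF : ∀ c, (F c).length + 2 ≤ Kn)
    (hr : 3 * rr (Gm τ) ≤ Kn) {o : Fin Kn} (ho : o.1 = 0) {θ : ℝ} (h0 : 0 < θ) (hθ : 2 * (mm (Gm τ) : ℝ) * θ < AA (Gm τ)) :
    ∃ L : ℕ, ∀ (n : ℕ) (G : SimpleGraph (Fin n)) (Rt : Finset (Fin n)), Rt.card = 3 →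
      (∀ X : Finset (Fin n), X.card ≤ L → (eIn G X : ℝ) ≤ θ * (X \ Rt).card) →
        bootClosure (HC F halt o) G ≠ ⊤ := by
  have hm1 : 400000 * sG (Gm τ) ≤ mm (Gm τ) := mm_ge
  have hm2 : 4000 ≤ sG (Gm τ) := sG_ge
  have hA : 100000 * mm (Gm τ) ≤ AA (Gm τ) := AA_ge'
  have hm : (1 : ℝ) ≤ mm (Gm τ) := by
    have : 1 ≤ mm (Gm τ) := by omega
    exact_mod_cast this
  have hd : (0 : ℝ) < AA (Gm τ) - 2 * (mm (Gm τ) : ℝ) * θ := by linarith
  obtain ⟨L0, hL0⟩ := exists_nat_ge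
    (4016 * (mm (Gm τ) : ℝ) * θ / (AA (Gm τ) - 2 * (mm (Gm τ) : ℝ) * θ))
  rw [div_le_iff₀ hd] at hL0
  refine ⟨LL (Gm τ) (L0 + Kn), fun n G Rt h3 h => ?_⟩
  have hL : 5 * mm (Gm τ) ≤ LL (Gm τ) (L0 + Kn) := LL_ge _
  have hec : ∀ X : Finset (Fin n), X.card ≤ LL (Gm τ) (L0 + Kn) →
      (ec G X : ℝ) ≤ 2 * θ * (X \ Rt).card := fun X hX => by
    have := h X hX
    rw [ec_eq_eIn]
    push_cast
    linarith
  have hec' : ∀ X : Finset (Fin n), X.card ≤ LL (Gm τ) (L0 + Kn) →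
      (ec G X : ℝ) ≤ 2 * θ * X.card := fun X hX => by
    refine (hec X hX).trans (mul_le_mul_of_nonneg_left ?_ (by linarith))
    exact_mod_cast card_le_card sdiff_subset
  refine lowerC_det (L0 := L0) hw hso hG hF hr ho (fun X hX => ?_) (fun X hX hp => ?_) Rt h3
    (fun v hv B hB => ?_) (fun u hu v hv huv => ?_)
  · have h1 := mul_le_mul_of_nonneg_left (hec' X hX) (le_trans zero_le_one hm)
    have h2 := mul_nonneg hd.le (Nat.cast_nonneg (α := ℝ) X.card)
    have h4 : (0 : ℝ) ≤ (AA (Gm τ) : ℝ) * X.card - (mm (Gm τ) : ℝ) * ec G X := by nlinarith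
    unfold pot
    exact_mod_cast h4
  · have h1 := hec' X hX
    have h4 : (AA (Gm τ) : ℝ) * X.card - (mm (Gm τ) : ℝ) * ec G X ≤ 2008 * (mm (Gm τ) : ℝ) := by
      unfold pot at hp
      exact_mod_cast hp
    have h5 := mul_le_mul_of_nonneg_left h1 (Nat.cast_nonneg (α := ℝ) (AA (Gm τ)))
    have h6 := mul_le_mul_of_nonneg_left h4 (by linarith : (0 : ℝ) ≤ 2 * θ)
    have h7 : (ec G X : ℝ) * (AA (Gm τ) - 2 * (mm (Gm τ) : ℝ) * θ) ≤
        L0 * (AA (Gm τ) - 2 * (mm (Gm τ) : ℝ) * θ) := by nlinarith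
    exact_mod_cast le_of_mul_le_mul_right h7 hd
  · have hc := B.card_eq
    have h1 := hec B.1 (by omega)
    have h2 : (B.1 \ Rt).card + 1 ≤ mm (Gm τ) := by
      rw [← hc]
      exact card_lt_card ⟨sdiff_subset, fun hsub => (mem_sdiff.1 (hsub hB)).2 hv⟩
    have h2' : ((B.1 \ Rt).card : ℝ) ≤ mm (Gm τ) - 1 := by
      have : ((B.1 \ Rt).card : ℝ) + 1 ≤ mm (Gm τ) := by exact_mod_cast h2
      linarith
    have h4 : (AA (Gm τ) : ℝ) ≤ ec G B.1 + 5002 := by
      have := B.ec_ge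
      have h5 : AA (Gm τ) ≤ ec G B.1 + 5002 := by
        unfold AA
        omega
      exact_mod_cast h5
    have hA' : (100000 : ℝ) * mm (Gm τ) ≤ AA (Gm τ) := by exact_mod_cast hA
    have h5 := mul_le_mul_of_nonneg_left h2' (by linarith : (0 : ℝ) ≤ 2 * θ)
    have h6 : (AA (Gm τ) : ℝ) - 5002 ≤ 2 * θ * (mm (Gm τ) - 1) := by linarith
    have h7 := mul_le_mul_of_nonneg_left h6 (le_trans zero_le_one hm)
    have h8 := mul_le_mul_of_nonneg_right hθ.le (by linarith : (0 : ℝ) ≤ mm (Gm τ) - 1)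
    nlinarith
  · have h1 := hec {u, v} (card_le_two.trans (by omega))
    have h2 : ({u, v} : Finset (Fin n)) \ Rt = ∅ := by
      rw [sdiff_eq_empty_iff_subset]
      intro w hw
      rcases mem_insert.1 hw with rfl | hw
      · exact hu
      · rw [mem_singleton.1 hw]
        exact hv
    have h4 : 1 ≤ ec G {u, v} := cross_pos.2 ⟨u, by simp, v, by simp, huv⟩
    have h5 : (1 : ℝ) ≤ ec G {u, v} := by exact_mod_cast h4
    rw [h2] at h1
    simp only [card_empty, Nat.cast_zero, mul_zero] at h1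
    linarith

end lower

section upper
variable {τ : Type} [Fintype τ] [Inhabited τ] {ι : Type} {F : ι → Clause τ} {halt : τ}
  {Kn : ℕ} {𝒯 : Finset (Term τ)} {V : Type} {G K : SimpleGraph V}

/-- every copy of a component on the witness may fire -/
def FireP (F : ι → Clause τ) (halt : τ) (f : Vx τ (NW τ 𝒯) ⊕ VH τ ι Kn ↪ V)
    (K : SimpleGraph V) : Prop :=
  ∀ (c : CI ι) (ν : ℕ → NW τ 𝒯) (x y : V), (∃ q, ν 0 = (q, .inl false)) → x ≠ y →
    (∀ u u', (compBP F halt c).act u → (compBP F halt c).act u' → ν u = ν u' → u = u') →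
    (∀ u k u' (i : Fin 4000), (compBP F halt c).act u → (compBP F halt c).act u' →
      (compBP F halt c).arc u k u' i → (witBP 𝒯).arc (ν u) k (ν u') i ∨
        (K ⊔ SimpleGraph.edge x y).Adj
          (f (.inl (.inr (ν u, .inl ((k, true), i))))) (f (.inl (.inr (ν u', .inl ((k, false), i)))))) →
    (∀ u, (compBP F halt c).act u → (compBP F halt c).att u → (witBP 𝒯).att (ν u)) →
    ((compBP F halt c).fin → x = f (.inl (.inl false)) ∧ y = f (.inl (.inl true))) →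
    (∃ a b, (compBP F halt c).rel a b ∧ f (.inl (Sum.map id (Prod.map ν id) a)) = x ∧
      f (.inl (Sum.map id (Prod.map ν id) b)) = y) → K.Adj x y

theorem upperC_ok (hw : ∀ c, WF (F c)) (f : Vx τ (NW τ 𝒯) ⊕ VH τ ι Kn ↪ V)
    (hP : FireP F halt f K) (q : Fin (rr (Gm τ))) {t : Term τ} (h : Der F 𝒯 t) :
    ∃ ht : t ∈ 𝒯, ∀ j : Fin 4000, (j : ℕ) < 300 → K.Adj
      (f (.inl (.inr ((q, .inr ⟨t, ht⟩), .inl ((.ok, true), j)))))
      (f (.inl (.inr ((q, .inl false), .inl ((.ok, false), j))))) := by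
  classical
  induction h with
  | step c val fit inj mem _ ih =>
    have l0 := (hw c).pos
    refine ⟨mem 0 l0, fun j hj => ?_⟩
    let ν : ℕ → NW τ 𝒯 := fun u => (q, match u with
      | 0 => .inl false
      | 1 => .inl true
      | i + 2 => if h : val i ∈ 𝒯 then .inr ⟨val i, h⟩ else .inl false)
    have hν : ∀ i (hi : i < (F c).length), ν (i + 2) = (q, .inr ⟨val i, mem i hi⟩) :=
      fun i hi => by simp only [ν, dif_pos (mem i hi)]
    have ν0 : ν 0 = (q, .inl false) := rfl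
    have ν1 : ν 1 = (q, .inl true) := rfl
    have hxy : f (.inl (.inr ((q, .inr ⟨val 0, mem 0 l0⟩), .inl ((.ok, true), j)))) ≠
        f (.inl (.inr ((q, .inl false), .inl ((.ok, false), j)))) := fun e => by
      simpa using f.injective e
    refine hP (some (c, ⟨j, hj⟩)) ν _ _ ⟨q, rfl⟩ hxy (fun u u' hu hu' e => ?_)
      (fun u k u' i hu hu' ha => ?_) (fun _ _ h => h.elim) (fun h => h.elim)
      ⟨.inr (2, .inl ((.ok, true), j)), .inr (0, .inl ((.ok, false), j)),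
        ⟨show 2 < (F c).length + 2 by omega, show 0 < (F c).length + 2 by omega,
          Or.inr ⟨by simp, .ok, j, Or.inr ⟨le_rfl, Or.inr (Or.inr ⟨rfl, rfl, Or.inr ⟨rfl, rfl⟩⟩)⟩,
            rfl, rfl⟩⟩, by rw [← hν 0 l0]; rfl, rfl⟩
    · change u < (F c).length + 2 at hu
      change u' < (F c).length + 2 at hu'
      match u, u' with
      | 0, 0 => rfl
      | 0, 1 => simp [ν0, ν1] at e
      | 0, i + 2 => simp [ν0, hν i (by omega)] at e
      | 1, 0 => simp [ν0, ν1] at e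
      | 1, 1 => rfl
      | 1, i + 2 => simp [ν1, hν i (by omega)] at e
      | i + 2, 0 => simp [ν0, hν i (by omega)] at e
      | i + 2, 1 => simp [ν1, hν i (by omega)] at e
      | i + 2, i' + 2 =>
        rw [hν i (by omega), hν i' (by omega)] at e
        rw [inj i (by omega) i' (by omega) (by simpa using e)]
    · change u < (F c).length + 2 at hu
      change u' < (F c).length + 2 at hu'
      rcases ha with ⟨rfl, rfl, rfl, h1⟩ | ⟨h1, ha⟩
      · exact Or.inl ⟨rfl, Or.inl ⟨rfl, rfl, rfl, h1⟩⟩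
      obtain ⟨n, rfl⟩ : ∃ n, u = n + 2 := ⟨u - 2, by omega⟩
      have hn : n < (F c).length := by omega
      obtain ⟨l, r, e1, e2⟩ := fit n hn
      rw [Nat.add_sub_cancel] at ha
      rw [hν n hn]
      rcases ha with ⟨rfl, rfl, h2⟩ | ⟨p, a, h2, rfl, rfl, h3⟩ | ⟨rfl, rfl, ⟨h2, h3⟩ | ⟨h2, h3⟩⟩
      · exact Or.inl ⟨rfl, Or.inr ⟨_, _, l, r, rfl, e1, Or.inl ⟨rfl, rfl, h2⟩⟩⟩
      · obtain ⟨rfl, rfl⟩ := e2 p h2
        have e3 : (val n).kidT a = nodeOf .nil val (sel p a) := by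
          rw [e1]; cases a <;> rfl
        refine Or.inl ⟨rfl, Or.inr ⟨_, _, _, _, rfl, e1, Or.inr ⟨a, rfl, h3, ?_⟩⟩⟩
        unfold nodeOf at e3 hu' ⊢
        by_cases h0 : sel p a = 0
        · rw [if_pos h0] at e3 ⊢
          exact Or.inl ⟨e3, rfl⟩
        · rw [if_neg h0] at e3 hu' ⊢
          have h4 : sel p a < (F c).length := Nat.lt_of_add_lt_add_right hu'
          obtain ⟨l', r', e4, -⟩ := fit _ h4
          exact Or.inr ⟨⟨_, mem _ h4⟩, by simp [e4], e3, by rw [hν _ h4]⟩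
      · exact Or.inr (Or.inl ((ih n hn h2).2 i h3))
      · obtain rfl : n = 0 := by omega
        obtain rfl : i = j := Fin.ext h3
        exact Or.inr (Or.inr ((SimpleGraph.edge_adj _ _ _ _).2 ⟨Or.inl ⟨rfl, rfl⟩, hxy⟩))

theorem upperC_fin (hw : ∀ c, WF (F c)) (h : Der F 𝒯 (.node halt .nil .nil))
    (f : Vx τ (NW τ 𝒯) ⊕ VH τ ι Kn ↪ V) (hP : FireP F halt f K) :
    K.Adj (f (.inl (.inl false))) (f (.inl (.inl true))) := by
  have r0 : 0 < rr (Gm τ) := rr_pos
  obtain ⟨ht, -⟩ := upperC_ok hw f hP ⟨0, r0⟩ h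
  let ν : ℕ → NW τ 𝒯 := fun u => (⟨u / 3 % rr (Gm τ), Nat.mod_lt _ r0⟩,
    if u % 3 = 0 then .inl false else if u % 3 = 1 then .inl true else .inr ⟨_, ht⟩)
  have hm : ∀ u < 3 * rr (Gm τ), u / 3 % rr (Gm τ) = u / 3 := fun u hu => Nat.mod_eq_of_lt (by omega)
  refine hP none ν _ _ ⟨_, rfl⟩ (fun e => by simpa using f.injective e)
    (fun u u' hu hu' e => ?_) (fun u k u' i hu hu' ha => ?_) (fun u _ h => if_pos h)
    (fun _ => ⟨rfl, rfl⟩) ⟨.inl false, .inl true, ⟨trivial, rfl, rfl⟩, rfl, rfl⟩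
  · have e1 : u / 3 % rr (Gm τ) = u' / 3 % rr (Gm τ) := congrArg (fun p => p.1.1) e
    have e2 := congrArg Prod.snd e
    rw [hm u hu, hm u' hu'] at e1
    simp only [ν] at e2
    split_ifs at e2 <;> first | omega | simp at e2
  · rcases ha with ⟨h1, rfl, rfl, h2⟩ | ⟨h1, rfl, ha⟩
    · refine Or.inl ⟨Fin.ext (show u / 3 % _ = (u + 1) / 3 % _ by congr 1; omega),
        Or.inl ⟨if_pos h1, rfl, ?_, h2⟩⟩
      simp only [ν]
      rw [if_neg (by omega), if_pos (by omega)]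
    · have e1 : (ν (u' + 2)).1 = (ν u').1 :=
        Fin.ext (show (u' + 2) / 3 % _ = u' / 3 % _ by congr 1; omega)
      have e2 : (ν (u' + 2)).2 = .inr ⟨_, ht⟩ := by
        simp only [ν]
        rw [if_neg (by omega), if_neg (by omega)]
      have e3 : (ν u').2 = .inl false := if_pos (by omega)
      rcases ha with ⟨rfl, h2⟩ | ⟨rfl, h2⟩
      · exact Or.inl ⟨e1, Or.inr ⟨_, _, _, _, e2, rfl, Or.inl ⟨rfl, e3, h2⟩⟩⟩
      · obtain ⟨_, h3⟩ := upperC_ok hw f hP (ν u').1 h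
        rw [show ν (u' + 2) = ((ν u').1, .inr ⟨_, ht⟩) from Prod.ext e1 e2,
          show ν u' = ((ν u').1, .inl false) from Prod.ext rfl e3]
        exact Or.inr (Or.inl (h3 i h2))

theorem emb_of_fire (F : ι → Clause τ) (halt : τ) {Kn : ℕ}
    (hF : ∀ c, (F c).length + 2 ≤ Kn) (hr : 3 * rr (Gm τ) ≤ Kn) (f : VH τ ι Kn ↪ V)
    (hf : Emb (HG F halt Kn) K f) {c : Option (ι × Fin 300)} {φ : Vx τ ℕ → V} {x y : V}
    (h : Fire (compBP F halt c) φ K x y) (hd : ∀ a w, (compBP F halt c).live a → φ a ≠ f w) :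
    ∃ g : VH τ ι Kn ↪ V,
      (∀ w, w.1 = c ∧ (compBP F halt c).live (copyLift w.2) → g w = φ (copyLift w.2)) ∧
      (∀ w, ¬ (w.1 = c ∧ (compBP F halt c).live (copyLift w.2)) → g w = f w) ∧
      (∃ a b, (HG F halt Kn).Adj a b ∧ s(g a, g b) = s(x, y)) ∧
      ∀ a b, (HG F halt Kn).Adj a b → K.Adj (g a) (g b) ∨ s(g a, g b) = s(x, y) := by
  classical
  have hact := copy_act_lt F halt hF hr c
  obtain ⟨g, hg1, hg2⟩ : ∃ g : VH τ ι Kn → V,
      (∀ w, w.1 = c ∧ (compBP F halt c).live (copyLift w.2) → g w = φ (copyLift w.2)) ∧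
      ∀ w, ¬ (w.1 = c ∧ (compBP F halt c).live (copyLift w.2)) → g w = f w :=
    ⟨fun w => if w.1 = c ∧ (compBP F halt c).live (copyLift w.2) then φ (copyLift w.2) else f w,
      fun w hw => if_pos hw, fun w hw => if_neg hw⟩
  have hg : Function.Injective g := by
    intro v w e
    by_cases hv : v.1 = c ∧ (compBP F halt c).live (copyLift v.2) <;>
      by_cases hw : w.1 = c ∧ (compBP F halt c).live (copyLift w.2)
    · rw [hg1 v hv, hg1 w hw] at e
      exact Prod.ext (hv.1.trans hw.1.symm) (copyLift_inj (h.inj _ _ hv.2 hw.2 e))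
    · rw [hg1 v hv, hg2 w hw] at e
      exact absurd e (hd _ _ hv.2)
    · rw [hg2 v hv, hg1 w hw] at e
      exact absurd e.symm (hd _ _ hw.2)
    · rw [hg2 v hv, hg2 w hw] at e
      exact f.injective e
  have hone : ∀ v w : VH τ ι Kn, (HG F halt Kn).Adj v w → v.1 = w.1 →
      ((compBP F halt v.1).comap Fin.val).rel v.2 w.2 →
      K.Adj (g v) (g w) ∨ s(g v, g w) = s(x, y) := by
    intro v w hadj h1 h2
    by_cases hc : v.1 = c
    · rw [hc] at h2
      have h3 := (copy_rel_lift _ _ _).1 h2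
      rw [hg1 v ⟨hc, (copy_live h3).1⟩, hg1 w ⟨h1.symm.trans hc, (copy_live h3).2⟩]
      rcases h.hom _ _ h3 with h4 | h4
      · exact Or.inl h4
      · exact Or.inr (Sym2.eq_iff.2 ((SimpleGraph.edge_adj _ _ _ _).1 h4).1)
    · rw [hg2 v fun e => hc e.1, hg2 w fun e => hc (h1.trans e.1)]
      exact Or.inl (hf _ _ hadj)
  refine ⟨⟨g, hg⟩, hg1, hg2, ?_, ?_⟩
  · obtain ⟨a, b, hab, e⟩ := h.use
    obtain ⟨a, rfl⟩ := copy_exists_lift hact (copy_live hab).1
    obtain ⟨b, rfl⟩ := copy_exists_lift hact (copy_live hab).2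
    refine ⟨(c, a), (c, b), copy_adj F halt c hab, ?_⟩
    show s(g (c, a), g (c, b)) = s(x, y)
    rw [hg1 (c, a) ⟨rfl, (copy_live hab).1⟩, hg1 (c, b) ⟨rfl, (copy_live hab).2⟩]
    exact e
  · intro v w hadj
    rcases ((SimpleGraph.fromRel_adj _ _ _).1 hadj).2 with ⟨h1, h2⟩ | ⟨h1, h2⟩
    · exact hone v w hadj h1 h2
    · rcases hone w v hadj.symm h1 h2 with h3 | h3
      · exact Or.inl h3.symm
      · exact Or.inr (Sym2.eq_swap.trans h3)

omit [Inhabited τ] in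
theorem attach_step {V0 J : Type} (G0 : SimpleGraph V0)
    (tgt : J → Bool → Option (V0 ⊕ Vx τ (J × Bool))) (g : V0 ↪ V) (p : Vx τ (J × Bool) ↪ V)
    (hd : ∀ a b, g a ≠ p b) {x y : V} (hxy : x ≠ y)
    (h1 : ∃ a b, G0.Adj a b ∧ s(g a, g b) = s(x, y))
    (h2 : ∀ a b, G0.Adj a b → K.Adj (g a) (g b) ∨ s(g a, g b) = s(x, y))
    (h3 : ∀ a b, (pairBP τ J).rel a b → K.Adj (p a) (p b))
    (h4 : ∀ j a w, tgt j a = some w → K.Adj (p (lend (j, false) a true)) (Sum.elim g p w)) :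
    (step (Attach G0 tgt) K).Adj x y := by
  have hinj : Function.Injective (Sum.elim g p) := g.injective.sumElim p.injective hd
  have key : ∀ v w v' w', s(v, w) = s(v', w') →
      K.Adj (Sum.elim g p v') (Sum.elim g p w') ∨
        s(Sum.elim g p v', Sum.elim g p w') = s(x, y) →
      K.Adj (Sum.elim g p v) (Sum.elim g p w) ∨ s(Sum.elim g p v, Sum.elim g p w) = s(x, y) := by
    intro v w v' w' e h
    rcases Sym2.eq_iff.1 e with ⟨rfl, rfl⟩ | ⟨rfl, rfl⟩
    · exact h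
    · exact h.imp (fun h => h.symm) fun h => Sym2.eq_swap.trans h
  obtain ⟨a, b, hab, e⟩ := h1
  refine Or.inr ⟨hxy, ⟨_, hinj⟩, ⟨.inl a, .inl b, (attach_inl _ _).2 hab, e⟩, fun v w h => ?_⟩
  rcases attach_cases _ _ h with ⟨a, b, h5, h6⟩ | ⟨a, b, h5, h6⟩ | ⟨j, a, u, h5, h6⟩
  · exact key _ _ _ _ h6 (h2 a b h5)
  · exact key _ _ _ _ h6 (Or.inl (h3 a b h5))
  · exact key _ _ _ _ h6 (Or.inl (h4 j a u h5))

theorem fireP_HC [Fintype ι] (hF : ∀ c, (F c).length + 2 ≤ Kn) (hr : 3 * rr (Gm τ) ≤ Kn)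
    {o : Fin Kn} (ho : o.1 = 0) (f' : (Vx τ (NW τ 𝒯) ⊕ VH τ ι Kn) ⊕
      Vx τ ((Option (CI ι) ⊕ Fin (rr (Gm τ))) × Bool) ↪ V) (hf : Emb (WC F halt o 𝒯) G f') :
    FireP F halt (Function.Embedding.inl.trans f') (bootClosure (HC F halt o) G) := by
  classical
  rintro c ν x y ⟨q, hq⟩ hxy hinj harc hatt hfin huse
  have hG : ∀ a b, (WC F halt o 𝒯).Adj a b → (bootClosure (HC F halt o) G).Adj (f' a) (f' b) :=
    fun a b h => le_bootClosure _ _ (hf a b h)
  generalize hK : bootClosure (HC F halt o) G = K at hG harc ⊢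
  obtain ⟨f, hff⟩ : ∃ f : Vx τ (NW τ 𝒯) ⊕ VH τ ι Kn ↪ V, f = Function.Embedding.inl.trans f' :=
    ⟨_, rfl⟩
  have hf1 : ∀ a, f a = f' (.inl a) := fun a => by rw [hff]; rfl
  rw [← hff] at harc hfin huse
  have hwit : ∀ {a b : Vx τ (NW τ 𝒯)}, (witBP 𝒯).rel a b → K.Adj (f (.inl a)) (f (.inl b)) := by
    intro a b h
    rw [hf1, hf1]
    exact hG _ _ ((attach_inl _ _).2 (SimpleGraph.sum_adj_inl.2
      ((SimpleGraph.fromRel_adj _ _ _).2 ⟨copy_ne h, Or.inl h⟩)))
  have hfire : Fire (compBP F halt c) (fun a => f (.inl (Sum.map id (Prod.map ν id) a))) K x y := by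
    refine ⟨fun a b ha hb e => ?_, fun a b h => ?_, ?_⟩
    · have e' := Sum.inl_injective (f.injective e)
      rcases a with s | ⟨u, t⟩ <;> rcases b with s' | ⟨u', t'⟩
      · simpa using e'
      · simp at e'
      · simp at e'
      · obtain ⟨e1, rfl⟩ : ν u = ν u' ∧ t = t' := by simpa using e'
        rw [hinj u u' ha hb e1]
    · rcases a with s | ⟨u, t⟩ <;> rcases b with s' | ⟨u', t'⟩
      · obtain ⟨h1, rfl, rfl⟩ := h
        obtain ⟨rfl, rfl⟩ := hfin h1
        exact Or.inr ((SimpleGraph.edge_adj _ _ _ _).2 ⟨Or.inl ⟨rfl, rfl⟩, hxy⟩)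
      · exact Or.inl (hwit (a := .inl s) (b := .inr (ν u', t')) ⟨trivial, hatt u' h.1 h.2.1, h.2.2⟩)
      · exact h.elim
      · obtain ⟨h1, h2, ⟨h3, h4⟩ | ⟨h3, k, i, h4, h5, h6⟩⟩ := h
        · exact Or.inl (hwit (a := .inr (ν u, t)) (b := .inr (ν u', t'))
            ⟨trivial, trivial, Or.inl ⟨congrArg ν h3, h4⟩⟩)
        · obtain rfl : t = _ := h5
          obtain rfl : t' = _ := h6
          rcases harc u k u' i h1 h2 h4 with h7 | h7
          · exact Or.inl (hwit (a := .inr (ν u, _)) (b := .inr (ν u', _))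
              ⟨trivial, trivial, Or.inr ⟨fun e => h3 (hinj u u' h1 h2 e), k, i, h7, rfl, rfl⟩⟩)
          · exact h7
    · obtain ⟨a, b, h, rfl, rfl⟩ := huse
      exact ⟨a, b, h, rfl⟩
  obtain ⟨g, hg1, hg2, hg3, hg4⟩ := emb_of_fire F halt hF hr (Function.Embedding.inr.trans f)
    (fun a b h => by
      show K.Adj (f (.inr a)) (f (.inr b))
      rw [hf1, hf1]
      exact hG _ _ ((attach_inl _ _).2 (SimpleGraph.sum_adj_inr.2 h))) hfire
    (fun a w _ e => by simpa using f.injective e)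
  let ρ : Option (CI ι) → Option (CI ι) ⊕ Fin (rr (Gm τ)) :=
    fun j => if j = some c then .inr q else .inl j
  have hρ : Function.Injective ρ := by
    intro j j' e
    simp only [ρ] at e
    split_ifs at e with h1 h2 h2
    · rw [h1, h2]
    · exact Sum.inl_injective e
  have ρ0 : ρ none = .inl none := if_neg (by simp)
  have ρ1 : ρ (some c) = .inr q := if_pos rfl
  have ρ2 : ∀ c', c' ≠ c → ρ (some c') = .inl (some c') := fun c' h => if_neg (by simpa using h)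
  let σ : Vx τ (Option (CI ι) × Bool) → Vx τ ((Option (CI ι) ⊕ Fin (rr (Gm τ))) × Bool) :=
    Sum.map id (Prod.map (Prod.map ρ id) id)
  have hσ : Function.Injective σ := Function.injective_id.sumMap
    ((hρ.prodMap Function.injective_id).prodMap Function.injective_id)
  have hK' : step (HC F halt o) K ≤ K := hK ▸ step_bootClosure _ _
  refine hK' (attach_step _ _ g ⟨fun b => f' (.inr (σ b)),
    f'.injective.comp (Sum.inr_injective.comp hσ)⟩ (fun a b e => ?_) hxy hg3 hg4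
    (fun a b h => hG _ _ (attach_inr _ _ ?_)) fun j a w h => ?_)
  · by_cases h : a.1 = c ∧ (compBP F halt c).live (copyLift a.2)
    · rw [hg1 a h, hf1] at e
      simpa using f'.injective e
    · rw [hg2 a h] at e
      have e' : f (.inr a) = f' (.inr (σ b)) := e
      rw [hf1] at e'
      simpa using f'.injective e'
  · rcases a with a | ⟨⟨j, s⟩, t⟩ <;> rcases b with b | ⟨⟨j', s'⟩, t'⟩
    · exact h.1.elim
    · exact h.2.1.elim
    · exact h.elim
    obtain ⟨-, -, ⟨h3, h4⟩ | ⟨h3, k, i, ⟨h4, h5⟩, h9⟩⟩ := h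
    · obtain ⟨rfl, rfl⟩ := Prod.mk.inj h3
      exact ⟨trivial, trivial, Or.inl ⟨rfl, h4⟩⟩
    · obtain rfl : j = j' := h4
      exact ⟨trivial, trivial, Or.inr ⟨fun e => h3 (Prod.ext rfl (Prod.mk.inj e).2), k, i,
        ⟨rfl, h5⟩, h9⟩⟩
  · rcases j with _ | c'
    · cases h
    cases a
    · obtain rfl := Option.some.inj h
      show K.Adj (f' (.inr (lend (ρ (some c'), false) false true))) (g (c', lend o false false))
      by_cases hc : c' = c
      · subst hc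
        have h1 : (compBP F halt c').live (copyLift (lend o false false : Vx τ (Fin Kn))) :=
          show (compBP F halt c').act o.1 from ho ▸ (comp_zero c').1
        rw [ρ1, hg1 _ ⟨rfl, h1⟩]
        show K.Adj _ (f (.inl (lend (ν o.1) false false)))
        rw [ho, hq, hf1]
        exact hG _ _ (attach_lnk _ _ rfl (by simp))
      · rw [ρ2 c' hc, hg2 _ fun h => hc h.1]
        show K.Adj _ (f (.inr (c', lend o false false)))
        rw [hf1]
        exact hG _ _ (attach_lnk _ _ rfl (by simp))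
    · obtain rfl := Option.some.inj h
      show K.Adj (f' (.inr (lend (ρ (some c'), false) true true)))
        (f' (.inr (lend (ρ none, false) true false)))
      rw [ρ0]
      by_cases hc : c' = c
      · rw [hc, ρ1]
        exact hG _ _ (attach_lnk _ _ rfl (by simp [lend]))
      · rw [ρ2 c' hc]
        exact hG _ _ (attach_lnk _ _ rfl (by simp [lend]))

theorem sparse_WC [Fintype ι] (hw : ∀ c, WF (F c)) (halt : τ) (o : Fin Kn) (𝒯 : Finset (Term τ))
    [DecidableEq ((Vx τ (NW τ 𝒯) ⊕ VH τ ι Kn) ⊕ Vx τ ((Option (CI ι) ⊕ Fin (rr (Gm τ))) × Bool))]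
    (S : Finset ((Vx τ (NW τ 𝒯) ⊕ VH τ ι Kn) ⊕ Vx τ ((Option (CI ι) ⊕ Fin (rr (Gm τ))) × Bool)))
    (hS : S.Nonempty) (hd : Disjoint S {.inl (.inl (.inl false)), .inl (.inl (.inl true))}) :
    mm (Gm τ) * ec (WC F halt o 𝒯) (S ∪ {.inl (.inl (.inl false)), .inl (.inl (.inl true))}) <
      AA (Gm τ) * S.card := by
  classical
  have h1 := attach_ec (WG F halt Kn 𝒯) (tgtW (ι := ι) o 𝒯)
    (S ∪ {.inl (.inl (.inl false)), .inl (.inl (.inl true))})
  have e1 : (S ∪ {.inl (.inl (.inl false)), .inl (.inl (.inl true))}).toRight = S.toRight := by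
    ext v
    simp
  have e2 : (S ∪ {.inl (.inl (.inl false)), .inl (.inl (.inl true))}).toLeft =
      S.toLeft ∪ {.inl (.inl false), .inl (.inl true)} := by
    ext v
    simp only [mem_toLeft, mem_union, mem_insert, mem_singleton, Sum.inl.injEq]
  have hsum := card_toLeft_add_card_toRight (u := S)
  rw [e1, e2] at h1
  rw [← hsum, mul_add]
  unfold WC
  rcases S.toLeft.eq_empty_or_nonempty with he | hne
  · have h2 : ec (WG F halt Kn 𝒯) (S.toLeft ∪ {.inl (.inl false), .inl (.inl true)}) = 0 := by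
      by_contra hc
      obtain ⟨u, hu, v, hv, h⟩ := cross_pos.1 (Nat.one_le_iff_ne_zero.2 hc)
      simp only [he, empty_union, mem_insert, mem_singleton] at hu hv
      rcases hu with rfl | rfl <;> rcases hv with rfl | rfl
      exacts [h.ne rfl, roots_not_adj halt Kn 𝒯 h, roots_not_adj halt Kn 𝒯 h.symm, h.ne rfl]
    have h3 := hS.card_pos
    rw [he, card_empty] at hsum
    rw [h2] at h1
    omega
  · have h2 := sparse_W hw halt Kn 𝒯 S.toLeft hne (by
      rw [disjoint_left]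
      intro v hv hv'
      refine disjoint_left.1 hd (mem_toLeft.1 hv) ?_
      simpa only [mem_insert, mem_singleton, Sum.inl.injEq] using hv')
    omega

end upper

end Pool.Agent.HB
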