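import Pool.Agent.P.HB.G1

section FileCore

/-! All internal definitions of the project. -/

open Finset

namespace Pool.Agent.HB

section count
variable {V : Type}

open Classical in
/-- ordered adjacent pairs between two sets -/
noncomputable def cross (G : SimpleGraph V) (X Y : Finset V) : ℕ :=
  ((X ×ˢ Y).filter fun p => G.Adj p.1 p.2).card

/-- twice the number of edges inside a set -/
noncomputable def ec (G : SimpleGraph V) (X : Finset V) : ℕ := cross G X X

end count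

section template
variable (Γ : Type) [Fintype Γ]

/-- number of group vertices of the template -/
def sG : ℕ := Fintype.card Γ * 4000

/-- vertices of the template -/
abbrev Tm : Type := (Γ × Fin 4000) ⊕ Fin (100 * sG Γ ^ 2)

/-- number of vertices of the template -/
def mm : ℕ := sG Γ + 100 * sG Γ ^ 2

variable {Γ}

/-- rank of a template vertex -/
noncomputable def hbRk : Tm Γ → ℕ
  | .inl p => (Fintype.equivFin Γ p.1 : ℕ) + 1
  | .inr _ => 0

/-- edges of the template -/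
def base (t t' : Tm Γ) : Prop := t ≠ t' ∧ hbRk t + hbRk t' ≤ Fintype.card Γ

open Classical in
/-- number of non-neighbours in the template -/
noncomputable def nd (t : Tm Γ) : ℕ := (univ.filter fun t' => t' ≠ t ∧ ¬ base t t').card

variable (Γ)

/-- the template graph -/
def TG : SimpleGraph (Tm Γ) where
  Adj := base
  symm := ⟨fun _ _ h => ⟨h.1.symm, by rw [add_comm]; exact h.2⟩⟩
  loopless := ⟨fun _ h => h.1 rfl⟩

noncomputable def E2 : ℕ := ec (TG Γ) univ

noncomputable def AA : ℕ := E2 Γ + 5000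

noncomputable def rr : ℕ := (AA Γ - mm Γ - 1) / (99 * mm Γ)

/-- the potential -/
noncomputable def pot {V : Type} (G : SimpleGraph V) (X : Finset V) : ℤ :=
  (AA Γ : ℤ) * X.card - (mm Γ : ℤ) * ec G X

def Sparse {V : Type} (G : SimpleGraph V) (L : ℕ) : Prop :=
  ∀ X : Finset V, X.card ≤ L → 0 ≤ pot Γ G X

def Small {V : Type} (G : SimpleGraph V) (L L0 : ℕ) : Prop :=
  ∀ X : Finset V, X.card ≤ L → pot Γ G X ≤ 2008 * (mm Γ : ℤ) → ec G X ≤ L0

/-- size bound for all sets to which sparsity is applied -/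
noncomputable def LL (L1 : ℕ) : ℕ := (mm Γ + 2) * (2 + rr Γ * L1 * mm Γ + mm Γ)

end template

section blob
variable {Γ : Type} [Fintype Γ] {V : Type} [DecidableEq V]

/-- a copy of the template with at most one edge missing -/
def NearB (G : SimpleGraph V) (φ : Tm Γ → V) : Prop :=
  Function.Injective φ ∧ ∃ x y, ∀ t t', base t t' → (G ⊔ SimpleGraph.edge x y).Adj (φ t) (φ t')

def Blob (Γ : Type) [Fintype Γ] (G : SimpleGraph V) : Type :=
  {B : Finset V // ∃ φ : Tm Γ → V, NearB G φ ∧ B = univ.image φ}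

variable {G : SimpleGraph V}

noncomputable instance : DecidableEq (Blob Γ G) := Classical.decEq _

noncomputable def Blob.emb (B : Blob Γ G) : Tm Γ → V := B.2.choose

/-- a group of a blob -/
noncomputable def Blob.gs (B : Blob Γ G) (g : Γ) : Finset V :=
  univ.image fun i : Fin 4000 => B.emb (.inl (g, i))

def Blob.Base (B : Blob Γ G) (u v : V) : Prop :=
  ∃ t t', base t t' ∧ B.emb t = u ∧ B.emb t' = v

/-- an embedding of the template that agrees with the structure of the blob -/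
def Fits (B : Blob Γ G) (φ : Tm Γ → V) : Prop :=
  (∀ t, φ t ∈ B.1) ∧ (∀ g i, φ (.inl (g, i)) ∈ B.gs g) ∧
    (∀ t t', base t t' → B.Base (φ t) (φ t')) ∧
      ∀ u v, B.Base u v → ∃ t t', base t t' ∧ φ t = u ∧ φ t' = v

def UU (𝓑 : Finset (Blob Γ G)) : Finset V := 𝓑.biUnion fun B => B.1

def Plain (Γ : Type) [Fintype Γ] (G : SimpleGraph V) (v : V) : Prop := ∀ B : Blob Γ G, v ∉ B.1

end blob

inductive Kind (τ : Type) : Type
  | tag (c : τ)
  | lnk (a : Bool)
  | ok
  | anc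
  | att (s : Bool)

instance {τ : Type} [Finite τ] : Finite (Kind τ) := by
  refine Finite.of_surjective (α := τ ⊕ Bool ⊕ Bool ⊕ Bool) (fun x => match x with
    | .inl c => .tag c
    | .inr (.inl a) => .lnk a
    | .inr (.inr (.inl s)) => .att s
    | .inr (.inr (.inr false)) => .ok
    | .inr (.inr (.inr true)) => .anc) ?_
  rintro (c | a | _ | _ | s)
  exacts [⟨.inl c, rfl⟩, ⟨.inr (.inl a), rfl⟩, ⟨.inr (.inr (.inr false)), rfl⟩,
    ⟨.inr (.inr (.inr true)), rfl⟩, ⟨.inr (.inr (.inl s)), rfl⟩]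

noncomputable instance {τ : Type} [Fintype τ] : Fintype (Kind τ) := Fintype.ofFinite _

instance {τ : Type} : Inhabited (Kind τ) := ⟨.ok⟩

def Kind.sz {τ : Type} : Kind τ → ℕ
  | .tag _ => 2300
  | .lnk _ => 100
  | .ok => 300
  | .anc => 3999
  | .att _ => 500

/-- groups: a kind and a side (`true` = source, `false` = target) -/
abbrev Gm (τ : Type) : Type := Kind τ × Bool

inductive Term (τ : Type) : Type
  | nil
  | node (c : τ) (l r : Term τ)

/-- a clause: for each node its tag, its children (index `0` = `nil`) and the premise flag -/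
abbrev Clause (τ : Type) : Type := List (τ × Option (ℕ × ℕ) × Bool)

section horn
variable {τ : Type} [Inhabited τ]

def Clause.tg (cl : Clause τ) (i : ℕ) : τ := (cl.getD i default).1
def Clause.kid (cl : Clause τ) (i : ℕ) : Option (ℕ × ℕ) := (cl.getD i default).2.1
def Clause.ok (cl : Clause τ) (i : ℕ) : Bool := (cl.getD i default).2.2

def sel (p : ℕ × ℕ) (a : Bool) : ℕ := cond a p.2 p.1

/-- shape conditions shared by clauses and by the premise of the final rule -/
structure PreWF (cl : Clause τ) : Prop where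
  leaf : ∀ i < cl.length, cl.kid i = none → cl.ok i = true
  kids : ∀ i < cl.length, ∀ p, cl.kid i = some p → ∀ a,
    sel p a = 0 ∨ (i < sel p a ∧ sel p a < cl.length)

structure WF (cl : Clause τ) : Prop extends PreWF cl where
  pos : 0 < cl.length
  ok0 : cl.ok 0 = false
  par : ∀ i < cl.length, 0 < i → cl.ok i = false →
    ∃ i' < i, ∃ p a, cl.kid i' = some p ∧ sel p a = i
  few : ((range cl.length).filter fun i => cl.ok i = true).card ≤ 3

/-- index `0` denotes the special element -/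
def nodeOf {α : Type} (z : α) (u : ℕ → α) (j : ℕ) : α := if j = 0 then z else u j

def Fit (cl : Clause τ) (val : ℕ → Term τ) : Prop :=
  ∀ i < cl.length, ∃ l r, val i = .node (cl.tg i) l r ∧
    ∀ p, cl.kid i = some p → l = nodeOf .nil val p.1 ∧ r = nodeOf .nil val p.2

def Sound (Good : Term τ → Prop) (cl : Clause τ) : Prop :=
  ∀ val, Fit cl val → (∀ i < cl.length, cl.ok i = true → Good (val i)) → Good (val 0)

/-- derivations inside a finite set of terms by injective instances -/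
inductive Der {ι : Type} (F : ι → Clause τ) (𝒯 : Finset (Term τ)) : Term τ → Prop
  | step (c : ι) (val : ℕ → Term τ) : Fit (F c) val →
      (∀ i < (F c).length, ∀ j < (F c).length, val i = val j → i = j) →
      (∀ i < (F c).length, val i ∈ 𝒯) →
      (∀ i < (F c).length, (F c).ok i = true → Der F 𝒯 (val i)) → Der F 𝒯 (val 0)

end horn

section static
variable {τ : Type} [Fintype τ] {V : Type} [DecidableEq V] {G : SimpleGraph V}

abbrev Bl (τ : Type) [Fintype τ] (G : SimpleGraph V) : Type := Blob (Gm τ) G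

/-- edges of `K` in a group pair -/
noncomputable def cnt (K : SimpleGraph V) (u : Bl τ G) (k : Kind τ) (u' : Bl τ G) : ℕ :=
  cross K (u.gs (k, true)) (u'.gs (k, false))

def Rel (u : Bl τ G) (k : Kind τ) (u' : Bl τ G) : Prop := u ≠ u' ∧ k.sz ≤ cnt G u k u' + 1

def Tok (T : Bl τ G) : Prop := ∃ T', Rel T .anc T'

def Own (B T : Bl τ G) : Prop := B = T ∨ Rel T .anc B ∨ ∃ c, Rel B (.tag c) T

def Dirty (L1 : ℕ) (T : Bl τ G) : Prop :=
  Tok T ∧ ∃ 𝓑 : Finset (Bl τ G), T ∈ 𝓑 ∧ (∀ B ∈ 𝓑, Own B T) ∧ 𝓑.card ≤ L1 ∧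
    pot (Gm τ) G (UU 𝓑) ≤ 1810 * (mm (Gm τ) : ℤ)

def Att (x : V) (s : Bool) (T : Bl τ G) : Prop :=
  x ∉ T.1 ∧ 500 ≤ cross G {x} (T.gs (.att s, false)) + 1

def FinP (τ : Type) [Fintype τ] (G : SimpleGraph V) (L1 : ℕ) (x y : V) : Prop :=
  x ≠ y ∧ ∃ 𝓣 : Finset (Bl τ G), 𝓣.card = rr (Gm τ) ∧
    ∀ T ∈ 𝓣, Dirty L1 T ∧ Att x false T ∧ Att y true T

def FinS (τ : Type) [Fintype τ] (G : SimpleGraph V) (L1 : ℕ) (x y : V) : Prop :=
  FinP τ G L1 x y ∨ FinP τ G L1 y x

def End (τ : Type) [Fintype τ] (G : SimpleGraph V) (L1 : ℕ) (x : V) : Prop := ∃ y, FinS τ G L1 x y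

def OK1 (τ : Type) [Fintype τ] (G : SimpleGraph V) (L1 : ℕ) (u v : V) : Prop :=
  (∃ B : Bl τ G, B.Base u v) ∨
  (∃ (B : Bl τ G) (k : Kind τ) (B' : Bl τ G), B ≠ B' ∧ u ∈ B.gs (k, true) ∧ v ∈ B'.gs (k, false) ∧
    (∀ s, k ≠ .att s) ∧ ((k = .anc ∨ ∃ c, k = .tag c) → Rel B k B')) ∨
  (∃ (s : Bool) (T : Bl τ G), End τ G L1 u ∧ Att u s T ∧ v ∈ T.gs (.att s, false)) ∨
  FinP τ G L1 u v

/-- all edges of `K` outside `G` are admissible -/
def AllOK (τ : Type) [Fintype τ] (G : SimpleGraph V) (L1 : ℕ) (K : SimpleGraph V) : Prop :=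
  ∀ u v, K.Adj u v → ¬ G.Adj u v → OK1 τ G L1 u v ∨ OK1 τ G L1 v u

/-- the counted edges with source `u`, apart from the `ok` edges -/
noncomputable def cost (K : SimpleGraph V) (T u : Bl τ G) (c : τ) (ch : Bool → Bl τ G) : ℕ :=
  ec K u.1 + 2 * (cnt K u (.tag c) T + cnt K u (.lnk false) (ch false) +
    cnt K u (.lnk true) (ch true))

structure CleanD (Good : Term τ → Prop) (L0 : ℕ) (K : SimpleGraph V) (T : Bl τ G)
    (𝓤 : Finset (Bl τ G)) (tg : Bl τ G → τ) (ch : Bl τ G → Bool → Bl τ G)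
    (val : Bl τ G → Term τ) : Prop where
  nil : val T = .nil
  card : 𝓤.card ≤ L0
  tag : ∀ u ∈ 𝓤, Rel u (.tag (tg u)) T
  chm : ∀ u ∈ 𝓤, ∀ a, (ch u a ∈ 𝓤 ∨ ch u a = T) ∧ ch u a ≠ u
  val_eq : ∀ u ∈ 𝓤, val u = .node (tg u) (val (ch u false)) (val (ch u true))
  bas : ∀ u c, Rel u (.tag c) T → ∀ x y, K.Adj x y → ¬ G.Adj x y → u.Base x y → u ∈ 𝓤
  src : ∀ u c, Rel u (.tag c) T → ∀ x y, K.Adj x y → ¬ G.Adj x y → ∀ k u', u ≠ u' →
    x ∈ u.gs (k, true) → y ∈ Blob.gs u' (k, false) →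
      u ∈ 𝓤 ∧ (∀ a, k = .lnk a → u' = ch u a) ∧ (k = .ok → Good (val u))
  sum : 𝓤.card * AA (Gm τ) ≤ ∑ u ∈ 𝓤, (cost G T u (tg u) (ch u) + 2 * min 1 (cnt G u .ok T))

def Clean (Good : Term τ → Prop) (L0 : ℕ) (K : SimpleGraph V) (T : Bl τ G) : Prop :=
  ∃ 𝓤 tg ch val, CleanD Good L0 K T 𝓤 tg ch val

structure Inv (G : SimpleGraph V) (Good : Term τ → Prop) (L0 L1 : ℕ) (K : SimpleGraph V) :
    Prop where
  le : G ≤ K
  ok : AllOK τ G L1 K
  tok : ∀ T : Bl τ G, Tok T → Dirty L1 T ∨ Clean Good L0 K T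

/-- the part of a copy that belongs to one token -/
structure PartD [Inhabited τ] (cl : Clause τ) (K' : SimpleGraph V) (T : Bl τ G)
    (u : ℕ → Bl τ G) : Prop where
  tok : Tok T
  inj : ∀ i < cl.length, ∀ j < cl.length, u i = u j → i = j
  tag : ∀ i < cl.length, Rel (u i) (.tag (cl.tg i)) T
  bas : ∀ i < cl.length, ∀ x y, (u i).Base x y → K'.Adj x y
  ctag : ∀ i < cl.length, 2300 ≤ cnt K' (u i) (.tag (cl.tg i)) T
  clnk : ∀ i < cl.length, ∀ p, cl.kid i = some p → ∀ a,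
    100 ≤ cnt K' (u i) (.lnk a) (nodeOf T u (sel p a))
  cok : ∀ i < cl.length, cl.ok i = true → 300 ≤ cnt K' (u i) .ok T

/-- the edge `x y` lies in a group pair -/
def Loc (x y : V) (u : Bl τ G) (k : Kind τ) (u' : Bl τ G) : Prop :=
  (x ∈ u.gs (k, true) ∧ y ∈ u'.gs (k, false)) ∨ (y ∈ u.gs (k, true) ∧ x ∈ u'.gs (k, false))

/-- the blob `u` is the source of the edge `x y` -/
def Src (x y : V) (u : Bl τ G) : Prop := u.Base x y ∨ ∃ k u', u ≠ u' ∧ Loc x y u k u'

/-- twice the number of edges of `K` with source `u` and target in `𝓒` -/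
noncomputable def out (K : SimpleGraph V) (𝓒 : Finset (Bl τ G)) (u : Bl τ G) : ℕ :=
  ec K u.1 + 2 * ∑ d ∈ (univ : Finset (Kind τ)) ×ˢ 𝓒.erase u, cnt K u d.1 d.2

end static

section graphs
variable {τ : Type} [Fintype τ]

/-- blueprint of a graph made of blobs, bundles and two plain vertices -/
structure BP (τ N : Type) : Type where
  act : N → Prop
  arc : N → Kind τ → N → ℕ → Prop
  att : N → Prop
  fin : Prop

abbrev Vx (τ N : Type) [Fintype τ] : Type := Bool ⊕ N × Tm (Gm τ)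

def BP.rel {N : Type} (β : BP τ N) : Vx τ N → Vx τ N → Prop
  | .inr p, .inr p' => β.act p.1 ∧ β.act p'.1 ∧ ((p.1 = p'.1 ∧ base p.2 p'.2) ∨
      (p.1 ≠ p'.1 ∧ ∃ k, ∃ i : Fin 4000, β.arc p.1 k p'.1 i ∧ p.2 = .inl ((k, true), i) ∧
        p'.2 = .inl ((k, false), i)))
  | .inl s, .inr p => β.act p.1 ∧ β.att p.1 ∧
      ∃ i : Fin 4000, (i : ℕ) < 500 ∧ p.2 = .inl ((.att s, false), i)
  | .inl s, .inl s' => β.fin ∧ s = false ∧ s' = true
  | .inr _, .inl _ => False

def BP.live {N : Type} (β : BP τ N) : Vx τ N → Prop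
  | .inl _ => True
  | .inr p => β.act p.1

def BP.graph {N : Type} (β : BP τ N) : SimpleGraph (Vx τ N) := SimpleGraph.fromRel β.rel

omit [Fintype τ] in
def BP.comap {N N' : Type} (β : BP τ N) (f : N' → N) : BP τ N' where
  act u := β.act (f u)
  arc u k u' i := β.arc (f u) k (f u') i
  att u := β.att (f u)
  fin := β.fin

/-- nodes: `0` token, `1` anchor, `i + 2` node `i` of the clause -/
def clauseBP [Inhabited τ] (cl : Clause τ) (j : ℕ) : BP τ ℕ where
  act u := u < cl.length + 2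
  arc u k u' i := (u = 0 ∧ k = .anc ∧ u' = 1 ∧ i < 3999) ∨ (2 ≤ u ∧
    ((k = .tag (cl.tg (u - 2)) ∧ u' = 0 ∧ i < 2300) ∨
     (∃ p a, cl.kid (u - 2) = some p ∧ k = .lnk a ∧ u' = nodeOf 0 (· + 2) (sel p a) ∧ i < 100) ∨
     (k = .ok ∧ u' = 0 ∧ ((cl.ok (u - 2) = true ∧ i < 300) ∨ (u = 2 ∧ i = j)))))
  att _ := False
  fin := False

/-- nodes: `3q` token, `3q+1` anchor, `3q+2` halting entity -/
def finBP (halt : τ) : BP τ ℕ where
  act u := u < 3 * rr (Gm τ)
  arc u k u' i := (u % 3 = 0 ∧ k = .anc ∧ u' = u + 1 ∧ i < 3999) ∨ (u % 3 = 2 ∧ u' + 2 = u ∧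
    ((k = .tag halt ∧ i < 2300) ∨ (k = .ok ∧ i < 300)))
  att u := u % 3 = 0
  fin := True

def compBP [Inhabited τ] {ι : Type} (F : ι → Clause τ) (halt : τ) :
    Option (ι × Fin 300) → BP τ ℕ
  | none => finBP halt
  | some c => clauseBP (F c.1) c.2

abbrev VH (τ ι : Type) [Fintype τ] (K : ℕ) : Type := Option (ι × Fin 300) × Vx τ (Fin K)

/-- the graph `H` -/
def HG [Inhabited τ] {ι : Type} (F : ι → Clause τ) (halt : τ) (K : ℕ) : SimpleGraph (VH τ ι K) :=
  SimpleGraph.fromRel fun a b => a.1 = b.1 ∧ ((compBP F halt a.1).comap Fin.val).rel a.2 b.2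

omit [Fintype τ] in
def Term.kidT : Term τ → Bool → Term τ
  | .nil, _ => .nil
  | .node _ l r, a => cond a r l

/-- nodes of the honest witness: for each of the tokens, the token (`false`), the anchor (`true`)
and one blob per term -/
abbrev NW (τ : Type) [Fintype τ] (𝒯 : Finset (Term τ)) : Type := Fin (rr (Gm τ)) × (Bool ⊕ 𝒯)

def witBP (𝒯 : Finset (Term τ)) : BP τ (NW τ 𝒯) where
  act _ := True
  arc u k u' i := u.1 = u'.1 ∧
    ((u.2 = .inl false ∧ k = .anc ∧ u'.2 = .inl true ∧ i < 3999) ∨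
     ∃ (t : 𝒯) (c : τ) (l r : Term τ), u.2 = .inr t ∧ t.1 = .node c l r ∧
      ((k = .tag c ∧ u'.2 = .inl false ∧ i < 2300) ∨
       ∃ a, k = .lnk a ∧ i < 100 ∧ ((t.1.kidT a = .nil ∧ u'.2 = .inl false) ∨
        ∃ t' : 𝒯, t'.1 ≠ .nil ∧ t.1.kidT a = t'.1 ∧ u'.2 = .inr t')))
  att u := u.2 = .inl false
  fin := False

/-- the honest witness together with a private copy of `H` -/
def WG [Inhabited τ] {ι : Type} (F : ι → Clause τ) (halt : τ) (K : ℕ) (𝒯 : Finset (Term τ)) :
    SimpleGraph (Vx τ (NW τ 𝒯) ⊕ VH τ ι K) := (witBP 𝒯).graph ⊕g HG F halt K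

/-- a copy of a component in `K` plus the edge `x y` that uses this edge -/
structure Fire {V : Type} (β : BP τ ℕ) (φ : Vx τ ℕ → V) (K : SimpleGraph V) (x y : V) : Prop where
  inj : ∀ a b, β.live a → β.live b → φ a = φ b → a = b
  hom : ∀ a b, β.rel a b → (K ⊔ SimpleGraph.edge x y).Adj (φ a) (φ b)
  use : ∃ a b, β.rel a b ∧ s(φ a, φ b) = s(x, y)

/-- what a copy looks like in terms of blobs -/
structure CopyD {V : Type} [DecidableEq V] {G : SimpleGraph V} (β : BP τ ℕ) (K : SimpleGraph V)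
    (x y : V) (B : ℕ → Bl τ G) (z : Bool → V) : Prop where
  inj : ∀ u u', β.act u → β.act u' → B u = B u' → u = u'
  zne : z false ≠ z true
  bas : ∀ u, β.act u → ∀ a b, (B u).Base a b → (K ⊔ SimpleGraph.edge x y).Adj a b
  cn : ∀ u k u' n, β.act u → β.act u' → u ≠ u' → n ≤ 4000 → (∀ i < n, β.arc u k u' i) →
    n ≤ cnt (K ⊔ SimpleGraph.edge x y) (B u) k (B u')
  c1 : ∀ u k u' i, β.act u → β.act u' → u ≠ u' → i < 4000 → β.arc u k u' i →
    1 ≤ cnt (K ⊔ SimpleGraph.edge x y) (B u) k (B u')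
  att : ∀ u s, β.act u → β.att u → z s ∉ (B u).1 ∧
    500 ≤ cross (K ⊔ SimpleGraph.edge x y) {z s} ((B u).gs (.att s, false))
  loc : (∃ u, β.act u ∧ (B u).Base x y) ∨
    (∃ u k u' i, β.act u ∧ β.act u' ∧ u ≠ u' ∧ β.arc u k u' i ∧ Loc x y (B u) k (B u')) ∨
    (∃ u s, β.act u ∧ β.att u ∧ ((x = z s ∧ y ∈ (B u).gs (.att s, false)) ∨
      (y = z s ∧ x ∈ (B u).gs (.att s, false)))) ∨
    (β.fin ∧ ((x = z false ∧ y = z true) ∨ (y = z false ∧ x = z true)))

open Classical in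
/-- active nodes met by a vertex set -/
noncomputable def BP.met {N : Type} [Fintype N] (β : BP τ N) (S : Finset (Vx τ N)) : Finset N :=
  univ.filter fun u => β.act u ∧ ∃ t, Sum.inr (u, t) ∈ S

open Classical in
/-- number of bundle edges among a set of nodes -/
noncomputable def BP.na {N : Type} (β : BP τ N) (M : Finset N) : ℕ :=
  ∑ u ∈ M, ∑ u' ∈ M, ∑ k : Kind τ, (univ.filter fun i : Fin 4000 => β.arc u k u' i).card

open Classical in
noncomputable def BP.nt {N : Type} (β : BP τ N) (M : Finset N) : ℕ := (M.filter β.att).card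

open Classical in
/-- number of plain vertices in a set -/
noncomputable def pl {N : Type} (S : Finset (Vx τ N)) : ℕ :=
  (univ.filter fun s : Bool => Sum.inl s ∈ S).card

open Classical in
/-- number of vertices of inactive nodes in a set -/
noncomputable def BP.junk {N : Type} (β : BP τ N) (S : Finset (Vx τ N)) : ℕ :=
  (S.filter fun v => ¬ β.live v).card

end graphs

end Pool.Agent.HB

end FileCore

section FileCnt

/-! Counting adjacent pairs. -/

open Finset

namespace Pool.Agent.HB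

variable {V : Type} {G G' : SimpleGraph V} {X Y X' Y' : Finset V}

open Classical in
theorem cross_eq_ite (G : SimpleGraph V) (X Y : Finset V) :
    cross G X Y = ∑ u ∈ X, ∑ v ∈ Y, if G.Adj u v then 1 else 0 := by
  rw [cross, card_filter, sum_product]

open Classical in
theorem cross_def (G : SimpleGraph V) (X Y : Finset V) :
    cross G X Y = ((X ×ˢ Y).filter fun p => G.Adj p.1 p.2).card := rfl

open Classical in
theorem mem_cr {p : V × V} :
    p ∈ (X ×ˢ Y).filter (fun p => G.Adj p.1 p.2) ↔ p.1 ∈ X ∧ p.2 ∈ Y ∧ G.Adj p.1 p.2 := by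
  rw [mem_filter, mem_product, and_assoc]

theorem cross_comm (G : SimpleGraph V) (X Y : Finset V) : cross G X Y = cross G Y X := by
  rw [cross_eq_ite, cross_eq_ite, sum_comm]
  refine sum_congr rfl fun u _ => sum_congr rfl fun v _ => ?_
  rw [G.adj_comm]

theorem cross_mono' (h : ∀ u ∈ X, ∀ v ∈ Y, G.Adj u v → G'.Adj u v) :
    cross G X Y ≤ cross G' X Y := by
  refine card_le_card fun p hp => ?_
  obtain ⟨h1, h2, h3⟩ := mem_cr.1 hp
  exact mem_cr.2 ⟨h1, h2, h _ h1 _ h2 h3⟩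

theorem cross_mono (hG : G ≤ G') (hX : X ⊆ X') (hY : Y ⊆ Y') :
    cross G X Y ≤ cross G' X' Y' := by
  refine card_le_card fun p hp => ?_
  obtain ⟨h1, h2, h3⟩ := mem_cr.1 hp
  exact mem_cr.2 ⟨hX h1, hY h2, hG h3⟩

theorem ec_mono (hG : G ≤ G') (hX : X ⊆ X') : ec G X ≤ ec G' X' := cross_mono hG hX hX

theorem cross_empty (G : SimpleGraph V) (Y : Finset V) : cross G ∅ Y = 0 := by
  rw [cross_eq_ite, sum_empty]

theorem cross_le (G : SimpleGraph V) (X Y : Finset V) : cross G X Y ≤ X.card * Y.card := by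
  rw [← card_product]
  exact card_le_card fun p hp => mem_product.2 ⟨(mem_cr.1 hp).1, (mem_cr.1 hp).2.1⟩

theorem ec_le (G : SimpleGraph V) (X : Finset V) : ec G X ≤ X.card * (X.card - 1) := by
  rw [Nat.mul_sub_one, ← offDiag_card]
  refine card_le_card fun p hp => ?_
  obtain ⟨h1, h2, h3⟩ := mem_cr.1 hp
  exact mem_offDiag.2 ⟨h1, h2, h3.ne⟩

theorem cross_eq_sum (G : SimpleGraph V) (X Y : Finset V) :
    cross G X Y = ∑ u ∈ X, cross G {u} Y := by
  simp only [cross_eq_ite, sum_singleton]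

open Classical in
theorem cross_single (G : SimpleGraph V) (u : V) (Y : Finset V) :
    cross G {u} Y = (Y.filter fun v => G.Adj u v).card := by
  rw [cross_eq_ite, sum_singleton, card_filter]

theorem cross_pos : 1 ≤ cross G X Y ↔ ∃ u ∈ X, ∃ v ∈ Y, G.Adj u v := by
  refine card_pos.trans ⟨fun ⟨p, hp⟩ => ?_, fun ⟨u, hu, v, hv, h⟩ => ⟨(u, v), ?_⟩⟩
  · obtain ⟨h1, h2, h3⟩ := mem_cr.1 hp
    exact ⟨_, h1, _, h2, h3⟩
  · exact mem_cr.2 ⟨hu, hv, h⟩

/-- a family of different adjacent pairs -/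
theorem le_cross {ι : Type} (I : Finset ι) (f g : ι → V)
    (hinj : ∀ i ∈ I, ∀ j ∈ I, f i = f j → g i = g j → i = j)
    (h : ∀ i ∈ I, f i ∈ X ∧ g i ∈ Y ∧ G.Adj (f i) (g i)) : I.card ≤ cross G X Y := by
  refine card_le_card_of_injOn (fun i => (f i, g i)) (fun i hi => ?_) fun i hi j hj e => ?_
  · exact mem_coe.2 (mem_cr.2 (h i hi))
  · exact hinj i hi j hj (congrArg Prod.fst e) (congrArg Prod.snd e)

theorem cross_sup_le (G G' : SimpleGraph V) (X Y : Finset V) :
    cross (G ⊔ G') X Y ≤ cross G X Y + cross G' X Y := by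
  simp only [cross_eq_ite, ← sum_add_distrib]
  refine sum_le_sum fun u _ => sum_le_sum fun v _ => ?_
  by_cases h1 : G.Adj u v <;> by_cases h2 : G'.Adj u v <;> simp [h1, h2]

theorem cnt_edge {x y u v : V} (h : (SimpleGraph.edge x y).Adj u v) :
    (u, v) = (x, y) ∨ (u, v) = (y, x) := by
  rcases ((SimpleGraph.edge_adj x y u v).1 h).1 with ⟨rfl, rfl⟩ | ⟨rfl, rfl⟩
  exacts [Or.inl rfl, Or.inr rfl]

theorem cross_edge_le_two (x y : V) (X Y : Finset V) :
    cross (SimpleGraph.edge x y) X Y ≤ 2 := by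
  classical
  refine le_trans (card_le_card (t := {(x, y), (y, x)}) fun p hp => ?_) card_le_two
  exact mem_insert.2 ((cnt_edge (mem_cr.1 hp).2.2).imp id mem_singleton.2)

theorem cross_edge_le (x y : V) (h : Disjoint X Y) : cross (SimpleGraph.edge x y) X Y ≤ 1 := by
  refine card_le_one.2 fun p hp p' hp' => ?_
  obtain ⟨a1, a2, h2⟩ := mem_cr.1 hp
  obtain ⟨a3, a4, h4⟩ := mem_cr.1 hp'
  rcases cnt_edge h2 with e | e <;> rcases cnt_edge h4 with e' | e'
  · exact e.trans e'.symm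
  · have e1 : p.1 = p'.2 := (congrArg Prod.fst e).trans (congrArg Prod.snd e').symm
    exact absurd (e1 ▸ a4) (disjoint_left.1 h a1)
  · have e1 : p.1 = p'.2 := (congrArg Prod.fst e).trans (congrArg Prod.snd e').symm
    exact absurd (e1 ▸ a4) (disjoint_left.1 h a1)
  · exact e.trans e'.symm

theorem ec_eq_eIn (G : SimpleGraph V) (X : Finset V) : ec G X = 2 * eIn G X := by
  classical
  let P : Finset (V × V) := (X ×ˢ X).filter fun p => G.Adj p.1 p.2
  let E : Finset (Sym2 V) := P.image fun p => s(p.1, p.2)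
  have h1 : eIn G X = E.card := by
    rw [eIn, ← Set.ncard_coe_finset]
    congr 1
    ext e
    induction e using Sym2.ind with
    | _ u v =>
      simp only [Set.mem_setOf_eq, SimpleGraph.mem_edgeSet, mem_coe, E, P, mem_image, mem_filter,
        mem_product]
      refine ⟨fun h => ⟨(u, v), ⟨⟨h.2 u (Sym2.mem_mk_left u v), h.2 v (Sym2.mem_mk_right u v)⟩,
        h.1⟩, rfl⟩, fun ⟨p, ⟨⟨a, b⟩, c⟩, e⟩ => ?_⟩
      rcases Sym2.eq_iff.1 e with ⟨rfl, rfl⟩ | ⟨rfl, rfl⟩
      · refine ⟨c, fun w hw => ?_⟩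
        rcases Sym2.mem_iff.1 hw with rfl | rfl
        exacts [a, b]
      · refine ⟨c.symm, fun w hw => ?_⟩
        rcases Sym2.mem_iff.1 hw with rfl | rfl
        exacts [b, a]
  have h2 : ec G X = P.card := by
    rw [ec, cross_eq_ite, card_filter, sum_product]
  rw [h1, h2, card_eq_sum_card_image (fun p : V × V => s(p.1, p.2)) P, mul_comm, ← smul_eq_mul,
    ← sum_const]
  refine sum_congr rfl fun e he => ?_
  obtain ⟨⟨u, v⟩, hp, rfl⟩ := mem_image.1 he
  obtain ⟨a, c⟩ := mem_filter.1 hp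
  obtain ⟨a, b⟩ := mem_product.1 a
  have hne : (u, v) ≠ (v, u) := fun e => c.ne (congrArg Prod.fst e)
  rw [← card_pair hne]
  congr 1
  ext ⟨x, y⟩
  rw [mem_filter, mem_insert, mem_singleton]
  constructor
  · rintro ⟨-, e⟩
    rcases Sym2.eq_iff.1 e with ⟨rfl, rfl⟩ | ⟨rfl, rfl⟩
    exacts [Or.inl rfl, Or.inr rfl]
  · rintro (e | e)
    · cases e
      exact ⟨hp, rfl⟩
    · cases e
      exact ⟨mem_filter.2 ⟨mem_product.2 ⟨b, a⟩, c.symm⟩, Sym2.eq_swap⟩

theorem cross_map {W : Type} (φ : W ↪ V) (G : SimpleGraph V) (S S' : Finset W) :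
    cross G (S.map φ) (S'.map φ) = cross (G.comap φ) S S' := by
  simp only [cross_eq_ite, sum_map]
  rfl

variable [DecidableEq V]

theorem cross_image {W : Type} {φ : W → V} (hφ : Function.Injective φ) (G : SimpleGraph V)
    (S S' : Finset W) : cross G (S.image φ) (S'.image φ) = cross (G.comap φ) S S' := by
  have h := cross_map ⟨φ, hφ⟩ G S S'
  rwa [map_eq_image, map_eq_image] at h

theorem cross_union_left (G : SimpleGraph V) (Y : Finset V) (h : Disjoint X X') :
    cross G (X ∪ X') Y = cross G X Y + cross G X' Y := by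
  simp only [cross_eq_ite, sum_union h]

theorem cross_union_right (G : SimpleGraph V) (X : Finset V) (h : Disjoint Y Y') :
    cross G X (Y ∪ Y') = cross G X Y + cross G X Y' := by
  rw [cross_comm, cross_union_left G X h, cross_comm G Y, cross_comm G Y']

theorem cross_biUnion_left {ι : Type} (G : SimpleGraph V) (I : Finset ι) (f : ι → Finset V)
    (h : ∀ i ∈ I, ∀ j ∈ I, i ≠ j → Disjoint (f i) (f j)) (Y : Finset V) :
    cross G (I.biUnion f) Y = ∑ i ∈ I, cross G (f i) Y := by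
  simp only [cross_eq_ite]
  exact sum_biUnion fun i hi j hj hij => h i hi j hj hij

theorem cross_biUnion_right {ι : Type} (G : SimpleGraph V) (I : Finset ι) (f : ι → Finset V)
    (h : ∀ i ∈ I, ∀ j ∈ I, i ≠ j → Disjoint (f i) (f j)) (X : Finset V) :
    cross G X (I.biUnion f) = ∑ i ∈ I, cross G X (f i) := by
  rw [cross_comm, cross_biUnion_left G I f h]
  exact sum_congr rfl fun i _ => cross_comm _ _ _

theorem ec_union (G : SimpleGraph V) (h : Disjoint X Y) :
    ec G (X ∪ Y) = ec G X + ec G Y + 2 * cross G X Y := by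
  rw [ec, ec, ec, cross_union_left G _ h, cross_union_right G _ h, cross_union_right G _ h,
    cross_comm G Y X]
  ring

theorem ec_submod (G : SimpleGraph V) (X Y : Finset V) :
    ec G X + ec G Y ≤ ec G (X ∪ Y) + ec G (X ∩ Y) := by
  have h1 : X ∪ Y = X ∪ Y \ X := union_sdiff_self_eq_union.symm
  have h2 : Y = X ∩ Y ∪ Y \ X := by rw [inter_comm, union_comm, sdiff_union_inter]
  have h3 := ec_union G (X := X) (Y := Y \ X) disjoint_sdiff
  have h4 := ec_union G (X := X ∩ Y) (Y := Y \ X) (disjoint_sdiff.mono_left inter_subset_left)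
  have h5 : cross G (X ∩ Y) (Y \ X) ≤ cross G X (Y \ X) :=
    cross_mono le_rfl inter_subset_left Subset.rfl
  rw [← h1] at h3
  rw [← h2] at h4
  omega

variable (Γ : Type) [Fintype Γ]

omit [DecidableEq V] in
theorem pot_empty (G : SimpleGraph V) : pot Γ G ∅ = 0 := by
  simp [pot, ec, cross_empty]

omit [DecidableEq V] in
theorem pot_single (G : SimpleGraph V) (v : V) : pot Γ G {v} = AA Γ := by
  have h : ec G {v} = 0 := by
    have := ec_le G {v}
    rw [card_singleton] at this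
    omega
  simp [pot, h]

omit [DecidableEq V] in
theorem pot_anti (h : G ≤ G') (X : Finset V) : pot Γ G' X ≤ pot Γ G X := by
  have h1 : (ec G X : ℤ) ≤ ec G' X := by exact_mod_cast ec_mono h Subset.rfl
  exact sub_le_sub_left (mul_le_mul_of_nonneg_left h1 (Nat.cast_nonneg _)) _

theorem pot_union (G : SimpleGraph V) (h : Disjoint X Y) :
    pot Γ G (X ∪ Y) = pot Γ G X + pot Γ G Y - 2 * (mm Γ : ℤ) * cross G X Y := by
  rw [pot, pot, pot, ec_union G h, card_union_of_disjoint h]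
  push_cast
  ring

theorem pot_submod (G : SimpleGraph V) (X Y : Finset V) :
    pot Γ G (X ∪ Y) + pot Γ G (X ∩ Y) ≤ pot Γ G X + pot Γ G Y := by
  have h1 : ((ec G X : ℤ) + ec G Y) ≤ ec G (X ∪ Y) + ec G (X ∩ Y) := by
    exact_mod_cast ec_submod G X Y
  have h2 : (((X ∪ Y).card : ℤ) + (X ∩ Y).card) = X.card + Y.card := by
    exact_mod_cast card_union_add_card_inter X Y
  have h3 := mul_le_mul_of_nonneg_left h1 (Nat.cast_nonneg (mm Γ))
  have h4 := congrArg (fun z => (AA Γ : ℤ) * z) h2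
  unfold pot
  linarith

/-- subadditivity in a sparse graph -/
theorem pot_biUnion_le {ι : Type} {L : ℕ} (hs : Sparse Γ G L) (I : Finset ι) (f : ι → Finset V)
    (h : ∀ i ∈ I, (f i).card ≤ L) : pot Γ G (I.biUnion f) ≤ ∑ i ∈ I, pot Γ G (f i) := by
  classical
  induction I using Finset.induction_on with
  | empty => rw [biUnion_empty, sum_empty, pot_empty]
  | insert i I hi ih =>
    rw [biUnion_insert, sum_insert hi]
    have h1 := pot_submod Γ G (f i) (I.biUnion f)
    have h2 := hs (f i ∩ I.biUnion f)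
      ((card_le_card inter_subset_left).trans (h i (mem_insert_self _ _)))
    have h3 := ih fun j hj => h j (mem_insert_of_mem hj)
    linarith

end Pool.Agent.HB

end FileCnt

section FileTmL

/-! Numerical facts about the template. -/

open Finset

namespace Pool.Agent.HB

variable {Γ : Type} [Fintype Γ]

theorem card_Tm : Fintype.card (Tm Γ) = mm Γ := by
  have := Fintype.card_sum (α := Γ × Fin 4000) (β := Fin (100 * sG Γ ^ 2))
  rw [Fintype.card_prod, Fintype.card_fin, Fintype.card_fin] at this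
  exact this

theorem rk_le (t : Tm Γ) : hbRk t ≤ Fintype.card Γ := by
  rcases t with p | p
  · exact (Fintype.equivFin Γ p.1).2
  · exact Nat.zero_le _

theorem rk_eq {g : Γ} {i : Fin 4000} {t : Tm Γ} (h : hbRk t = hbRk (.inl (g, i) : Tm Γ)) :
    ∃ j, t = .inl (g, j) := by
  rcases t with ⟨g', j⟩ | p
  · simp only [hbRk, add_left_inj] at h
    obtain rfl : g' = g := (Fintype.equivFin Γ).injective (Fin.ext h)
    exact ⟨j, rfl⟩
  · simp [hbRk] at h

theorem card_big (r : ℕ) (hr : r ≤ Fintype.card Γ) :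
    (univ.filter fun t' : Tm Γ => Fintype.card Γ < r + hbRk t').card = 4000 * r := by
  have h1 : (univ.filter fun j : Fin (Fintype.card Γ) => Fintype.card Γ - r ≤ j).card = r := by
    rw [← card_map Fin.valEmbedding]
    have : (univ.filter fun j : Fin (Fintype.card Γ) => Fintype.card Γ - r ≤ j).map
        Fin.valEmbedding = Ico (Fintype.card Γ - r) (Fintype.card Γ) := by
      ext x
      simp only [mem_map, mem_filter, mem_univ, true_and, Fin.valEmbedding_apply, mem_Ico]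
      exact ⟨by rintro ⟨j, hj, rfl⟩; exact ⟨hj, j.2⟩, fun h => ⟨⟨x, h.2⟩, h.1, rfl⟩⟩
    rw [this, Nat.card_Ico]
    omega
  have h2 : ((univ.filter fun j : Fin (Fintype.card Γ) => Fintype.card Γ - r ≤ j) ×ˢ
      (univ : Finset (Fin 4000))).card = 4000 * r := by
    rw [card_product, h1, card_univ, Fintype.card_fin, mul_comm]
  refine Eq.trans (Eq.symm ?_) h2
  clear h1 h2
  refine card_bij (fun p _ => Sum.inl ((Fintype.equivFin Γ).symm p.1, p.2)) ?_ ?_ ?_
  · rintro ⟨j, i⟩ h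
    simp only [mem_product, mem_filter, mem_univ, true_and, and_true] at h
    rw [mem_filter]
    simp only [mem_univ, true_and, hbRk, Equiv.apply_symm_apply]
    omega
  · rintro ⟨j, i⟩ _ ⟨j', i'⟩ _ h
    simpa using h
  · rintro (⟨g, i⟩ | p) h
    · rw [mem_filter] at h
      simp only [mem_univ, true_and, hbRk] at h
      refine ⟨(Fintype.equivFin Γ g, i), ?_, by simp⟩
      simp only [mem_product, mem_filter, mem_univ, true_and, and_true]
      omega
    · rw [mem_filter] at h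
      simp only [mem_univ, true_and, hbRk] at h
      omega

open Classical in
theorem nd_eq (t : Tm Γ) :
    nd t = ((univ.filter fun t' : Tm Γ => Fintype.card Γ < hbRk t + hbRk t').erase t).card := by
  unfold nd
  congr 1
  ext t'
  simp only [base, mem_filter, mem_univ, true_and, mem_erase, not_and, not_le]
  exact and_congr_right fun h => ⟨fun h' => h' h.symm, fun h' _ => h'⟩

theorem nd_le (t : Tm Γ) : nd t ≤ 4000 * hbRk t := by
  rw [nd_eq, ← card_big _ (rk_le t)]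
  convert card_erase_le

theorem card_le_erase_any {α : Type} {i : DecidableEq α} (s : Finset α) (a : α) :
    s.card ≤ (@Finset.erase α i s a).card + 1 :=
  Nat.sub_le_iff_le_add.1 pred_card_le_card_erase

theorem le_nd (t : Tm Γ) : 4000 * hbRk t ≤ nd t + 1 := by
  rw [nd_eq, ← card_big _ (rk_le t)]
  exact card_le_erase_any _ _

theorem nd_le_sG (t : Tm Γ) : nd t ≤ sG Γ :=
  (nd_le t).trans (by rw [sG, mul_comm]; exact Nat.mul_le_mul_right _ (rk_le t))

/-- only group vertices have non-neighbours -/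
theorem sum_nd_le : ∑ t : Tm Γ, nd t ≤ sG Γ ^ 2 := by
  rw [Fintype.sum_sum_type]
  have h1 : ∑ p : Fin (100 * sG Γ ^ 2), nd (Sum.inr p : Tm Γ) = 0 :=
    sum_eq_zero fun p _ => Nat.le_zero.1 (nd_le _)
  rw [h1, add_zero]
  refine (sum_le_card_nsmul _ _ (sG Γ) fun p _ => nd_le_sG _).trans ?_
  simp [sG, sq]

open Classical in
theorem cross_TG_nd (t : Tm Γ) (S : Finset (Tm Γ)) :
    S.card ≤ cross (TG Γ) {t} S + nd t + 1 := by
  rw [cross_single, nd]
  refine (card_le_card (t := insert t ((S.filter fun v => (TG Γ).Adj t v) ∪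
    univ.filter fun t' => t' ≠ t ∧ ¬ base t t')) fun x hx => ?_).trans
    ((card_insert_le _ _).trans (Nat.succ_le_succ (card_union_le _ _)))
  simp only [mem_insert, mem_union, mem_filter, mem_univ, true_and]
  by_cases h : x = t
  · exact Or.inl h
  · by_cases h' : base t x
    · exact Or.inr (Or.inl ⟨hx, h'⟩)
    · exact Or.inr (Or.inr ⟨h, h'⟩)

theorem deg_add (t : Tm Γ) : cross (TG Γ) {t} univ + nd t + 1 = mm Γ := by
  classical
  refine le_antisymm ?_ (by simpa only [card_univ, card_Tm] using cross_TG_nd t univ)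
  rw [cross_single, nd, ← card_Tm, ← card_union_of_disjoint, ← card_insert_of_notMem (a := t)]
  · exact card_le_univ _
  · simp
  · rw [disjoint_filter]
    exact fun x _ h h' => h'.2 h

theorem E2_add : E2 Γ + ∑ t : Tm Γ, nd t = mm Γ * (mm Γ - 1) := by
  rw [E2, ec, cross_eq_sum, ← sum_add_distrib,
    sum_congr rfl fun (t : Tm Γ) _ => (Nat.eq_sub_of_add_eq (deg_add t) :), sum_const, card_univ, card_Tm,
    smul_eq_mul]

/-- base pairs from a vertex into a set -/
theorem cross_TG_ge (t : Tm Γ) (S : Finset (Tm Γ)) :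
    S.card ≤ cross (TG Γ) {t} S + sG Γ + 1 := by
  have := cross_TG_nd t S
  have := nd_le_sG t
  omega

/-- base pairs between two sets, counting the diagonal -/
theorem cross_TG_ge' (S S' : Finset (Tm Γ)) :
    S.card * S'.card ≤ cross (TG Γ) S S' + sG Γ ^ 2 + S.card := by
  have h1 : ∑ _t ∈ S, S'.card ≤ ∑ t ∈ S, (cross (TG Γ) {t} S' + nd t + 1) :=
    sum_le_sum fun t _ => cross_TG_nd t S'
  have h2 : ∑ t ∈ S, nd t ≤ ∑ t : Tm Γ, nd t := sum_le_sum_of_subset (subset_univ _)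
  have h3 := sum_nd_le (Γ := Γ)
  rw [sum_add_distrib, sum_add_distrib, ← cross_eq_sum] at h1
  simp only [sum_const, smul_eq_mul, mul_one] at h1
  omega

variable [Nonempty Γ]

theorem sG_ge : 4000 ≤ sG Γ := by
  have := Fintype.card_pos (α := Γ)
  unfold sG
  omega

theorem mm_ge : 400000 * sG Γ ≤ mm Γ := by
  have := sG_ge (Γ := Γ)
  unfold mm
  nlinarith

theorem exists_base : ∃ t t' : Tm Γ, base t t' := by
  have h := sG_ge (Γ := Γ)
  have h2 : 1 < 100 * sG Γ ^ 2 := by nlinarith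
  exact ⟨.inr ⟨0, by omega⟩, .inr ⟨1, h2⟩, by simp, by simp [hbRk]⟩

theorem AA_le : AA Γ ≤ mm Γ * (mm Γ - 1) := by
  classical
  obtain ⟨g⟩ := ‹Nonempty Γ›
  have h1 : nd (.inl (g, 0) : Tm Γ) + nd (.inl (g, 1) : Tm Γ) ≤ ∑ t : Tm Γ, nd t := by
    rw [← sum_pair (f := nd) (by simp)]
    exact sum_le_sum_of_subset (subset_univ _)
  have h2 := le_nd (.inl (g, 0) : Tm Γ)
  have h3 := le_nd (.inl (g, 1) : Tm Γ)
  have h4 := E2_add (Γ := Γ)
  simp only [hbRk] at h2 h3
  unfold AA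
  omega

theorem AA_ge : mm Γ * (mm Γ - 1) ≤ AA Γ + sG Γ ^ 2 := by
  have h3 := sum_nd_le (Γ := Γ)
  have h4 := E2_add (Γ := Γ)
  unfold AA
  omega

theorem AA_ge' : 100000 * mm Γ ≤ AA Γ := by
  have h1 := AA_ge (Γ := Γ)
  have h2 := mm_ge (Γ := Γ)
  have h3 := sG_ge (Γ := Γ)
  have h4 : 100 * sG Γ ^ 2 ≤ mm Γ := Nat.le_add_left _ _
  have h5 : mm Γ * 100001 ≤ mm Γ * (mm Γ - 1) := Nat.mul_le_mul_left _ (by omega)
  omega

theorem rr_lt : (99 * rr Γ + 1) * mm Γ < AA Γ := by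
  have h1 := AA_ge' (Γ := Γ)
  have h2 := mm_ge (Γ := Γ)
  have h3 := sG_ge (Γ := Γ)
  have h4 : rr Γ * (99 * mm Γ) ≤ AA Γ - mm Γ - 1 := Nat.div_mul_le_self _ _
  have e : (99 * rr Γ + 1) * mm Γ = rr Γ * (99 * mm Γ) + mm Γ := by ring
  omega

theorem rr_ge : AA Γ ≤ 99 * rr Γ * mm Γ + 100 * mm Γ := by
  have h2 := mm_ge (Γ := Γ)
  have h3 := sG_ge (Γ := Γ)
  have h4 : AA Γ - mm Γ - 1 < 99 * mm Γ * (rr Γ + 1) := Nat.lt_mul_div_succ _ (by omega)
  have e : 99 * mm Γ * (rr Γ + 1) = 99 * rr Γ * mm Γ + 99 * mm Γ := by ring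
  omega

theorem rr_pos : 1 ≤ rr Γ := by
  have h1 := AA_ge' (Γ := Γ)
  have h2 := mm_ge (Γ := Γ)
  have h3 := sG_ge (Γ := Γ)
  have h4 := rr_ge (Γ := Γ)
  by_contra h
  have : rr Γ = 0 := by omega
  rw [this] at h4
  omega

theorem part_le {j : ℕ} (h1 : 1 ≤ j) (h2 : j < mm Γ) :
    mm Γ * (j * (j - 1)) + 20000 * mm Γ ≤ AA Γ * j := by
  have h3 := AA_ge (Γ := Γ)
  have h4 := mm_ge (Γ := Γ)
  have h5 := sG_ge (Γ := Γ)
  have h6 : 100 * sG Γ ^ 2 ≤ mm Γ := Nat.le_add_left _ _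
  have h7 : 20300 ≤ mm Γ := by omega
  clear h4 h5
  generalize sG Γ ^ 2 = q at *
  generalize AA Γ = A at *
  obtain ⟨j, rfl⟩ : ∃ j', j = j' + 1 := ⟨j - 1, by omega⟩
  obtain ⟨d, hd⟩ : ∃ d, mm Γ = j + 1 + d + 1 := ⟨mm Γ - (j + 1) - 1, by omega⟩
  generalize mm Γ = m at *
  have e : m - 1 = j + 1 + d := by omega
  rw [e] at h3
  rw [Nat.add_sub_cancel]
  have h8 : m * (j + 1 + d) * (j + 1) ≤ (A + q) * (j + 1) := Nat.mul_le_mul_right _ h3
  have h9 : 100 * q * (j + 1) ≤ m * (j + 1) := Nat.mul_le_mul_right _ h6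
  have h10 : j + 1 + d ≤ (j + 1) * (d + 1) := by nlinarith [Nat.zero_le (j * d)]
  have h11 : j + 1 + 2000000 ≤ 100 * ((j + 1) * (d + 1)) := by omega
  have h12 : m * (j + 1 + 2000000) ≤ m * (100 * ((j + 1) * (d + 1))) := Nat.mul_le_mul_left _ h11
  nlinarith

theorem LL_ge (L1 : ℕ) : 5 * mm Γ ≤ LL Γ L1 := by
  have h4 := mm_ge (Γ := Γ)
  have h5 := sG_ge (Γ := Γ)
  exact Nat.mul_le_mul (by omega) (by omega)

theorem LL_ge' (L1 : ℕ) : L1 * mm Γ ≤ LL Γ L1 := by
  have h1 : 1 * L1 * mm Γ ≤ rr Γ * L1 * mm Γ :=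
    Nat.mul_le_mul_right _ (Nat.mul_le_mul_right _ rr_pos)
  have h2 : 1 * (2 + rr Γ * L1 * mm Γ + mm Γ) ≤ LL Γ L1 := Nat.mul_le_mul_right _ (by omega)
  rw [one_mul] at h1
  omega

end Pool.Agent.HB

end FileTmL
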