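import Pool.Agent.P.HB.RMain
import Pool.Agent.P.HB.G2
import Pool.Agent.Lib.PrimrecProp.Basic

/-! The finite rule is primitive recursive, so the exponent can be computed to any precision. -/

set_option autoImplicit false

open Filter Topology Pool.Agent.Lib.PrimrecProp

namespace Pool.Agent.HB

/-- adjacency read off an edge list -/
def adjb (g : List (ℕ × ℕ)) (x y : ℕ) : Bool := (!(eqb x y)) && (memb (x, y) g || memb (y, x) g)

/-- ordered adjacent pairs inside a vertex list -/
def cntb (g : List (ℕ × ℕ)) (S : List ℕ) : ℕ :=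
  ((pairs S S).filter fun p => adjb g p.1 p.2).length

/-- the test for `Strong (i / q)` -/
def strongb (i q k : ℕ) (g : List (ℕ × ℕ)) (A : List ℕ) : Bool :=
  (subl (List.range k)).all fun S => (!(A.all fun x => memb x S)) ||
    leb (i * cntb g S + 2 * q * A.length) (2 * q * S.length + i * cntb g A)

/-- all lists of length `m` with entries below `k` -/
def tup (m k : ℕ) : List (List ℕ) :=
  (List.range m).foldr (fun _ acc => (List.range k).flatMap fun x => acc.map fun l => x :: l) [[]]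

/-- equality of unordered pairs -/
def seqb (x y u v : ℕ) : Bool := (eqb x u && eqb y v) || (eqb x v && eqb y u)

/-- all edge lists on `k` vertices -/
def grs (k : ℕ) : List (List (ℕ × ℕ)) := subl (pairs (List.range k) (List.range k))

/-- the part of the inference that concerns the copy of the pattern graph -/
def copyb (c : ℕ × List (ℕ × ℕ)) (D : List (List (ℕ × ℕ) × ℕ × ℕ)) (g : List (ℕ × ℕ))
    (u v : ℕ) (l : List ℕ) : Bool :=
  ((List.range c.1).all fun a => (List.range c.1).all fun b =>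
    (!(eqb (l.getD a 0) (l.getD b 0))) || eqb a b) &&
  (((List.range c.1).any fun a => (List.range c.1).any fun b =>
    adjb c.2 a b && seqb (l.getD a 0) (l.getD b 0) u v) &&
  ((List.range c.1).all fun a => (List.range c.1).all fun b =>
    (!(adjb c.2 a b)) || (adjb g (l.getD a 0) (l.getD b 0) || (seqb (l.getD a 0) (l.getD b 0) u v ||
      memb (g, l.getD a 0, l.getD b 0) D))))

/-- the test for `Infer` -/
def inferb (c : ℕ × List (ℕ × ℕ)) (i q k : ℕ) (D : List (List (ℕ × ℕ) × ℕ × ℕ))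
    (g : List (ℕ × ℕ)) (u v : ℕ) : Bool :=
  (subl (List.range k)).any fun A => (grs k).any fun g' => (tup c.1 k).any fun l =>
    memb u A && (memb v A && ((A.all fun x => A.all fun y => eqb (adjb g x y) (adjb g' x y)) &&
      (strongb i q k g' A && copyb c D g' u v l)))

/-- all triples -/
def trs (k : ℕ) : List (List (ℕ × ℕ) × ℕ × ℕ) :=
  pairs (grs k) (pairs (List.range k) (List.range k))

/-- the test for `Feasible` -/
def feasb (c : ℕ × List (ℕ × ℕ)) (i q k : ℕ) : Bool :=
  (subl (trs k)).all fun D =>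
    (!((trs k).all fun t => (!(inferb c i q k D t.1 t.2.1 t.2.2)) || memb t D)) ||
    (List.range k).any fun u => (List.range k).any fun v => memb ([], u, v) D

section prim
variable {α : Type} [Primcodable α]

@[fun_prop] theorem p_adjb {g : α → List (ℕ × ℕ)} {x y : α → ℕ} (hg : Primrec g) (hx : Primrec x)
    (hy : Primrec y) : Primrec fun a => adjb (g a) (x a) (y a) := by
  unfold adjb; fun_prop

@[fun_prop] theorem p_cntb {g : α → List (ℕ × ℕ)} {S : α → List ℕ} (hg : Primrec g)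
    (hS : Primrec S) : Primrec fun a => cntb (g a) (S a) := by
  unfold cntb; fun_prop

@[fun_prop] theorem p_strongb {i q k : α → ℕ} {g : α → List (ℕ × ℕ)} {A : α → List ℕ}
    (hi : Primrec i) (hq : Primrec q) (hk : Primrec k) (hg : Primrec g) (hA : Primrec A) :
    Primrec fun a => strongb (i a) (q a) (k a) (g a) (A a) := by
  unfold strongb; fun_prop

@[fun_prop] theorem p_tup {m k : α → ℕ} (hm : Primrec m) (hk : Primrec k) :
    Primrec fun a => tup (m a) (k a) := by
  unfold tup; fun_prop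

@[fun_prop] theorem p_seqb {x y u v : α → ℕ} (hx : Primrec x) (hy : Primrec y) (hu : Primrec u)
    (hv : Primrec v) : Primrec fun a => seqb (x a) (y a) (u a) (v a) := by
  unfold seqb; fun_prop

@[fun_prop] theorem p_grs {k : α → ℕ} (hk : Primrec k) : Primrec fun a => grs (k a) := by
  unfold grs; fun_prop

@[fun_prop] theorem p_trs {k : α → ℕ} (hk : Primrec k) : Primrec fun a => trs (k a) := by
  unfold trs; fun_prop

@[fun_prop] theorem p_copyb {c : α → ℕ × List (ℕ × ℕ)} {D : α → List (List (ℕ × ℕ) × ℕ × ℕ)}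
    {g : α → List (ℕ × ℕ)} {u v : α → ℕ} {l : α → List ℕ} (hc : Primrec c) (hD : Primrec D)
    (hg : Primrec g) (hu : Primrec u) (hv : Primrec v) (hl : Primrec l) :
    Primrec fun a => copyb (c a) (D a) (g a) (u a) (v a) (l a) := by
  unfold copyb; fun_prop

@[fun_prop] theorem p_inferb {c : α → ℕ × List (ℕ × ℕ)} {i q k : α → ℕ}
    {D : α → List (List (ℕ × ℕ) × ℕ × ℕ)} {g : α → List (ℕ × ℕ)} {u v : α → ℕ} (hc : Primrec c)
    (hi : Primrec i) (hq : Primrec q) (hk : Primrec k) (hD : Primrec D)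
    (hg : Primrec g) (hu : Primrec u) (hv : Primrec v) :
    Primrec fun a => inferb (c a) (i a) (q a) (k a) (D a) (g a) (u a) (v a) := by
  unfold inferb; fun_prop

@[fun_prop] theorem p_feasb {c : α → ℕ × List (ℕ × ℕ)} {i q k : α → ℕ} (hc : Primrec c)
    (hi : Primrec i) (hq : Primrec q) (hk : Primrec k) :
    Primrec fun a => feasb (c a) (i a) (q a) (k a) := by
  unfold feasb; fun_prop

end prim

theorem sublist_of_mem_subl {β : Type} {l s : List β} (h : s ∈ subl l) : s.Sublist l := by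
  induction l generalizing s with
  | nil =>
    have : s = [] := by simpa [subl] using h
    simp [this]
  | cons y l ih =>
    have e : subl (y :: l) = subl l ++ (subl l).map (fun s => y :: s) := rfl
    rw [e, List.mem_append, List.mem_map] at h
    rcases h with h | ⟨t, ht, rfl⟩
    · exact (ih h).cons y
    · exact (ih ht).cons_cons y

theorem mem_tup_aux (k : ℕ) (L : List ℕ) (l : List ℕ) :
    l ∈ L.foldr (fun _ acc => (List.range k).flatMap fun x => acc.map fun l => x :: l) [[]] ↔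
      l.length = L.length ∧ ∀ x ∈ l, x < k := by
  induction L generalizing l with
  | nil =>
    simp only [List.foldr_nil, List.mem_singleton, List.length_nil, List.length_eq_zero_iff]
    exact ⟨fun h => ⟨h, by simp [h]⟩, fun h => h.1⟩
  | cons y L ih =>
    simp only [List.foldr_cons, List.mem_flatMap, List.mem_range, List.mem_map, List.length_cons]
    constructor
    · rintro ⟨x, hx, t, ht, rfl⟩
      obtain ⟨h1, h2⟩ := (ih t).1 ht
      refine ⟨by simp [h1], fun z hz => ?_⟩
      rcases List.mem_cons.1 hz with rfl | hz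
      · exact hx
      · exact h2 z hz
    · rintro ⟨h1, h2⟩
      cases l with
      | nil => simp at h1
      | cons x t =>
        exact ⟨x, h2 x List.mem_cons_self, t, (ih t).2 ⟨by simpa using h1,
          fun z hz => h2 z (List.mem_cons_of_mem _ hz)⟩, rfl⟩

theorem mem_tup {m k : ℕ} {l : List ℕ} : l ∈ tup m k ↔ l.length = m ∧ ∀ x ∈ l, x < k := by
  rw [tup, mem_tup_aux, List.length_range]

theorem adjb_iff {k : ℕ} (g : List (ℕ × ℕ)) (x y : Fin k) :
    adjb g x y = true ↔ (codeGraph (k, g)).Adj x y := by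
  simp [adjb, codeGraph, SimpleGraph.fromRel_adj, eqb, Fin.ext_iff]

theorem seqb_iff {k : ℕ} (x y u v : Fin k) : seqb x y u v = true ↔ s(x, y) = s(u, v) := by
  simp [seqb, Fin.ext_iff]

/-- the vertex set given by a list -/
def toF (k : ℕ) (S : List ℕ) : Finset (Fin k) := Finset.univ.filter fun x => x.1 ∈ S

theorem mem_toF {k : ℕ} {S : List ℕ} {x : Fin k} : x ∈ toF k S ↔ x.1 ∈ S := by simp [toF]

theorem subl_lt {k : ℕ} {S : List ℕ} (h : S ∈ subl (List.range k)) : ∀ x ∈ S, x < k :=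
  fun x hx => List.mem_range.1 (subset_of_mem_subl h x hx)

theorem subl_nodup {k : ℕ} {S : List ℕ} (h : S ∈ subl (List.range k)) : S.Nodup :=
  (sublist_of_mem_subl h).nodup List.nodup_range

theorem exists_toF {k : ℕ} (A : Finset (Fin k)) : ∃ S ∈ subl (List.range k), toF k S = A := by
  classical
  refine ⟨_, filter_mem_subl (fun x => decide (∃ h : x < k, (⟨x, h⟩ : Fin k) ∈ A)) _, ?_⟩
  ext x
  simp [mem_toF]

theorem card_toF {k : ℕ} {S : List ℕ} (h : S ∈ subl (List.range k)) :
    (toF k S).card = S.length := by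
  rw [← List.toFinset_card_of_nodup (subl_nodup h),
    ← Finset.card_map (s := toF k S) Fin.valEmbedding]
  congr 1
  ext x
  simp only [Finset.mem_map, mem_toF, List.mem_toFinset, Fin.valEmbedding_apply]
  exact ⟨fun ⟨y, hy, e⟩ => e ▸ hy, fun hx => ⟨⟨x, subl_lt h x hx⟩, hx, rfl⟩⟩

theorem cntb_eq {k : ℕ} (g : List (ℕ × ℕ)) {S : List ℕ} (h : S ∈ subl (List.range k)) :
    cntb g S = 2 * edgesIn (codeGraph (k, g)) (toF k S) := by
  classical
  have h1 : (pairs S S).Nodup := (subl_nodup h).product (subl_nodup h)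
  rw [edgesIn_eq, ← ec_eq_eIn, ec, cross, cntb, ← List.toFinset_card_of_nodup (h1.filter _)]
  symm
  refine Finset.card_bij (fun p _ => (p.1.1, p.2.1)) (fun p hp => ?_) (fun p _ p' _ e => ?_)
    (fun p hp => ?_)
  · simp only [Finset.mem_filter, Finset.mem_product] at hp
    simp only [List.mem_toFinset, List.mem_filter, mem_pairs]
    exact ⟨⟨mem_toF.1 hp.1.1, mem_toF.1 hp.1.2⟩, (adjb_iff g _ _).2 hp.2⟩
  · simp only [Prod.mk.injEq] at e
    exact Prod.ext (Fin.ext e.1) (Fin.ext e.2)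
  · simp only [List.mem_toFinset, List.mem_filter, mem_pairs] at hp
    refine ⟨(⟨p.1, subl_lt h _ hp.1.1⟩, ⟨p.2, subl_lt h _ hp.1.2⟩), ?_, rfl⟩
    simp only [Finset.mem_filter, Finset.mem_product]
    exact ⟨⟨mem_toF.2 hp.1.1, mem_toF.2 hp.1.2⟩, (adjb_iff g _ _).1 hp.2⟩

theorem strongb_iff {i q k : ℕ} (hq : 0 < q) (g : List (ℕ × ℕ)) {A : List ℕ}
    (h : A ∈ subl (List.range k)) :
    strongb i q k g A = true ↔ Strong ((i : ℝ) / q) (codeGraph (k, g)) (toF k A) := by
  have hq' : (0 : ℝ) < q := by exact_mod_cast hq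
  have key : ∀ S ∈ subl (List.range k),
      (i * cntb g S + 2 * q * A.length ≤ 2 * q * S.length + i * cntb g A ↔
      (i : ℝ) / q * ((edgesIn (codeGraph (k, g)) (toF k S) : ℝ) -
        edgesIn (codeGraph (k, g)) (toF k A)) ≤ ((toF k S).card : ℝ) - (toF k A).card) := by
    intro S hS
    rw [cntb_eq g hS, cntb_eq g h, card_toF hS, card_toF h, div_mul_eq_mul_div, div_le_iff₀ hq',
      ← Nat.cast_le (α := ℝ)]
    push_cast
    constructor <;> intro h1 <;> linarith
  simp only [strongb, List.all_eq_true, Bool.or_eq_true, Bool.not_eq_true', leb_iff]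
  constructor
  · intro h1 S hS
    obtain ⟨S, hS', rfl⟩ := exists_toF S
    rcases h1 S hS' with h2 | h2
    · refine absurd h2 (Bool.not_eq_false _ ▸ ?_)
      simp only [List.all_eq_true, memb_iff]
      exact fun x hx => mem_toF.1 (hS ((mem_toF (x := ⟨x, subl_lt h x hx⟩)).2 hx))
    · exact (key S hS').1 h2
  · intro h1 S hS
    by_cases h2 : (A.all fun x => memb x S) = true
    · refine Or.inr ((key S hS).2 (h1 _ fun x hx => ?_))
      simp only [List.all_eq_true, memb_iff] at h2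
      exact mem_toF.2 (h2 _ (mem_toF.1 hx))
    · exact Or.inl (by simpa using h2)

theorem exists_grs {k : ℕ} (B : SimpleGraph (Fin k)) : ∃ g ∈ grs k, codeGraph (k, g) = B := by
  classical
  refine ⟨_, filter_mem_subl (fun p => decide (∃ (h : p.1 < k) (h' : p.2 < k),
    B.Adj ⟨p.1, h⟩ ⟨p.2, h'⟩)) _, ?_⟩
  ext x y
  have hx : x.1 < k := x.2
  have hy : y.1 < k := y.2
  simp only [codeGraph, SimpleGraph.fromRel_adj, List.mem_filter, mem_pairs, List.mem_range,
    decide_eq_true_eq]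
  constructor
  · rintro ⟨-, ⟨-, _, _, h⟩ | ⟨-, _, _, h⟩⟩
    · exact h
    · exact h.symm
  · exact fun h => ⟨h.ne, Or.inl ⟨⟨hx, hy⟩, hx, hy, h⟩⟩

theorem copyb_iff {k : ℕ} (c : ℕ × List (ℕ × ℕ)) (D : List (List (ℕ × ℕ) × ℕ × ℕ))
    (g : List (ℕ × ℕ)) (u v : Fin k) (l : List ℕ) (f : Fin c.1 → Fin k)
    (hf : ∀ a : Fin c.1, l.getD a 0 = f a) :
    copyb c D g u v l = true ↔ Function.Injective f ∧
      (∃ a b, (codeGraph c).Adj a b ∧ s(f a, f b) = s(u, v)) ∧
      ∀ a b, (codeGraph c).Adj a b → (codeGraph (k, g)).Adj (f a) (f b) ∨ s(f a, f b) = s(u, v) ∨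
        (g, (f a).1, (f b).1) ∈ D := by
  have hadj : ∀ a b : Fin c.1, adjb c.2 a b = true ↔ (codeGraph c).Adj a b := adjb_iff c.2
  simp only [copyb, Bool.and_eq_true, List.all_eq_true, List.any_eq_true, List.mem_range,
    Bool.or_eq_true, Bool.not_eq_true', eqb_iff, memb_iff]
  refine and_congr ⟨fun h a b e => ?_, fun h a ha b hb => ?_⟩ (and_congr ⟨?_, ?_⟩
    ⟨fun h a b hab => ?_, fun h a ha b hb => ?_⟩)
  · rcases h a a.2 b b.2 with h1 | h1
    · rw [hf, hf, e] at h1
      simp [eqb] at h1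
    · exact Fin.ext h1
  · by_cases e : a = b
    · exact Or.inr e
    · left
      rw [hf ⟨a, ha⟩, hf ⟨b, hb⟩]
      simp only [eqb, decide_eq_false_iff_not]
      exact fun e' => e (congrArg Fin.val (h (Fin.ext e')))
  · rintro ⟨a, ha, b, hb, h1, h2⟩
    rw [hf ⟨a, ha⟩, hf ⟨b, hb⟩] at h2
    exact ⟨⟨a, ha⟩, ⟨b, hb⟩, (hadj _ _).1 h1, (seqb_iff _ _ _ _).1 h2⟩
  · rintro ⟨a, b, h1, h2⟩
    refine ⟨a, a.2, b, b.2, (hadj _ _).2 h1, ?_⟩
    rw [hf, hf]
    exact (seqb_iff _ _ _ _).2 h2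
  · rcases h a a.2 b b.2 with h1 | h1
    · rw [(hadj _ _).2 hab] at h1
      simp at h1
    · rw [hf, hf, adjb_iff, seqb_iff] at h1
      exact h1
  · by_cases e : adjb c.2 a b = true
    · right
      rw [hf ⟨a, ha⟩, hf ⟨b, hb⟩, adjb_iff, seqb_iff]
      exact h ⟨a, ha⟩ ⟨b, hb⟩ ((hadj _ _).1 e)
    · exact Or.inl (by simpa using e)

theorem agree_iff {k : ℕ} (g g' : List (ℕ × ℕ)) {A : List ℕ} (h : A ∈ subl (List.range k)) :
    (A.all fun x => A.all fun y => eqb (adjb g x y) (adjb g' x y)) = true ↔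
      ∀ x ∈ toF k A, ∀ y ∈ toF k A,
        ((codeGraph (k, g)).Adj x y ↔ (codeGraph (k, g')).Adj x y) := by
  simp only [List.all_eq_true, eqb_iff]
  constructor
  · intro h1 x hx y hy
    rw [← adjb_iff, ← adjb_iff, h1 x (mem_toF.1 hx) y (mem_toF.1 hy)]
  · intro h1 x hx y hy
    have h2 := h1 ⟨x, subl_lt h x hx⟩ (mem_toF.2 hx) ⟨y, subl_lt h y hy⟩ (mem_toF.2 hy)
    rw [← adjb_iff, ← adjb_iff] at h2
    exact Bool.eq_iff_iff.2 h2

theorem inferb_of {c : ℕ × List (ℕ × ℕ)} {i q k : ℕ} (hq : 0 < q)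
    {D : List (List (ℕ × ℕ) × ℕ × ℕ)} {E : Set (SimpleGraph (Fin k) × Fin k × Fin k)}
    (hE : ∀ g ∈ grs k, ∀ x y : Fin k, (codeGraph (k, g), x, y) ∈ E → (g, x.1, y.1) ∈ D)
    (g : List (ℕ × ℕ)) (u v : Fin k)
    (h : Infer (codeGraph c) ((i : ℝ) / q) E (codeGraph (k, g)) u v) :
    inferb c i q k D g u v = true := by
  obtain ⟨A, B', f, hu, hv, h1, h2, h3, h4⟩ := h
  obtain ⟨A, hA, rfl⟩ := exists_toF A
  obtain ⟨g', hg', rfl⟩ := exists_grs B'
  simp only [inferb, List.any_eq_true, Bool.and_eq_true, memb_iff]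
  refine ⟨A, hA, g', hg', List.ofFn fun a => (f a).1, mem_tup.2 ⟨by simp, fun x hx => ?_⟩,
    mem_toF.1 hu, mem_toF.1 hv, (agree_iff g g' hA).2 h1, (strongb_iff hq g' hA).2 h2,
    (copyb_iff c D g' u v _ f fun a => ?_).2 ⟨f.injective, h3, fun a b hab => ?_⟩⟩
  · obtain ⟨a, rfl⟩ := List.mem_ofFn.1 hx
    exact (f a).2
  · simp
  · exact (h4 a b hab).imp_right (Or.imp_right (hE g' hg' _ _))

theorem infer_of {c : ℕ × List (ℕ × ℕ)} {i q k : ℕ} (hq : 0 < q)
    {D : List (List (ℕ × ℕ) × ℕ × ℕ)} {E : Set (SimpleGraph (Fin k) × Fin k × Fin k)}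
    (hE : ∀ g, ∀ x y : Fin k, (g, x.1, y.1) ∈ D → (codeGraph (k, g), x, y) ∈ E)
    (g : List (ℕ × ℕ)) (u v : Fin k) (h : inferb c i q k D g u v = true) :
    Infer (codeGraph c) ((i : ℝ) / q) E (codeGraph (k, g)) u v := by
  simp only [inferb, List.any_eq_true, Bool.and_eq_true, memb_iff] at h
  obtain ⟨A, hA, g', -, l, hl, hu, hv, h1, h2, h3⟩ := h
  obtain ⟨hl1, hl2⟩ := mem_tup.1 hl
  have hl3 : ∀ a : Fin c.1, l.getD a 0 < k := fun a => by
    rw [List.getD_eq_getElem _ _ (show a.1 < l.length by rw [hl1]; exact a.2)]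
    exact hl2 _ (List.getElem_mem _)
  obtain ⟨h4, h5, h6⟩ := (copyb_iff c D g' u v l (fun a => ⟨_, hl3 a⟩) fun a => rfl).1 h3
  exact ⟨toF k A, codeGraph (k, g'), ⟨_, h4⟩, mem_toF.2 hu, mem_toF.2 hv, (agree_iff g g' hA).1 h1,
    (strongb_iff hq g' hA).1 h2, h5, fun a b hab =>
      (h6 a b hab).imp_right (Or.imp_right (hE g' _ _))⟩

theorem code_nil (k : ℕ) : codeGraph (k, []) = ⊥ := by
  ext x y
  simp [codeGraph]

theorem nil_mem_grs (k : ℕ) : [] ∈ grs k := by
  have := filter_mem_subl (fun _ => false) (pairs (List.range k) (List.range k))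
  simpa [grs] using this

theorem feasb_iff (c : ℕ × List (ℕ × ℕ)) {i q k : ℕ} (hq : 0 < q) :
    feasb c i q k = true ↔ Feasible (codeGraph c) ((i : ℝ) / q) k := by
  classical
  simp only [feasb, List.all_eq_true, Bool.or_eq_true, List.any_eq_true, List.mem_range, memb_iff]
  constructor
  · intro h E hE
    let D := (trs k).filter fun t => decide (∃ (h : t.2.1 < k) (h' : t.2.2 < k),
      (codeGraph (k, t.1), (⟨t.2.1, h⟩ : Fin k), (⟨t.2.2, h'⟩ : Fin k)) ∈ E)
    have hD : ∀ g, ∀ x y : Fin k, (g, x.1, y.1) ∈ D → (codeGraph (k, g), x, y) ∈ E := by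
      intro g x y h1
      obtain ⟨_, _, h2⟩ := of_decide_eq_true (List.mem_filter.1 h1).2
      exact h2
    rcases h D (filter_mem_subl _ _) with h1 | ⟨u, hu, v, hv, h1⟩
    · refine absurd h1 ?_
      simp only [Bool.not_eq_true', Bool.not_eq_false, List.all_eq_true, Bool.or_eq_true, memb_iff]
      rintro ⟨g, u, v⟩ ht
      have ht' := ht
      simp only [trs, mem_pairs, List.mem_range] at ht'
      by_cases h2 : inferb c i q k D g u v = true
      · exact Or.inr (List.mem_filter.2 ⟨ht, decide_eq_true ⟨ht'.2.1, ht'.2.2,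
          hE _ _ _ (infer_of hq hD g ⟨u, ht'.2.1⟩ ⟨v, ht'.2.2⟩ h2)⟩⟩)
      · exact Or.inl (by simpa using h2)
    · exact ⟨⟨u, hu⟩, ⟨v, hv⟩, code_nil k ▸ hD [] ⟨u, hu⟩ ⟨v, hv⟩ h1⟩
  · intro h D _
    by_cases h1 : ((trs k).all fun t => (!(inferb c i q k D t.1 t.2.1 t.2.2)) || memb t D) = true
    · right
      simp only [List.all_eq_true, Bool.or_eq_true, memb_iff, Bool.not_eq_true'] at h1
      obtain ⟨u, v, h2⟩ := h {t | ∀ g ∈ grs k, codeGraph (k, g) = t.1 → (g, t.2.1.1, t.2.2.1) ∈ D}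
        (fun B u v h2 g hg e => by
          subst e
          have h3 : inferb c i q k D g u v = true := by
            refine inferb_of hq ?_ g u v h2
            exact fun g hg x y h => h g hg rfl
          rcases h1 (g, u.1, v.1) (by simp [trs, hg]) with h4 | h4
          · rw [h3] at h4
            simp at h4
          · exact h4)
      exact ⟨u, u.2, v, v.2, h2 [] (nil_mem_grs k) (code_nil k)⟩
    · exact Or.inl (by simpa using h1)

theorem code_edges_le (c : ℕ × List (ℕ × ℕ)) : (codeGraph c).edgeSet.ncard ≤ c.2.length := by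
  classical
  have h1 : (Sym2.map Fin.val) '' (codeGraph c).edgeSet ⊆
      ((c.2.map fun p => s(p.1, p.2)).toFinset : Set (Sym2 ℕ)) := by
    rintro _ ⟨e, he, rfl⟩
    induction e using Sym2.ind with
    | _ a b =>
      simp only [codeGraph, SimpleGraph.mem_edgeSet, SimpleGraph.fromRel_adj] at he
      simp only [Sym2.map_mk, Finset.mem_coe, List.mem_toFinset, List.mem_map]
      rcases he.2 with h | h
      · exact ⟨_, h, rfl⟩
      · exact ⟨_, h, Sym2.eq_swap⟩
  have h2 := Set.ncard_le_ncard h1 (Finset.finite_toSet _)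
  rw [Set.ncard_image_of_injective _ (Sym2.map.injective Fin.val_injective),
    Set.ncard_coe_finset] at h2
  exact h2.trans ((List.toFinset_card_le _).trans (by simp))

/-- the numerator of the approximation with denominator `j + 1` -/
def approx (x : (ℕ × List (ℕ × ℕ)) × ℕ) : ℕ :=
  Nat.findGreatest (fun i => feasb x.1 i (x.2 + 1)
    (x.1.1 + 6 * x.1.2.length * (x.2 + 1) + 1) = true) (3 * (x.2 + 1)) + 1

theorem approx_primrec : Primrec approx := by
  unfold approx
  refine p_add (Primrec.nat_findGreatest (by fun_prop) ?_) (by fun_prop)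
  have : Primrec fun y : ((ℕ × List (ℕ × ℕ)) × ℕ) × ℕ => feasb y.1.1 y.2 (y.1.2 + 1)
    (y.1.1.1 + 6 * y.1.1.2.length * (y.1.2 + 1) + 1) := by fun_prop
  exact Primrec.eq.comp this (Primrec.const true)

theorem approx_spec (c : ℕ × List (ℕ × ℕ)) (h2 : 2 ≤ (codeGraph c).edgeSet.ncard) {γ : ℝ}
    (hγ : Tendsto (expo (codeGraph c)) atTop (𝓝 (-γ))) (j : ℕ) :
    |γ - (approx (c, j) : ℝ) / (j + 1)| ≤ 1 / (j + 1) := by
  obtain ⟨γ', h3, h4⟩ := rule_main (codeGraph c) h2
  obtain rfl : γ = γ' := neg_injective (tendsto_nhds_unique hγ h3)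
  have h5 : γ ≤ 3 := by
    have := ge_of_tendsto hγ (expo_ge _ h2)
    linarith
  have h6 : 0 ≤ γ := by
    have := le_of_tendsto hγ ((eventually_ge_atTop 2).mono fun n hn => expo_nonpos _ h2 hn)
    linarith
  have hq : (0 : ℝ) < (j : ℝ) + 1 := by positivity
  unfold approx
  simp only
  generalize hk : c.1 + 6 * c.2.length * (j + 1) + 1 = k
  generalize hi : Nat.findGreatest (fun i => feasb c i (j + 1) k = true) (3 * (j + 1)) = i
  have h7 : (i : ℝ) / (j + 1) ≤ γ := by
    rcases Nat.eq_zero_or_pos i with rfl | h7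
    · simpa using h6
    · have h8 := Nat.findGreatest_of_ne_zero hi h7.ne'
      have h9 := (h4 ((i : ℝ) / ((j + 1 : ℕ) : ℝ)) k (by positivity)).1
        ((feasb_iff c (Nat.succ_pos j)).1 h8)
      exact_mod_cast h9
  have h8 : γ ≤ ((i : ℝ) + 2) / (j + 1) := by
    rw [le_div_iff₀ hq]
    rcases le_or_gt (i + 1) (3 * (j + 1)) with h8 | h8
    · have h9 := Nat.findGreatest_is_greatest (hi.trans_lt (Nat.lt_succ_self i)) h8
      have h10 := (h4 (((i + 1 : ℕ) : ℝ) / ((j + 1 : ℕ) : ℝ)) k (by positivity)).2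
        (fun h => h9 ((feasb_iff c (Nat.succ_pos j)).2 h)) (by simp only [Fintype.card_fin]; omega)
      have h11 : ((codeGraph c).edgeSet.ncard : ℝ) ≤ c.2.length := by exact_mod_cast code_edges_le c
      have h12 : (k : ℝ) - Fintype.card (Fin c.1) = 6 * c.2.length * (j + 1) + 1 := by
        rw [← hk, Fintype.card_fin]
        push_cast
        ring
      have h13 : ((i : ℝ) + 1) ≤ 3 * (j + 1) := by exact_mod_cast h8
      have h14 : 2 * ((codeGraph c).edgeSet.ncard : ℝ) / (6 * c.2.length * (j + 1) + 1) ≤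
          1 / (3 * (j + 1)) := by
        rw [div_le_div_iff₀ (by positivity) (by positivity)]
        nlinarith
      have h15 : ((i : ℝ) + 1) * (1 / (3 * (j + 1))) ≤ 1 := by
        rw [mul_one_div, div_le_one (by positivity)]
        exact h13
      rw [h12] at h10
      push_cast at h10
      rw [div_mul_eq_mul_div, le_div_iff₀ hq] at h10
      have h16 := mul_le_mul_of_nonneg_left h14 (show (0 : ℝ) ≤ i + 1 by positivity)
      linarith
    · have h9 : 3 * ((j : ℝ) + 1) ≤ i := by exact_mod_cast (by omega : 3 * (j + 1) ≤ i)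
      nlinarith
  push_cast
  rw [abs_le]
  have h9 : ((i : ℝ) + 1) / (j + 1) = i / (j + 1) + 1 / (j + 1) := by ring
  have h10 : ((i : ℝ) + 2) / (j + 1) = i / (j + 1) + 1 / (j + 1) + 1 / (j + 1) := by ring
  constructor <;> linarith

end Pool.Agent.HB
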