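import Pool.Agent.P.HB.Conn2
import Pool.Agent.P.HB.RComp

/-! The hard graphs can be taken connected. -/

set_option autoImplicit false

open Filter Topology

namespace Pool.Agent.HB

section strip
open Pool.Agent.Lib.PrimrecProp

/-- the vertices that lie on an edge -/
def suppL (c : ℕ × List (ℕ × ℕ)) : List ℕ :=
  (List.range c.1).filter fun x => (List.range c.1).any fun y => adjb c.2 x y

/-- remove the isolated vertices from a code -/
def strip (c : ℕ × List (ℕ × ℕ)) : ℕ × List (ℕ × ℕ) :=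
  ((suppL c).length, (pairs (List.range (suppL c).length) (List.range (suppL c).length)).filter
    fun p => adjb c.2 ((suppL c).getD p.1 0) ((suppL c).getD p.2 0))

theorem strip_primrec : Primrec strip := by
  unfold strip suppL
  fun_prop

theorem mem_suppL {c : ℕ × List (ℕ × ℕ)} {x : Fin c.1} :
    x.1 ∈ suppL c ↔ x ∈ (codeGraph c).support := by
  have hadj : ∀ a b : Fin c.1, adjb c.2 a b = true ↔ (codeGraph c).Adj a b := adjb_iff c.2
  simp only [suppL, List.mem_filter, List.mem_range, List.any_eq_true, SimpleGraph.mem_support]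
  exact ⟨fun ⟨_, y, hy, h⟩ => ⟨⟨y, hy⟩, (hadj _ _).1 h⟩,
    fun ⟨y, h⟩ => ⟨x.2, y, y.2, (hadj _ _).2 h⟩⟩

theorem strip_spec (c : ℕ × List (ℕ × ℕ)) : ∃ j : Fin (strip c).1 ↪ Fin c.1,
    codeGraph c = (codeGraph (strip c)).map j ∧ ∀ i, j i ∈ (codeGraph c).support := by
  have hadj : ∀ a b : Fin c.1, adjb c.2 a b = true ↔ (codeGraph c).Adj a b := adjb_iff c.2
  have hn : (suppL c).Nodup := List.nodup_range.filter _
  have hlt : ∀ i : Fin (suppL c).length, (suppL c)[i.1] < c.1 := fun i =>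
    List.mem_range.1 (List.mem_filter.1 (List.getElem_mem i.2)).1
  let j : Fin (suppL c).length ↪ Fin c.1 := ⟨fun i => ⟨(suppL c)[i.1], hlt i⟩, fun i i' e =>
    Fin.ext ((hn.getElem_inj_iff).1 (congrArg Fin.val e))⟩
  have hj : ∀ i : Fin (suppL c).length, (suppL c).getD i.1 0 = (j i).1 := fun i =>
    List.getD_eq_getElem _ _ i.2
  have key : ∀ a b : Fin (suppL c).length,
      (codeGraph (strip c)).Adj a b ↔ (codeGraph c).Adj (j a) (j b) := by
    intro a b
    have h1 : ∀ a b : Fin (suppL c).length,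
        (a.1, b.1) ∈ (strip c).2 ↔ (codeGraph c).Adj (j a) (j b) := by
      intro a b
      simp only [strip, List.mem_filter, mem_pairs, List.mem_range, hj, hadj]
      exact ⟨fun h => h.2, fun h => ⟨⟨a.2, b.2⟩, h⟩⟩
    refine (SimpleGraph.fromRel_adj _ _ _).trans ⟨fun h => ?_, fun h => ?_⟩
    · exact h.2.elim (h1 a b).1 fun h => ((h1 b a).1 h).symm
    · exact ⟨fun e => h.ne (congrArg j e), Or.inl ((h1 a b).2 h)⟩
  have hsur : ∀ x ∈ (codeGraph c).support, ∃ a, j a = x := by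
    intro x hx
    obtain ⟨i, hi, e⟩ := List.getElem_of_mem (mem_suppL.2 hx)
    exact ⟨⟨i, hi⟩, Fin.ext e⟩
  refine ⟨j, ?_, fun i => mem_suppL.1 (List.getElem_mem i.2)⟩
  ext x y
  refine Iff.trans ?_ (SimpleGraph.map_adj j (codeGraph (strip c)) x y).symm
  constructor
  · intro h
    obtain ⟨a, rfl⟩ := hsur x ⟨y, h⟩
    obtain ⟨b, rfl⟩ := hsur y ⟨_, h.symm⟩
    exact ⟨a, b, (key a b).2 h, rfl, rfl⟩
  · rintro ⟨a, b, h, rfl, rfl⟩
    exact (key a b).1 h

theorem reach_map {W W' : Type} {H : SimpleGraph W} (e : W ↪ W')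
    (h : ∀ a ∈ H.support, ∀ b ∈ H.support, H.Reachable a b) :
    ∀ a ∈ (H.map e).support, ∀ b ∈ (H.map e).support, (H.map e).Reachable a b := by
  rintro a ⟨a', ha⟩ b ⟨b', hb⟩
  obtain ⟨a, a', h1, rfl, rfl⟩ := (SimpleGraph.map_adj _ _ _ _).1 ha
  obtain ⟨b, b', h2, rfl, rfl⟩ := (SimpleGraph.map_adj _ _ _ _).1 hb
  exact (h a ⟨_, h1⟩ b ⟨_, h2⟩).map (SimpleGraph.Embedding.map e H).toHom

theorem conn_of_map {W W' : Type} [Fintype W] {H : SimpleGraph W} (e : W ↪ W')
    (hs : ∀ i, e i ∈ (H.map e).support)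
    (h : ∀ a ∈ (H.map e).support, ∀ b ∈ (H.map e).support, (H.map e).Reachable a b)
    (h2 : 2 ≤ Fintype.card W) : H.Connected := by
  have : Nonempty W := Fintype.card_pos_iff.1 (by omega)
  have key : ∀ a y, Relation.ReflTransGen (H.map e).Adj (e a) y →
      ∃ b, y = e b ∧ H.Reachable a b := by
    intro a y h
    induction h with
    | refl => exact ⟨a, rfl, .refl a⟩
    | tail _ h2 ih =>
      obtain ⟨b, rfl, h3⟩ := ih
      obtain ⟨b', c, h4, h5, rfl⟩ := (SimpleGraph.map_adj _ _ _ _).1 h2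
      obtain rfl := e.injective h5
      exact ⟨c, rfl, h3.trans h4.reachable⟩
  refine ⟨fun a b => ?_⟩
  obtain ⟨b', h3, h4⟩ := key a _
    ((SimpleGraph.reachable_iff_reflTransGen _ _).1 (h _ (hs a) _ (hs b)))
  rw [e.injective h3]
  exact h4

theorem fromRel_map {W W' : Type} (r : W → W → Prop) (ρ : W' → W' → Prop) (e : W ↪ W')
    (h1 : ∀ a b, ρ (e a) (e b) ↔ r a b) (h2 : ∀ x y, ρ x y → (∃ a, e a = x) ∧ ∃ b, e b = y) :
    SimpleGraph.fromRel ρ = (SimpleGraph.fromRel r).map e := by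
  ext x y
  rw [SimpleGraph.map_adj, SimpleGraph.fromRel_adj]
  constructor
  · rintro ⟨hne, h⟩
    obtain ⟨a, rfl⟩ : ∃ a, e a = x := h.elim (fun h => (h2 _ _ h).1) fun h => (h2 _ _ h).2
    obtain ⟨b, rfl⟩ : ∃ b, e b = y := h.elim (fun h => (h2 _ _ h).2) fun h => (h2 _ _ h).1
    exact ⟨a, b, (SimpleGraph.fromRel_adj _ _ _).2
      ⟨fun h => hne (congrArg e h), h.imp (h1 _ _).1 (h1 _ _).1⟩, rfl, rfl⟩
  · rintro ⟨a, b, h, rfl, rfl⟩
    obtain ⟨h3, h4⟩ := (SimpleGraph.fromRel_adj _ _ _).1 h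
    exact ⟨fun h => h3 (e.injective h), h4.imp (h1 _ _).2 (h1 _ _).2⟩

end strip

section conn
variable {τ : Type} [Fintype τ] [Inhabited τ] {ι : Type} {F : ι → Clause τ} {halt : τ} {Kn : ℕ}

omit [Inhabited τ] in
theorem blob_reach {W : Type} {H : SimpleGraph W} (b : Tm (Gm τ) → W)
    (h : ∀ t t', base t t' → H.Adj (b t) (b t')) (t t' : Tm (Gm τ)) : H.Reachable (b t) (b t') := by
  have h1 := sG_ge (Γ := Gm τ)
  have h2 : 0 < 100 * sG (Gm τ) ^ 2 := by positivity
  have key : ∀ t, H.Reachable (b t) (b (.inr ⟨0, h2⟩)) := by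
    intro t
    by_cases e : t = .inr ⟨0, h2⟩
    · rw [e]
    · refine (h _ _ ⟨e, ?_⟩).reachable
      rcases t with p | p
      · exact (Fintype.equivFin (Gm τ) p.1).2
      · exact Nat.zero_le _
  exact (key t).trans (key t').symm

theorem reach_HC (hF : ∀ c, (F c).length + 2 ≤ Kn) (hr : 3 * rr (Gm τ) ≤ Kn) {o : Fin Kn}
    (ho : o.1 = 0) : ∀ a ∈ (HC F halt o).support, ∀ b ∈ (HC F halt o).support,
      (HC F halt o).Reachable a b := by
  have hP : ∀ (u : Option (CI ι) × Bool) t t',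
      (HC F halt o).Reachable (.inr (.inr (u, t))) (.inr (.inr (u, t'))) := fun u =>
    blob_reach (H := HC F halt o) (fun t => .inr (.inr (u, t))) fun t t' h =>
      attach_inr _ _ ⟨trivial, trivial, Or.inl ⟨rfl, h⟩⟩
  have hH : ∀ c (u : Fin Kn), (compBP F halt c).act u → ∀ t t',
      (HC F halt o).Reachable (.inl (c, .inr (u, t))) (.inl (c, .inr (u, t'))) := fun c u hu =>
    blob_reach (H := HC F halt o) (fun t => .inl (c, .inr (u, t))) fun t t' h =>
      (attach_inl _ _).2 (copy_adj F halt c ⟨hu, hu, Or.inl ⟨rfl, h⟩⟩)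
  let hub : VH τ ι Kn ⊕ Vx τ (Option (CI ι) × Bool) := .inr (lend (none, false) true false)
  have h1 : ∀ j t, (HC F halt o).Reachable (.inr (.inr ((j, false), t))) hub := by
    rintro (_ | c) t
    · exact hP _ _ _
    · exact (hP _ _ _).trans
        (attach_lnk _ _ (j := some c) (a := true) rfl (by simp [lend, hub])).reachable
  have h2 : ∀ u t, (HC F halt o).Reachable (.inr (.inr (u, t))) hub := by
    rintro ⟨j, _ | _⟩ t
    · exact h1 j t
    · have h3 : (HC F halt o).Adj (.inr (.inr ((j, false), .inl ((.anc, true), 0))))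
          (.inr (.inr ((j, true), .inl ((.anc, false), 0)))) :=
        attach_inr _ _ ⟨trivial, trivial, Or.inr ⟨by simp, .anc, 0,
          ⟨rfl, rfl, rfl, rfl, by simp⟩, rfl, rfl⟩⟩
      exact ((hP _ _ _).trans h3.symm.reachable).trans (h1 j _)
  have h3 : ∀ c t, (HC F halt o).Reachable (.inl (c, .inr (o, t))) hub := fun c t =>
    ((hH c o (ho ▸ (comp_zero c).1) _ _).trans
      (attach_lnk _ _ (j := some c) (a := false) rfl (by simp)).symm.reachable).trans (h2 _ _)
  have harc : ∀ c (u u' : Fin Kn) k, (compBP F halt c).act u → (compBP F halt c).act u' →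
      u.1 ≠ u'.1 → (compBP F halt c).arc u k u' 0 → ∀ t t',
      (HC F halt o).Reachable (.inl (c, .inr (u, t))) (.inl (c, .inr (u', t'))) := by
    intro c u u' k hu hu' hne h t t'
    have h4 : (HC F halt o).Adj (.inl (c, .inr (u, .inl ((k, true), 0))))
        (.inl (c, .inr (u', .inl ((k, false), 0)))) :=
      (attach_inl _ _).2 (copy_adj F halt c ⟨hu, hu', Or.inr ⟨hne, k, 0, h, rfl, rfl⟩⟩)
    exact ((hH c u hu _ _).trans h4.reachable).trans (hH c u' hu' _ _)
  have hatt : ∀ (u : Fin Kn) s t, u.1 < 3 * rr (Gm τ) → u.1 % 3 = 0 →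
      (HC F halt o).Reachable (.inl (none, .inl s)) (.inl (none, .inr (u, t))) := by
    intro u s t hu h0
    have h4 : (HC F halt o).Adj (.inl (none, .inl s))
        (.inl (none, .inr (u, .inl ((.att s, false), 0)))) :=
      (attach_inl _ _).2 (copy_adj F halt none ⟨hu, h0, 0, by simp, rfl⟩)
    exact h4.reachable.trans (hH none u hu _ _)
  have hr1 : 1 ≤ rr (Gm τ) := rr_pos
  have h4 : ∀ s, (HC F halt o).Reachable (.inl (none, .inl s)) hub := fun s =>
    (hatt o s (.inl ((.ok, false), 0)) (by omega) (by omega)).trans (h3 _ _)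
  have h5 : ∀ c (u : Fin Kn) t, (compBP F halt c).act u →
      (HC F halt o).Reachable (.inl (c, .inr (u, t))) hub := by
    rintro (_ | c) u t hu
    · change u.1 < 3 * rr (Gm τ) at hu
      have h6 : ∀ (u : Fin Kn) t, u.1 < 3 * rr (Gm τ) → u.1 % 3 = 0 →
          (HC F halt o).Reachable (.inl (none, .inr (u, t))) hub := fun u t hu h0 =>
        (hatt u false t hu h0).symm.trans (h4 false)
      have h7 : u.1 / 3 * 3 < Kn := by omega
      have h8 : u.1 / 3 * 3 < 3 * rr (Gm τ) := by omega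
      obtain h0 | h0 | h0 : u.1 % 3 = 0 ∨ u.1 % 3 = 1 ∨ u.1 % 3 = 2 := by omega
      · exact h6 u t hu h0
      · exact (harc none ⟨_, h7⟩ u .anc h8 hu (by simp only; omega) (Or.inl ⟨by simp only; omega,
          rfl, by simp only; omega, by omega⟩) t t).symm.trans (h6 _ t h8 (by simp only; omega))
      · exact (harc none u ⟨_, h7⟩ (.tag halt) hu h8 (by simp only; omega) (Or.inr ⟨h0,
          by simp only; omega, Or.inl ⟨rfl, by omega⟩⟩) t t).trans (h6 _ t h8 (by simp only; omega))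
    · have h0 : (compBP F halt (some c)).act o := ho ▸ (comp_zero _).1
      obtain h6 | h6 | h6 : u.1 = 0 ∨ u.1 = 1 ∨ 2 ≤ u.1 := by omega
      · obtain rfl : u = o := Fin.ext (h6.trans ho.symm)
        exact h3 _ _
      · exact (harc _ o u .anc h0 hu (by omega) (Or.inl ⟨ho, rfl, h6, by omega⟩) t t).symm.trans
          (h3 _ _)
      · exact (harc _ u o _ hu h0 (by omega)
          (Or.inr ⟨h6, Or.inl ⟨rfl, ho, by omega⟩⟩) t t).trans (h3 _ _)
  have h6 : ∀ c (a b : Vx τ (Fin Kn)), ((compBP F halt c).comap Fin.val).rel a b →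
      (HC F halt o).Reachable (.inl (c, a)) hub ∧ (HC F halt o).Reachable (.inl (c, b)) hub := by
    intro c a b h
    rcases a with s | ⟨u, t⟩ <;> rcases b with s' | ⟨u', t'⟩
    · rcases c with _ | c
      · exact ⟨h4 _, h4 _⟩
      · exact h.1.elim
    · rcases c with _ | c
      · exact ⟨h4 _, h5 _ _ _ h.1⟩
      · exact h.2.1.elim
    · exact h.elim
    · exact ⟨h5 _ _ _ h.1, h5 _ _ _ h.2.1⟩
  have key : ∀ a ∈ (HC F halt o).support, (HC F halt o).Reachable a hub := by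
    rintro v ⟨w, h⟩
    have h7 : ∀ v' w', s(v, w) = s(v', w') → (HC F halt o).Reachable v' hub →
        (HC F halt o).Reachable v hub := by
      intro v' w' e h8
      rcases Sym2.eq_iff.1 e with ⟨rfl, rfl⟩ | ⟨rfl, rfl⟩
      · exact h8
      · exact h.reachable.trans h8
    rcases attach_cases _ _ h with ⟨⟨c, a⟩, ⟨c', b⟩, h8, h9⟩ | ⟨a, b, h8, h9⟩ | ⟨j, a, u, -, h9⟩
    · refine h7 _ _ h9 ?_
      rcases ((SimpleGraph.fromRel_adj _ _ _).1 h8).2 with ⟨h10, h11⟩ | ⟨h10, h11⟩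
      · exact (h6 c a b h11).1
      · obtain rfl : c' = c := h10
        exact (h6 c' b a h11).2
    · refine h7 _ _ h9 ?_
      rcases a with s | ⟨u, t⟩ <;> rcases b with s' | ⟨u', t'⟩
      · exact h8.1.elim
      · exact h8.2.1.elim
      · exact h8.elim
      · exact h2 _ _
    · exact h7 _ _ h9 (h2 _ _)
  exact fun a ha b hb => (key a ha).trans (key b hb).symm

/-- the edges of the graph with connectors, as a relation -/
def relC (F : ι → Clause τ) (halt : τ) (o : Fin Kn) : VH τ ι Kn ⊕ Vx τ (Option (CI ι) × Bool) →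
    VH τ ι Kn ⊕ Vx τ (Option (CI ι) × Bool) → Prop
  | .inl a, .inl b => a.1 = b.1 ∧ ((compBP F halt a.1).comap Fin.val).rel a.2 b.2
  | .inr y, .inr y' => (pairBP τ _).rel y y' ∨
      ∃ c, y = lend (some c, false) true true ∧ y' = lend (none, false) true false
  | .inr y, .inl b => y = lend (some b.1, false) false true ∧ b.2 = lend o false false
  | .inl _, .inr _ => False

theorem HC_eq (o : Fin Kn) : HC F halt o = SimpleGraph.fromRel (relC F halt o) := by
  refine le_antisymm (fun v w h => ?_) fun v w h => ?_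
  · have h7 : ∀ v' w', s(v, w) = s(v', w') → relC F halt o v' w' →
        (SimpleGraph.fromRel (relC F halt o)).Adj v w := by
      intro v' w' e h8
      refine (SimpleGraph.fromRel_adj _ _ _).2 ⟨h.ne, ?_⟩
      rcases Sym2.eq_iff.1 e with ⟨rfl, rfl⟩ | ⟨rfl, rfl⟩
      exacts [Or.inl h8, Or.inr h8]
    rcases attach_cases _ _ h with ⟨a, b, h8, h9⟩ | ⟨a, b, h8, h9⟩ | ⟨j, a, u, h8, h9⟩
    · rcases ((SimpleGraph.fromRel_adj _ _ _).1 h8).2 with h10 | h10
      · exact h7 _ _ h9 h10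
      · exact h7 _ _ (h9.trans Sym2.eq_swap) h10
    · exact h7 _ _ h9 (Or.inl h8)
    · rcases j with _ | c
      · cases h8
      · refine h7 _ _ h9 ?_
        cases a <;> obtain rfl := Option.some.inj h8
        exacts [⟨rfl, rfl⟩, Or.inr ⟨c, rfl, rfl⟩]
  · have key : ∀ v w, v ≠ w → relC F halt o v w → (HC F halt o).Adj v w := by
      rintro (a | y) (b | y') hne h
      · exact (attach_inl _ _).2 ((SimpleGraph.fromRel_adj _ _ _).2
          ⟨fun e => hne (congrArg _ e), Or.inl h⟩)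
      · exact h.elim
      · obtain ⟨c, b⟩ := b
        obtain ⟨rfl, h1⟩ := h
        obtain rfl : b = _ := h1
        exact attach_lnk _ _ (j := some c) (a := false) rfl hne
      · rcases h with h | ⟨c, rfl, rfl⟩
        · exact attach_inr _ _ h
        · exact attach_lnk _ _ (j := some c) (a := true) rfl hne
    obtain ⟨h1, h2 | h2⟩ := (SimpleGraph.fromRel_adj _ _ _).1 h
    exacts [key v w h1 h2, (key w v h1.symm h2).symm]

/-- the same relation on coded vertices -/
def rhoC (F : ι → Clause τ) (halt : τ) (u u' : ℕ) :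
    (CI ι × (Bool ⊕ Tm (Gm τ))) ⊕ Vx τ (Option (CI ι) × Bool) →
    (CI ι × (Bool ⊕ Tm (Gm τ))) ⊕ Vx τ (Option (CI ι) × Bool) → Prop
  | .inl t, .inl t' => t.1 = t'.1 ∧ compb_valid u t.2 ∧ compb_valid u' t'.2 ∧
      (compBP F halt t.1).rel (compb_lift u t.2) (compb_lift u' t'.2)
  | .inr y, .inr y' => u = 0 ∧ u' = 0 ∧ ((pairBP τ _).rel y y' ∨
      ∃ c, y = lend (some c, false) true true ∧ y' = lend (none, false) true false)
  | .inr y, .inl t => u = 0 ∧ u' = 0 ∧ (y = lend (some t.1, false) false true ∧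
      t.2 = .inr (.inl ((.lnk false, false), 0)))
  | .inl _, .inr _ => False

/-- the code of a vertex -/
def encC (K : ℕ) : VH τ ι (K + 1) ⊕ Vx τ (Option (CI ι) × Bool) →
    Fin (K + 1) × ((CI ι × (Bool ⊕ Tm (Gm τ))) ⊕ Vx τ (Option (CI ι) × Bool))
  | .inl a => ((compb_enc 0 a.2).1, .inl (a.1, (compb_enc 0 a.2).2))
  | .inr y => (0, .inr y)

omit [Inhabited τ] in
theorem encC_inj (K : ℕ) : Function.Injective (encC (τ := τ) (ι := ι) K) := by
  rintro (a | y) (b | y') h
  · simp only [encC, Prod.mk.injEq, Sum.inl.injEq] at h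
    refine congrArg _ (Prod.ext h.2.1 ?_)
    rw [← compb_lift_enc 0 a.2, ← compb_lift_enc 0 b.2, h.1, h.2.2]
  · simp [encC] at h
  · simp [encC] at h
  · simpa [encC] using h

theorem rho_map (K : ℕ) : (SimpleGraph.fromRel fun a b : Fin (K + 1) × _ =>
    rhoC F halt a.1 b.1 a.2 b.2) = (HC F halt (0 : Fin (K + 1))).map
      (Function.Embedding.mk _ (encC_inj K)) := by
  rw [HC_eq]
  have h1 : ∀ (u : Fin (K + 1)) (t : CI ι × (Bool ⊕ Tm (Gm τ))), compb_valid u.1 t.2 →
      ∃ a, encC K a = (u, .inl t) := fun u t h =>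
    ⟨.inl (t.1, compb_lift u t.2), by simp only [encC, compb_enc_lift 0 rfl _ _ h]⟩
  have h2 : ∀ (u : Fin (K + 1)) (y : Vx τ (Option (CI ι) × Bool)), u.1 = 0 →
      ∃ a, encC K a = (u, .inr y) := fun u y h => ⟨.inr y, Prod.ext (Fin.ext h.symm) rfl⟩
  refine fromRel_map _ _ _ ?_ ?_
  · rintro (a | y) (b | y')
    · refine and_congr Iff.rfl ⟨fun h => ?_, fun h => ⟨compb_valid_enc 0 rfl _,
        compb_valid_enc 0 rfl _, (compb_rel_iff _ _ _ _ _).1 ?_⟩⟩
      · have h3 := (compb_rel_iff _ _ _ _ _).2 h.2.2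
        simpa only [Function.Embedding.coeFn_mk, encC, compb_lift_enc] using h3
      · simpa only [Function.Embedding.coeFn_mk, encC, compb_lift_enc] using h
    · exact Iff.rfl
    · obtain ⟨c, s | ⟨u, t⟩⟩ := b
      · simp [encC, rhoC, relC, compb_enc, lend]
      · simp only [Function.Embedding.coeFn_mk, encC, rhoC, relC, compb_enc, lend, Fin.val_zero,
          true_and, Sum.inr.injEq, Prod.mk.injEq, Fin.ext_iff]
        tauto
    · exact ⟨fun h => h.2.2, fun h => ⟨rfl, rfl, h⟩⟩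
  · rintro ⟨u, t | y⟩ ⟨u', t' | y'⟩ h
    · exact ⟨h1 u t h.2.1, h1 u' t' h.2.2.1⟩
    · exact h.elim
    · refine ⟨h2 u y h.1, h1 u' t' ?_⟩
      rw [h.2.2.2]
      trivial
    · exact ⟨h2 u y h.1, h2 u' y' h.2.1⟩

variable [Fintype ι]

theorem exists_codeC (F : ℕ → ι → Clause τ)
    (hF : ∀ (c : ι) (B : Type) [Primcodable B] (χ : τ → B),
      Primrec fun n => (F n c).map fun x => (χ x.1, x.2)) (halt : τ) :
    ∃ (code : ℕ → ℕ × List (ℕ × ℕ)) (Kf : ℕ → ℕ), Primrec code ∧ ∀ n,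
      (∀ c, (F n c).length + 2 ≤ Kf n) ∧ 3 * rr (Gm τ) ≤ Kf n ∧ ∃ o : Fin (Kf n), o.1 = 0 ∧
      ∃ e : VH τ ι (Kf n) ⊕ Vx τ (Option (CI ι) × Bool) ↪ Fin (code n).1,
        codeGraph (code n) = (HC (F n) halt o).map e := by
  have hu : Primrec fun x : ℕ × ℕ × ℕ => x.2.1 := Primrec.fst.comp Primrec.snd
  have hv : Primrec fun x : ℕ × ℕ × ℕ => x.2.2 := Primrec.snd.comp Primrec.snd
  have hK : Primrec fun n => 3 * rr (Gm τ) + ∑ c, ((F n c).length + 2) + 1 :=
    Primrec.nat_add.comp (Primrec.nat_add.comp (Primrec.const _)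
      (compb_sum Finset.univ (fun c n => (F n c).length + 2) fun c =>
        compb_len (fun n => F n c) (hF c ℕ fun _ => 0))) (Primrec.const 1)
  obtain ⟨code, hc, h⟩ := code_of_rel
    (T := (CI ι × (Bool ⊕ Tm (Gm τ))) ⊕ Vx τ (Option (CI ι) × Bool)) _ hK
    (fun n a b => rhoC (F n) halt a.1 b.1 a.2 b.2) (by
      rintro (t | y) (t' | y')
      · exact ((compb_const (t.1 = t'.1)).and ((compb_valid_primrec hu t.2).and
          ((compb_valid_primrec hv t'.2).and
            (compb_rel_primrec F hF halt t.1 t.2 t'.2)))).of_eq fun x => Iff.rfl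
      · exact compb_const False
      · exact ((compb_eq hu (Primrec.const 0)).and ((compb_eq hv (Primrec.const 0)).and
          (compb_const _))).of_eq fun x => Iff.rfl
      · exact ((compb_eq hu (Primrec.const 0)).and ((compb_eq hv (Primrec.const 0)).and
          (compb_const _))).of_eq fun x => Iff.rfl)
  refine ⟨code, fun n => 3 * rr (Gm τ) + ∑ c, ((F n c).length + 2) + 1, hc, fun n => ?_⟩
  beta_reduce
  refine ⟨fun c => ?_, by omega, 0, rfl, ?_⟩
  · have := Finset.single_le_sum (f := fun c => (F n c).length + 2) (fun _ _ => Nat.zero_le _)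
      (Finset.mem_univ c)
    omega
  · obtain ⟨e, he⟩ := h n
    refine ⟨(Function.Embedding.mk _ (encC_inj _)).trans e, ?_⟩
    rw [he, Function.Embedding.coe_trans, ← SimpleGraph.map_map, ← rho_map]

theorem two_le_edgesC (halt : τ) (hr : 3 * rr (Gm τ) ≤ Kn) (o : Fin Kn) :
    2 ≤ (HC F halt o).edgeSet.ncard := by
  refine (two_le_edges (F := F) halt hr).trans ?_
  rw [← ncard_map _ (Function.Embedding.inl (β := Vx τ (Option (CI ι) × Bool)))]
  refine Set.ncard_le_ncard (SimpleGraph.edgeSet_mono fun v w h => ?_) (Set.toFinite _)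
  obtain ⟨a, b, h1, rfl, rfl⟩ := (SimpleGraph.map_adj _ _ _ _).1 h
  exact (attach_inl _ _).2 h1

omit [Fintype ι] in
theorem mainC_lower {Good : Term τ → Prop} (hw : ∀ c, WF (F c)) (hso : ∀ c, Sound Good (F c))
    (hG : ∀ l r, ¬ Good (.node halt l r)) (hF : ∀ c, (F c).length + 2 ≤ Kn)
    (hr : 3 * rr (Gm τ) ≤ Kn) {o : Fin Kn} (ho : o.1 = 0) {β : ℝ} (hβ : 2 * (mm (Gm τ) : ℝ) / AA (Gm τ) < β) :
    ∀ᶠ n : ℕ in atTop, -β ≤ expo (HC F halt o) n := by
  obtain ⟨hm, hA⟩ := main_pos (τ := τ)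
  have hA0 : (0 : ℝ) < AA (Gm τ) := by linarith
  have hβ0 : 0 < β := lt_trans (by positivity) hβ
  have h1 : 1 / β < AA (Gm τ) / (2 * (mm (Gm τ) : ℝ)) := by
    rw [div_lt_iff₀ hA0] at hβ
    rw [div_lt_div_iff₀ hβ0 (by positivity)]
    linarith
  obtain ⟨θ, h2, h3⟩ := exists_between h1
  have hθ : 0 < θ := lt_trans (by positivity) h2
  rw [div_lt_iff₀ hβ0] at h2
  rw [lt_div_iff₀ (by positivity)] at h3
  obtain ⟨L, hL⟩ := lowerC_theta hw hso hG hF hr ho hθ (by linarith)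
  filter_upwards [first_rooted hθ (β := β) (by linarith) L (δ := 1 / 4) (by norm_num),
    eventually_ge_atTop 3] with n h4 hn
  refine le_expo _ (by omega) fun p hp => ?_
  obtain ⟨Rt, -, hRt⟩ := Finset.exists_subset_card_eq
    (s := (Finset.univ : Finset (Fin n))) (n := 3) (by simpa using hn)
  refine lt_of_le_of_lt ((Pr_mono fun G hG => ?_).trans (h4 p hp Rt hRt.le)) (by norm_num)
  by_contra hc
  refine hL n G Rt hRt (fun X hX => ?_) hG
  by_contra hc'
  exact hc ⟨X, hX, not_le.1 hc'⟩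

theorem mainC_upper (hw : ∀ c, WF (F c)) (hF : ∀ c, (F c).length + 2 ≤ Kn)
    (hr : 3 * rr (Gm τ) ≤ Kn) {o : Fin Kn} (ho : o.1 = 0)
    {𝒯 : Finset (Term τ)} (h : Der F 𝒯 (.node halt .nil .nil)) :
    ∃ β : ℝ, 2 * (mm (Gm τ) : ℝ) / AA (Gm τ) < β ∧
      ∀ᶠ n : ℕ in atTop, expo (HC F halt o) n ≤ -β := by
  classical
  obtain ⟨hm, hA⟩ := main_pos (τ := τ)
  have hA0 : (0 : ℝ) < AA (Gm τ) := by linarith
  have h2 := two_le_edgesC (F := F) halt hr o
  obtain ⟨a, b, hab⟩ : ∃ a b, (HC F halt o).Adj a b := by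
    have h3 : (HC F halt o).edgeSet.Nonempty := Set.nonempty_of_ncard_ne_zero (by omega)
    obtain ⟨e, he⟩ := h3
    induction e using Sym2.ind with
    | _ a b => exact ⟨a, b, he⟩
  have h4 : ∀ S : Finset ((Vx τ (NW τ 𝒯) ⊕ VH τ ι Kn) ⊕
      Vx τ ((Option (CI ι) ⊕ Fin (rr (Gm τ))) × Bool)),
      ∀ᶠ β : ℝ in 𝓝 (2 * (mm (Gm τ) : ℝ) / AA (Gm τ)), S.Nonempty →
        Disjoint S {.inl (.inl (.inl false)), .inl (.inl (.inl true))} →
        β * eIn (WC F halt o 𝒯) (S ∪ {.inl (.inl (.inl false)), .inl (.inl (.inl true))}) < S.card := by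
    intro S
    by_cases hS : S.Nonempty ∧ Disjoint S {.inl (.inl (.inl false)), .inl (.inl (.inl true))}
    · have h5 := sparse_WC hw halt o 𝒯 S hS.1 hS.2
      rw [ec_eq_eIn] at h5
      have h6 : (mm (Gm τ) : ℝ) * (2 * eIn (WC F halt o 𝒯)
          (S ∪ {.inl (.inl (.inl false)), .inl (.inl (.inl true))})) < AA (Gm τ) * S.card := by exact_mod_cast h5
      have h7 : 2 * (mm (Gm τ) : ℝ) / AA (Gm τ) * eIn (WC F halt o 𝒯)
          (S ∪ {.inl (.inl (.inl false)), .inl (.inl (.inl true))}) < S.card := by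
        rw [div_mul_eq_mul_div, div_lt_iff₀ hA0]
        linarith
      have h8 : Continuous fun β : ℝ => β * eIn (WC F halt o 𝒯)
          (S ∪ {.inl (.inl (.inl false)), .inl (.inl (.inl true))}) := continuous_id.mul continuous_const
      exact ((h8.tendsto _).eventually (gt_mem_nhds h7)).mono fun β hβ _ _ => hβ
    · exact Eventually.of_forall fun β h1 h2 => absurd ⟨h1, h2⟩ hS
  have h9 : 2 * (mm (Gm τ) : ℝ) / AA (Gm τ) < 1 := (div_lt_one hA0).2 hA
  have h10 := ((eventually_all.2 h4).and (gt_mem_nhds h9)).filter_mono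
    (nhdsWithin_le_nhds (s := Set.Ioi (2 * (mm (Gm τ) : ℝ) / AA (Gm τ))))
  obtain ⟨β, ⟨h11, h12⟩, h13⟩ := (h10.and self_mem_nhdsWithin).exists
  have hβ0 : 0 < β := lt_trans (by positivity) h13
  refine ⟨β, h13, ?_⟩
  filter_upwards [upper_whp (HC F halt o) hab (WC F halt o 𝒯) (by simp)
    (fun h => roots_not_adj halt Kn 𝒯 ((attach_inl _ _).1 h)) hβ0 h12 h11
    fun n G f hf => upperC_fin hw h _ (fireP_HC hF hr ho f hf),
    eventually_ge_atTop 2] with n h14 hn
  exact expo_le _ h2 hn hβ0 h14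

end conn

open Turing in
theorem main_conn : ∃ a : ℚ, ∀ v : ℕ × List (ℕ × ℕ) → EReal,
    (∀ c, (codeGraph c).Connected → 2 ≤ (codeGraph c).edgeSet.ncard →
      liminf (fun n => (expo (codeGraph c) n : EReal)) atTop ≤ v c ∧
        v c ≤ limsup (fun n => (expo (codeGraph c) n : EReal)) atTop) →
    ¬ REPred fun c => ((a : ℝ) : EReal) ≤ v c := by
  classical
  obtain ⟨A, Λ, _, _, _, M, S, a₀, R, hS, hR, hU⟩ := Pool.Agent.P.MP_067fd8_lc.tm0_undec
  let _ : Fintype A := Fintype.ofFinite A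
  let _ : Fintype (Tg S A) := Fintype.ofFinite _
  let _ : Fintype (Ix S A) := inferInstance
  let q₀ : S := ⟨default, hS.1⟩
  obtain ⟨code, Kf, hcode, hK⟩ := exists_codeC (fun n => machF M S q₀ a₀ (R n))
    (fun c B _ χ => machF_primrec M S q₀ a₀ R hR c B χ) Tg.halt
  refine ⟨-(2 * (mm (Gm (Tg S A)) : ℚ) / AA (Gm (Tg S A))), fun v hv h => hU ?_⟩
  refine REPred.of_eq (h.comp (strip_primrec.comp hcode).to_comp) fun n => ?_
  obtain ⟨hF, hr, o, ho, e, he⟩ := hK n
  obtain ⟨j, hj, hs⟩ := strip_spec (code n)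
  have h0 : 2 ≤ (codeGraph (strip (code n))).edgeSet.ncard := by
    rw [← ncard_map _ j, ← hj, he, ncard_map]
    exact two_le_edgesC _ hr o
  have hw := machF_wf M S q₀ a₀ (R n)
  obtain ⟨h1, h2⟩ := hv (strip (code n)) (conn_of_map j (hj ▸ hs) (by
    rw [← hj, he]
    exact reach_map e (reach_HC hF hr ho)) (two_le_card _ h0)) h0
  have h3 : ∀ᶠ N : ℕ in atTop, expo (codeGraph (strip (code n))) N =
      expo (HC (machF M S q₀ a₀ (R n)) Tg.halt o) N := by
    filter_upwards [eventually_ge_atTop (code n).1] with N hN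
    rw [← expo_map _ j (by simpa using hN), ← hj, he]
    exact expo_map _ _ (by simpa using hN)
  push_cast
  constructor
  · intro h4 h5
    obtain ⟨𝒯, h6⟩ := machF_der M S q₀ a₀ hS rfl (R n) h5
    obtain ⟨β, h7, h8⟩ := mainC_upper hw hF hr ho h6
    have h9 : limsup (fun N => (expo (codeGraph (strip (code n))) N : EReal)) atTop ≤ ((-β : ℝ) : EReal) := by
      refine limsup_le_of_le (h := ?_)
      filter_upwards [h3, h8] with N h10 h11
      exact EReal.coe_le_coe_iff.2 (h10 ▸ h11)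
    have h10 := EReal.coe_le_coe_iff.1 (h4.trans (h2.trans h9))
    linarith
  · intro h4
    obtain ⟨Good, h5, h6⟩ := machF_sound M S q₀ a₀ rfl (R n) h4
    refine le_trans (EReal.ge_of_forall_gt_iff_ge.1 fun z hz => ?_) h1
    have h7 := EReal.coe_lt_coe_iff.1 hz
    refine le_liminf_of_le (h := ?_)
    filter_upwards [h3, mainC_lower hw h5 h6 hF hr ho (β := -z) (by linarith)] with N h8 h9
    rw [neg_neg] at h9
    exact EReal.coe_le_coe_iff.2 (h8 ▸ h9)

end Pool.Agent.HB
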