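import Pool.Agent.P.HB.Defs

section FileProb

/-! Basic probabilities in the binomial random graph. -/

set_option autoImplicit false

noncomputable section

open Filter Topology

namespace Pool.Agent.HB

/-- Probability of an event in `G(n,p)`. -/
def Pr (n : ℕ) (p : unitInterval) (S : Set (SimpleGraph (Fin n))) : ℝ :=
  (SimpleGraph.binomialRandom (Fin n) p).real S

/-- The number of edges of `G` with both ends in `S`. -/
def eIn {V : Type} (G : SimpleGraph V) (S : Finset V) : ℕ :=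
  {e ∈ G.edgeSet | ∀ v ∈ e, v ∈ S}.ncard

/-- `f` maps edges of `F` to edges of `G`. -/
def Emb {W V : Type} (F : SimpleGraph W) (G : SimpleGraph V) (f : W ↪ V) : Prop :=
  ∀ a b, F.Adj a b → G.Adj (f a) (f b)

variable {n : ℕ} {p : unitInterval}

theorem prob_single (n : ℕ) : MeasurableSingletonClass (SimpleGraph (Fin n)) := ⟨fun G => by
  have h := SimpleGraph.measurable_edgeSet (measurableSet_singleton G.edgeSet)
  rwa [← Set.image_singleton, Set.preimage_image_eq _ SimpleGraph.edgeSet_injective] at h⟩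

theorem prob_meas (S : Set (SimpleGraph (Fin n))) : MeasurableSet S := by
  have := prob_single n
  exact S.toFinite.measurableSet

/-- Cylinder events. -/
theorem prob_cyl (E : Finset (Sym2 (Fin n))) (hE : ∀ e ∈ E, ¬ e.IsDiag) (b : Prop)
    (S : Set (SimpleGraph (Fin n))) (hS : ∀ G, G ∈ S ↔ ∀ e ∈ E, (e ∈ G.edgeSet ↔ b)) :
    Pr n p S = ∏ e ∈ E, ((unitInterval.toNNReal p • MeasureTheory.Measure.dirac (¬ e.IsDiag) +
      unitInterval.toNNReal (unitInterval.symm p) • MeasureTheory.Measure.dirac False :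
        MeasureTheory.Measure Prop) {b}).toReal := by
  unfold Pr
  rw [MeasureTheory.measureReal_def, SimpleGraph.binomialRandom_eq_map,
    MeasureTheory.Measure.map_apply SimpleGraph.measurable_fromEdgeSet (prob_meas S),
    ProbabilityTheory.setBernoulli_apply', ← ENNReal.toReal_prod,
    ← MeasureTheory.Measure.infinitePi_pi _ fun _ _ => measurableSet_singleton b]
  refine congrArg ENNReal.toReal (congrArg _ ?_)
  ext f
  simp only [Set.mem_preimage, hS, SimpleGraph.edgeSet_fromEdgeSet, Set.mem_pi, Finset.mem_coe,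
    Set.mem_singleton_iff, eq_iff_iff]
  refine forall₂_congr fun e he => ?_
  simp [hE e he]

theorem Pr_nonneg (S : Set (SimpleGraph (Fin n))) : 0 ≤ Pr n p S := by
  exact MeasureTheory.measureReal_nonneg

theorem Pr_le_one (S : Set (SimpleGraph (Fin n))) : Pr n p S ≤ 1 := by
  exact MeasureTheory.measureReal_le_one

theorem Pr_mono {S T : Set (SimpleGraph (Fin n))} (h : S ⊆ T) : Pr n p S ≤ Pr n p T := by
  exact MeasureTheory.measureReal_mono h

theorem Pr_compl (S : Set (SimpleGraph (Fin n))) : Pr n p Sᶜ = 1 - Pr n p S := by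
  exact MeasureTheory.probReal_compl_eq_one_sub (prob_meas S)

theorem Pr_union_le (S T : Set (SimpleGraph (Fin n))) : Pr n p (S ∪ T) ≤ Pr n p S + Pr n p T := by
  exact MeasureTheory.measureReal_union_le S T

/-- The union bound. -/
theorem Pr_le_sum {ι : Type} (I : Finset ι) (T : ι → Set (SimpleGraph (Fin n)))
    {S : Set (SimpleGraph (Fin n))} (h : ∀ G ∈ S, ∃ i ∈ I, G ∈ T i) :
    Pr n p S ≤ ∑ i ∈ I, Pr n p (T i) := by
  refine (Pr_mono (T := ⋃ i ∈ I, T i) fun G hG => ?_).trans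
    (MeasureTheory.measureReal_biUnion_finset_le I T)
  obtain ⟨i, hi, hG⟩ := h G hG
  exact Set.mem_biUnion hi hG

open Classical in
/-- Probabilities are finite sums of point masses. -/
theorem Pr_eq_sum (S : Set (SimpleGraph (Fin n))) :
    Pr n p S = ∑ G : SimpleGraph (Fin n), if G ∈ S then Pr n p {G} else 0 := by
  have := prob_single n
  rw [← Finset.sum_filter]
  unfold Pr
  rw [MeasureTheory.sum_measureReal_singleton]
  simp

/-- All the pairs of `E` are edges. -/
theorem Pr_sub (E : Finset (Sym2 (Fin n))) (hE : ∀ e ∈ E, ¬ e.IsDiag) :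
    Pr n p {G | ∀ e ∈ E, e ∈ G.edgeSet} = (p : ℝ) ^ E.card := by
  rw [prob_cyl E hE True _ fun G => by simp, Finset.prod_congr rfl (g := fun _ => (p : ℝ))]
  · simp
  · intro e he
    simp [hE e he]

/-- None of the pairs of `E` is an edge. -/
theorem Pr_disj (E : Finset (Sym2 (Fin n))) (hE : ∀ e ∈ E, ¬ e.IsDiag) :
    Pr n p {G | ∀ e ∈ E, e ∉ G.edgeSet} = (1 - (p : ℝ)) ^ E.card := by
  rw [prob_cyl E hE False _ fun G => by simp, Finset.prod_congr rfl (g := fun _ => 1 - (p : ℝ))]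
  · simp
  · intro e he
    simp [hE e he]

/-- The second moment inequality for a finite family of events of the same probability. -/
theorem Pr_none_le {ι : Type} (I : Finset ι) (hI : I.Nonempty) (T : ι → Set (SimpleGraph (Fin n)))
    {μ : ℝ} (hμ : 0 < μ) (hT : ∀ i ∈ I, Pr n p (T i) = μ) :
    Pr n p {G | ∀ i ∈ I, G ∉ T i} ≤
      (∑ i ∈ I, ∑ j ∈ I, Pr n p (T i ∩ T j)) / (I.card * μ) ^ 2 - 1 := by
  classical
  have hm : 0 < (I.card : ℝ) * μ := mul_pos (by exact_mod_cast hI.card_pos) hμ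
  have e0 : ∑ G : SimpleGraph (Fin n), Pr n p {G} = 1 := by
    have := Pr_eq_sum (p := p) (Set.univ : Set (SimpleGraph (Fin n)))
    simp only [Set.mem_univ, if_true] at this
    rw [← this]
    exact MeasureTheory.probReal_univ
  have e1 : ∑ G : SimpleGraph (Fin n), Pr n p {G} * ∑ i ∈ I, (if G ∈ T i then (1 : ℝ) else 0) =
      I.card * μ := by
    simp only [Finset.mul_sum, mul_ite, mul_one, mul_zero]
    rw [Finset.sum_comm, Finset.sum_congr rfl fun i hi => (Pr_eq_sum (T i)).symm.trans (hT i hi)]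
    simp
  have e2 : ∑ G : SimpleGraph (Fin n),
      Pr n p {G} * (∑ i ∈ I, (if G ∈ T i then (1 : ℝ) else 0)) ^ 2 =
        ∑ i ∈ I, ∑ j ∈ I, Pr n p (T i ∩ T j) := by
    simp only [sq, Finset.sum_mul_sum]
    simp only [Finset.mul_sum]
    rw [Finset.sum_comm]
    refine Finset.sum_congr rfl fun i _ => ?_
    rw [Finset.sum_comm]
    refine Finset.sum_congr rfl fun j _ => ?_
    rw [Pr_eq_sum (T i ∩ T j)]
    refine Finset.sum_congr rfl fun G _ => ?_
    by_cases h1 : G ∈ T i <;> by_cases h2 : G ∈ T j <;> simp [h1, h2]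
  have e3 : Pr n p {G | ∀ i ∈ I, G ∉ T i} * (I.card * μ) ^ 2 ≤ ∑ G : SimpleGraph (Fin n),
      Pr n p {G} * (∑ i ∈ I, (if G ∈ T i then (1 : ℝ) else 0) - I.card * μ) ^ 2 := by
    rw [Pr_eq_sum, Finset.sum_mul]
    refine Finset.sum_le_sum fun G _ => ?_
    by_cases h : G ∈ {G | ∀ i ∈ I, G ∉ T i}
    · rw [if_pos h, Finset.sum_eq_zero fun i hi => if_neg (h i hi)]
      exact le_of_eq (by ring)
    · rw [if_neg h, zero_mul]
      exact mul_nonneg (Pr_nonneg _) (sq_nonneg _)
  have e4 : ∑ G : SimpleGraph (Fin n),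
      Pr n p {G} * (∑ i ∈ I, (if G ∈ T i then (1 : ℝ) else 0) - I.card * μ) ^ 2 =
        ∑ i ∈ I, ∑ j ∈ I, Pr n p (T i ∩ T j) - (I.card * μ) ^ 2 := by
    have : ∀ G : SimpleGraph (Fin n),
        Pr n p {G} * (∑ i ∈ I, (if G ∈ T i then (1 : ℝ) else 0) - I.card * μ) ^ 2 =
          Pr n p {G} * (∑ i ∈ I, (if G ∈ T i then (1 : ℝ) else 0)) ^ 2 -
            2 * (I.card * μ) * (Pr n p {G} * ∑ i ∈ I, (if G ∈ T i then (1 : ℝ) else 0)) +
              (I.card * μ) ^ 2 * Pr n p {G} := fun G => by ring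
    rw [Finset.sum_congr rfl fun G _ => this G, Finset.sum_add_distrib, Finset.sum_sub_distrib,
      ← Finset.mul_sum, ← Finset.mul_sum, e0, e1, e2]
    ring
  rw [le_sub_iff_add_le, le_div_iff₀ (pow_pos hm 2)]
  linarith

end Pool.Agent.HB

end

end FileProb

section FileClos

/-! The closure. -/

set_option autoImplicit false

noncomputable section

namespace Pool.Agent.HB

variable {W V : Type}

theorem step_mono (H : SimpleGraph W) {G G' : SimpleGraph V} (h : G ≤ G') :
    step H G ≤ step H G' := by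
  rintro u v (h1 | ⟨h1, f, h2, h3⟩)
  · exact Or.inl (h h1)
  · exact Or.inr ⟨h1, f, h2, fun a b hab => (h3 a b hab).imp_left fun e => h e⟩

theorem le_bootClosure (H : SimpleGraph W) (G : SimpleGraph V) : G ≤ bootClosure H G :=
  le_iSup (fun t : ℕ => (step H)^[t] G) 0

theorem bootClosure_le (H : SimpleGraph W) {G Γ : SimpleGraph V} (hΓ : step H Γ ≤ Γ) (h : G ≤ Γ) :
    bootClosure H G ≤ Γ := by
  refine iSup_le fun t => ?_
  induction t with
  | zero => exact h
  | succ t ih =>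
    rw [Function.iterate_succ_apply']
    exact (step_mono H ih).trans hΓ

theorem step_bootClosure [Finite W] (H : SimpleGraph W) (G : SimpleGraph V) :
    step H (bootClosure H G) ≤ bootClosure H G := by
  have hm : Monotone fun t : ℕ => (step H)^[t] G := monotone_nat_of_le_succ fun t => by
    rw [Function.iterate_succ_apply']
    exact fun _ _ h => Or.inl h
  rintro u v (h1 | ⟨h1, f, h2, h3⟩)
  · exact h1
  · have h4 : ∀ x : W × W, ∃ t : ℕ, H.Adj x.1 x.2 →
        ((step H)^[t] G).Adj (f x.1) (f x.2) ∨ s(f x.1, f x.2) = s(u, v) := by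
      intro x
      by_cases hx : H.Adj x.1 x.2
      · rcases h3 _ _ hx with h | h
        · obtain ⟨t, ht⟩ := SimpleGraph.iSup_adj.1 h
          exact ⟨t, fun _ => Or.inl ht⟩
        · exact ⟨0, fun _ => Or.inr h⟩
      · exact ⟨0, fun h => absurd h hx⟩
    choose t ht using h4
    obtain ⟨T, hT⟩ := Finite.exists_le t
    refine SimpleGraph.iSup_adj.2 ⟨T + 1, ?_⟩
    rw [Function.iterate_succ_apply']
    exact Or.inr ⟨h1, f, h2, fun a b hab => (ht (a, b) hab).imp_left fun e => hm (hT (a, b)) e⟩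

end Pool.Agent.HB

end

end FileClos

section FileSecond

/-! The second moment bound: rooted copies of a fixed graph. -/

set_option autoImplicit false

noncomputable section

open Filter Topology

namespace Pool.Agent.HB

/-- The number of maps that agree with a given map on `S`. -/
theorem sec_count {W : Type} [Fintype W] [DecidableEq W] {N : ℕ} (φ : W → Fin N) (S : Finset W) :
    (Finset.univ.filter fun ψ : W → Fin N => ∀ w ∈ S, φ w = ψ w).card * N ^ S.card =
      N ^ Fintype.card W := by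
  have h1 : (Finset.univ.filter fun ψ : W → Fin N => ∀ w ∈ S, φ w = ψ w) =
      Fintype.piFinset fun w => if w ∈ S then {φ w} else Finset.univ := by
    ext ψ
    simp only [Finset.mem_filter, Finset.mem_univ, true_and, Fintype.mem_piFinset]
    constructor
    · intro h w
      by_cases hw : w ∈ S
      · rw [if_pos hw, Finset.mem_singleton]
        exact (h w hw).symm
      · rw [if_neg hw]
        exact Finset.mem_univ _
    · intro h w hw
      have := h w
      rw [if_pos hw, Finset.mem_singleton] at this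
      exact this.symm
  rw [h1, Fintype.card_piFinset]
  have h2 : N ^ S.card = ∏ w : W, if w ∈ S then N else 1 := by
    rw [Finset.prod_ite_mem, Finset.univ_inter, Finset.prod_const]
  rw [h2, ← Finset.prod_mul_distrib, ← Finset.card_univ, ← Finset.prod_const]
  refine Finset.prod_congr rfl fun w _ => ?_
  by_cases hw : w ∈ S
  · simp [hw]
  · simp [hw]

/-- Averaging a nonnegative function of the agreement set. -/
theorem sec_avg {W : Type} [Fintype W] [DecidableEq W] {N : ℕ} (hN : 0 < N) (φ : W → Fin N)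
    (R : Finset W) (g : Finset W → ℝ) (hg : ∀ S, 0 ≤ g S) :
    ∑ ψ : W → Fin N, g (Rᶜ.filter fun w => φ w = ψ w) ≤
      (N : ℝ) ^ Fintype.card W * ∑ S ∈ Rᶜ.powerset, g S / (N : ℝ) ^ S.card := by
  have hN' : (0 : ℝ) < N := by exact_mod_cast hN
  calc ∑ ψ : W → Fin N, g (Rᶜ.filter fun w => φ w = ψ w)
      ≤ ∑ ψ : W → Fin N, ∑ S ∈ Rᶜ.powerset, if ∀ w ∈ S, φ w = ψ w then g S else 0 := by
        refine Finset.sum_le_sum fun ψ _ => ?_
        have hm : (Rᶜ.filter fun w => φ w = ψ w) ∈ Rᶜ.powerset :=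
          Finset.mem_powerset.2 (Finset.filter_subset _ _)
        refine le_trans (le_of_eq ?_) (Finset.single_le_sum
          (f := fun S : Finset W => if ∀ w ∈ S, φ w = ψ w then g S else 0) (fun S _ => ?_) hm)
        · rw [if_pos]
          intro w hw
          exact (Finset.mem_filter.1 hw).2
        · by_cases h : ∀ w ∈ S, φ w = ψ w
          · rw [if_pos h]
            exact hg S
          · rw [if_neg h]
    _ = ∑ S ∈ Rᶜ.powerset, (N : ℝ) ^ Fintype.card W * (g S / (N : ℝ) ^ S.card) := by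
        rw [Finset.sum_comm]
        refine Finset.sum_congr rfl fun S _ => ?_
        rw [← Finset.sum_filter, Finset.sum_const, nsmul_eq_mul]
        have h := sec_count φ S
        have h' : ((Finset.univ.filter fun ψ : W → Fin N => ∀ w ∈ S, φ w = ψ w).card : ℝ) *
            (N : ℝ) ^ S.card = (N : ℝ) ^ Fintype.card W := by exact_mod_cast h
        rw [← h']
        field_simp
    _ = _ := by rw [Finset.mul_sum]

/-- The rooted map attached to a choice of indices. -/
def secF {W : Type} [DecidableEq W] {n N : ℕ} (R : Finset W) (f₀ : W → Fin n)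
    (ι : W × Fin N → Fin n) (φ : W → Fin N) (w : W) : Fin n :=
  if w ∈ R then f₀ w else ι (w, φ w)

theorem secF_eq {W : Type} [DecidableEq W] {n N : ℕ} {R : Finset W} {f₀ : W → Fin n}
    {ι : W × Fin N → Fin n} (h₀ : Set.InjOn f₀ R) (hι : Function.Injective ι)
    (hd : ∀ x, ∀ w ∈ R, ι x ≠ f₀ w) (φ ψ : W → Fin N) {a b : W}
    (h : secF R f₀ ι φ a = secF R f₀ ι ψ b) : a = b ∧ (a ∈ R ∨ φ a = ψ a) := by
  unfold secF at h
  by_cases ha : a ∈ R
  · by_cases hb : b ∈ R
    · rw [if_pos ha, if_pos hb] at h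
      exact ⟨h₀ (Finset.mem_coe.2 ha) (Finset.mem_coe.2 hb) h, Or.inl ha⟩
    · rw [if_pos ha, if_neg hb] at h
      exact absurd h.symm (hd _ a ha)
  · by_cases hb : b ∈ R
    · rw [if_neg ha, if_pos hb] at h
      exact absurd h (hd _ b hb)
    · rw [if_neg ha, if_neg hb] at h
      have h1 := hι h
      have h2 : a = b := congrArg Prod.fst h1
      subst h2
      exact ⟨rfl, Or.inr (congrArg Prod.snd h1)⟩

theorem secF_inj {W : Type} [DecidableEq W] {n N : ℕ} {R : Finset W} {f₀ : W → Fin n}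
    {ι : W × Fin N → Fin n} (h₀ : Set.InjOn f₀ R) (hι : Function.Injective ι)
    (hd : ∀ x, ∀ w ∈ R, ι x ≠ f₀ w) (φ : W → Fin N) : Function.Injective (secF R f₀ ι φ) :=
  fun _ _ h => (secF_eq h₀ hι hd φ φ h).1

/-- Common edges of two rooted copies. -/
theorem sec_inter {W : Type} [Fintype W] [DecidableEq W] {n N : ℕ} {R : Finset W}
    {f₀ : W → Fin n} {ι : W × Fin N → Fin n} (h₀ : Set.InjOn f₀ R) (hι : Function.Injective ι)
    (hd : ∀ x, ∀ w ∈ R, ι x ≠ f₀ w) (F : SimpleGraph W) (E : Finset (Sym2 W))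
    (hE : ∀ e ∈ E, e ∈ F.edgeSet) (φ ψ : W → Fin N) :
    (E.image (Sym2.map (secF R f₀ ι φ)) ∩ E.image (Sym2.map (secF R f₀ ι ψ))).card ≤
      eIn F ((Rᶜ.filter fun w => φ w = ψ w) ∪ R) := by
  unfold eIn
  rw [← Set.ncard_coe_finset]
  refine le_trans (Set.ncard_le_ncard (t := Sym2.map (secF R f₀ ι φ) ''
    {e ∈ F.edgeSet | ∀ v ∈ e, v ∈ (Rᶜ.filter fun w => φ w = ψ w) ∪ R}) ?_ (Set.toFinite _))
    (Set.ncard_image_le (Set.toFinite _))
  intro x hx
  rw [Finset.mem_coe, Finset.mem_inter, Finset.mem_image, Finset.mem_image] at hx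
  obtain ⟨⟨e, he, rfl⟩, e', _, he'⟩ := hx
  refine ⟨e, ⟨hE e he, fun v hv => ?_⟩, rfl⟩
  have h1 : secF R f₀ ι φ v ∈ Sym2.map (secF R f₀ ι ψ) e' := by
    rw [he']
    exact Sym2.mem_map.2 ⟨v, hv, rfl⟩
  obtain ⟨b, _, hb⟩ := Sym2.mem_map.1 h1
  have h2 := (secF_eq h₀ hι hd φ ψ hb.symm).2
  by_cases hR : v ∈ R
  · exact Finset.mem_union_right _ hR
  · exact Finset.mem_union_left _
      (Finset.mem_filter.2 ⟨Finset.mem_compl.2 hR, h2.resolve_left hR⟩)

/-- The second moment bound for a fixed system of disjoint parts. -/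
theorem sec_fixed {W : Type} [Fintype W] [DecidableEq W] (F : SimpleGraph W) (R : Finset W)
    {n N : ℕ} (hN : 0 < N) (p : unitInterval) (hp : 0 < (p : ℝ)) {f₀ : W → Fin n}
    {ι : W × Fin N → Fin n} (h₀ : Set.InjOn f₀ R) (hι : Function.Injective ι)
    (hd : ∀ x, ∀ w ∈ R, ι x ≠ f₀ w) :
    Pr n p {G | ¬ ∃ f : W ↪ Fin n, (∀ w ∈ R, f w = f₀ w) ∧ Emb F G f} ≤
      ∑ S ∈ Rᶜ.powerset, ((p : ℝ) ^ eIn F (S ∪ R))⁻¹ / (N : ℝ) ^ S.card - 1 := by
  classical
  have hN' : (0 : ℝ) < N := by exact_mod_cast hN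
  obtain ⟨E, hE⟩ : ∃ E : Finset (Sym2 W), ∀ e, e ∈ E ↔ e ∈ F.edgeSet :=
    ⟨(Set.toFinite F.edgeSet).toFinset, fun e => Set.Finite.mem_toFinset _⟩
  obtain ⟨D, hD⟩ : ∃ D : (W → Fin N) → Finset (Sym2 (Fin n)),
      ∀ φ, D φ = E.image (Sym2.map (secF R f₀ ι φ)) := ⟨_, fun _ => rfl⟩
  have hcard : ∀ φ, (D φ).card = E.card := fun φ => by
    rw [hD]
    exact Finset.card_image_of_injective _ (Sym2.map.injective (secF_inj h₀ hι hd φ))
  have hdiag : ∀ φ, ∀ e ∈ D φ, ¬ e.IsDiag := fun φ e he => by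
    rw [hD, Finset.mem_image] at he
    obtain ⟨e, he, rfl⟩ := he
    rw [Sym2.isDiag_map (secF_inj h₀ hι hd φ)]
    exact F.not_isDiag_of_mem_edgeSet ((hE e).1 he)
  have : Nonempty (Fin N) := ⟨⟨0, hN⟩⟩
  have hmain := Pr_none_le (n := n) (p := p) (Finset.univ : Finset (W → Fin N))
    Finset.univ_nonempty (fun φ => {G | ∀ e ∈ D φ, e ∈ G.edgeSet}) (μ := (p : ℝ) ^ E.card)
    (pow_pos hp _) (fun φ _ => by rw [Pr_sub _ (hdiag φ), hcard])
  refine le_trans (Pr_mono ?_) (hmain.trans ?_)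
  · intro G hG φ _ hφ
    refine hG ⟨⟨secF R f₀ ι φ, secF_inj h₀ hι hd φ⟩, fun w hw => ?_, fun a b hab => ?_⟩
    · exact if_pos hw
    · have h1 : Sym2.map (secF R f₀ ι φ) s(a, b) ∈ D φ := by
        rw [hD]
        exact Finset.mem_image_of_mem _ ((hE _).2 hab)
      exact hφ _ h1
  · have hpair : ∀ φ ψ : W → Fin N,
        Pr n p ({G | ∀ e ∈ D φ, e ∈ G.edgeSet} ∩ {G | ∀ e ∈ D ψ, e ∈ G.edgeSet}) ≤
          ((p : ℝ) ^ E.card) ^ 2 *
            ((p : ℝ) ^ eIn F ((Rᶜ.filter fun w => φ w = ψ w) ∪ R))⁻¹ := by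
      intro φ ψ
      have h1 : ({G | ∀ e ∈ D φ, e ∈ G.edgeSet} ∩ {G | ∀ e ∈ D ψ, e ∈ G.edgeSet} :
          Set (SimpleGraph (Fin n))) = {G | ∀ e ∈ D φ ∪ D ψ, e ∈ G.edgeSet} := by
        ext G
        simp only [Set.mem_inter_iff, Set.mem_ofPred_eq, Finset.mem_union]
        exact ⟨fun h e he => he.elim (h.1 e) (h.2 e),
          fun h => ⟨fun e he => h e (Or.inl he), fun e he => h e (Or.inr he)⟩⟩
      rw [h1, Pr_sub _ fun e he => (Finset.mem_union.1 he).elim (hdiag φ e) (hdiag ψ e)]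
      have h2 := sec_inter h₀ hι hd F E (fun e he => (hE e).1 he) φ ψ
      rw [← hD, ← hD] at h2
      have h3 := Finset.card_union_add_card_inter (D φ) (D ψ)
      rw [hcard, hcard] at h3
      rw [← div_eq_mul_inv, le_div_iff₀ (pow_pos hp _), ← pow_add, ← pow_mul]
      exact pow_le_pow_of_le_one hp.le p.2.2 (by omega)
    have hI : ((Finset.univ : Finset (W → Fin N)).card : ℝ) = (N : ℝ) ^ Fintype.card W := by
      rw [Finset.card_univ, Fintype.card_fun, Fintype.card_fin, Nat.cast_pow]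
    rw [hI]
    refine sub_le_sub_right ?_ 1
    rw [div_le_iff₀ (by positivity)]
    calc ∑ φ : W → Fin N, ∑ ψ : W → Fin N,
          Pr n p ({G | ∀ e ∈ D φ, e ∈ G.edgeSet} ∩ {G | ∀ e ∈ D ψ, e ∈ G.edgeSet})
        ≤ ∑ φ : W → Fin N, ((p : ℝ) ^ E.card) ^ 2 * ((N : ℝ) ^ Fintype.card W *
            ∑ S ∈ Rᶜ.powerset, ((p : ℝ) ^ eIn F (S ∪ R))⁻¹ / (N : ℝ) ^ S.card) := by
          refine Finset.sum_le_sum fun φ _ => ?_
          refine le_trans (Finset.sum_le_sum fun ψ _ => hpair φ ψ) ?_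
          rw [← Finset.mul_sum]
          exact mul_le_mul_of_nonneg_left
            (sec_avg hN φ R (fun S => ((p : ℝ) ^ eIn F (S ∪ R))⁻¹) fun S => by positivity)
            (by positivity)
      _ = _ := by
          rw [Finset.sum_const, nsmul_eq_mul, hI]
          ring

theorem second_moment {W : Type} [Fintype W] [DecidableEq W] (F : SimpleGraph W) (R : Finset W)
    (hR : eIn F R = 0) {β : ℝ} (hβ : 0 < β)
    (h : ∀ S : Finset W, S.Nonempty → Disjoint S R → β * eIn F (S ∪ R) < S.card)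
    {δ : ℝ} (hδ : 0 < δ) :
    ∀ᶠ n : ℕ in atTop, ∀ p : unitInterval, (n : ℝ) ^ (-β) ≤ p →
      ∀ f₀ : W → Fin n, Set.InjOn f₀ R →
        Pr n p {G | ¬ ∃ f : W ↪ Fin n, (∀ w ∈ R, f w = f₀ w) ∧ Emb F G f} ≤ δ := by
  obtain ⟨k, hk⟩ : ∃ k, k = Fintype.card W := ⟨_, rfl⟩
  have hlim : Tendsto (fun n : ℕ => ∑ S ∈ Rᶜ.powerset.erase ∅,
      (2 * ((k : ℝ) + 1)) ^ S.card * (n : ℝ) ^ (-((S.card : ℝ) - β * eIn F (S ∪ R)))) atTop
      (𝓝 (∑ S ∈ Rᶜ.powerset.erase ∅, (2 * ((k : ℝ) + 1)) ^ S.card * 0)) := by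
    refine tendsto_finsetSum _ fun S hS => Tendsto.const_mul _ ?_
    rw [Finset.mem_erase, Finset.mem_powerset] at hS
    have h1 := h S (Finset.nonempty_iff_ne_empty.2 hS.1)
      (Finset.disjoint_left.2 fun a ha => Finset.mem_compl.1 (hS.2 ha))
    exact (tendsto_rpow_neg_atTop (sub_pos.2 h1)).comp tendsto_natCast_atTop_atTop
  simp only [mul_zero, Finset.sum_const_zero] at hlim
  filter_upwards [hlim.eventually (gt_mem_nhds hδ), eventually_ge_atTop ((k + 1) * (k + 1))]
    with n hn1 hn2 p hp f₀ h₀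
  obtain ⟨N, hNd⟩ : ∃ N, N = n / (k + 1) := ⟨_, rfl⟩
  have hNk : k + 1 ≤ N := by
    rw [hNd]
    exact (Nat.le_div_iff_mul_le (Nat.succ_pos k)).2 hn2
  have hNn : N * (k + 1) ≤ n := by
    rw [hNd]
    exact Nat.div_mul_le_self _ _
  have hnN : n < (N + 1) * (k + 1) := by
    rw [hNd, mul_comm]
    exact Nat.lt_mul_div_succ n (Nat.succ_pos k)
  have hN : 0 < N := by omega
  have hn0 : 0 < n := lt_of_lt_of_le (Nat.mul_pos hN (Nat.succ_pos k)) hNn
  have hn' : (0 : ℝ) < n := by exact_mod_cast hn0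
  have hN' : (0 : ℝ) < N := by exact_mod_cast hN
  have hp0 : 0 < (p : ℝ) := lt_of_lt_of_le (Real.rpow_pos_of_pos hn' _) hp
  have hc : Fintype.card (W × Fin N) ≤ (R.image f₀)ᶜ.card := by
    rw [Fintype.card_prod, Fintype.card_fin, Finset.card_compl, Fintype.card_fin, ← hk]
    have h1 : (R.image f₀).card ≤ k := by
      rw [hk]
      exact Finset.card_image_le.trans (Finset.card_le_univ _)
    have h2 : N * (k + 1) = k * N + N := by ring
    omega
  obtain ⟨ι, hι⟩ := Function.Embedding.exists_of_card_le_finset hc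
  have hd : ∀ x, ∀ w ∈ R, ι x ≠ f₀ w := fun x w hw he => by
    have h1 : ι x ∈ (R.image f₀)ᶜ := Finset.mem_coe.1 (hι ⟨x, rfl⟩)
    rw [Finset.mem_compl, he] at h1
    exact h1 (Finset.mem_image_of_mem _ hw)
  refine (sec_fixed F R hN p hp0 h₀ ι.injective hd).trans (le_trans ?_ hn1.le)
  rw [← Finset.add_sum_erase _ _ (Finset.empty_mem_powerset Rᶜ), Finset.empty_union, hR,
    pow_zero, Finset.card_empty, pow_zero, inv_one, div_one, add_sub_cancel_left]
  refine Finset.sum_le_sum fun S _ => ?_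
  have h1 : ((p : ℝ) ^ eIn F (S ∪ R))⁻¹ ≤ (n : ℝ) ^ (β * eIn F (S ∪ R)) := by
    rw [Real.rpow_mul hn'.le, Real.rpow_natCast, ← inv_pow]
    refine pow_le_pow_left₀ (by positivity) ?_ _
    rw [Real.rpow_neg hn'.le] at hp
    exact inv_le_of_inv_le₀ (Real.rpow_pos_of_pos hn' _) hp
  have h2 : (n : ℝ) ≤ 2 * ((k : ℝ) + 1) * N := by
    have h3 : n ≤ 2 * (k + 1) * N := by nlinarith
    exact_mod_cast h3
  have h3 : (n : ℝ) ^ S.card ≤ (2 * ((k : ℝ) + 1)) ^ S.card * (N : ℝ) ^ S.card := by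
    rw [← mul_pow]
    exact pow_le_pow_left₀ hn'.le h2 _
  rw [neg_sub, Real.rpow_sub hn', Real.rpow_natCast, ← mul_div_assoc,
    div_le_div_iff₀ (pow_pos hN' _) (pow_pos hn' _)]
  calc ((p : ℝ) ^ eIn F (S ∪ R))⁻¹ * (n : ℝ) ^ S.card
      ≤ (n : ℝ) ^ (β * eIn F (S ∪ R)) * ((2 * ((k : ℝ) + 1)) ^ S.card * (N : ℝ) ^ S.card) :=
        mul_le_mul h1 h3 (by positivity) (by positivity)
    _ = _ := by ring

end Pool.Agent.HB

end

end FileSecond

section FileExpand

/-! Expansion and connectivity. -/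

set_option autoImplicit false

noncomputable section

open Filter Topology

namespace Pool.Agent.HB

theorem expand_enum {n j : ℕ} (v : Fin n) (N : Set (Fin n)) (h : N.ncard ≤ j) :
    ∃ g : Fin j → Fin n, ∀ w ∈ N, ∃ i, g i = w := by
  classical
  refine ⟨fun i => N.toFinset.toList.getD i v, fun w hw => ?_⟩
  have h1 : w ∈ N.toFinset.toList := Finset.mem_toList.2 (Set.mem_toFinset.2 hw)
  obtain ⟨i, hi, e⟩ := List.mem_iff_getElem.1 h1
  have h2 : i < j := by
    rw [Finset.length_toList, ← Set.ncard_eq_toFinset_card'] at hi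
    omega
  exact ⟨⟨i, h2⟩, by rw [← e]; exact List.getD_eq_getElem _ _ hi⟩

/-- The ordered pairs that must be non-edges. -/
def expandP {n j : ℕ} (R : Finset (Fin n)) (D : Fin n → Fin j → Fin n) :
    Finset (Fin n × Fin n) :=
  R.biUnion fun v => (Rᶜ \ Finset.univ.image (D v)).image fun w => (v, w)

theorem expand_mem {n j : ℕ} {R : Finset (Fin n)} {D : Fin n → Fin j → Fin n}
    {x : Fin n × Fin n} : x ∈ expandP R D ↔ x.1 ∈ R ∧ x.2 ∉ R ∧ ∀ i, D x.1 i ≠ x.2 := by
  obtain ⟨v, w⟩ := x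
  simp only [expandP, Finset.mem_biUnion, Finset.mem_image, Finset.mem_sdiff, Finset.mem_compl,
    Finset.mem_univ, true_and, not_exists, Prod.mk.injEq]
  constructor
  · rintro ⟨a, ha, b, ⟨hb, hb'⟩, rfl, rfl⟩
    exact ⟨ha, hb, hb'⟩
  · rintro ⟨h1, h2, h3⟩
    exact ⟨v, h1, w, ⟨h2, h3⟩, rfl, rfl⟩

theorem expand_card {n j : ℕ} (R : Finset (Fin n)) (D : Fin n → Fin j → Fin n)
    (hR : 2 * R.card ≤ n) (hn : 4 * j ≤ n) : n * R.card ≤ 4 * (expandP R D).card := by
  unfold expandP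
  rw [Finset.card_biUnion, Finset.mul_sum, mul_comm n, ← smul_eq_mul]
  · refine Finset.card_nsmul_le_sum _ _ _ fun v _ => ?_
    rw [Finset.card_image_of_injective _ (Prod.mk_right_injective v)]
    have h1 := Finset.le_card_sdiff (Finset.univ.image (D v)) Rᶜ
    have h2 : (Finset.univ.image (D v)).card ≤ j :=
      Finset.card_image_le.trans (by simp)
    rw [Finset.card_compl, Fintype.card_fin] at h1
    omega
  · intro a _ b _ hab
    refine Finset.disjoint_left.2 fun x h1 h2 => hab ?_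
    obtain ⟨w, -, rfl⟩ := Finset.mem_image.1 h1
    obtain ⟨w', -, e⟩ := Finset.mem_image.1 h2
    exact (congrArg Prod.fst e).symm

theorem expand_one {n j : ℕ} (p : unitInterval) (R : Finset (Fin n)) (D : Fin n → Fin j → Fin n)
    (hR : 2 * R.card ≤ n) (hn : 4 * j ≤ n) :
    Pr n p {G | ∀ e ∈ (expandP R D).image fun x => s(x.1, x.2), e ∉ G.edgeSet} ≤
      Real.exp (-(p * n / 4)) ^ R.card := by
  rw [Pr_disj, Finset.card_image_of_injOn]
  · have h1 : 1 - (p : ℝ) ≤ Real.exp (-p) := Real.one_sub_le_exp_neg _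
    have h2 : (n : ℝ) * R.card ≤ 4 * (expandP R D).card := by exact_mod_cast expand_card R D hR hn
    refine (pow_le_pow_left₀ (sub_nonneg.2 p.2.2) h1 _).trans ?_
    rw [← Real.exp_nat_mul, ← Real.exp_nat_mul]
    refine Real.exp_le_exp.2 ?_
    nlinarith [mul_le_mul_of_nonneg_left h2 p.2.1]
  · intro x hx y hy e
    have h1 := expand_mem.1 hx
    have h2 := expand_mem.1 hy
    rcases Sym2.eq_iff.1 e with h | h
    · exact Prod.ext h.1 h.2
    · exact absurd (h.1 ▸ h1.1) h2.2.1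
  · intro e he
    obtain ⟨x, hx, rfl⟩ := Finset.mem_image.1 he
    have h1 := expand_mem.1 hx
    rw [Sym2.mk_isDiag_iff]
    intro h
    exact h1.2.1 (h ▸ h1.1)

theorem expand_fixed {n j : ℕ} (p : unitInterval) (R : Finset (Fin n))
    (hR : 2 * R.card ≤ n) (hn : 4 * j ≤ n) :
    Pr n p {G | ∀ v ∈ R, {w | w ∉ R ∧ G.Adj v w}.ncard < j} ≤
      ((n : ℝ) ^ j * Real.exp (-(p * n / 4))) ^ R.card := by
  have h1 := Pr_le_sum (p := p) (Fintype.piFinset fun v : Fin n =>
      if v ∈ R then (Finset.univ : Finset (Fin j → Fin n)) else {fun _ => v})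
    (fun D => {G | ∀ e ∈ (expandP R D).image fun x => s(x.1, x.2), e ∉ G.edgeSet})
    (S := {G | ∀ v ∈ R, {w | w ∉ R ∧ G.Adj v w}.ncard < j}) (fun G hG => by
      have h2 : ∀ v : Fin n, ∃ g : Fin j → Fin n,
          g ∈ (if v ∈ R then (Finset.univ : Finset (Fin j → Fin n)) else {fun _ => v}) ∧
          (v ∈ R → ∀ w, w ∉ R → G.Adj v w → ∃ i, g i = w) := by
        intro v
        by_cases hv : v ∈ R
        · obtain ⟨g, hg⟩ := expand_enum v _ (hG v hv).le
          exact ⟨g, by rw [if_pos hv]; exact Finset.mem_univ _, fun _ w h3 h4 => hg w ⟨h3, h4⟩⟩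
        · exact ⟨fun _ => v, by rw [if_neg hv]; exact Finset.mem_singleton_self _,
            fun h => absurd h hv⟩
      choose D hD hD' using h2
      refine ⟨D, Fintype.mem_piFinset.2 hD, fun e he h3 => ?_⟩
      obtain ⟨x, hx, rfl⟩ := Finset.mem_image.1 he
      have h4 := expand_mem.1 hx
      obtain ⟨i, hi⟩ := hD' x.1 h4.1 x.2 h4.2.1 h3
      exact h4.2.2 i hi)
  refine h1.trans ((Finset.sum_le_card_nsmul _ _ _ fun D _ => expand_one p R D hR hn).trans ?_)
  rw [Fintype.card_piFinset, nsmul_eq_mul, mul_pow]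
  refine mul_le_mul_of_nonneg_right (le_of_eq ?_) (by positivity)
  have h5 : ∀ v : Fin n, (if v ∈ R then (Finset.univ : Finset (Fin j → Fin n))
      else {fun _ => v}).card = if v ∈ R then n ^ j else 1 := by
    intro v
    split_ifs <;> simp
  simp only [h5]
  rw [Finset.prod_ite_mem, Finset.univ_inter, Finset.prod_const]
  push_cast
  rfl

theorem expand_all {n j : ℕ} (p : unitInterval) (hn : 4 * j ≤ n) :
    Pr n p {G | ∃ R : Finset (Fin n), R.Nonempty ∧ 2 * R.card ≤ n ∧
        ∀ v ∈ R, {w | w ∉ R ∧ G.Adj v w}.ncard < j} ≤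
      Real.exp (n * ((n : ℝ) ^ j * Real.exp (-(p * n / 4)))) - 1 := by
  have h1 := Pr_le_sum (p := p)
    (((Finset.univ : Finset (Fin n)).powerset.erase ∅).filter fun R => 2 * R.card ≤ n)
    (fun R => {G | ∀ v ∈ R, {w | w ∉ R ∧ G.Adj v w}.ncard < j})
    (S := {G | ∃ R : Finset (Fin n), R.Nonempty ∧ 2 * R.card ≤ n ∧
        ∀ v ∈ R, {w | w ∉ R ∧ G.Adj v w}.ncard < j}) (fun G ⟨R, h2, h3, h4⟩ =>
      ⟨R, Finset.mem_filter.2 ⟨Finset.mem_erase.2
        ⟨h2.ne_empty, Finset.mem_powerset.2 (Finset.subset_univ _)⟩, h3⟩, h4⟩)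
  generalize hx : (n : ℝ) ^ j * Real.exp (-(p * n / 4)) = x
  have hx0 : 0 ≤ x := by
    rw [← hx]
    positivity
  have h5 := Finset.sum_pow_mul_eq_add_pow x 1 (Finset.univ : Finset (Fin n))
  simp only [one_pow, mul_one, Finset.card_univ, Fintype.card_fin] at h5
  have h6 := Finset.add_sum_erase (Finset.univ : Finset (Fin n)).powerset
    (fun R => x ^ R.card) (Finset.empty_mem_powerset _)
  simp only [Finset.card_empty, pow_zero] at h6
  have h7 : (x + 1) ^ n ≤ Real.exp (n * x) := by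
    rw [Real.exp_nat_mul]
    exact pow_le_pow_left₀ (by positivity) (Real.add_one_le_exp x) n
  refine h1.trans ((Finset.sum_le_sum (g := fun R => x ^ R.card) fun R hR => ?_).trans
    ((Finset.sum_le_sum_of_subset_of_nonneg (Finset.filter_subset _ _)
      fun R _ _ => pow_nonneg hx0 _).trans ?_))
  · rw [← hx]
    exact expand_fixed p R (Finset.mem_filter.1 hR).2 hn
  · linarith

theorem expand_lim (j : ℕ) {γ : ℝ} (hγ : 0 < γ) : Tendsto
    (fun n : ℕ => Real.exp (n * ((n : ℝ) ^ j * Real.exp (-((n : ℝ) ^ γ / 4)))) - 1)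
    atTop (𝓝 0) := by
  have h1 := (tendsto_rpow_mul_exp_neg_mul_atTop_nhds_zero (((j + 1 : ℕ) : ℝ) / γ) (1 / 4)
    (by norm_num)).comp ((tendsto_rpow_atTop hγ).comp tendsto_natCast_atTop_atTop)
  have h2 : Tendsto (fun n : ℕ => n * ((n : ℝ) ^ j * Real.exp (-((n : ℝ) ^ γ / 4))))
      atTop (𝓝 0) := by
    refine h1.congr fun n => ?_
    simp only [Function.comp]
    rw [← Real.rpow_mul (Nat.cast_nonneg n), mul_div_cancel₀ _ hγ.ne', Real.rpow_natCast,
      pow_succ', mul_assoc, show -(1 / 4 : ℝ) * (n : ℝ) ^ γ = -((n : ℝ) ^ γ / 4) by ring]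
  have h3 := ((Real.continuous_exp.tendsto 0).comp h2).sub_const 1
  rw [Real.exp_zero, sub_self] at h3
  exact h3

theorem expansion (j : ℕ) {β : ℝ} (hβ : β < 1) {δ : ℝ} (hδ : 0 < δ) :
    ∀ᶠ n : ℕ in atTop, ∀ p : unitInterval, (n : ℝ) ^ (-β) ≤ p →
      Pr n p {G | ∃ R : Finset (Fin n), R.Nonempty ∧ 2 * R.card ≤ n ∧
        ∀ v ∈ R, {w | w ∉ R ∧ G.Adj v w}.ncard < j} ≤ δ := by
  filter_upwards [(tendsto_order.1 (expand_lim j (sub_pos.2 hβ))).2 δ hδ,
    eventually_ge_atTop (4 * j), eventually_gt_atTop 0] with n h1 h2 h3 p hp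
  refine (expand_all p h2).trans (le_trans ?_ h1.le)
  have h4 : (0 : ℝ) < n := Nat.cast_pos.2 h3
  have h5 : (n : ℝ) ^ (1 - β) ≤ p * n := by
    rw [sub_eq_neg_add, Real.rpow_add h4, Real.rpow_one]
    exact mul_le_mul_of_nonneg_right hp h4.le
  refine sub_le_sub_right (Real.exp_le_exp.2 (mul_le_mul_of_nonneg_left
    (mul_le_mul_of_nonneg_left (Real.exp_le_exp.2 ?_) (by positivity)) h4.le)) _
  linarith

theorem connected_whp {β : ℝ} (hβ : β < 1) {δ : ℝ} (hδ : 0 < δ) :
    ∀ᶠ n : ℕ in atTop, ∀ p : unitInterval, (n : ℝ) ^ (-β) ≤ p →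
      Pr n p {G | ¬ G.Connected} ≤ δ := by
  classical
  filter_upwards [expansion 1 hβ hδ, eventually_gt_atTop 0] with n h1 h2 p hp
  refine (Pr_mono fun G hG => ?_).trans (h1 p hp)
  have : Nonempty (Fin n) := ⟨⟨0, h2⟩⟩
  have h3 : ∃ u v, ¬ G.Reachable u v := by
    by_contra h
    exact hG ⟨fun u v => by_contra fun h' => h ⟨u, v, h'⟩⟩
  obtain ⟨u, v, h3⟩ := h3
  have h4 := Finset.card_filter_add_card_filter_not (s := (Finset.univ : Finset (Fin n)))
    fun w => G.Reachable u w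
  rw [Finset.card_univ, Fintype.card_fin] at h4
  by_cases h5 : 2 * (Finset.univ.filter fun w => G.Reachable u w).card ≤ n
  · refine ⟨_, ⟨u, Finset.mem_filter.2 ⟨Finset.mem_univ _, SimpleGraph.Reachable.refl u⟩⟩, h5,
      fun x hx => ?_⟩
    rw [Nat.lt_one_iff, Set.ncard_eq_zero (Set.toFinite _), Set.eq_empty_iff_forall_notMem]
    intro w hw
    exact hw.1 (Finset.mem_filter.2
      ⟨Finset.mem_univ _, (Finset.mem_filter.1 hx).2.trans hw.2.reachable⟩)
  · refine ⟨Finset.univ.filter fun w => ¬ G.Reachable u w,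
      ⟨v, Finset.mem_filter.2 ⟨Finset.mem_univ _, h3⟩⟩, by omega, fun x hx => ?_⟩
    rw [Nat.lt_one_iff, Set.ncard_eq_zero (Set.toFinite _), Set.eq_empty_iff_forall_notMem]
    intro w hw
    exact hw.1 (Finset.mem_filter.2 ⟨Finset.mem_univ _, fun h6 =>
      (Finset.mem_filter.1 hx).2 (h6.trans hw.2.reachable.symm)⟩)

end Pool.Agent.HB

end

end FileExpand

section FilePrA

/-! The rooted first moment bound and the passage to the exponent. -/

open Filter Topology

namespace Pool.Agent.HB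

theorem pra_aux1 {a β : ℝ} {n L : ℕ} (hn : 1 ≤ n) {p : unitInterval}
    (hp : (p : ℝ) ≤ (n : ℝ) ^ (-β)) (S : Finset (Fin n)) (hS : S.card ≤ L) :
    Pr n p {G | a ≤ β * eIn G S} ≤ 2 ^ (L + 1).choose 2 * (n : ℝ) ^ (-a) := by
  classical
  have hn1 : (1 : ℝ) ≤ n := by exact_mod_cast hn
  set I := S.sym2.powerset.filter fun E => (∀ e ∈ E, ¬ e.IsDiag) ∧ a ≤ β * E.card with hI
  refine (Pr_le_sum I (fun E => {G | ∀ e ∈ E, e ∈ G.edgeSet}) fun G hG => ?_).trans ?_
  · have e1 : {e ∈ G.edgeSet | ∀ v ∈ e, v ∈ S} = ↑(S.sym2.filter fun e => e ∈ G.edgeSet) := by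
      ext e
      simp only [Set.mem_ofPred_eq, Finset.coe_filter, Finset.mem_sym2_iff]
      exact and_comm
    refine ⟨S.sym2.filter fun e => e ∈ G.edgeSet, Finset.mem_filter.2
      ⟨Finset.mem_powerset.2 (Finset.filter_subset _ _), fun e he => ?_, ?_⟩, fun e he => ?_⟩
    · exact G.not_isDiag_of_mem_edgeSet (Finset.mem_filter.1 he).2
    · have h1 : a ≤ β * eIn G S := hG
      rwa [eIn, e1, Set.ncard_coe_finset] at h1
    · exact (Finset.mem_filter.1 he).2
  · have h1 : ∀ E ∈ I, Pr n p {G | ∀ e ∈ E, e ∈ G.edgeSet} ≤ (n : ℝ) ^ (-a) := by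
      intro E hE
      obtain ⟨-, h2, h3⟩ := Finset.mem_filter.1 hE
      rw [Pr_sub E h2]
      refine (pow_le_pow_left₀ p.2.1 hp _).trans ?_
      rw [← Real.rpow_natCast, ← Real.rpow_mul (by linarith)]
      exact Real.rpow_le_rpow_of_exponent_le hn1 (by linarith)
    refine (Finset.sum_le_card_nsmul _ _ _ h1).trans ?_
    rw [nsmul_eq_mul]
    refine mul_le_mul_of_nonneg_right ?_ (Real.rpow_nonneg (by linarith) _)
    have h2 : I.card ≤ 2 ^ (L + 1).choose 2 := by
      refine (Finset.card_filter_le _ _).trans ?_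
      rw [Finset.card_powerset, Finset.card_sym2]
      exact Nat.pow_le_pow_right two_pos (Nat.choose_le_choose 2 (by omega))
    exact_mod_cast h2

theorem pra_aux2 {c β : ℝ} {n L v : ℕ} (hn : 1 ≤ n) {p : unitInterval}
    (hp : (p : ℝ) ≤ (n : ℝ) ^ (-β)) (Rt : Finset (Fin n)) (hR : Rt.card ≤ 3) :
    Pr n p {G | ∃ X : Finset (Fin n), X.card ≤ L ∧ (X \ Rt).card = v ∧ v + c ≤ β * eIn G X} ≤
      8 * (2 ^ (L + 1).choose 2 * (n : ℝ) ^ (-c)) := by
  have hn1 : (1 : ℝ) ≤ n := by exact_mod_cast hn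
  set I := (Rt.powerset ×ˢ (Finset.univ : Finset (Fin n)).powersetCard v).filter
    fun q => (q.1 ∪ q.2).card ≤ L with hI
  refine (Pr_le_sum I (fun q => {G | v + c ≤ β * eIn G (q.1 ∪ q.2)}) fun G hG => ?_).trans ?_
  · obtain ⟨X, h1, h2, h3⟩ := hG
    have e : X ∩ Rt ∪ X \ Rt = X := by
      rw [Finset.union_comm, Finset.sdiff_union_inter]
    refine ⟨(X ∩ Rt, X \ Rt), Finset.mem_filter.2 ⟨Finset.mem_product.2
      ⟨Finset.mem_powerset.2 Finset.inter_subset_right,
        Finset.mem_powersetCard.2 ⟨Finset.subset_univ _, h2⟩⟩, ?_⟩, ?_⟩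
    · simpa only [e] using h1
    · simpa only [e, Set.mem_ofPred_eq] using h3
  refine (Finset.sum_le_card_nsmul _ _ _ fun q hq =>
    pra_aux1 hn hp _ (Finset.mem_filter.1 hq).2).trans ?_
  have h2 : I.card ≤ 8 * n ^ v := by
    refine (Finset.card_filter_le _ _).trans ?_
    rw [Finset.card_product, Finset.card_powerset, Finset.card_powersetCard, Finset.card_univ,
      Fintype.card_fin]
    exact Nat.mul_le_mul (Nat.pow_le_pow_right two_pos hR) (Nat.choose_le_pow n v)
  have h3 : (I.card : ℝ) ≤ 8 * (n : ℝ) ^ (v : ℝ) := by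
    rw [Real.rpow_natCast]
    exact_mod_cast h2
  have h4 : (n : ℝ) ^ (v : ℝ) * (n : ℝ) ^ (-((v : ℝ) + c)) = (n : ℝ) ^ (-c) := by
    rw [← Real.rpow_add (by linarith)]
    exact congrArg _ (by ring)
  rw [nsmul_eq_mul, ← h4]
  refine (mul_le_mul_of_nonneg_right h3 (by positivity)).trans (le_of_eq (by ring))

theorem first_rooted {θ β : ℝ} (hθ : 0 < θ) (h : 1 < β * θ) (L : ℕ) {δ : ℝ} (hδ : 0 < δ) :
    ∀ᶠ n : ℕ in atTop, ∀ p : unitInterval, (p : ℝ) ≤ (n : ℝ) ^ (-β) → ∀ Rt : Finset (Fin n),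
      Rt.card ≤ 3 → Pr n p {G | ∃ X : Finset (Fin n), X.card ≤ L ∧
        θ * (X \ Rt).card < eIn G X} ≤ δ := by
  have hβ : 0 < β := by
    by_contra hc
    nlinarith [mul_nonneg (neg_nonneg.2 (not_lt.1 hc)) hθ.le]
  set c := min (β * θ - 1) β with hc
  have hc0 : 0 < c := lt_min (by linarith) hβ
  have hc1 : c ≤ β * θ - 1 := min_le_left _ _
  have hc2 : c ≤ β := min_le_right _ _
  have ht : Tendsto (fun n : ℕ => ((L + 1 : ℕ) : ℝ) * (8 * (2 ^ (L + 1).choose 2 * (n : ℝ) ^ (-c))))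
      atTop (𝓝 (((L + 1 : ℕ) : ℝ) * (8 * (2 ^ (L + 1).choose 2 * 0)))) :=
    ((((tendsto_rpow_neg_atTop hc0).comp tendsto_natCast_atTop_atTop).const_mul
      _).const_mul _).const_mul _
  rw [mul_zero, mul_zero, mul_zero] at ht
  filter_upwards [ht.eventually (ge_mem_nhds hδ), eventually_ge_atTop 1] with n h1 hn p hp Rt hR
  refine (Pr_le_sum (Finset.range (L + 1))
    (fun v => {G | ∃ X : Finset (Fin n), X.card ≤ L ∧ (X \ Rt).card = v ∧ v + c ≤ β * eIn G X})
    fun G hG => ?_).trans ?_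
  · obtain ⟨X, hX, hG⟩ := hG
    have h2 : (X \ Rt).card ≤ X.card := Finset.card_le_card Finset.sdiff_subset
    refine ⟨(X \ Rt).card, Finset.mem_range.2 (by omega), X, hX, rfl, ?_⟩
    rcases Nat.eq_zero_or_pos (X \ Rt).card with h0 | h0
    · rw [h0] at hG ⊢
      have h3 : 0 < eIn G X := by
        have : (0 : ℝ) < eIn G X := by simpa using hG
        exact_mod_cast this
      have h4 : (1 : ℝ) ≤ eIn G X := by exact_mod_cast h3
      push_cast
      nlinarith
    · have h3 : (1 : ℝ) ≤ (X \ Rt).card := by exact_mod_cast h0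
      nlinarith [mul_lt_mul_of_pos_left hG hβ]
  · refine (Finset.sum_le_card_nsmul _ _ _ fun v _ => pra_aux2 hn hp Rt hR).trans ?_
    rw [nsmul_eq_mul, Finset.card_range]
    exact h1

theorem pra_one {W : Type} (H : SimpleGraph W) (n : ℕ) :
    (1 : ℝ) ∈ {x : ℝ | ∃ p : unitInterval, (p : ℝ) = x ∧
      1 / 2 ≤ (SimpleGraph.binomialRandom (Fin n) p).real {G | bootClosure H G = ⊤}} := by
  classical
  refine ⟨1, rfl, ?_⟩
  have h1 := Pr_sub (n := n) (p := 1) (Finset.univ.filter fun e => ¬ e.IsDiag)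
    fun e he => (Finset.mem_filter.1 he).2
  have h2 : Pr n 1 {G | ∀ e ∈ (Finset.univ.filter fun e : Sym2 (Fin n) => ¬ e.IsDiag),
      e ∈ G.edgeSet} ≤ Pr n 1 {G | bootClosure H G = ⊤} := by
    refine Pr_mono fun G hG => top_le_iff.1 (le_trans (fun u v huv => ?_) (le_bootClosure H G))
    exact hG s(u, v) (Finset.mem_filter.2 ⟨Finset.mem_univ _, by simpa using huv⟩)
  rw [h1] at h2
  have h3 : (1 : ℝ) ≤ Pr n 1 {G | bootClosure H G = ⊤} := by simpa using h2
  unfold Pr at h3
  linarith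

theorem pra_le {W : Type} (H : SimpleGraph W) {n : ℕ} {q : ℝ}
    (h : ∀ p : unitInterval, (p : ℝ) ≤ q → Pr n p {G | bootClosure H G = ⊤} < 1 / 2) :
    q ≤ critProb H n := by
  refine le_csInf ⟨_, pra_one H n⟩ ?_
  rintro x ⟨p, rfl, hp⟩
  by_contra hc
  have h3 := h p (not_le.mp hc).le
  unfold Pr at h3
  linarith

theorem le_expo {W : Type} (H : SimpleGraph W) {n : ℕ} (hn : 2 ≤ n) {β : ℝ}
    (h : ∀ p : unitInterval, (p : ℝ) ≤ (n : ℝ) ^ (-β) →
      Pr n p {G | bootClosure H G = ⊤} < 1 / 2) : -β ≤ expo H n := by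
  have hn1 : (1 : ℝ) < n := by exact_mod_cast hn
  have hn0 : (0 : ℝ) < n := by linarith
  have hL := Real.log_le_log (Real.rpow_pos_of_pos hn0 _) (pra_le H h)
  rw [Real.log_rpow hn0] at hL
  exact (le_div_iff₀ (Real.log_pos hn1)).mpr hL

theorem pra_bot {W V : Type} (H : SimpleGraph W) (hH : 2 ≤ H.edgeSet.ncard) :
    step H (⊥ : SimpleGraph V) ≤ ⊥ := by
  rintro u v (h1 | ⟨-, f, -, h3⟩)
  · exact h1
  · exfalso
    obtain ⟨e, he, e', he', hne⟩ :=
      (Set.one_lt_ncard (Set.finite_of_ncard_pos (by omega))).1 (show 1 < H.edgeSet.ncard by omega)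
    have key : ∀ e ∈ H.edgeSet, Sym2.map f e = s(u, v) := by
      intro e he
      induction e using Sym2.ind with
      | _ a b => exact (h3 a b he).resolve_left fun h => h
    exact hne (Sym2.map.injective f.injective ((key e he).trans (key e' he').symm))

theorem critProb_pos {W : Type} (H : SimpleGraph W) (hH : 2 ≤ H.edgeSet.ncard) {n : ℕ}
    (hn : 2 ≤ n) : 0 < critProb H n := by
  classical
  set E := (Finset.univ.filter fun e : Sym2 (Fin n) => ¬ e.IsDiag) with hE
  have hN : (0 : ℝ) ≤ E.card := Nat.cast_nonneg _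
  refine lt_of_lt_of_le (b := 1 / (2 * ((E.card : ℝ) + 1))) (by positivity) (pra_le H fun p hp => ?_)
  have h1 := Pr_disj (n := n) (p := p) E fun e he => (Finset.mem_filter.1 he).2
  have h2 : Pr n p {G | bootClosure H G = ⊤} ≤ Pr n p {G | ∀ e ∈ E, e ∉ G.edgeSet}ᶜ := by
    refine Pr_mono fun G hG hG' => ?_
    have h3 : G ≤ ⊥ := fun u v huv =>
      hG' s(u, v) (Finset.mem_filter.2 ⟨Finset.mem_univ _, by simpa using huv.ne⟩) huv
    have h4 := bootClosure_le H (pra_bot H hH) h3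
    rw [show bootClosure H G = ⊤ from hG] at h4
    exact h4 (v := ⟨0, by omega⟩) (w := ⟨1, by omega⟩) (by simp)
  rw [Pr_compl, h1] at h2
  have h5 := one_add_mul_le_pow (a := -(p : ℝ)) (by linarith [p.2.2]) E.card
  rw [le_div_iff₀ (by positivity)] at hp
  rw [← sub_eq_add_neg] at h5
  rcases eq_or_lt_of_le p.2.1 with h0 | h0
  · rw [← h0] at h2
    simp only [sub_zero, one_pow, sub_self] at h2
    linarith
  · nlinarith

theorem expo_le {W : Type} (H : SimpleGraph W) (hH : 2 ≤ H.edgeSet.ncard) {n : ℕ} (hn : 2 ≤ n)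
    {β : ℝ} (hβ : 0 < β) (h : ∀ p : unitInterval, (n : ℝ) ^ (-β) ≤ p →
      1 / 2 ≤ Pr n p {G | bootClosure H G = ⊤}) : expo H n ≤ -β := by
  have hn1 : (1 : ℝ) < n := by exact_mod_cast hn
  have hn0 : (0 : ℝ) < n := by linarith
  have hp0 : 0 < (n : ℝ) ^ (-β) := Real.rpow_pos_of_pos hn0 _
  have hp1 : (n : ℝ) ^ (-β) ≤ 1 := Real.rpow_le_one_of_one_le_of_nonpos hn1.le (by linarith)
  have hU : critProb H n ≤ (n : ℝ) ^ (-β) :=
    csInf_le ⟨0, by rintro x ⟨p, rfl, -⟩; exact p.2.1⟩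
      ⟨⟨_, hp0.le, hp1⟩, rfl, h ⟨_, hp0.le, hp1⟩ le_rfl⟩
  have hU' := Real.log_le_log (critProb_pos H hH hn) hU
  rw [Real.log_rpow hn0] at hU'
  exact (div_le_iff₀ (Real.log_pos hn1)).mpr hU'

/-- isolated vertices of `H` do not matter -/
theorem step_map {W W' V : Type} [Fintype W'] [Fintype V] (H : SimpleGraph W) (e : W ↪ W')
    (h : Fintype.card W' ≤ Fintype.card V) (G : SimpleGraph V) :
    step (H.map e) G = step H G := by
  ext u v
  refine or_congr Iff.rfl (and_congr Iff.rfl ⟨?_, ?_⟩)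
  · rintro ⟨f, ⟨a, b, hab, h1⟩, h2⟩
    obtain ⟨a', b', hab', rfl, rfl⟩ := (SimpleGraph.map_adj e H a b).1 hab
    exact ⟨e.trans f, ⟨a', b', hab', h1⟩, fun c d hcd =>
      h2 (e c) (e d) ((SimpleGraph.map_adj e H _ _).2 ⟨c, d, hcd, rfl, rfl⟩)⟩
  · rintro ⟨f, ⟨a, b, hab, h1⟩, h2⟩
    have : Finite W := Finite.of_injective e e.injective
    obtain ⟨g⟩ := Function.Embedding.nonempty_of_card_le h
    obtain ⟨σ, hσ⟩ := Equiv.Perm.exists_extending_pair _ _ (e.trans g).injective f.injective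
    have hf : ∀ w, (g.trans σ.toEmbedding) (e w) = f w := hσ
    refine ⟨g.trans σ.toEmbedding, ⟨e a, e b,
      (SimpleGraph.map_adj e H _ _).2 ⟨a, b, hab, rfl, rfl⟩, by rw [hf, hf, h1]⟩, fun c d hcd => ?_⟩
    obtain ⟨c', d', hcd', rfl, rfl⟩ := (SimpleGraph.map_adj e H c d).1 hcd
    rw [hf, hf]
    exact h2 c' d' hcd'

theorem expo_map {W W' : Type} [Fintype W'] (H : SimpleGraph W) (e : W ↪ W') {n : ℕ}
    (h : Fintype.card W' ≤ n) : expo (H.map e) n = expo H n := by
  have h1 : (step (H.map e) : SimpleGraph (Fin n) → SimpleGraph (Fin n)) = step H :=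
    funext fun G => step_map H e (by simpa using h) G
  unfold expo critProb bootClosure
  rw [h1]

theorem ncard_map {W W' : Type} (H : SimpleGraph W) (e : W ↪ W') :
    (H.map e).edgeSet.ncard = H.edgeSet.ncard := by
  rw [SimpleGraph.edgeSet_map, Set.ncard_image_of_injective _ e.sym2Map.injective]

end Pool.Agent.HB

end FilePrA

section FilePrB

/-! From rooted witnesses for most pairs to percolation. -/

open Filter Topology

namespace Pool.Agent.HB

open Classical in
/-- Markov's inequality for the number of events that occur. -/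
theorem Pr_markov {n : ℕ} {p : unitInterval} {ι : Type} (I : Finset ι)
    (T : ι → Set (SimpleGraph (Fin n))) (t : ℝ) :
    t * Pr n p {G | t ≤ (I.filter fun i => G ∈ T i).card} ≤ ∑ i ∈ I, Pr n p (T i) := by
  have h1 : ∑ i ∈ I, Pr n p (T i) =
      ∑ G : SimpleGraph (Fin n), ((I.filter fun i => G ∈ T i).card : ℝ) * Pr n p {G} := by
    rw [Finset.sum_congr rfl fun i _ => Pr_eq_sum (T i), Finset.sum_comm]
    refine Finset.sum_congr rfl fun G _ => ?_
    rw [← Finset.sum_filter, Finset.sum_const, nsmul_eq_mul]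
  rw [h1, Pr_eq_sum, Finset.mul_sum]
  refine Finset.sum_le_sum fun G _ => ?_
  by_cases h : G ∈ {G : SimpleGraph (Fin n) | t ≤ (I.filter fun i => G ∈ T i).card}
  · rw [if_pos h]
    exact mul_le_mul_of_nonneg_right h (Pr_nonneg _)
  · rw [if_neg h, mul_zero]
    exact mul_nonneg (Nat.cast_nonneg _) (Pr_nonneg _)

theorem prb_markov {n : ℕ} {p : unitInterval} {ι : Type} (I : Finset ι)
    (T : ι → Set (SimpleGraph (Fin n))) (t : ℝ) :
    t * Pr n p {G | t ≤ {i | i ∈ I ∧ G ∈ T i}.ncard} ≤ ∑ i ∈ I, Pr n p (T i) := by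
  refine le_trans (le_of_eq ?_) (Pr_markov I T t)
  refine congrArg (fun S => t * Pr n p S) (Set.ext fun G => ?_)
  rw [Set.mem_ofPred_eq, Set.mem_ofPred_eq, ← Set.ncard_coe_finset, Finset.coe_filter]

/-- Two vertices joined to a large clique are adjacent in a closed graph. -/
theorem prb_close {W V : Type} [Fintype W] (H : SimpleGraph W) {a b : W} (hab : H.Adj a b)
    {K : SimpleGraph V} (hK : step H K ≤ K) {x y : V} (hxy : x ≠ y) (S : Finset V)
    (hS : Fintype.card W ≤ S.card)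
    (hc : ∀ u ∈ S, ∀ v ∈ S, u ≠ v → K.Adj u v) (hxS : ∀ u ∈ S, K.Adj x u)
    (hyS : ∀ u ∈ S, K.Adj y u) : K.Adj x y := by
  classical
  obtain ⟨g, hg⟩ := Function.Embedding.exists_of_card_le_finset hS
  have hg' : ∀ u, g u ∈ S := fun u => Finset.mem_coe.1 (hg ⟨u, rfl⟩)
  have hne : a ≠ b := hab.ne
  let f : W → V := fun u => if u = a then x else if u = b then y else g u
  have fa : f a = x := if_pos rfl
  have fb : f b = y := by
    show (if b = a then x else if b = b then y else g b) = y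
    rw [if_neg hne.symm, if_pos rfl]
  have fo : ∀ u, u ≠ a → u ≠ b → f u = g u := fun u h1 h2 => by
    show (if u = a then x else if u = b then y else g u) = g u
    rw [if_neg h1, if_neg h2]
  have key : ∀ u v, u ≠ v → K.Adj (f u) (f v) ∨ s(f u, f v) = s(x, y) := by
    intro u v huv
    by_cases h1 : u = a
    · subst h1
      by_cases h2 : v = b
      · subst h2
        exact Or.inr (by rw [fa, fb])
      · rw [fa, fo v huv.symm h2]
        exact Or.inl (hxS _ (hg' v))
    · by_cases h2 : u = b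
      · subst h2
        by_cases h3 : v = a
        · subst h3
          exact Or.inr (by rw [fa, fb, Sym2.eq_swap])
        · rw [fb, fo v h3 huv.symm]
          exact Or.inl (hyS _ (hg' v))
      · rw [fo u h1 h2]
        by_cases h3 : v = a
        · subst h3
          rw [fa]
          exact Or.inl (hxS _ (hg' u)).symm
        · by_cases h4 : v = b
          · subst h4
            rw [fb]
            exact Or.inl (hyS _ (hg' u)).symm
          · rw [fo v h3 h4]
            exact Or.inl (hc _ (hg' u) _ (hg' v) fun e => huv (g.injective e))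
  have hinj : Function.Injective f := by
    intro u v e
    by_contra huv
    rcases key u v huv with h | h
    · exact h.ne e
    · rw [e] at h
      rcases Sym2.eq_iff.1 h with h | h
      · exact hxy (h.1.symm.trans h.2)
      · exact hxy (h.2.symm.trans h.1)
  refine hK (Or.inr ⟨hxy, ⟨f, hinj⟩, ⟨a, b, hab, ?_⟩, fun u v huv => key u v huv.ne⟩)
  show s(f a, f b) = s(x, y)
  rw [fa, fb]

open Classical in
/-- A closed graph with few missing pairs over an expanding graph is complete. -/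
theorem dense_top {W : Type} [Fintype W] (H : SimpleGraph W) {a b : W} (hab : H.Adj a b) {n : ℕ}
    (hn : 4 * (Fintype.card W + 2) < n) {G K : SimpleGraph (Fin n)} (hGK : G ≤ K)
    (hK : step H K ≤ K)
    (hd : 8 * (Fintype.card W + 2) *
      (Finset.univ.filter fun x : Fin n × Fin n => x.1 ≠ x.2 ∧ ¬ K.Adj x.1 x.2).card ≤ n ^ 2)
    (he : ∀ R : Finset (Fin n), R.Nonempty → 2 * R.card ≤ n →
      ∃ v ∈ R, Fintype.card W ≤ {w | w ∉ R ∧ G.Adj v w}.ncard) : K = ⊤ := by
  obtain ⟨w, hw⟩ : ∃ w, w = Fintype.card W := ⟨_, rfl⟩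
  rw [← hw] at hn hd he
  let miss : Fin n → Finset (Fin n) := fun x => Finset.univ.filter fun y => x ≠ y ∧ ¬ K.Adj x y
  have hsum : (Finset.univ.filter fun x : Fin n × Fin n => x.1 ≠ x.2 ∧ ¬ K.Adj x.1 x.2).card =
      ∑ x, (miss x).card := by
    rw [Finset.card_filter, Fintype.sum_prod_type]
    exact Finset.sum_congr rfl fun x _ => (Finset.card_filter _ _).symm
  rw [hsum] at hd
  let Good : Finset (Fin n) := Finset.univ.filter fun x => 4 * (w + 2) * (miss x).card ≤ n
  have hGood : n ≤ 2 * Good.card := by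
    have h1 : Goodᶜ.card * n ≤ ∑ x ∈ Goodᶜ, 4 * (w + 2) * (miss x).card := by
      rw [← smul_eq_mul]
      refine Finset.card_nsmul_le_sum _ _ _ fun x hx => ?_
      have h2 : ¬ 4 * (w + 2) * (miss x).card ≤ n := fun h =>
        Finset.mem_compl.1 hx (Finset.mem_filter.2 ⟨Finset.mem_univ _, h⟩)
      omega
    have h2 : ∑ x ∈ Goodᶜ, 4 * (w + 2) * (miss x).card ≤ 4 * (w + 2) * ∑ x, (miss x).card := by
      rw [Finset.mul_sum]
      exact Finset.sum_le_sum_of_subset (Finset.subset_univ _)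
    have h3 : 2 * Goodᶜ.card * n ≤ n * n := by nlinarith
    have h4 : 2 * Goodᶜ.card ≤ n := Nat.le_of_mul_le_mul_right h3 (by omega)
    have h5 := Finset.card_add_card_compl Good
    rw [Fintype.card_fin] at h5
    omega
  have hext : ∀ T : Finset (Fin n), T ⊆ Good → T.card ≤ w + 2 →
      ∃ v ∈ Good, ∀ z ∈ T, K.Adj z v := by
    intro T hT hc
    by_contra hno
    have h1 : Good ⊆ T.biUnion fun z => insert z (miss z) := by
      intro v hv
      by_contra h2
      refine hno ⟨v, hv, fun z hz => ?_⟩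
      by_contra h3
      refine h2 (Finset.mem_biUnion.2 ⟨z, hz, ?_⟩)
      by_cases h4 : v = z
      · exact h4 ▸ Finset.mem_insert_self _ _
      · exact Finset.mem_insert_of_mem
          (Finset.mem_filter.2 ⟨Finset.mem_univ _, fun e => h4 e.symm, h3⟩)
    have h2 := (Finset.card_le_card h1).trans Finset.card_biUnion_le
    have h3 : 4 * (w + 2) * ∑ z ∈ T, (insert z (miss z)).card ≤ T.card * (4 * (w + 2) + n) := by
      rw [Finset.mul_sum, ← smul_eq_mul T.card]
      refine Finset.sum_le_card_nsmul _ _ _ fun z hz => ?_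
      have h4 := (Finset.mem_filter.1 (hT hz)).2
      have h5 := Nat.mul_le_mul_left (4 * (w + 2)) (Finset.card_insert_le z (miss z))
      rw [Nat.mul_add _ (miss z).card, Nat.mul_one] at h5
      omega
    have h4 := Nat.mul_le_mul_right (4 * (w + 2) + n) hc
    have h5 := Nat.mul_le_mul_left (4 * (w + 2)) h2
    have h6 : (w + 2) * (4 * Good.card) ≤ (w + 2) * (4 * (w + 2) + n) := by nlinarith
    have h7 := Nat.le_of_mul_le_mul_left h6 (by omega)
    omega
  have hclq : ∀ x ∈ Good, ∀ y ∈ Good, x ≠ y → K.Adj x y := by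
    intro x hx y hy hxy
    have h1 : ∀ j, j ≤ w → ∃ S : Finset (Fin n), S.card = j ∧ S ⊆ Good ∧
        (∀ u ∈ S, ∀ v ∈ S, u ≠ v → K.Adj u v) ∧ (∀ u ∈ S, K.Adj x u) ∧ ∀ u ∈ S, K.Adj y u := by
      intro j
      induction j with
      | zero => exact fun _ => ⟨∅, rfl, by simp, by simp, by simp, by simp⟩
      | succ j ih =>
        intro hj
        obtain ⟨S, h1, h2, h3, h4, h5⟩ := ih (by omega)
        obtain ⟨v, hv, hv'⟩ := hext (insert x (insert y S))
          (Finset.insert_subset hx (Finset.insert_subset hy h2)) (by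
            have := Finset.card_insert_le x (insert y S)
            have := Finset.card_insert_le y S
            omega)
        have hvS : ∀ u ∈ S, K.Adj u v := fun u hu =>
          hv' u (Finset.mem_insert_of_mem (Finset.mem_insert_of_mem hu))
        have hv0 : v ∉ S := fun h => K.irrefl (hvS v h)
        refine ⟨insert v S, by rw [Finset.card_insert_of_notMem hv0, h1],
          Finset.insert_subset hv h2, ?_, ?_, ?_⟩
        · intro u hu u' hu' hne
          rcases Finset.mem_insert.1 hu with e | h6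
          · rcases Finset.mem_insert.1 hu' with e' | h7
            · exact absurd (e.trans e'.symm) hne
            · rw [e]
              exact (hvS u' h7).symm
          · rcases Finset.mem_insert.1 hu' with e' | h7
            · rw [e']
              exact hvS u h6
            · exact h3 u h6 u' h7 hne
        · intro u hu
          rcases Finset.mem_insert.1 hu with rfl | hu
          · exact hv' x (Finset.mem_insert_self _ _)
          · exact h4 u hu
        · intro u hu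
          rcases Finset.mem_insert.1 hu with rfl | hu
          · exact hv' y (Finset.mem_insert_of_mem (Finset.mem_insert_self _ _))
          · exact h5 u hu
    obtain ⟨S, h2, -, h3, h4, h5⟩ := h1 w le_rfl
    exact prb_close H hab hK hxy S (by omega) h3 h4 h5
  obtain ⟨C, hC, hmax⟩ := Finset.exists_max_image
    (Finset.univ.filter fun C : Finset (Fin n) =>
      Good ⊆ C ∧ ∀ x ∈ C, ∀ y ∈ C, x ≠ y → K.Adj x y) Finset.card
    ⟨Good, Finset.mem_filter.2 ⟨Finset.mem_univ _, Finset.Subset.refl _, hclq⟩⟩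
  obtain ⟨hC1, hC2⟩ := (Finset.mem_filter.1 hC).2
  by_cases hR : Cᶜ.Nonempty
  · exfalso
    have h1 := Finset.card_le_card hC1
    have h2 := Finset.card_add_card_compl C
    rw [Fintype.card_fin] at h2
    obtain ⟨v, hv, hv'⟩ := he Cᶜ hR (by omega)
    have hvC : v ∉ C := Finset.mem_compl.1 hv
    have h3 : {u | u ∉ Cᶜ ∧ G.Adj v u} = ↑(C.filter fun u => G.Adj v u) := by
      ext u
      simp
    rw [h3, Set.ncard_coe_finset] at hv'
    have h4 : ∀ y ∈ C, K.Adj v y := by
      intro y hy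
      by_cases h5 : G.Adj v y
      · exact hGK h5
      · refine prb_close H hab hK (fun e => hvC (e ▸ hy)) (C.filter fun u => G.Adj v u)
          (by omega)
          (fun u hu u' hu' => hC2 u (Finset.mem_filter.1 hu).1 u' (Finset.mem_filter.1 hu').1)
          (fun u hu => hGK (Finset.mem_filter.1 hu).2) fun u hu => ?_
        refine hC2 y hy u (Finset.mem_filter.1 hu).1 fun e => h5 ?_
        rw [e]
        exact (Finset.mem_filter.1 hu).2
    have h5 := hmax (insert v C) (Finset.mem_filter.2 ⟨Finset.mem_univ _,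
      hC1.trans (Finset.subset_insert _ _), by
        intro u hu u' hu' hne
        rcases Finset.mem_insert.1 hu with e | h6
        · rcases Finset.mem_insert.1 hu' with e' | h7
          · exact absurd (e.trans e'.symm) hne
          · rw [e]
            exact h4 u' h7
        · rcases Finset.mem_insert.1 hu' with e' | h7
          · rw [e']
            exact (h4 u h6).symm
          · exact hC2 u h6 u' h7 hne⟩)
    rw [Finset.card_insert_of_notMem hvC] at h5
    omega
  · have h1 : ∀ x, x ∈ C := fun x => by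
      by_contra h
      exact hR ⟨x, Finset.mem_compl.2 h⟩
    exact eq_top_iff.2 fun x y hxy => hC2 x (h1 x) y (h1 y) hxy

theorem upper_whp {W W' : Type} [Fintype W] [Fintype W'] [DecidableEq W'] (H : SimpleGraph W)
    {a b : W} (hab : H.Adj a b) (F : SimpleGraph W') {r₀ r₁ : W'} (hr : r₀ ≠ r₁)
    (hna : ¬ F.Adj r₀ r₁) {β : ℝ} (hβ : 0 < β) (hβ1 : β < 1)
    (hS : ∀ S : Finset W', S.Nonempty → Disjoint S {r₀, r₁} →
      β * eIn F (S ∪ {r₀, r₁}) < S.card)
    (hdet : ∀ (n : ℕ) (G : SimpleGraph (Fin n)) (f : W' ↪ Fin n), Emb F G f →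
      (bootClosure H G).Adj (f r₀) (f r₁)) :
    ∀ᶠ n : ℕ in atTop, ∀ p : unitInterval, (n : ℝ) ^ (-β) ≤ p →
      1 / 2 ≤ Pr n p {G | bootClosure H G = ⊤} := by
  classical
  obtain ⟨w, hw⟩ : ∃ w, w = Fintype.card W := ⟨_, rfl⟩
  have hR : eIn F {r₀, r₁} = 0 := by
    unfold eIn
    rw [Set.ncard_eq_zero (Set.toFinite _), Set.eq_empty_iff_forall_notMem]
    intro e he
    induction e using Sym2.ind with
    | h u v =>
      have h1 : F.Adj u v := he.1
      have h2 := he.2 u (Sym2.mem_mk_left _ _)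
      have h3 := he.2 v (Sym2.mem_mk_right _ _)
      simp only [Finset.mem_insert, Finset.mem_singleton] at h2 h3
      rcases h2 with rfl | rfl <;> rcases h3 with rfl | rfl
      · exact F.irrefl h1
      · exact hna h1
      · exact hna h1.symm
      · exact F.irrefl h1
  have hw0 : (0 : ℝ) < (w : ℝ) + 2 := by positivity
  filter_upwards [second_moment F {r₀, r₁} hR hβ hS (δ := 1 / (32 * ((w : ℝ) + 2)))
      (by positivity),
    expansion w hβ1 (δ := 1 / 4) (by norm_num), eventually_gt_atTop (4 * (w + 2))]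
    with n h1 h2 h3 p hp
  have hn : (0 : ℝ) < n := by
    have : 0 < n := by omega
    exact_mod_cast this
  let I : Finset (Fin n × Fin n) := Finset.univ.filter fun x => x.1 ≠ x.2
  let T : Fin n × Fin n → Set (SimpleGraph (Fin n)) := fun x =>
    {G | ¬ ∃ f : W' ↪ Fin n, (∀ u ∈ ({r₀, r₁} : Finset W'),
      f u = (fun u => if u = r₀ then x.1 else x.2) u) ∧ Emb F G f}
  have hT : ∀ x ∈ I, Pr n p (T x) ≤ 1 / (32 * ((w : ℝ) + 2)) := by
    intro x hx
    refine h1 p hp (fun u => if u = r₀ then x.1 else x.2) ?_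
    have hx' := (Finset.mem_filter.1 hx).2
    intro u hu v hv e
    simp only [Finset.coe_insert, Finset.coe_singleton, Set.mem_insert_iff,
      Set.mem_singleton_iff] at hu hv
    rcases hu with rfl | rfl <;> rcases hv with rfl | rfl
    · rfl
    · simp only [if_neg hr.symm, if_true] at e
      exact absurd e hx'
    · simp only [if_neg hr.symm, if_true] at e
      exact absurd e.symm hx'
    · rfl
  have hI : (I.card : ℝ) ≤ (n : ℝ) ^ 2 := by
    have := Finset.card_le_univ I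
    rw [Fintype.card_prod, Fintype.card_fin, ← sq] at this
    exact_mod_cast this
  have hM := prb_markov (p := p) I T ((n : ℝ) ^ 2 / (8 * ((w : ℝ) + 2)))
  have hM1 : I.card • (1 / (32 * ((w : ℝ) + 2))) ≤ (n : ℝ) ^ 2 * (1 / (32 * ((w : ℝ) + 2))) := by
    rw [nsmul_eq_mul]
    exact mul_le_mul_of_nonneg_right hI (by positivity)
  have hM2 := hM.trans ((Finset.sum_le_card_nsmul _ _ _ hT).trans hM1)
  have hM3 : Pr n p {G | (n : ℝ) ^ 2 / (8 * ((w : ℝ) + 2)) ≤
      {i | i ∈ I ∧ G ∈ T i}.ncard} ≤ 1 / 4 := by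
    refine le_of_mul_le_mul_left (hM2.trans (le_of_eq ?_))
      (show (0 : ℝ) < (n : ℝ) ^ 2 / (8 * ((w : ℝ) + 2)) by positivity)
    field_simp
    norm_num
  have hE := h2 p hp
  have hsub : {G | bootClosure H G = ⊤}ᶜ ⊆
      {G | (n : ℝ) ^ 2 / (8 * ((w : ℝ) + 2)) ≤ {i | i ∈ I ∧ G ∈ T i}.ncard} ∪
      {G : SimpleGraph (Fin n) | ∃ R : Finset (Fin n), R.Nonempty ∧ 2 * R.card ≤ n ∧
        ∀ v ∈ R, {u | u ∉ R ∧ G.Adj v u}.ncard < w} := by
    intro G hG
    by_contra hno
    rw [Set.mem_union, not_or] at hno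
    obtain ⟨h4, h5⟩ := hno
    refine hG (dense_top H hab (hw ▸ h3) (le_bootClosure H G) (step_bootClosure H G) ?_ ?_)
    · have h6 : ({i | i ∈ I ∧ G ∈ T i}.ncard : ℝ) < (n : ℝ) ^ 2 / (8 * ((w : ℝ) + 2)) :=
        not_le.1 h4
      rw [lt_div_iff₀ (by positivity)] at h6
      have h7 : {i | i ∈ I ∧ G ∈ T i}.ncard * (8 * (w + 2)) < n ^ 2 := by exact_mod_cast h6
      rw [← hw, mul_comm, ← Set.ncard_coe_finset, Finset.coe_filter]
      refine le_trans (Nat.mul_le_mul_right _
        (Set.ncard_le_ncard (fun x hx => ?_) (Set.toFinite _))) h7.le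
      obtain ⟨h8, h9⟩ := hx.2
      refine ⟨Finset.mem_filter.2 ⟨Finset.mem_univ _, h8⟩, ?_⟩
      rintro ⟨f, hf, hf'⟩
      have h10 := hdet n G f hf'
      rw [hf r₀ (Finset.mem_insert_self _ _),
        hf r₁ (Finset.mem_insert_of_mem (Finset.mem_singleton_self _))] at h10
      simp only [if_neg hr.symm, if_true] at h10
      exact h9 h10
    · intro R hR1 hR2
      by_contra h6
      refine h5 ⟨R, hR1, hR2, fun v hv => ?_⟩
      rw [hw]
      exact not_le.1 fun h7 => h6 ⟨v, hv, h7⟩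
  have h8 := (Pr_mono (p := p) hsub).trans (Pr_union_le _ _)
  rw [Pr_compl] at h8
  linarith

end Pool.Agent.HB

end FilePrB
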