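import Pool.Agent.P.HB.G2

section FileBlobL

/-! Blobs: size, potential, disjointness. -/

open Finset

namespace Pool.Agent.HB

variable {Γ : Type} [Fintype Γ] {V : Type} [DecidableEq V] {G : SimpleGraph V} {L : ℕ}

theorem Blob.near (B : Blob Γ G) : NearB G B.emb := B.2.choose_spec.1

theorem Blob.eq_image (B : Blob Γ G) : B.1 = univ.image B.emb := B.2.choose_spec.2

theorem Blob.emb_mem (B : Blob Γ G) (t : Tm Γ) : B.emb t ∈ B.1 := by
  rw [B.eq_image]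
  exact mem_image_of_mem _ (mem_univ t)

theorem Blob.card_eq (B : Blob Γ G) : B.1.card = mm Γ := by
  rw [B.eq_image, card_image_of_injective _ B.near.1, card_univ, card_Tm]

theorem Blob.gs_sub (B : Blob Γ G) (g : Γ) : B.gs g ⊆ B.1 := by
  intro v hv
  obtain ⟨i, -, rfl⟩ := mem_image.mp hv
  exact B.emb_mem _

theorem Blob.gs_disj (B : Blob Γ G) {g g' : Γ} (h : g ≠ g') : Disjoint (B.gs g) (B.gs g') := by
  rw [disjoint_left]
  intro v hv hv'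
  obtain ⟨i, -, rfl⟩ := mem_image.mp hv
  obtain ⟨j, -, e⟩ := mem_image.mp hv'
  have := B.near.1 e
  simp only [Sum.inl.injEq, Prod.mk.injEq] at this
  exact h this.1.symm

/-- a set of group vertices of one blob is small -/
theorem Blob.card_group_le (B : Blob Γ G) (Q : Finset V) (h : ∀ v ∈ Q, ∃ g, v ∈ B.gs g) :
    Q.card ≤ sG Γ := by
  have sub : Q ⊆ univ.image fun p : Γ × Fin 4000 => B.emb (.inl p) := by
    intro v hv
    obtain ⟨g, hg⟩ := h v hv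
    obtain ⟨i, -, rfl⟩ := mem_image.mp hg
    exact mem_image.mpr ⟨(g, i), mem_univ _, rfl⟩
  refine (card_le_card sub).trans (card_image_le.trans ?_)
  rw [card_univ, Fintype.card_prod, Fintype.card_fin]
  exact le_rfl

theorem Blob.Base.symm {B : Blob Γ G} {u v : V} (h : B.Base u v) : B.Base v u := by
  obtain ⟨t, t', hb, e, e'⟩ := h
  exact ⟨t', t, ⟨hb.1.symm, by rw [add_comm]; exact hb.2⟩, e', e⟩

theorem Blob.Base.ne {B : Blob Γ G} {u v : V} (h : B.Base u v) : u ≠ v := by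
  obtain ⟨t, t', hb, rfl, rfl⟩ := h
  exact fun e => hb.1 (B.near.1 e)

theorem Blob.Base.mem {B : Blob Γ G} {u v : V} (h : B.Base u v) : u ∈ B.1 ∧ v ∈ B.1 := by
  obtain ⟨t, t', -, rfl, rfl⟩ := h
  exact ⟨B.emb_mem t, B.emb_mem t'⟩

theorem Blob.E2_le (B : Blob Γ G) {K : SimpleGraph V} (h : ∀ u v, B.Base u v → K.Adj u v) :
    E2 Γ ≤ ec K B.1 := by
  unfold E2 ec
  rw [B.eq_image, cross_image B.near.1]
  exact cross_mono' fun t _ t' _ hb => h _ _ ⟨t, t', hb, rfl, rfl⟩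

theorem Blob.ec_ge (B : Blob Γ G) : E2 Γ ≤ ec G B.1 + 2 := by
  obtain ⟨x, y, hxy⟩ := B.near.2
  have h1 : E2 Γ ≤ ec (G ⊔ SimpleGraph.edge x y) B.1 := by
    refine B.E2_le ?_
    rintro u v ⟨t, t', hb, rfl, rfl⟩
    exact hxy t t' hb
  have h2 := cross_sup_le G (SimpleGraph.edge x y) B.1 B.1
  have h3 := cross_edge_le_two x y B.1 B.1
  unfold ec at h1 ⊢
  omega

theorem Blob.pot_le (B : Blob Γ G) : pot Γ G B.1 ≤ 5002 * (mm Γ : ℤ) := by
  have h1 : (E2 Γ : ℤ) ≤ ec G B.1 + 2 := by exact_mod_cast B.ec_ge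
  have h2 : (0 : ℤ) ≤ mm Γ := Nat.cast_nonneg _
  have h3 := mul_le_mul_of_nonneg_left h1 h2
  unfold pot AA
  rw [B.card_eq]
  push_cast
  linarith

theorem Fits.eq_image {B : Blob Γ G} {φ : Tm Γ → V} (h : Fits B φ) (hφ : Function.Injective φ) :
    B.1 = univ.image φ := by
  symm
  apply eq_of_subset_of_card_le
  · intro v hv
    obtain ⟨t, -, rfl⟩ := mem_image.mp hv
    exact h.1 t
  · rw [B.card_eq, card_image_of_injective _ hφ, card_univ, card_Tm]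

theorem mem_UU {𝓑 : Finset (Blob Γ G)} {v : V} : v ∈ UU 𝓑 ↔ ∃ B ∈ 𝓑, v ∈ B.1 := mem_biUnion

theorem card_UU_le (𝓑 : Finset (Blob Γ G)) : (UU 𝓑).card ≤ 𝓑.card * mm Γ := by
  refine card_biUnion_le.trans ?_
  rw [sum_congr rfl fun B _ => Blob.card_eq B, sum_const, smul_eq_mul]

variable [Nonempty Γ]

/-- (R1) -/
theorem Blob.disj (hs : Sparse Γ G L) (hL : 5 * mm Γ ≤ L) {B B' : Blob Γ G} (h : B ≠ B') :
    Disjoint B.1 B'.1 := by
  by_contra hd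
  have j1 : 1 ≤ (B.1 ∩ B'.1).card := card_pos.mpr (not_disjoint_iff_nonempty_inter.mp hd)
  have j2 : (B.1 ∩ B'.1).card < mm Γ := by
    by_contra hc
    have hc' : mm Γ ≤ (B.1 ∩ B'.1).card := not_lt.mp hc
    have e1 : B.1 ∩ B'.1 = B.1 :=
      eq_of_subset_of_card_le inter_subset_left (by rw [B.card_eq]; exact hc')
    have e2 : B.1 ∩ B'.1 = B'.1 :=
      eq_of_subset_of_card_le inter_subset_right (by rw [B'.card_eq]; exact hc')
    exact h (Subtype.ext (e1.symm.trans e2))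
  have hU : (B.1 ∪ B'.1).card ≤ L := by
    have := card_union_le B.1 B'.1
    rw [B.card_eq, B'.card_eq] at this
    omega
  have p0 := hs _ hU
  have p1 := pot_submod Γ G B.1 B'.1
  have p2 := B.pot_le
  have p3 := B'.pot_le
  have q1 := part_le (Γ := Γ) j1 j2
  have q2 := Nat.mul_le_mul_left (mm Γ) (ec_le G (B.1 ∩ B'.1))
  have q3 : mm Γ * ec G (B.1 ∩ B'.1) + 20000 * mm Γ ≤ AA Γ * (B.1 ∩ B'.1).card := by omega
  have q4 : (mm Γ : ℤ) * ec G (B.1 ∩ B'.1) + 20000 * mm Γ ≤ AA Γ * (B.1 ∩ B'.1).card := by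
    exact_mod_cast q3
  have q5 : 20000 * (mm Γ : ℤ) ≤ pot Γ G (B.1 ∩ B'.1) := by
    unfold pot
    linarith
  have q6 : (0 : ℤ) < mm Γ := by exact_mod_cast (by omega : 0 < mm Γ)
  linarith

theorem Blob.eq_of_mem (hs : Sparse Γ G L) (hL : 5 * mm Γ ≤ L) {B B' : Blob Γ G} {v : V}
    (h : v ∈ B.1) (h' : v ∈ B'.1) : B = B' := by
  by_contra hne
  exact disjoint_left.mp (Blob.disj hs hL hne) h h'

theorem Blob.gs_eq (hs : Sparse Γ G L) (hL : 5 * mm Γ ≤ L) {B B' : Blob Γ G} {g g' : Γ} {v : V}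
    (h : v ∈ B.gs g) (h' : v ∈ B'.gs g') : B = B' ∧ g = g' := by
  have e : B = B' := Blob.eq_of_mem hs hL (B.gs_sub g h) (B'.gs_sub g' h')
  subst e
  refine ⟨rfl, ?_⟩
  by_contra hne
  exact disjoint_left.mp (B.gs_disj hne) h h'

theorem card_UU (hs : Sparse Γ G L) (hL : 5 * mm Γ ≤ L) (𝓑 : Finset (Blob Γ G)) :
    (UU 𝓑).card = 𝓑.card * mm Γ := by
  unfold UU
  rw [card_biUnion fun B _ B' _ hne => Blob.disj hs hL hne,
    sum_congr rfl fun B _ => Blob.card_eq B, sum_const, smul_eq_mul]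

/-- the ordered pairs inside a union of blobs -/
theorem ec_UU (hs : Sparse Γ G L) (hL : 5 * mm Γ ≤ L) (K : SimpleGraph V)
    (𝓑 : Finset (Blob Γ G)) :
    ec K (UU 𝓑) = ∑ B ∈ 𝓑, (ec K B.1 + ∑ B' ∈ 𝓑.erase B, cross K B.1 B'.1) := by
  have hd : ∀ B ∈ 𝓑, ∀ B' ∈ 𝓑, B ≠ B' → Disjoint B.1 B'.1 :=
    fun B _ B' _ hne => Blob.disj hs hL hne
  unfold ec UU
  rw [cross_biUnion_left K 𝓑 (fun B => B.1) hd]
  refine sum_congr rfl fun B hB => ?_
  rw [cross_biUnion_right K 𝓑 (fun B => B.1) hd,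
    ← add_sum_erase 𝓑 (fun B' => cross K B.1 B'.1) hB]

/-- (*) -/
theorem inter_le (hs : Sparse Γ G L) (hL : 5 * mm Γ ≤ L) (𝓑 : Finset (Blob Γ G))
    (h : 𝓑.card * mm Γ ≤ L) :
    ∑ B ∈ 𝓑, ∑ B' ∈ 𝓑.erase B, cross G B.1 B'.1 ≤ 5002 * 𝓑.card := by
  have hc := card_UU hs hL 𝓑
  have p0 := hs (UU 𝓑) (by rw [hc]; exact h)
  have m0 : 0 < mm Γ := by
    have := sG_ge (Γ := Γ)
    have := mm_ge (Γ := Γ)
    omega
  have p1 : ec G (UU 𝓑) ≤ AA Γ * 𝓑.card := by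
    unfold pot at p0
    rw [hc] at p0
    have : (mm Γ : ℤ) * ec G (UU 𝓑) ≤ (mm Γ : ℤ) * (AA Γ * 𝓑.card) := by
      push_cast at p0
      linarith
    have h' : mm Γ * ec G (UU 𝓑) ≤ mm Γ * (AA Γ * 𝓑.card) := by exact_mod_cast this
    exact Nat.le_of_mul_le_mul_left h' m0
  rw [ec_UU hs hL G 𝓑, sum_add_distrib] at p1
  have p2 : ∑ _B ∈ 𝓑, E2 Γ ≤ ∑ B ∈ 𝓑, (ec G B.1 + 2) := sum_le_sum fun B _ => B.ec_ge
  rw [sum_add_distrib, sum_const, sum_const, smul_eq_mul, smul_eq_mul] at p2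
  have e : AA Γ * 𝓑.card = 𝓑.card * E2 Γ + 5000 * 𝓑.card := by
    unfold AA
    ring
  omega

/-- neighbours of an outside vertex -/
theorem Blob.deg_le (hs : Sparse Γ G L) (hL : 5 * mm Γ ≤ L) (B : Blob Γ G) {v : V}
    (hv : v ∉ B.1) : 2 * cross G {v} B.1 ≤ mm Γ + 5002 := by
  have hd : Disjoint ({v} : Finset V) B.1 := disjoint_singleton_left.mpr hv
  have m0 : 0 < mm Γ := by
    have := sG_ge (Γ := Γ)
    have := mm_ge (Γ := Γ)
    omega
  have hU : (({v} : Finset V) ∪ B.1).card ≤ L := by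
    have := card_union_le ({v} : Finset V) B.1
    rw [B.card_eq, card_singleton] at this
    omega
  have p0 := hs _ hU
  rw [pot_union Γ G hd, pot_single] at p0
  have p1 := B.pot_le
  have p2 : AA Γ ≤ mm Γ * mm Γ :=
    (AA_le (Γ := Γ)).trans (Nat.mul_le_mul_left _ (Nat.sub_le _ _))
  have p3 : (AA Γ : ℤ) ≤ mm Γ * mm Γ := by exact_mod_cast p2
  have p4 : (mm Γ : ℤ) * (2 * cross G {v} B.1) ≤ (mm Γ : ℤ) * (mm Γ + 5002) := by linarith
  have p5 : mm Γ * (2 * cross G {v} B.1) ≤ mm Γ * (mm Γ + 5002) := by exact_mod_cast p4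
  exact Nat.le_of_mul_le_mul_left p5 m0

end Pool.Agent.HB

end FileBlobL

section FileRigid

/-! (R2): the groups of a blob are determined. -/

open Finset

namespace Pool.Agent.HB

theorem rigid_split {W : Type} [Fintype W] [DecidableEq W] (P : SimpleGraph W) (t : W) :
    ec P univ = ec P (univ.erase t) + 2 * cross P {t} univ := by
  have hd : Disjoint ({t} : Finset W) (univ.erase t) := by simp
  have hu : ({t} : Finset W) ∪ univ.erase t = univ := by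
    ext s
    by_cases hs : s = t <;> simp [hs]
  have h0 : ec P {t} = 0 := by
    have := ec_le P {t}
    simpa using this
  have h1 := ec_union P hd
  have h2 := cross_union_right P {t} hd
  have h3 : cross P {t} {t} = ec P {t} := rfl
  rw [hu] at h1 h2
  omega

theorem rigid_deg {Γ : Type} [Fintype Γ] {V : Type} [DecidableEq V] (J : SimpleGraph V)
    {ψ : Tm Γ → V} (hψ : Function.Injective ψ)
    (h : ∀ t t', base t t' → J.Adj (ψ t) (ψ t'))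
    (hE : ec J (univ.image ψ) ≤ E2 Γ + 5004) (t : Tm Γ) :
    mm Γ ≤ cross J {ψ t} (univ.image ψ) + nd t + 1 ∧
      cross J {ψ t} (univ.image ψ) + nd t + 1 ≤ mm Γ + 2502 := by
  classical
  have hle : TG Γ ≤ J.comap ψ := fun a b hab => h a b hab
  have h1 : ec J (univ.image ψ) = ec (J.comap ψ) univ := cross_image hψ J univ univ
  have h2 : cross J {ψ t} (univ.image ψ) = cross (J.comap ψ) {t} univ := by
    rw [← cross_image hψ J {t} univ, image_singleton]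
  have h3 := rigid_split (J.comap ψ) t
  have h4 := rigid_split (TG Γ) t
  have h5 : ec (TG Γ) (univ.erase t) ≤ ec (J.comap ψ) (univ.erase t) := ec_mono hle Subset.rfl
  have h6 : cross (TG Γ) {t} univ ≤ cross (J.comap ψ) {t} univ :=
    cross_mono hle Subset.rfl Subset.rfl
  have h7 := deg_add t
  have h8 : E2 Γ = ec (TG Γ) univ := rfl
  omega

variable {Γ : Type} [Fintype Γ] [Nonempty Γ] {V : Type} [DecidableEq V] {G : SimpleGraph V} {L : ℕ}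

theorem rigid_ec (hs : Sparse Γ G L) (hL : 5 * mm Γ ≤ L) (B : Blob Γ G) :
    ec G B.1 ≤ E2 Γ + 5000 := by
  have h1 := hs B.1 (by rw [B.card_eq]; omega)
  unfold pot at h1
  rw [B.card_eq] at h1
  have hm : 0 < mm Γ := by
    have := mm_ge (Γ := Γ)
    have := sG_ge (Γ := Γ)
    omega
  have h2 : mm Γ * ec G B.1 ≤ mm Γ * AA Γ := by
    have h3 : (mm Γ : ℤ) * ec G B.1 ≤ (mm Γ : ℤ) * AA Γ := by linarith [mul_comm (mm Γ : ℤ) (AA Γ)]
    exact_mod_cast h3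
  exact Nat.le_of_mul_le_mul_left h2 hm

theorem rigid (hs : Sparse Γ G L) (hL : 5 * mm Γ ≤ L) (B : Blob Γ G) {φ : Tm Γ → V}
    (hφ : Function.Injective φ) (him : B.1 = univ.image φ) {x y : V}
    (h : ∀ t t', base t t' → G.Adj (φ t) (φ t') ∨ B.Base (φ t) (φ t') ∨
      (SimpleGraph.edge x y).Adj (φ t) (φ t')) : Fits B φ := by
  obtain ⟨hemb, x0, y0, h0⟩ := B.near
  have hE : ec (G ⊔ SimpleGraph.edge x0 y0 ⊔ SimpleGraph.edge x y) B.1 ≤ E2 Γ + 5004 := by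
    have h1 := rigid_ec hs hL B
    have h2 := cross_sup_le (G ⊔ SimpleGraph.edge x0 y0) (SimpleGraph.edge x y) B.1 B.1
    have h3 := cross_sup_le G (SimpleGraph.edge x0 y0) B.1 B.1
    have h4 := cross_edge_le_two x y B.1 B.1
    have h5 := cross_edge_le_two x0 y0 B.1 B.1
    unfold ec at h1 ⊢
    omega
  have hA : ∀ t t', base t t' →
      (G ⊔ SimpleGraph.edge x0 y0 ⊔ SimpleGraph.edge x y).Adj (B.emb t) (B.emb t') :=
    fun t t' ht => Or.inl (h0 t t' ht)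
  have hB : ∀ t t', base t t' →
      (G ⊔ SimpleGraph.edge x0 y0 ⊔ SimpleGraph.edge x y).Adj (φ t) (φ t') := by
    intro t t' ht
    rcases h t t' ht with h1 | ⟨s, s', h1, h2, h3⟩ | h1
    · exact Or.inl (Or.inl h1)
    · rw [← h2, ← h3]
      exact hA s s' h1
    · exact Or.inr h1
  have hrk : ∀ s t, B.emb s = φ t → hbRk s = hbRk t := by
    intro s t hst
    have h1 := rigid_deg _ hemb hA (by rw [← B.eq_image]; exact hE) s
    have h2 := rigid_deg _ hφ hB (by rw [← him]; exact hE) t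
    rw [← B.eq_image, hst] at h1
    rw [← him] at h2
    have h3 := nd_le s
    have h4 := nd_le t
    have h5 := le_nd s
    have h6 := le_nd t
    omega
  have hmem : ∀ t, φ t ∈ B.1 := fun t => by
    rw [him]
    exact mem_image_of_mem _ (mem_univ t)
  have hto : ∀ t, ∃ s, B.emb s = φ t := fun t => by
    have h1 := hmem t
    rw [B.eq_image] at h1
    obtain ⟨s, -, hs'⟩ := mem_image.1 h1
    exact ⟨s, hs'⟩
  have hfrom : ∀ s, ∃ t, B.emb s = φ t := fun s => by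
    have h1 := B.emb_mem s
    rw [him] at h1
    obtain ⟨t, -, ht⟩ := mem_image.1 h1
    exact ⟨t, ht.symm⟩
  refine ⟨hmem, fun g i => ?_, fun t t' ht => ?_, ?_⟩
  · obtain ⟨s, hs'⟩ := hto (.inl (g, i))
    obtain ⟨j, rfl⟩ := rk_eq (hrk _ _ hs')
    exact mem_image.2 ⟨j, mem_univ _, hs'⟩
  · obtain ⟨s, h1⟩ := hto t
    obtain ⟨s', h2⟩ := hto t'
    refine ⟨s, s', ⟨fun hss => ht.1 (hφ ?_), ?_⟩, h1, h2⟩
    · rw [← h1, ← h2, hss]
    · rw [hrk _ _ h1, hrk _ _ h2]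
      exact ht.2
  · rintro u v ⟨s, s', hb, rfl, rfl⟩
    obtain ⟨t, h1⟩ := hfrom s
    obtain ⟨t', h2⟩ := hfrom s'
    refine ⟨t, t', ⟨fun htt => hb.1 (hemb ?_), ?_⟩, h1.symm, h2.symm⟩
    · rw [h1, h2, htt]
    · rw [← hrk _ _ h1, ← hrk _ _ h2]
      exact hb.2

end Pool.Agent.HB

end FileRigid

section FileStatic

/-! Bundles between blobs and uniqueness of the owner. -/

open Finset

namespace Pool.Agent.HB

variable {τ : Type} [Fintype τ] {V : Type} [DecidableEq V] {G : SimpleGraph V} {L : ℕ}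

theorem cnt_mono {K K' : SimpleGraph V} (h : K ≤ K') (u : Bl τ G) (k : Kind τ) (u' : Bl τ G) :
    cnt K u k u' ≤ cnt K' u k u' :=
  cross_mono h (Subset.refl _) (Subset.refl _)

theorem out_mono {K K' : SimpleGraph V} (h : K ≤ K') {𝓒 𝓒' : Finset (Bl τ G)} (h' : 𝓒 ⊆ 𝓒')
    (u : Bl τ G) : out K 𝓒 u ≤ out K' 𝓒' u := by
  unfold out
  refine Nat.add_le_add (ec_mono h (Subset.refl _)) (Nat.mul_le_mul_left 2 ?_)
  calc ∑ d ∈ (univ : Finset (Kind τ)) ×ˢ 𝓒.erase u, cnt K u d.1 d.2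
      ≤ ∑ d ∈ (univ : Finset (Kind τ)) ×ˢ 𝓒.erase u, cnt K' u d.1 d.2 :=
        sum_le_sum fun d _ => cnt_mono h u d.1 d.2
    _ ≤ ∑ d ∈ (univ : Finset (Kind τ)) ×ˢ 𝓒'.erase u, cnt K' u d.1 d.2 :=
        sum_le_sum_of_subset (product_subset_product_right (erase_subset_erase u h'))

theorem out_sup_le (K K' : SimpleGraph V) (𝓒 : Finset (Bl τ G)) (u : Bl τ G) :
    out (K ⊔ K') 𝓒 u ≤ out K 𝓒 u + out K' 𝓒 u := by
  unfold out
  have h1 : ec (K ⊔ K') u.1 ≤ ec K u.1 + ec K' u.1 := cross_sup_le K K' _ _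
  have h2 : ∑ d ∈ (univ : Finset (Kind τ)) ×ˢ 𝓒.erase u, cnt (K ⊔ K') u d.1 d.2 ≤
      ∑ d ∈ (univ : Finset (Kind τ)) ×ˢ 𝓒.erase u, cnt K u d.1 d.2 +
        ∑ d ∈ (univ : Finset (Kind τ)) ×ˢ 𝓒.erase u, cnt K' u d.1 d.2 := by
    rw [← sum_add_distrib]
    exact sum_le_sum fun d _ => cross_sup_le K K' _ _
  omega

theorem le_out (K : SimpleGraph V) {𝓒 : Finset (Bl τ G)} (u : Bl τ G)
    (D : Finset (Kind τ × Bl τ G)) (h : ∀ d ∈ D, d.2 ∈ 𝓒 ∧ d.2 ≠ u) :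
    ec K u.1 + 2 * ∑ d ∈ D, cnt K u d.1 d.2 ≤ out K 𝓒 u := by
  unfold out
  refine Nat.add_le_add_left (Nat.mul_le_mul_left 2 (sum_le_sum_of_subset ?_)) _
  intro d hd
  exact mem_product.2 ⟨mem_univ _, mem_erase.2 ⟨(h d hd).2, (h d hd).1⟩⟩

theorem cost_le_out (K : SimpleGraph V) {𝓒 : Finset (Bl τ G)} {T u : Bl τ G} (c : τ)
    {ch : Bool → Bl τ G} (hT : T ∈ 𝓒) (hu : T ≠ u) (h : ∀ a, ch a ∈ 𝓒 ∧ ch a ≠ u) :
    cost K T u c ch + 2 * cnt K u .ok T ≤ out K 𝓒 u := by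
  classical
  have h1 := le_out K (𝓒 := 𝓒) u
    {(.tag c, T), (.lnk false, ch false), (.lnk true, ch true), (.ok, T)} (by
      intro d hd
      simp only [mem_insert, mem_singleton] at hd
      rcases hd with rfl | rfl | rfl | rfl
      exacts [⟨hT, hu⟩, h false, h true, ⟨hT, hu⟩])
  rw [sum_insert (by simp), sum_insert (by simp), sum_insert (by simp), sum_singleton] at h1
  unfold cost
  dsimp only at h1
  omega

theorem cost_le_out' (K : SimpleGraph V) {𝓒 : Finset (Bl τ G)} {T u : Bl τ G} (c : τ)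
    {ch : Bool → Bl τ G} (hT : T ∈ 𝓒) (hu : T ≠ u) (h : ∀ a, ch a ∈ 𝓒 ∧ ch a ≠ u) (a : Bool)
    {w : Bl τ G} (hw : w ∈ 𝓒) (hwu : w ≠ u) (hwc : w ≠ ch a) :
    cost K T u c ch + 2 * cnt K u .ok T + 2 * cnt K u (.lnk a) w ≤ out K 𝓒 u := by
  classical
  have h1 := le_out K (𝓒 := 𝓒) u
    {(.lnk a, w), (.tag c, T), (.lnk false, ch false), (.lnk true, ch true), (.ok, T)} (by
      intro d hd
      simp only [mem_insert, mem_singleton] at hd
      rcases hd with rfl | rfl | rfl | rfl | rfl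
      exacts [⟨hw, hwu⟩, ⟨hT, hu⟩, h false, h true, ⟨hT, hu⟩])
  rw [sum_insert (by cases a <;> simp [hwc]), sum_insert (by simp), sum_insert (by simp),
    sum_insert (by simp), sum_singleton] at h1
  unfold cost
  dsimp only at h1
  omega

theorem static_pair (K : SimpleGraph V) (u u' : Bl τ G) :
    ∑ k, cnt K u k u' + ∑ k, cnt K u' k u ≤ cross K u.1 u'.1 := by
  have h1 : ∑ g : Gm τ, cross K (u.gs g) u'.1 ≤ cross K u.1 u'.1 := by
    rw [← cross_biUnion_left K univ u.gs (fun i _ j _ hij => u.gs_disj hij)]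
    exact cross_mono le_rfl (biUnion_subset.2 fun g _ => u.gs_sub g) (Subset.refl _)
  refine le_trans ?_ h1
  rw [Fintype.sum_prod_type, ← sum_add_distrib]
  refine sum_le_sum fun k _ => ?_
  rw [Fintype.sum_bool]
  refine Nat.add_le_add (cross_mono le_rfl (Subset.refl _) (u'.gs_sub _)) ?_
  unfold cnt
  rw [cross_comm]
  exact cross_mono le_rfl (Subset.refl _) (u'.gs_sub _)

theorem static_sum (K : SimpleGraph V) (𝓒 : Finset (Bl τ G)) :
    2 * ∑ u ∈ 𝓒, ∑ d ∈ (univ : Finset (Kind τ)) ×ˢ 𝓒.erase u, cnt K u d.1 d.2 ≤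
      ∑ u ∈ 𝓒, ∑ u' ∈ 𝓒.erase u, cross K u.1 u'.1 := by
  have h1 : ∑ u ∈ 𝓒, ∑ d ∈ (univ : Finset (Kind τ)) ×ˢ 𝓒.erase u, cnt K u d.1 d.2 =
      ∑ u ∈ 𝓒, ∑ u' ∈ 𝓒.erase u, ∑ k, cnt K u k u' :=
    sum_congr rfl fun u _ => sum_product_right _ _ _
  have h2 : ∑ u ∈ 𝓒, ∑ u' ∈ 𝓒.erase u, ∑ k, cnt K u k u' =
      ∑ u ∈ 𝓒, ∑ u' ∈ 𝓒.erase u, ∑ k, cnt K u' k u := by
    refine sum_comm' fun a b => ?_
    simp only [mem_erase]
    constructor
    · rintro ⟨ha, hb, hb'⟩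
      exact ⟨⟨fun h => hb h.symm, ha⟩, hb'⟩
    · rintro ⟨⟨ha, ha'⟩, hb⟩
      exact ⟨ha', fun h => ha h.symm, hb⟩
  rw [h1, two_mul]
  nth_rewrite 2 [h2]
  rw [← sum_add_distrib]
  refine sum_le_sum fun u _ => ?_
  rw [← sum_add_distrib]
  exact sum_le_sum fun u' _ => static_pair K u u'

/-- all counted pairs are different -/
theorem master (hs : Sparse (Gm τ) G L) (hL : 5 * mm (Gm τ) ≤ L) (K : SimpleGraph V)
    (𝓒 : Finset (Bl τ G)) : ∑ u ∈ 𝓒, out K 𝓒 u ≤ ec K (UU 𝓒) := by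
  rw [ec_UU hs hL, sum_add_distrib]
  unfold out
  rw [sum_add_distrib, ← mul_sum]
  exact Nat.add_le_add_left (static_sum K 𝓒) _

theorem sum_out_edge (hs : Sparse (Gm τ) G L) (hL : 5 * mm (Gm τ) ≤ L) (x y : V)
    (𝓒 : Finset (Bl τ G)) : ∑ u ∈ 𝓒, out (SimpleGraph.edge x y) 𝓒 u ≤ 2 :=
  (master hs hL _ 𝓒).trans (cross_edge_le_two x y _ _)

theorem pot_UU_le (hs : Sparse (Gm τ) G L) (hL : 5 * mm (Gm τ) ≤ L) (𝓒 : Finset (Bl τ G))
    {n : ℕ} (h : 𝓒.card * AA (Gm τ) ≤ ∑ u ∈ 𝓒, out G 𝓒 u + n) :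
    pot (Gm τ) G (UU 𝓒) ≤ n * (mm (Gm τ) : ℤ) := by
  have h1 : 𝓒.card * AA (Gm τ) ≤ ec G (UU 𝓒) + n :=
    h.trans (Nat.add_le_add_right (master hs hL G 𝓒) n)
  have h2 : (𝓒.card : ℤ) * AA (Gm τ) ≤ ec G (UU 𝓒) + n := by exact_mod_cast h1
  unfold pot
  rw [card_UU hs hL]
  push_cast
  have h3 : (0 : ℤ) ≤ mm (Gm τ) := Int.natCast_nonneg _
  nlinarith [mul_le_mul_of_nonneg_left h2 h3]

theorem cnt_edge_le (hs : Sparse (Gm τ) G L) (hL : 5 * mm (Gm τ) ≤ L) (x y : V) (u : Bl τ G)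
    (k : Kind τ) (u' : Bl τ G) : cnt (SimpleGraph.edge x y) u k u' ≤ 1 := by
  refine cross_edge_le x y (disjoint_left.2 fun v hv hv' => ?_)
  have := (Blob.gs_eq hs hL hv hv').2
  simp at this

/-- (*) for bundles -/
theorem star (hs : Sparse (Gm τ) G L) (hL : 5 * mm (Gm τ) ≤ L) (𝓒 : Finset (Bl τ G))
    (h5 : 𝓒.card ≤ 5) (D : Finset (Bl τ G × Kind τ × Bl τ G))
    (h : ∀ d ∈ D, d.1 ∈ 𝓒 ∧ d.2.2 ∈ 𝓒 ∧ d.1 ≠ d.2.2) :
    ∑ d ∈ D, cnt G d.1 d.2.1 d.2.2 ≤ 2501 * 𝓒.card := by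
  classical
  have h1 := (static_sum G 𝓒).trans (inter_le hs hL 𝓒 ((Nat.mul_le_mul_right _ h5).trans hL))
  have h3 : ∑ d ∈ D, cnt G d.1 d.2.1 d.2.2 ≤
      ∑ u ∈ 𝓒, ∑ d ∈ (univ : Finset (Kind τ)) ×ˢ 𝓒.erase u, cnt G u d.1 d.2 := by
    have hsub : D ⊆ (𝓒 ×ˢ ((univ : Finset (Kind τ)) ×ˢ 𝓒)).filter fun d => d.2.2 ≠ d.1 := by
      intro d hd
      obtain ⟨a, b, c⟩ := h d hd
      exact mem_filter.2 ⟨mem_product.2 ⟨a, mem_product.2 ⟨mem_univ _, b⟩⟩, c.symm⟩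
    refine (sum_le_sum_of_subset hsub).trans (le_of_eq ?_)
    rw [sum_filter, sum_product]
    refine sum_congr rfl fun u _ => ?_
    rw [← sum_filter]
    refine sum_congr ?_ fun _ _ => rfl
    ext d
    simp only [mem_filter, mem_product, mem_univ, true_and, mem_erase]
    exact and_comm
  omega

theorem loc_unique (hs : Sparse (Gm τ) G L) (hL : 5 * mm (Gm τ) ≤ L) {x y : V}
    {u u' w w' : Bl τ G} {k k' : Kind τ} (h : Loc x y u k u') (h' : Loc x y w k' w') :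
    u = w ∧ k = k' ∧ u' = w' := by
  rcases h with ⟨h1, h2⟩ | ⟨h1, h2⟩ <;> rcases h' with ⟨h3, h4⟩ | ⟨h3, h4⟩
  · exact ⟨(Blob.gs_eq hs hL h1 h3).1, congrArg Prod.fst (Blob.gs_eq hs hL h1 h3).2,
      (Blob.gs_eq hs hL h2 h4).1⟩
  · have := (Blob.gs_eq hs hL h1 h4).2
    simp at this
  · have := (Blob.gs_eq hs hL h1 h4).2
    simp at this
  · exact ⟨(Blob.gs_eq hs hL h1 h3).1, congrArg Prod.fst (Blob.gs_eq hs hL h1 h3).2,
      (Blob.gs_eq hs hL h2 h4).1⟩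

theorem base_not_loc (hs : Sparse (Gm τ) G L) (hL : 5 * mm (Gm τ) ≤ L) {x y : V}
    {u w w' : Bl τ G} {k : Kind τ} (h : u.Base x y) (h' : Loc x y w k w') : w = w' := by
  obtain ⟨hx, hy⟩ := h.mem
  rcases h' with ⟨h1, h2⟩ | ⟨h1, h2⟩
  · exact (Blob.eq_of_mem hs hL (w.gs_sub _ h1) hx).trans
      (Blob.eq_of_mem hs hL hy (w'.gs_sub _ h2))
  · exact (Blob.eq_of_mem hs hL (w.gs_sub _ h1) hy).trans
      (Blob.eq_of_mem hs hL hx (w'.gs_sub _ h2))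

theorem src_unique (hs : Sparse (Gm τ) G L) (hL : 5 * mm (Gm τ) ≤ L) {x y : V}
    {u w : Bl τ G} (h : Src x y u) (h' : Src x y w) : u = w := by
  rcases h with h | ⟨k, u', hu, h⟩ <;> rcases h' with h' | ⟨k', w', hw, h'⟩
  · exact Blob.eq_of_mem hs hL h.mem.1 h'.mem.1
  · exact absurd (base_not_loc hs hL h h') hw
  · exact absurd (base_not_loc hs hL h' h) hu
  · exact (loc_unique hs hL h h').1

theorem Src.not_plain {x y : V} {u : Bl τ G} (h : Src x y u) :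
    ¬ Plain (Gm τ) G x ∧ ¬ Plain (Gm τ) G y := by
  rcases h with h | ⟨k, u', _, ⟨h1, h2⟩ | ⟨h1, h2⟩⟩
  · exact ⟨fun hp => hp u h.mem.1, fun hp => hp u h.mem.2⟩
  · exact ⟨fun hp => hp u (u.gs_sub _ h1), fun hp => hp u' (u'.gs_sub _ h2)⟩
  · exact ⟨fun hp => hp u' (u'.gs_sub _ h2), fun hp => hp u (u.gs_sub _ h1)⟩

end Pool.Agent.HB

end FileStatic

section FileUniq

/-! (U): uniqueness of anchors, tags and owners. -/

open Finset

namespace Pool.Agent.HB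

variable {τ : Type} [Fintype τ] {V : Type} [DecidableEq V] {G : SimpleGraph V} {L : ℕ}

theorem uniq_anc {T T' : Bl τ G} (h : Rel T .anc T') : 3998 ≤ cnt G T .anc T' := by
  have := h.2
  simp only [Kind.sz] at this
  omega

theorem uniq_tag {T T' : Bl τ G} {c : τ} (h : Rel T (.tag c) T') :
    2299 ≤ cnt G T (.tag c) T' := by
  have := h.2
  simp only [Kind.sz] at this
  omega

theorem uniq_star2 (hs : Sparse (Gm τ) G L) (hL : 5 * mm (Gm τ) ≤ L) (𝓒 : Finset (Bl τ G))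
    {n : ℕ} (hn : 𝓒.card ≤ n) (h5 : n ≤ 5) {a a' b b' : Bl τ G} {k l : Kind τ}
    (ha : a ∈ 𝓒 ∧ a' ∈ 𝓒 ∧ a ≠ a') (hb : b ∈ 𝓒 ∧ b' ∈ 𝓒 ∧ b ≠ b')
    (h1 : (a, k, a') ≠ (b, l, b')) : cnt G a k a' + cnt G b l b' ≤ 2501 * n := by
  classical
  have h := star hs hL 𝓒 (hn.trans h5) {(a, k, a'), (b, l, b')} (by
    intro d hd
    simp only [mem_insert, mem_singleton] at hd
    rcases hd with rfl | rfl
    exacts [ha, hb])
  rw [sum_pair h1] at h
  exact h.trans (Nat.mul_le_mul_left _ hn)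

theorem uniq_star3 (hs : Sparse (Gm τ) G L) (hL : 5 * mm (Gm τ) ≤ L) (𝓒 : Finset (Bl τ G))
    {n : ℕ} (hn : 𝓒.card ≤ n) (h5 : n ≤ 5) {a a' b b' c c' : Bl τ G} {k l m : Kind τ}
    (ha : a ∈ 𝓒 ∧ a' ∈ 𝓒 ∧ a ≠ a') (hb : b ∈ 𝓒 ∧ b' ∈ 𝓒 ∧ b ≠ b')
    (hc : c ∈ 𝓒 ∧ c' ∈ 𝓒 ∧ c ≠ c') (h1 : (a, k, a') ≠ (b, l, b'))
    (h2 : (a, k, a') ≠ (c, m, c')) (h3 : (b, l, b') ≠ (c, m, c')) :
    cnt G a k a' + cnt G b l b' + cnt G c m c' ≤ 2501 * n := by
  classical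
  have h := star hs hL 𝓒 (hn.trans h5) {(a, k, a'), (b, l, b'), (c, m, c')} (by
    intro d hd
    simp only [mem_insert, mem_singleton] at hd
    rcases hd with rfl | rfl | rfl
    exacts [ha, hb, hc])
  rw [sum_insert (by simp only [mem_insert, mem_singleton, not_or]; exact ⟨h1, h2⟩),
    sum_pair h3, ← add_assoc] at h
  exact h.trans (Nat.mul_le_mul_left _ hn)

theorem uniq_star4 (hs : Sparse (Gm τ) G L) (hL : 5 * mm (Gm τ) ≤ L) (𝓒 : Finset (Bl τ G))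
    (h5 : 𝓒.card ≤ 5) {a a' b b' c c' d d' : Bl τ G} {k l m o : Kind τ}
    (ha : a ∈ 𝓒 ∧ a' ∈ 𝓒 ∧ a ≠ a') (hb : b ∈ 𝓒 ∧ b' ∈ 𝓒 ∧ b ≠ b')
    (hc : c ∈ 𝓒 ∧ c' ∈ 𝓒 ∧ c ≠ c') (hd : d ∈ 𝓒 ∧ d' ∈ 𝓒 ∧ d ≠ d')
    (h1 : (a, k, a') ≠ (b, l, b')) (h2 : (a, k, a') ≠ (c, m, c'))
    (h3 : (a, k, a') ≠ (d, o, d')) (h4 : (b, l, b') ≠ (c, m, c'))
    (h6 : (b, l, b') ≠ (d, o, d')) (h7 : (c, m, c') ≠ (d, o, d')) :
    cnt G a k a' + cnt G b l b' + cnt G c m c' + cnt G d o d' ≤ 12505 := by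
  classical
  have h := star hs hL 𝓒 h5 {(a, k, a'), (b, l, b'), (c, m, c'), (d, o, d')} (by
    intro e he
    simp only [mem_insert, mem_singleton] at he
    rcases he with rfl | rfl | rfl | rfl
    exacts [ha, hb, hc, hd])
  rw [sum_insert (by simp only [mem_insert, mem_singleton, not_or]; exact ⟨h1, h2, h3⟩),
    sum_insert (by simp only [mem_insert, mem_singleton, not_or]; exact ⟨h4, h6⟩),
    sum_pair h7] at h
  dsimp only at h
  omega

theorem anc_disj (hs : Sparse (Gm τ) G L) (hL : 5 * mm (Gm τ) ≤ L) {T T' S S' : Bl τ G}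
    (h : Rel T .anc T') (h' : Rel S .anc S') :
    (T = S ∧ T' = S') ∨ (T ≠ S ∧ T ≠ S' ∧ T' ≠ S ∧ T' ≠ S') := by
  by_cases he : T = S ∧ T' = S'
  · exact Or.inl he
  right
  have hne : (T, Kind.anc, T') ≠ ((S, Kind.anc, S') : Bl τ G × Kind τ × Bl τ G) := by
    intro hh
    simp only [Prod.mk.injEq, true_and] at hh
    exact he hh
  have a1 := uniq_anc h
  have a2 := uniq_anc h'
  have key : ∀ X : Bl τ G, S ∈ ({T, T', X} : Finset (Bl τ G)) →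
      S' ∈ ({T, T', X} : Finset (Bl τ G)) → False := by
    intro X h1 h2
    have := uniq_star2 hs hL {T, T', X} card_le_three (by norm_num)
      ⟨by simp, by simp, h.1⟩ ⟨h1, h2, h'.1⟩ hne
    omega
  refine ⟨fun e => key S' ?_ ?_, fun e => key S ?_ ?_, fun e => key S' ?_ ?_,
    fun e => key S ?_ ?_⟩ <;> simp [← e]

theorem tag_not_anc (hs : Sparse (Gm τ) G L) (hL : 5 * mm (Gm τ) ≤ L) {B T S S' : Bl τ G} {c : τ}
    (h : Rel B (.tag c) T) (hT : Tok T) (h' : Rel S .anc S') : B ≠ S ∧ B ≠ S' := by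
  obtain ⟨T', hT'⟩ := hT
  have a1 := uniq_tag h
  have a2 := uniq_anc hT'
  have a3 := uniq_anc h'
  rcases anc_disj hs hL hT' h' with ⟨rfl, rfl⟩ | ⟨n1, -, -, -⟩
  · refine ⟨h.1, fun e => ?_⟩
    subst e
    have := uniq_star2 hs hL {B, T} card_le_two (by norm_num)
      (k := .tag c) (l := .anc) ⟨by simp, by simp, h.1⟩ ⟨by simp, by simp, hT'.1⟩ (by simp)
    omega
  · have key : B ∈ ({T, T', S, S'} : Finset (Bl τ G)) → False := by
      intro hB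
      have := uniq_star3 hs hL {T, T', S, S'} card_le_four (by norm_num)
        (k := .tag c) (l := .anc) (m := .anc) ⟨hB, by simp, h.1⟩ ⟨by simp, by simp, hT'.1⟩
        ⟨by simp, by simp, h'.1⟩ (by simp) (by simp) (by simp [n1])
      omega
    exact ⟨fun e => key (by simp [e]), fun e => key (by simp [e])⟩

theorem tag_unique (hs : Sparse (Gm τ) G L) (hL : 5 * mm (Gm τ) ≤ L) {B T S : Bl τ G} {c c' : τ}
    (h : Rel B (.tag c) T) (hT : Tok T) (h' : Rel B (.tag c') S) (hS : Tok S) :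
    c = c' ∧ T = S := by
  obtain ⟨T', hT'⟩ := hT
  obtain ⟨S', hS'⟩ := hS
  have a1 := uniq_tag h
  have a2 := uniq_tag h'
  have a3 := uniq_anc hT'
  have a4 := uniq_anc hS'
  rcases anc_disj hs hL hT' hS' with ⟨rfl, rfl⟩ | ⟨n1, -, -, -⟩
  · refine ⟨?_, rfl⟩
    by_contra hc
    have := uniq_star3 hs hL {B, T, T'} card_le_three (by norm_num)
      (k := .tag c) (l := .tag c') (m := .anc) ⟨by simp, by simp, h.1⟩ ⟨by simp, by simp, h'.1⟩
      ⟨by simp, by simp, hT'.1⟩ (by simp [hc]) (by simp) (by simp)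
    omega
  · exfalso
    have := uniq_star4 hs hL {B, T, T', S, S'} card_le_five
      (k := .tag c) (l := .tag c') (m := .anc) (o := .anc)
      ⟨by simp, by simp, h.1⟩ ⟨by simp, by simp, h'.1⟩ ⟨by simp, by simp, hT'.1⟩
      ⟨by simp, by simp, hS'.1⟩ (by simp [n1]) (by simp) (by simp) (by simp) (by simp)
      (by simp [n1])
    omega

theorem own_unique (hs : Sparse (Gm τ) G L) (hL : 5 * mm (Gm τ) ≤ L) {B T S : Bl τ G}
    (h : Own B T) (hT : Tok T) (h' : Own B S) (hS : Tok S) : T = S := by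
  obtain ⟨T', hT'⟩ := id hT
  obtain ⟨S', hS'⟩ := id hS
  rcases h with rfl | h | ⟨c, h⟩
  · rcases h' with h' | h' | ⟨c', h'⟩
    · exact h'
    · rcases anc_disj hs hL hT' h' with ⟨e, -⟩ | ⟨-, n, -, -⟩
      exacts [e, absurd rfl n]
    · exact absurd rfl (tag_not_anc hs hL h' hS hT').1
  · rcases h' with rfl | h' | ⟨c', h'⟩
    · rcases anc_disj hs hL h hS' with ⟨e, -⟩ | ⟨-, -, n, -⟩
      exacts [e, absurd rfl n]
    · rcases anc_disj hs hL h h' with ⟨e, -⟩ | ⟨-, -, -, n⟩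
      exacts [e, absurd rfl n]
    · exact absurd rfl (tag_not_anc hs hL h' hS h).2
  · rcases h' with rfl | h' | ⟨c', h'⟩
    · exact absurd rfl (tag_not_anc hs hL h hT hS').1
    · exact absurd rfl (tag_not_anc hs hL h hT h').2
    · exact (tag_unique hs hL h hT h' hS).2

theorem uniq_notMem (hs : Sparse (Gm τ) G L) (hL : 5 * mm (Gm τ) ≤ L) {T T' : Bl τ G}
    (hT : Rel T .anc T') (𝓤 : Finset (Bl τ G)) (h : ∀ u ∈ 𝓤, ∃ c, Rel u (.tag c) T) :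
    T ∉ insert T' 𝓤 ∧ T' ∉ 𝓤 := by
  constructor
  · rw [mem_insert, not_or]
    refine ⟨hT.1, fun hm => ?_⟩
    obtain ⟨c, hc⟩ := h T hm
    exact hc.1 rfl
  · intro hm
    obtain ⟨c, hc⟩ := h T' hm
    exact (tag_not_anc hs hL hc ⟨T', hT⟩ hT).2 rfl

/-- the token and its anchor cost at most `2008` -/
theorem pot_tok_le (hs : Sparse (Gm τ) G L) (hL : 5 * mm (Gm τ) ≤ L) {T T' : Bl τ G}
    (hT : Rel T .anc T') (𝓤 : Finset (Bl τ G)) (h : ∀ u ∈ 𝓤, ∃ c, Rel u (.tag c) T) {n : ℕ}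
    (hn : n ≤ 2008) (hsum : 𝓤.card * AA (Gm τ) + n ≤ ∑ u ∈ 𝓤, out G (insert T 𝓤) u) :
    pot (Gm τ) G (UU (insert T (insert T' 𝓤))) ≤ (2008 - n : ℕ) * (mm (Gm τ) : ℤ) := by
  obtain ⟨h1, h2⟩ := uniq_notMem hs hL hT 𝓤 h
  refine pot_UU_le hs hL _ ?_
  rw [card_insert_of_notMem h1, card_insert_of_notMem h2, sum_insert h1, sum_insert h2]
  have e1 := le_out G (𝓒 := insert T (insert T' 𝓤)) T {(Kind.anc, T')} (by
    intro d hd
    rw [mem_singleton] at hd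
    subst hd
    exact ⟨by simp, hT.1.symm⟩)
  have e2 := le_out G (𝓒 := insert T (insert T' 𝓤)) T' ∅ (by simp)
  rw [sum_singleton] at e1
  rw [sum_empty] at e2
  dsimp only at e1
  have e3 := Blob.ec_ge T
  have e4 := Blob.ec_ge T'
  have e5 := uniq_anc hT
  have e6 : ∑ u ∈ 𝓤, out G (insert T 𝓤) u ≤ ∑ u ∈ 𝓤, out G (insert T (insert T' 𝓤)) u :=
    sum_le_sum fun u _ => out_mono le_rfl (insert_subset_insert _ (subset_insert _ _)) u
  have e7 : AA (Gm τ) = E2 (Gm τ) + 5000 := rfl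
  have e8 : (𝓤.card + 1 + 1) * AA (Gm τ) = 𝓤.card * AA (Gm τ) + 2 * AA (Gm τ) := by ring
  omega

theorem dirty_of_surplus (hs : Sparse (Gm τ) G L) (hL : 5 * mm (Gm τ) ≤ L) {L1 : ℕ} {T : Bl τ G}
    (hT : Tok T) (𝓤 : Finset (Bl τ G)) (h : ∀ u ∈ 𝓤, ∃ c, Rel u (.tag c) T)
    (hc : 𝓤.card + 2 ≤ L1) (x y : V) (hsum : 𝓤.card * AA (Gm τ) + 200 ≤
      ∑ u ∈ 𝓤, out (G ⊔ SimpleGraph.edge x y) (insert T 𝓤) u) : Dirty L1 T := by
  obtain ⟨T', hT'⟩ := id hT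
  have e1 : ∑ u ∈ 𝓤, out (G ⊔ SimpleGraph.edge x y) (insert T 𝓤) u ≤
      ∑ u ∈ 𝓤, out G (insert T 𝓤) u + ∑ u ∈ 𝓤, out (SimpleGraph.edge x y) (insert T 𝓤) u := by
    rw [← sum_add_distrib]
    exact sum_le_sum fun u _ => out_sup_le _ _ _ u
  have e2 : ∑ u ∈ 𝓤, out (SimpleGraph.edge x y) (insert T 𝓤) u ≤ 2 :=
    (sum_le_sum_of_subset (subset_insert T 𝓤)).trans (sum_out_edge hs hL x y _)
  have e3 := pot_tok_le hs hL hT' 𝓤 h (n := 198) (by norm_num) (by omega)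
  refine ⟨hT, insert T (insert T' 𝓤), mem_insert_self _ _, fun B hB => ?_, ?_, ?_⟩
  · rcases mem_insert.1 hB with rfl | hB
    · exact Or.inl rfl
    rcases mem_insert.1 hB with rfl | hB
    · exact Or.inr (Or.inl hT')
    · exact Or.inr (Or.inr (h B hB))
  · have := card_insert_le T (insert T' 𝓤)
    have := card_insert_le T' 𝓤
    omega
  · simpa using e3

theorem card_le_of_small {L0 : ℕ} (hs : Sparse (Gm τ) G L) (hL : 5 * mm (Gm τ) ≤ L)
    (hsm : Small (Gm τ) G L L0) {T : Bl τ G} (hT : Tok T) (𝓤 : Finset (Bl τ G))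
    (h : ∀ u ∈ 𝓤, ∃ c, Rel u (.tag c) T) (hc : (𝓤.card + 2) * mm (Gm τ) ≤ L)
    (hsum : 𝓤.card * AA (Gm τ) ≤ ∑ u ∈ 𝓤, out G (insert T 𝓤) u) : 𝓤.card ≤ L0 := by
  obtain ⟨T', hT'⟩ := hT
  have e3 := pot_tok_le hs hL hT' 𝓤 h (n := 0) (by norm_num) (by omega)
  have e4 : (UU (insert T (insert T' 𝓤))).card ≤ L := by
    refine (card_UU_le _).trans (le_trans (Nat.mul_le_mul_right _ ?_) hc)
    have := card_insert_le T (insert T' 𝓤)
    have := card_insert_le T' 𝓤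
    omega
  have e5 := hsm _ e4 (by simpa using e3)
  refine le_trans ?_ e5
  rw [ec_UU hs hL]
  have e6 : 3 ≤ E2 (Gm τ) := by
    have a1 := AA_ge' (Γ := Gm τ)
    have a2 := mm_ge (Γ := Gm τ)
    have a3 := sG_ge (Γ := Gm τ)
    have a4 : AA (Gm τ) = E2 (Gm τ) + 5000 := rfl
    omega
  calc 𝓤.card = ∑ _B ∈ 𝓤, 1 := by simp
    _ ≤ ∑ B ∈ 𝓤, (ec G B.1 + ∑ B' ∈ (insert T (insert T' 𝓤)).erase B, cross G B.1 B'.1) := by
      refine sum_le_sum fun B _ => ?_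
      have := Blob.ec_ge B
      omega
    _ ≤ _ := sum_le_sum_of_subset ((subset_insert _ _).trans (subset_insert _ _))

end Pool.Agent.HB

end FileUniq

section FileFinL

/-! (M): final pairs are plain, form a matching and have a cheap witness. -/

open Finset

namespace Pool.Agent.HB

variable {τ : Type} [Fintype τ] {V : Type} [DecidableEq V] {G : SimpleGraph V} {L1 : ℕ}

/-- the set of blobs that makes a token dirty -/
noncomputable def dset (L1 : ℕ) (T : Bl τ G) : Finset (Bl τ G) :=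
  open Classical in if h : Dirty L1 T then h.2.choose else ∅

theorem dset_spec {T : Bl τ G} (h : Dirty L1 T) : T ∈ dset L1 T ∧ (∀ B ∈ dset L1 T, Own B T) ∧
    (dset L1 T).card ≤ L1 ∧ pot (Gm τ) G (UU (dset L1 T)) ≤ 1810 * (mm (Gm τ) : ℤ) := by
  unfold dset
  rw [dif_pos h]
  exact h.2.choose_spec

theorem finl_att (hs : Sparse (Gm τ) G (LL (Gm τ) L1)) {x : V} {s : Bool} (𝓣 : Finset (Bl τ G))
    (h : ∀ T ∈ 𝓣, Dirty L1 T ∧ Att x s T) :
    499 * 𝓣.card ≤ cross G {x} (UU (𝓣.biUnion (dset L1))) := by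
  have e : UU 𝓣 ⊆ UU (𝓣.biUnion (dset L1)) := fun v hv => by
    obtain ⟨T, a, b⟩ := mem_UU.1 hv
    exact mem_UU.2 ⟨T, mem_biUnion.2 ⟨T, a, (dset_spec (h T a).1).1⟩, b⟩
  refine le_trans ?_ (cross_mono le_rfl subset_rfl e)
  unfold UU
  rw [cross_biUnion_right G 𝓣 _ fun T _ T' _ n => Blob.disj hs (LL_ge L1) n, mul_comm,
    ← smul_eq_mul]
  refine Finset.card_nsmul_le_sum _ _ _ fun T a => ?_
  have := (h T a).2.2
  have := cross_mono (G := G) (X := {x}) le_rfl subset_rfl (T.gs_sub (.att s, false))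
  omega

/-- adding the sets of dirty tokens to a set that contains both ends; `G'` has to contain the
edges of `G` with an end in a blob -/
theorem pot_add_le (hs : Sparse (Gm τ) G (LL (Gm τ) L1)) {G' : SimpleGraph V}
    (hG : ∀ u v, G.Adj u v → ¬ Plain (Gm τ) G v → G'.Adj u v) {x y : V} (hxy : x ≠ y)
    (𝓣 : Finset (Bl τ G)) (h : ∀ T ∈ 𝓣, Dirty L1 T ∧ Att x false T ∧ Att y true T)
    (X : Finset V) (hx : x ∈ X) (hy : y ∈ X) (hd : ∀ T ∈ 𝓣, Disjoint X (UU (dset L1 T))) :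
    pot (Gm τ) G' (X ∪ UU (𝓣.biUnion (dset L1))) ≤
      pot (Gm τ) G' X - 186 * (mm (Gm τ) : ℤ) * 𝓣.card := by
  have e : UU (𝓣.biUnion (dset L1)) = 𝓣.biUnion fun T => UU (dset L1 T) := by
    unfold UU
    exact Finset.biUnion_biUnion _ _ _
  have d : Disjoint X (UU (𝓣.biUnion (dset L1))) := by
    rw [e, disjoint_biUnion_right]; exact hd
  have mono : ∀ Z, cross G Z (UU (𝓣.biUnion (dset L1))) ≤ cross G' Z (UU (𝓣.biUnion (dset L1))) :=
    fun Z => cross_mono' fun u _ v hv a => hG u v a fun p => by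
      obtain ⟨B, -, b⟩ := mem_UU.1 hv
      exact p B b
  have m0 : (0 : ℤ) ≤ mm (Gm τ) := Int.natCast_nonneg _
  have p1 : pot (Gm τ) G' (UU (𝓣.biUnion (dset L1))) ≤ pot (Gm τ) G (UU (𝓣.biUnion (dset L1))) :=
    sub_le_sub_left (mul_le_mul_of_nonneg_left (Int.ofNat_le.2 (mono _)) m0) _
  have p2 : pot (Gm τ) G (UU (𝓣.biUnion (dset L1))) ≤ 𝓣.card * (1810 * (mm (Gm τ) : ℤ)) := by
    rw [e]
    refine (pot_biUnion_le (Gm τ) hs 𝓣 _ fun T a => (card_UU_le _).trans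
      ((Nat.mul_le_mul_right _ (dset_spec (h T a).1).2.2.1).trans (LL_ge' L1))).trans ?_
    rw [← nsmul_eq_mul]
    exact Finset.sum_le_card_nsmul _ _ _ fun T a => (dset_spec (h T a).1).2.2.2
  have c1 := finl_att hs 𝓣 fun T a => ⟨(h T a).1, (h T a).2.1⟩
  have c2 := finl_att hs 𝓣 fun T a => ⟨(h T a).1, (h T a).2.2⟩
  have c3 := cross_union_left G (UU (𝓣.biUnion (dset L1))) (disjoint_singleton.2 hxy)
  have c4 := cross_mono (G := G) (X := {x} ∪ {y}) (X' := X) (Y := UU (𝓣.biUnion (dset L1))) le_rfl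
    (union_subset (singleton_subset_iff.2 hx) (singleton_subset_iff.2 hy)) subset_rfl
  have c5 := mono X
  have c6 : 998 * (𝓣.card : ℤ) ≤ cross G' X (UU (𝓣.biUnion (dset L1))) := by omega
  have c7 := mul_le_mul_of_nonneg_left c6 m0
  rw [pot_union (Gm τ) G' d]
  linarith

theorem FinS.symm {x y : V} (h : FinS τ G L1 x y) : FinS τ G L1 y x := Or.symm h

theorem FinS.ne {x y : V} (h : FinS τ G L1 x y) : x ≠ y := h.elim (fun a => a.1) fun a => a.1.symm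

theorem finl_num : (100000 : ℤ) * mm (Gm τ) ≤ AA (Gm τ) ∧ (0 : ℤ) < mm (Gm τ) ∧
    (AA (Gm τ) : ℤ) ≤ 99 * ((mm (Gm τ) : ℤ) * rr (Gm τ)) + 100 * mm (Gm τ) := by
  have a1 := AA_ge' (Γ := Gm τ)
  have a2 := rr_ge (Γ := Gm τ)
  have a3 := sG_ge (Γ := Gm τ)
  have a4 := mm_ge (Γ := Gm τ)
  rw [mul_assoc, mul_comm (rr _)] at a2
  rw [← Nat.cast_mul]
  omega

theorem finl_cell (hs : Sparse (Gm τ) G (LL (Gm τ) L1)) (v : V) : ∃ C : Finset V, v ∈ C ∧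
    C.card ≤ mm (Gm τ) ∧ pot (Gm τ) G C ≤ AA (Gm τ) ∧
    (¬ Plain (Gm τ) G v → pot (Gm τ) G C ≤ 5002 * (mm (Gm τ) : ℤ)) ∧
    ∀ T T' : Bl τ G, Dirty L1 T → Dirty L1 T' → ¬ Disjoint C (UU (dset L1 T)) →
      ¬ Disjoint C (UU (dset L1 T')) → T = T' := by
  obtain ⟨n1, n2, -⟩ := finl_num (τ := τ)
  by_cases p : Plain (Gm τ) G v
  · refine ⟨{v}, mem_singleton_self _, by rw [card_singleton]; omega, (pot_single _ G v).le,
      fun n => absurd p n, fun T _ _ _ a _ => absurd (disjoint_singleton_left.2 fun b => ?_) a⟩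
    obtain ⟨B, -, b⟩ := mem_UU.1 b
    exact p B b
  · obtain ⟨B, hB⟩ := not_forall.1 p
    have own : ∀ T : Bl τ G, Dirty L1 T → ¬ Disjoint B.1 (UU (dset L1 T)) → Own B T :=
      fun T a b => by
        obtain ⟨w, b1, b2⟩ := not_disjoint_iff.1 b
        obtain ⟨B', b3, b4⟩ := mem_UU.1 b2
        rw [Blob.eq_of_mem hs (LL_ge L1) b1 b4]
        exact (dset_spec a).2.1 B' b3
    have := B.pot_le
    exact ⟨B.1, not_not.1 hB, B.card_eq.le, by linarith, fun _ => this, fun T T' a a' b b' =>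
      own_unique hs (LL_ge L1) (own T a b) a.1 (own T' a' b') a'.1⟩

theorem finl_card (𝓣 : Finset (Bl τ G)) (h : ∀ T ∈ 𝓣, Dirty L1 T) :
    (𝓣.biUnion (dset L1)).card ≤ 𝓣.card * L1 :=
  card_biUnion_le_card_mul _ _ _ fun T a => (dset_spec (h T a)).2.2.1

theorem finl_plain (hs : Sparse (Gm τ) G (LL (Gm τ) L1)) {x y : V} (h : FinP τ G L1 x y) :
    Plain (Gm τ) G x ∧ Plain (Gm τ) G y := by
  classical
  obtain ⟨hxy, 𝓣, hc, h⟩ := h
  obtain ⟨n1, n2, n3⟩ := finl_num (τ := τ)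
  obtain ⟨C, c1, c2, c3, c4, c5⟩ := finl_cell hs x
  obtain ⟨D, d1, d2, d3, d4, d5⟩ := finl_cell hs y
  have hL := LL_ge (Γ := Gm τ) L1
  by_contra hn
  have p1 := pot_submod (Gm τ) G C D
  have p2 := hs (C ∩ D) ((card_le_card inter_subset_left).trans (by omega))
  have p3 : pot (Gm τ) G (C ∪ D) ≤ AA (Gm τ) + 5002 * (mm (Gm τ) : ℤ) := by
    rcases not_and_or.1 hn with a | a
    · have := c4 a; linarith
    · have := d4 a; linarith
  let 𝓢 := 𝓣.filter fun T => Disjoint (C ∪ D) (UU (dset L1 T))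
  have sub : 𝓢 ⊆ 𝓣 := filter_subset _ _
  have k1 : (𝓣.filter fun T => ¬ Disjoint C (UU (dset L1 T))).card ≤ 1 :=
    card_le_one.2 fun T a T' a' => c5 T T' (h T (mem_filter.1 a).1).1 (h T' (mem_filter.1 a').1).1
      (mem_filter.1 a).2 (mem_filter.1 a').2
  have k2 : (𝓣.filter fun T => ¬ Disjoint D (UU (dset L1 T))).card ≤ 1 :=
    card_le_one.2 fun T a T' a' => d5 T T' (h T (mem_filter.1 a).1).1 (h T' (mem_filter.1 a').1).1
      (mem_filter.1 a).2 (mem_filter.1 a').2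
  have k3 : 𝓣 ⊆ 𝓢 ∪ ((𝓣.filter fun T => ¬ Disjoint C (UU (dset L1 T))) ∪
      𝓣.filter fun T => ¬ Disjoint D (UU (dset L1 T))) := fun T a => by
    simp only [𝓢, mem_union, mem_filter, disjoint_union_left, a, true_and]
    tauto
  have k4 := (card_le_card k3).trans ((card_union_le _ _).trans
    (Nat.add_le_add_left (card_union_le _ _) _))
  have k5 : (rr (Gm τ) : ℤ) - 2 ≤ 𝓢.card := by omega
  have k6 := mul_le_mul_of_nonneg_left k5 n2.le
  have p4 := pot_add_le hs (G' := G) (fun _ _ a _ => a) hxy 𝓢 (fun T a => h T (sub a)) (C ∪ D)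
    (mem_union_left _ c1) (mem_union_right _ d1) fun T a => (mem_filter.1 a).2
  have p5 := hs ((C ∪ D) ∪ UU (𝓢.biUnion (dset L1))) (by
    have a1 := card_union_le (C ∪ D) (UU (𝓢.biUnion (dset L1)))
    have a2 := card_union_le C D
    have a3 : (UU (𝓢.biUnion (dset L1))).card ≤ rr (Gm τ) * L1 * mm (Gm τ) :=
      (card_UU_le _).trans (Nat.mul_le_mul_right _ ((finl_card 𝓢 fun T a => (h T (sub a)).1).trans
        (Nat.mul_le_mul_right _ (hc ▸ card_le_card sub))))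
    have a4 : LL (Gm τ) L1 = mm (Gm τ) * (2 + rr (Gm τ) * L1 * mm (Gm τ) + mm (Gm τ)) +
        2 * (2 + rr (Gm τ) * L1 * mm (Gm τ) + mm (Gm τ)) := by unfold LL; ring
    omega)
  linarith

theorem end_plain (hs : Sparse (Gm τ) G (LL (Gm τ) L1)) {x : V} (h : End τ G L1 x) :
    Plain (Gm τ) G x := by
  obtain ⟨y, h | h⟩ := h
  exacts [(finl_plain hs h).1, (finl_plain hs h).2]

theorem finl_wit (hs : Sparse (Gm τ) G (LL (Gm τ) L1)) {x y : V} (h : FinP τ G L1 x y) :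
    ∃ 𝓑 : Finset (Bl τ G), 𝓑.card ≤ rr (Gm τ) * L1 ∧ ∀ G' : SimpleGraph V,
      (∀ u v, G.Adj u v → ¬ Plain (Gm τ) G v → G'.Adj u v) →
        100 * pot (Gm τ) G' ({x, y} ∪ UU 𝓑) ≤ 15 * (AA (Gm τ) : ℤ) := by
  obtain ⟨px, py⟩ := finl_plain hs h
  obtain ⟨hxy, 𝓣, hc, h⟩ := h
  obtain ⟨n1, n2, n3⟩ := finl_num (τ := τ)
  refine ⟨𝓣.biUnion (dset L1), hc ▸ finl_card 𝓣 fun T a => (h T a).1, fun G' hG => ?_⟩
  have p1 := pot_add_le hs hG hxy 𝓣 h {x, y} (by simp) (by simp) fun T _ =>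
    disjoint_left.2 fun v a b => by
      obtain ⟨B, -, b⟩ := mem_UU.1 b
      rcases mem_insert.1 a with rfl | a
      · exact px B b
      · rw [mem_singleton.1 a] at b
        exact py B b
  have p2 : pot (Gm τ) G' {x, y} ≤ 2 * (AA (Gm τ) : ℤ) := by
    unfold pot
    rw [card_pair hxy]
    have := mul_nonneg n2.le (Int.natCast_nonneg (ec G' {x, y}))
    push_cast
    linarith
  rw [hc] at p1
  linarith

theorem fin_wit (hs : Sparse (Gm τ) G (LL (Gm τ) L1)) {x y : V} (h : FinS τ G L1 x y) :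
    ∃ 𝓑 : Finset (Bl τ G), 𝓑.card ≤ rr (Gm τ) * L1 ∧ ∀ G' : SimpleGraph V,
      (∀ u v, G.Adj u v → ¬ Plain (Gm τ) G v → G'.Adj u v) →
        100 * pot (Gm τ) G' ({x, y} ∪ UU 𝓑) ≤ 15 * (AA (Gm τ) : ℤ) := by
  rcases h with h | h
  · exact finl_wit hs h
  · rw [pair_comm]
    exact finl_wit hs h

end Pool.Agent.HB

end FileFinL
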