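import Pool.Agent.P.HB.G3
import Pool.Agent.P.HB.G4

section FilePartA

/-! The part of a copy at a clean token that is not dirty. -/

open Finset

namespace Pool.Agent.HB

variable {τ : Type} [Fintype τ] [Inhabited τ] {V : Type} [DecidableEq V] {G K : SimpleGraph V}
  {L L0 L1 : ℕ} {Good : Term τ → Prop} {T : Bl τ G} {𝓤 : Finset (Bl τ G)} {tg : Bl τ G → τ}
  {ch : Bl τ G → Bool → Bl τ G} {val : Bl τ G → Term τ} {cl : Clause τ} {u : ℕ → Bl τ G}
  {x y : V}

theorem PartD.node_ne {K' : SimpleGraph V} (hw : PreWF cl) (hp : PartD cl K' T u) {i : ℕ}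
    (hi : i < cl.length) {p : ℕ × ℕ} (hk : cl.kid i = some p) (a : Bool) :
    nodeOf T u (sel p a) ≠ u i := by
  rcases hw.kids i hi p hk a with h | ⟨h1, h2⟩
  · rw [h]
    simp only [nodeOf, if_true]
    exact (hp.tag i hi).1.symm
  · have h0 : sel p a ≠ 0 := by omega
    simp only [nodeOf, if_neg h0]
    intro h
    have := hp.inj _ h2 _ hi h
    omega

omit [Inhabited τ] in
/-- a pair of groups without extra edge -/
theorem parta_cnt_le {w w' : Bl τ G} {k : Kind τ}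
    (h : ∀ a ∈ w.gs (k, true), ∀ b ∈ w'.gs (k, false), K.Adj a b → G.Adj a b) :
    cnt (K ⊔ SimpleGraph.edge x y) w k w' ≤ cnt (G ⊔ SimpleGraph.edge x y) w k w' := by
  unfold cnt
  refine cross_mono' fun a ha b hb hab => ?_
  rw [SimpleGraph.sup_adj] at hab ⊢
  exact hab.imp (h a ha b hb) id

theorem parta_new_cnt (hc : CleanD Good L0 K T 𝓤 tg ch val)
    (hp : PartD cl (K ⊔ SimpleGraph.edge x y) T u) {i : ℕ} (hi : i < cl.length) (hu : u i ∉ 𝓤)
    (k : Kind τ) {w : Bl τ G} (hw : u i ≠ w) :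
    cnt (K ⊔ SimpleGraph.edge x y) (u i) k w ≤ cnt (G ⊔ SimpleGraph.edge x y) (u i) k w := by
  refine parta_cnt_le fun a ha b hb hab => ?_
  by_contra hG
  exact hu (hc.src (u i) _ (hp.tag i hi) a b hab hG k w hw ha hb).1

theorem parta_new_ec (hc : CleanD Good L0 K T 𝓤 tg ch val)
    (hp : PartD cl (K ⊔ SimpleGraph.edge x y) T u) {i : ℕ} (hi : i < cl.length) (hu : u i ∉ 𝓤) :
    E2 (Gm τ) ≤ ec (G ⊔ SimpleGraph.edge x y) (u i).1 := by
  refine Blob.E2_le _ fun a b hab => ?_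
  have h := hp.bas i hi a b hab
  rw [SimpleGraph.sup_adj] at h ⊢
  refine h.imp (fun h => ?_) id
  by_contra hG
  exact hu (hc.bas (u i) _ (hp.tag i hi) a b h hG hab)

/-- a new node has all its edges in `G` plus the new edge -/
theorem new_cost (hw : PreWF cl) (hc : CleanD Good L0 K T 𝓤 tg ch val)
    (hp : PartD cl (K ⊔ SimpleGraph.edge x y) T u) {i : ℕ} (hi : i < cl.length) (hu : u i ∉ 𝓤)
    {p : ℕ × ℕ} (hk : cl.kid i = some p) :
    AA (Gm τ) ≤ cost (G ⊔ SimpleGraph.edge x y) T (u i) (cl.tg i) fun a => nodeOf T u (sel p a) := by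
  have h1 := parta_new_ec hc hp hi hu
  have h2 := (hp.ctag i hi).trans (parta_new_cnt hc hp hi hu _ (hp.tag i hi).1)
  have h3 := (hp.clnk i hi p hk false).trans
    (parta_new_cnt hc hp hi hu _ (hp.node_ne hw hi hk false).symm)
  have h4 := (hp.clnk i hi p hk true).trans
    (parta_new_cnt hc hp hi hu _ (hp.node_ne hw hi hk true).symm)
  unfold AA cost
  beta_reduce
  omega

theorem new_cnt (hc : CleanD Good L0 K T 𝓤 tg ch val)
    (hp : PartD cl (K ⊔ SimpleGraph.edge x y) T u) {i : ℕ} (hi : i < cl.length) (hu : u i ∉ 𝓤)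
    (k : Kind τ) {w : Bl τ G} (hw : u i ≠ w) :
    cnt (K ⊔ SimpleGraph.edge x y) (u i) k w ≤ cnt (G ⊔ SimpleGraph.edge x y) (u i) k w :=
  parta_new_cnt hc hp hi hu k hw

omit [Inhabited τ] in
theorem parta_cost_mono {K K' : SimpleGraph V} (h : K ≤ K') (w : Bl τ G) (c : τ)
    (f : Bool → Bl τ G) : cost K T w c f ≤ cost K' T w c f := by
  have h1 : ec K w.1 ≤ ec K' w.1 := ec_mono h subset_rfl
  have h2 := cnt_mono h w (.tag c) T
  have h3 := cnt_mono h w (.lnk false) (f false)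
  have h4 := cnt_mono h w (.lnk true) (f true)
  unfold cost
  omega

/-- all blobs under consideration -/
noncomputable def partaU (𝓤 : Finset (Bl τ G)) (cl : Clause τ) (u : ℕ → Bl τ G) :
    Finset (Bl τ G) := 𝓤 ∪ (range cl.length).image u

omit [Inhabited τ] in
theorem parta_old_mem {w : Bl τ G} (h : w ∈ 𝓤) : w ∈ partaU 𝓤 cl u := mem_union_left _ h

omit [Inhabited τ] in
theorem parta_new_mem {i : ℕ} (hi : i < cl.length) : u i ∈ partaU 𝓤 cl u :=
  mem_union_right _ (mem_image_of_mem _ (mem_range.2 hi))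

theorem parta_node_mem (hw : PreWF cl) {i : ℕ} (hi : i < cl.length) {p : ℕ × ℕ}
    (hk : cl.kid i = some p) (a : Bool) :
    nodeOf T u (sel p a) ∈ insert T (partaU 𝓤 cl u) := by
  rcases hw.kids i hi p hk a with h | ⟨h1, h2⟩
  · rw [h]
    simp only [nodeOf, if_true]
    exact mem_insert_self _ _
  · have h0 : sel p a ≠ 0 := by omega
    simp only [nodeOf, if_neg h0]
    exact mem_insert_of_mem (parta_new_mem h2)

omit [Inhabited τ] in
theorem parta_ch_mem (hc : CleanD Good L0 K T 𝓤 tg ch val) {w : Bl τ G} (h : w ∈ 𝓤) (a : Bool) :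
    ch w a ∈ insert T (partaU 𝓤 cl u) ∧ ch w a ≠ w := by
  refine ⟨?_, (hc.chm w h a).2⟩
  rcases (hc.chm w h a).1 with h' | h'
  · exact mem_insert_of_mem (parta_old_mem h')
  · rw [h']
    exact mem_insert_self _ _

/-- lower bounds for a new node -/
theorem parta_new_out (hw : PreWF cl) (hc : CleanD Good L0 K T 𝓤 tg ch val)
    (hp : PartD cl (K ⊔ SimpleGraph.edge x y) T u) {i : ℕ} (hi : i < cl.length) (hu : u i ∉ 𝓤) :
    AA (Gm τ) ≤ out (G ⊔ SimpleGraph.edge x y) (insert T (partaU 𝓤 cl u)) (u i) ∧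
      (cl.ok i = true →
        AA (Gm τ) + 200 ≤ out (G ⊔ SimpleGraph.edge x y) (insert T (partaU 𝓤 cl u)) (u i)) := by
  have hT : T ≠ u i := (hp.tag i hi).1.symm
  have hok : cl.ok i = true → 300 ≤ cnt (G ⊔ SimpleGraph.edge x y) (u i) .ok T := fun h =>
    (hp.cok i hi h).trans (parta_new_cnt hc hp hi hu _ hT.symm)
  rcases hk : cl.kid i with _ | p
  · have h1 := parta_new_ec hc hp hi hu
    have h2 := (hp.ctag i hi).trans (parta_new_cnt hc hp hi hu _ hT.symm)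
    have h3 := hok (hw.leaf i hi hk)
    have h4 := cost_le_out (G ⊔ SimpleGraph.edge x y) (𝓒 := insert T (partaU 𝓤 cl u))
      (cl.tg i) (ch := fun _ => T) (mem_insert_self _ _) hT
      (fun _ => ⟨mem_insert_self _ _, hT⟩)
    unfold cost at h4
    unfold AA
    constructor
    · omega
    · intro _
      omega
  · have h1 := new_cost hw hc hp hi hu hk
    have h4 := cost_le_out (G ⊔ SimpleGraph.edge x y) (𝓒 := insert T (partaU 𝓤 cl u))
      (cl.tg i) (ch := fun a => nodeOf T u (sel p a)) (mem_insert_self _ _) hT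
      (fun a => ⟨parta_node_mem hw hi hk a, hp.node_ne hw hi hk a⟩)
    constructor
    · omega
    · intro h
      have := hok h
      omega

omit [Inhabited τ] in
/-- lower bound for an old node -/
theorem parta_old_out (hc : CleanD Good L0 K T 𝓤 tg ch val) {w : Bl τ G} (h : w ∈ 𝓤) :
    cost G T w (tg w) (ch w) + 2 * cnt (G ⊔ SimpleGraph.edge x y) w .ok T ≤
      out (G ⊔ SimpleGraph.edge x y) (insert T (partaU 𝓤 cl u)) w := by
  have h4 := cost_le_out (G ⊔ SimpleGraph.edge x y) (𝓒 := insert T (partaU 𝓤 cl u))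
    (tg w) (ch := ch w) (mem_insert_self _ _) (hc.tag w h).1.symm (parta_ch_mem hc h)
  have h5 := parta_cost_mono (T := T) (le_sup_left : G ≤ G ⊔ SimpleGraph.edge x y) w (tg w) (ch w)
  omega

open Classical in
/-- the baseline -/
noncomputable def partaB (T : Bl τ G) (𝓤 : Finset (Bl τ G)) (tg : Bl τ G → τ)
    (ch : Bl τ G → Bool → Bl τ G) (w : Bl τ G) : ℕ :=
  if w ∈ 𝓤 then cost G T w (tg w) (ch w) + 2 * min 1 (cnt G w .ok T) else AA (Gm τ)

omit [Inhabited τ] in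
theorem parta_sum_base (hc : CleanD Good L0 K T 𝓤 tg ch val) :
    (partaU 𝓤 cl u).card * AA (Gm τ) ≤ ∑ w ∈ partaU 𝓤 cl u, partaB T 𝓤 tg ch w := by
  have hsub : 𝓤 ⊆ partaU 𝓤 cl u := fun _ h => parta_old_mem h
  rw [← sum_sdiff hsub, ← card_sdiff_add_card_eq_card hsub, add_mul]
  refine add_le_add ?_ ?_
  · rw [← smul_eq_mul]
    refine card_nsmul_le_sum _ _ _ fun w hw => ?_
    rw [partaB, if_neg (mem_sdiff.1 hw).2]
  · refine hc.sum.trans (le_of_eq (sum_congr rfl fun w hw => ?_))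
    rw [partaB, if_pos hw]

theorem parta_base_le (hw : PreWF cl) (hc : CleanD Good L0 K T 𝓤 tg ch val)
    (hp : PartD cl (K ⊔ SimpleGraph.edge x y) T u) {w : Bl τ G} (h : w ∈ partaU 𝓤 cl u) :
    partaB T 𝓤 tg ch w ≤ out (G ⊔ SimpleGraph.edge x y) (insert T (partaU 𝓤 cl u)) w := by
  by_cases hu : w ∈ 𝓤
  · rw [partaB, if_pos hu]
    have h1 := parta_old_out (cl := cl) (u := u) (x := x) (y := y) hc hu
    have h2 := cnt_mono (le_sup_left : G ≤ G ⊔ SimpleGraph.edge x y) w .ok T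
    have h3 := min_le_right 1 (cnt G w .ok T)
    omega
  · rw [partaB, if_neg hu]
    rcases mem_union.1 h with h | h
    · exact absurd h hu
    · obtain ⟨i, hi, rfl⟩ := mem_image.1 h
      exact (parta_new_out hw hc hp (mem_range.1 hi) hu).1

/-- a surplus of `200` at one node makes the token dirty -/
theorem parta_surplus (hs : Sparse (Gm τ) G L) (hL : 5 * mm (Gm τ) ≤ L) (hw : PreWF cl)
    (hL1 : cl.length + L0 + 2 ≤ L1) (hc : CleanD Good L0 K T 𝓤 tg ch val)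
    (hp : PartD cl (K ⊔ SimpleGraph.edge x y) T u) {w : Bl τ G} (h : w ∈ partaU 𝓤 cl u)
    (h' : partaB T 𝓤 tg ch w + 200 ≤
      out (G ⊔ SimpleGraph.edge x y) (insert T (partaU 𝓤 cl u)) w) : Dirty L1 T := by
  refine dirty_of_surplus hs hL hp.tok (partaU 𝓤 cl u) (fun v hv => ?_) ?_ x y ?_
  · rcases mem_union.1 hv with hv | hv
    · exact ⟨_, hc.tag v hv⟩
    · obtain ⟨i, hi, rfl⟩ := mem_image.1 hv
      exact ⟨_, hp.tag i (mem_range.1 hi)⟩
  · have h1 : (partaU 𝓤 cl u).card ≤ 𝓤.card + ((range cl.length).image u).card :=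
      card_union_le _ _
    have h2 : ((range cl.length).image u).card ≤ cl.length :=
      card_image_le.trans (card_range _).le
    have h3 := hc.card
    omega
  · have h1 := parta_sum_base (cl := cl) (u := u) hc
    rw [← add_sum_erase _ _ h] at h1 ⊢
    have h2 : ∑ v ∈ (partaU 𝓤 cl u).erase w, partaB T 𝓤 tg ch v ≤
        ∑ v ∈ (partaU 𝓤 cl u).erase w,
          out (G ⊔ SimpleGraph.edge x y) (insert T (partaU 𝓤 cl u)) v :=
      sum_le_sum fun v hv => parta_base_le hw hc hp (mem_of_mem_erase hv)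
    omega

theorem parta_arith {a a' b b' c o : ℕ} (h1 : 100 ≤ c) (h2 : a' + 2 * b' + 2 * c ≤ o) (h3 : a ≤ a')
    (h4 : b ≤ b') : a + 2 * min 1 b + 200 ≤ o := by
  have h5 := min_le_right 1 b
  omega

theorem part_cases (hs : Sparse (Gm τ) G L) (hL : 5 * mm (Gm τ) ≤ L) (hw : PreWF cl)
    (hL1 : cl.length + L0 + 2 ≤ L1) (hc : CleanD Good L0 K T 𝓤 tg ch val) (hd : ¬ Dirty L1 T)
    (hp : PartD cl (K ⊔ SimpleGraph.edge x y) T u) : ∀ i < cl.length,
      (u i ∉ 𝓤 → cl.ok i = false) ∧ (u i ∈ 𝓤 → tg (u i) = cl.tg i ∧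
        (∀ p, cl.kid i = some p → ∀ a, nodeOf T u (sel p a) = ch (u i) a) ∧
        (cl.ok i = true → Good (val (u i)))) := by
  intro i hi
  have hT : u i ≠ T := (hp.tag i hi).1
  refine ⟨fun hu => ?_, fun hu => ⟨?_, fun p hk a => ?_, fun hok => ?_⟩⟩
  · by_contra hok
    rw [Bool.not_eq_false] at hok
    refine hd (parta_surplus hs hL hw hL1 hc hp (parta_new_mem hi) ?_)
    rw [partaB, if_neg hu]
    exact (parta_new_out hw hc hp hi hu).2 hok
  · exact (tag_unique hs hL (hc.tag _ hu) hp.tok (hp.tag i hi) hp.tok).1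
  · by_contra hne
    refine hd (parta_surplus hs hL hw hL1 hc hp (parta_new_mem hi) ?_)
    rw [partaB, if_pos hu]
    have hn := hp.node_ne hw hi hk a
    have h1 : 100 ≤ cnt (G ⊔ SimpleGraph.edge x y) (u i) (.lnk a) (nodeOf T u (sel p a)) := by
      refine (hp.clnk i hi p hk a).trans (parta_cnt_le fun b hb c hc' hbc => ?_)
      by_contra hG
      exact hne ((hc.src (u i) _ (hp.tag i hi) b c hbc hG _ _ hn.symm hb hc').2.1 a rfl)
    have h2 := cost_le_out' (G ⊔ SimpleGraph.edge x y) (𝓒 := insert T (partaU 𝓤 cl u))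
      (tg (u i)) (ch := ch (u i)) (mem_insert_self _ _) hT.symm (parta_ch_mem hc hu) a
      (parta_node_mem hw hi hk a) hn hne
    have h3 := parta_cost_mono (T := T) (le_sup_left : G ≤ G ⊔ SimpleGraph.edge x y) (u i)
      (tg (u i)) (ch (u i))
    have h4 := cnt_mono (le_sup_left : G ≤ G ⊔ SimpleGraph.edge x y) (u i) .ok T
    exact parta_arith h1 h2 h3 h4
  · by_contra hne
    refine hd (parta_surplus hs hL hw hL1 hc hp (parta_new_mem hi) ?_)
    rw [partaB, if_pos hu]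
    have h1 : 300 ≤ cnt (G ⊔ SimpleGraph.edge x y) (u i) .ok T := by
      refine (hp.cok i hi hok).trans (parta_cnt_le fun b hb c hc' hbc => ?_)
      by_contra hG
      exact hne ((hc.src (u i) _ (hp.tag i hi) b c hbc hG _ _ hT hb hc').2.2 rfl)
    have h2 := parta_old_out (cl := cl) (u := u) (x := x) (y := y) hc hu
    have h5 := min_le_left 1 (cnt G (u i) .ok T)
    omega

theorem halt_dirty (hs : Sparse (Gm τ) G L) (hL : 5 * mm (Gm τ) ≤ L) (hL1 : L0 + 3 ≤ L1)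
    {halt : τ} (hG : ∀ l r, ¬ Good (.node halt l r)) (hc : Clean Good L0 K T)
    (hp : PartD [(halt, none, true)] (K ⊔ SimpleGraph.edge x y) T u) : Dirty L1 T := by
  obtain ⟨𝓤, tg, ch, val, hc⟩ := hc
  by_contra hd
  have hw : PreWF ([(halt, none, true)] : Clause τ) := by
    constructor
    · intro i hi _
      have h0 : i = 0 := by simpa using hi
      rw [h0]
      simp [Clause.ok]
    · intro i hi p hk
      have h0 : i = 0 := by simpa using hi
      rw [h0] at hk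
      exact absurd hk (by simp [Clause.kid])
  have h := part_cases hs hL hw (by simp only [List.length_singleton]; omega) hc hd hp 0
    (by simp)
  by_cases hu : u 0 ∈ 𝓤
  · obtain ⟨h1, -, h3⟩ := h.2 hu
    have h4 := h3 rfl
    rw [hc.val_eq _ hu, h1] at h4
    exact hG _ _ h4
  · exact absurd (h.1 hu) (by simp [Clause.ok])

omit [Inhabited τ] in
theorem clean_other (hc : Clean Good L0 K T) (h : ∀ w c, Rel w (.tag c) T → ¬ Src x y w) :
    Clean Good L0 (K ⊔ SimpleGraph.edge x y) T := by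
  obtain ⟨𝓤, tg, ch, val, hc⟩ := hc
  refine ⟨𝓤, tg, ch, val, hc.nil, hc.card, hc.tag, hc.chm, hc.val_eq, ?_, ?_, hc.sum⟩
  · intro w c hr a b hab hG hb
    rcases (SimpleGraph.sup_adj _ _ _ _).1 hab with hab | hab
    · exact hc.bas w c hr a b hab hG hb
    · refine absurd ?_ (h w c hr)
      rcases ((SimpleGraph.edge_adj _ _ _ _).1 hab).1 with ⟨rfl, rfl⟩ | ⟨rfl, rfl⟩
      · exact Or.inl hb
      · exact Or.inl hb.symm
  · intro w c hr a b hab hG k w' hne ha hb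
    rcases (SimpleGraph.sup_adj _ _ _ _).1 hab with hab | hab
    · exact hc.src w c hr a b hab hG k w' hne ha hb
    · refine absurd ?_ (h w c hr)
      rcases ((SimpleGraph.edge_adj _ _ _ _).1 hab).1 with ⟨rfl, rfl⟩ | ⟨rfl, rfl⟩
      · exact Or.inr ⟨k, w', hne, Or.inl ⟨ha, hb⟩⟩
      · exact Or.inr ⟨k, w', hne, Or.inr ⟨ha, hb⟩⟩

theorem clean_init (T : Bl τ G) : Clean Good L0 G T := by
  refine ⟨∅, fun _ => default, fun _ _ => T, fun _ => .nil, rfl, by simp, by simp, by simp,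
    by simp, ?_, ?_, by simp⟩
  · intro w c _ a b hab hG
    exact absurd hab hG
  · intro w c _ a b hab hG
    exact absurd hab hG

end Pool.Agent.HB

end FilePartA

section FilePartB

/-! A clause keeps its token clean. -/

open Finset

namespace Pool.Agent.HB

variable {τ : Type} [Fintype τ] [Inhabited τ] {V : Type} [DecidableEq V] {G K : SimpleGraph V}
  {L L0 L1 : ℕ} {Good : Term τ → Prop} {T : Bl τ G} {cl : Clause τ} {u : ℕ → Bl τ G} {x y : V}

omit [Fintype τ] in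
theorem partb_rec (hw : PreWF cl) (old : ℕ → Prop) (g : ℕ → Term τ) (n : ℕ) :
    ∃ f : ℕ → Term τ, ∀ i < cl.length, cl.length ≤ i + n → (old i → f i = g i) ∧
      (¬ old i → ∀ p, cl.kid i = some p →
        f i = .node (cl.tg i) (nodeOf .nil f p.1) (nodeOf .nil f p.2)) := by
  classical
  induction n with
  | zero => exact ⟨g, fun i h1 h2 => by omega⟩
  | succ n ih =>
    obtain ⟨f, hf⟩ := ih
    obtain ⟨i₀, hi₀⟩ : ∃ i₀, i₀ = cl.length - (n + 1) := ⟨_, rfl⟩
    obtain ⟨t, ht⟩ : ∃ t : Term τ, t = if old i₀ then g i₀ else .node (cl.tg i₀)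
      (nodeOf .nil f ((cl.kid i₀).getD (0, 0)).1) (nodeOf .nil f ((cl.kid i₀).getD (0, 0)).2) :=
      ⟨_, rfl⟩
    have key : ∀ i < cl.length, i₀ ≤ i → ∀ p, cl.kid i = some p → ∀ a,
        nodeOf .nil (Function.update f i₀ t) (sel p a) = nodeOf .nil f (sel p a) := by
      intro i hi h0 p hp a
      unfold nodeOf
      rcases hw.kids i hi p hp a with h | h
      · rw [if_pos h, if_pos h]
      · rw [Function.update_of_ne (by omega)]
    refine ⟨Function.update f i₀ t, fun i hi hn => ?_⟩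
    by_cases e : cl.length ≤ i + n ∧ i ≠ i₀
    · rw [Function.update_of_ne e.2]
      refine ⟨(hf i hi e.1).1, fun ho p hp => ?_⟩
      rw [(hf i hi e.1).2 ho p hp]
      exact congrArg₂ _ (key i hi (by omega) p hp false).symm (key i hi (by omega) p hp true).symm
    · have e' : i = i₀ := by omega
      subst e'
      rw [Function.update_self]
      refine ⟨fun ho => by rw [ht, if_pos ho], fun ho p hp => ?_⟩
      rw [if_neg ho, hp] at ht
      exact ht.trans
        (congrArg₂ _ (key i hi le_rfl p hp false).symm (key i hi le_rfl p hp true).symm)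

omit [Inhabited τ] in
theorem partb_cost (K K' : SimpleGraph V) (T w : Bl τ G) (c : τ) (ch : Bool → Bl τ G) :
    cost (K ⊔ K') T w c ch ≤ cost K T w c ch + cost K' T w c ch := by
  have h1 := cross_sup_le K K' w.1 w.1
  have h2 := cross_sup_le K K' (w.gs (.tag c, true)) (T.gs (.tag c, false))
  have h3 := cross_sup_le K K' (w.gs (.lnk false, true)) ((ch false).gs (.lnk false, false))
  have h4 := cross_sup_le K K' (w.gs (.lnk true, true)) ((ch true).gs (.lnk true, false))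
  unfold cost cnt ec
  omega

omit [DecidableEq V] in
theorem partb_edge {a b : V} (h : (K ⊔ SimpleGraph.edge x y).Adj a b) :
    K.Adj a b ∨ (a = x ∧ b = y) ∨ (a = y ∧ b = x) :=
  h.imp_right fun h => ((SimpleGraph.edge_adj x y a b).1 h).1

theorem partb_arith {a b c d e g k : ℕ} (e1 : a ≤ b + c) (e2 : c + d ≤ 2) (e3 : 2 * e ≤ d)
    (e4 : 2 * min 1 g ≤ k) (e5 : 1 ≤ g + e) : a ≤ b + k := by omega

theorem part_step (hs : Sparse (Gm τ) G L) (hL : 5 * mm (Gm τ) ≤ L)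
    (hsm : Small (Gm τ) G L L0) (hLL : L1 * mm (Gm τ) ≤ L) (hw : WF cl) (hso : Sound Good cl)
    (hL1 : cl.length + L0 + 2 ≤ L1) (hc : Clean Good L0 K T) (hd : ¬ Dirty L1 T)
    (hp : PartD cl (K ⊔ SimpleGraph.edge x y) T u)
    (h1 : 1 ≤ cnt (K ⊔ SimpleGraph.edge x y) (u 0) .ok T)
    (hsrc : ∀ w c, Rel w (.tag c) T → Src x y w → ∃ i < cl.length, u i = w)
    (hlnk : ∀ i < cl.length, ∀ a w, Loc x y (u i) (.lnk a) w → u i ≠ w →
      ∃ p, cl.kid i = some p ∧ w = nodeOf T u (sel p a))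
    (hok : ∀ i < cl.length, ∀ w, Loc x y (u i) .ok w → u i ≠ w → cl.ok i = true ∨ i = 0) :
    Clean Good L0 (K ⊔ SimpleGraph.edge x y) T := by
  classical
  obtain ⟨𝓤, tg, ch, val, hc⟩ := hc
  have hcs := part_cases hs hL hw.toPreWF hL1 hc hd hp
  have hkid : ∀ i < cl.length, u i ∉ 𝓤 → ∃ p, cl.kid i = some p := fun i hi hu => by
    refine Option.ne_none_iff_exists'.1 fun h => ?_
    have h2 := hw.leaf i hi h
    rw [(hcs i hi).1 hu] at h2
    exact Bool.false_ne_true h2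
  obtain ⟨f, hf⟩ := partb_rec hw.toPreWF (fun i => u i ∈ 𝓤) (fun i => val (u i)) cl.length
  replace hf := fun i hi => hf i hi (Nat.le_add_left _ _)
  obtain ⟨idx, hidx⟩ : ∃ idx : Bl τ G → ℕ, ∀ i < cl.length, idx (u i) = i := by
    refine ⟨fun w => if h : ∃ i < cl.length, u i = w then h.choose else 0, fun i hi => ?_⟩
    have h : ∃ j < cl.length, u j = u i := ⟨i, hi, rfl⟩
    simp only [dif_pos h]
    exact hp.inj _ h.choose_spec.1 i hi h.choose_spec.2
  obtain ⟨tg', htg'⟩ : ∃ tg' : Bl τ G → τ, ∀ w, tg' w = if w ∈ 𝓤 then tg w else cl.tg (idx w) :=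
    ⟨_, fun _ => rfl⟩
  obtain ⟨ch', hch'⟩ : ∃ ch' : Bl τ G → Bool → Bl τ G, ∀ w, ch' w = if w ∈ 𝓤 then ch w else
    fun a => nodeOf T u (sel ((cl.kid (idx w)).getD (0, 0)) a) := ⟨_, fun _ => rfl⟩
  obtain ⟨val', hval'⟩ : ∃ val' : Bl τ G → Term τ, ∀ w,
    val' w = if w ∈ 𝓤 ∨ w = T then val w else f (idx w) := ⟨_, fun _ => rfl⟩
  have otg : ∀ w ∈ 𝓤, tg' w = tg w := fun w h => by rw [htg', if_pos h]
  have och : ∀ w ∈ 𝓤, ch' w = ch w := fun w h => by rw [hch', if_pos h]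
  have oval : ∀ w, w ∈ 𝓤 ∨ w = T → val' w = val w := fun w h => by rw [hval', if_pos h]
  have ntg : ∀ i < cl.length, tg' (u i) = cl.tg i := fun i hi => by
    by_cases h : u i ∈ 𝓤
    · rw [otg _ h, ((hcs i hi).2 h).1]
    · rw [htg', if_neg h, hidx i hi]
  have nch : ∀ i < cl.length, ∀ p, cl.kid i = some p →
      ch' (u i) = fun a => nodeOf T u (sel p a) := fun i hi p hk => by
    by_cases h : u i ∈ 𝓤
    · rw [och _ h]
      exact funext fun a => (((hcs i hi).2 h).2.1 p hk a).symm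
    · rw [hch', if_neg h, hidx i hi, hk]
      rfl
  have nval : ∀ i < cl.length, val' (u i) = f i := fun i hi => by
    by_cases h : u i ∈ 𝓤
    · rw [oval _ (Or.inl h), (hf i hi).1 h]
    · rw [hval', if_neg (not_or.2 ⟨h, (hp.tag i hi).1⟩), hidx i hi]
  have nnode : ∀ i < cl.length, ∀ p, cl.kid i = some p → ∀ a,
      val' (nodeOf T u (sel p a)) = nodeOf .nil f (sel p a) := fun i hi p hk a => by
    unfold nodeOf
    rcases hw.kids i hi p hk a with h | h
    · rw [if_pos h, if_pos h, oval _ (Or.inr rfl), hc.nil]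
    · rw [if_neg (by omega), if_neg (by omega), nval _ h.2]
  have hfit : Fit cl f := fun i hi => by
    by_cases h : u i ∈ 𝓤
    · refine ⟨val (ch (u i) false), val (ch (u i) true), ?_, fun p hk => ?_⟩
      · rw [(hf i hi).1 h, hc.val_eq _ h, ((hcs i hi).2 h).1]
      · have h2 : ∀ a, val (ch (u i) a) = nodeOf .nil f (sel p a) := fun a => by
          rw [← oval _ (hc.chm _ h a).1, ← ((hcs i hi).2 h).2.1 p hk a, nnode i hi p hk a]
        exact ⟨h2 false, h2 true⟩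
    · obtain ⟨p, hk⟩ := hkid i hi h
      refine ⟨_, _, (hf i hi).2 h p hk, fun p' hk' => ?_⟩
      rw [hk] at hk'
      cases hk'
      exact ⟨rfl, rfl⟩
  have hgood : ∀ i < cl.length, cl.ok i = true → Good (f i) := fun i hi ho => by
    have h : u i ∈ 𝓤 := by
      by_contra h
      rw [(hcs i hi).1 h] at ho
      exact Bool.false_ne_true ho
    rw [(hf i hi).1 h]
    exact ((hcs i hi).2 h).2.2 ho
  have hgood0 : Good (f 0) := hso f hfit hgood
  obtain ⟨𝓤', h𝓤'⟩ : ∃ 𝓤', 𝓤' = 𝓤 ∪ (range cl.length).image u := ⟨_, rfl⟩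
  have mem' : ∀ w, w ∈ 𝓤' ↔ w ∈ 𝓤 ∨ ∃ i < cl.length, u i = w := fun w => by
    simp only [h𝓤', mem_union, mem_image, mem_range]
  have sub : 𝓤 ⊆ 𝓤' := fun w h => (mem' w).2 (Or.inl h)
  have memu : ∀ i < cl.length, u i ∈ 𝓤' := fun i hi => (mem' _).2 (Or.inr ⟨i, hi, rfl⟩)
  have cases' : ∀ w ∈ 𝓤', w ∈ 𝓤 ∨ ∃ i < cl.length, u i = w ∧ u i ∉ 𝓤 := fun w h => by
    by_cases h' : w ∈ 𝓤
    · exact Or.inl h'
    · obtain ⟨i, hi, rfl⟩ := ((mem' w).1 h).resolve_left h'
      exact Or.inr ⟨i, hi, rfl, h'⟩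
  have tag' : ∀ w ∈ 𝓤', Rel w (.tag (tg' w)) T := fun w h => by
    rcases cases' w h with h | ⟨i, hi, rfl, -⟩
    · rw [otg w h]
      exact hc.tag w h
    · rw [ntg i hi]
      exact hp.tag i hi
  have chm' : ∀ w ∈ 𝓤', ∀ a, (ch' w a ∈ 𝓤' ∨ ch' w a = T) ∧ ch' w a ≠ w := fun w h a => by
    rcases cases' w h with h | ⟨i, hi, rfl, h'⟩
    · rw [och w h]
      exact ⟨(hc.chm w h a).1.imp_left fun h => sub h, (hc.chm w h a).2⟩
    · obtain ⟨p, hk⟩ := hkid i hi h'
      rw [nch i hi p hk]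
      refine ⟨?_, hp.node_ne hw.toPreWF hi hk a⟩
      unfold nodeOf
      rcases hw.kids i hi p hk a with h | h
      · exact Or.inr (if_pos h)
      · exact Or.inl (by simp only [if_neg (show sel p a ≠ 0 by omega)]; exact memu _ h.2)
  have outle : ∀ (J : SimpleGraph V), ∀ w ∈ 𝓤',
      cost J T w (tg' w) (ch' w) + 2 * cnt J w .ok T ≤ out J (insert T 𝓤') w := fun J w h =>
    cost_le_out J _ (mem_insert_self _ _) (tag' w h).1.symm fun a =>
      ⟨mem_insert.2 (chm' w h a).1.symm, (chm' w h a).2⟩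
  have hsum : 𝓤'.card * AA (Gm τ) ≤
      ∑ w ∈ 𝓤', (cost G T w (tg' w) (ch' w) + 2 * min 1 (cnt G w .ok T)) := by
    rw [← sum_sdiff sub, ← card_sdiff_add_card_eq_card sub, add_mul]
    refine add_le_add ?_ (hc.sum.trans (le_of_eq (sum_congr rfl fun w h => ?_)))
    swap
    · rw [otg w h, och w h]
    rcases (𝓤' \ 𝓤).eq_empty_or_nonempty with he | ⟨w, hw'⟩
    · rw [he]
      simp
    have h0 : u 0 ∉ 𝓤 := by
      intro h0
      have h2 : ∀ i < cl.length, u i ∈ 𝓤 := by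
        intro i
        induction i using Nat.strong_induction_on with
        | _ i ih =>
          intro hi
          by_contra h
          have hi0 : 0 < i := Nat.pos_of_ne_zero fun e => h (e ▸ h0)
          obtain ⟨i', h3, p, a, hk, h4⟩ := hw.par i hi hi0 ((hcs i hi).1 h)
          have h5 := ih i' h3 (by omega)
          have h6 := ((hcs i' (by omega)).2 h5).2.1 p hk a
          rw [h4, nodeOf, if_neg hi0.ne'] at h6
          rcases (hc.chm _ h5 a).1 with h7 | h7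
          · exact h (h6 ▸ h7)
          · exact (hp.tag i hi).1 (h6.trans h7)
      obtain ⟨h3, h4⟩ := mem_sdiff.1 hw'
      obtain ⟨i, hi, rfl⟩ := ((mem' w).1 h3).resolve_left h4
      exact h4 (h2 i hi)
    have m0 : u 0 ∈ 𝓤' \ 𝓤 := mem_sdiff.2 ⟨memu 0 hw.pos, h0⟩
    have e1 : (𝓤' \ 𝓤).card * AA (Gm τ) ≤ ∑ w ∈ 𝓤' \ 𝓤, cost G T w (tg' w) (ch' w) +
        ∑ w ∈ 𝓤' \ 𝓤, cost (SimpleGraph.edge x y) T w (tg' w) (ch' w) := by
      rw [← sum_add_distrib, ← smul_eq_mul]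
      refine card_nsmul_le_sum _ _ _ fun w h => ?_
      obtain ⟨h3, h4⟩ := mem_sdiff.1 h
      obtain ⟨i, hi, rfl⟩ := ((mem' w).1 h3).resolve_left h4
      obtain ⟨p, hk⟩ := hkid i hi h4
      rw [ntg i hi, nch i hi p hk]
      exact (new_cost hw.toPreWF hc hp hi h4 hk).trans (partb_cost _ _ _ _ _ _)
    have e2 : ∑ w ∈ 𝓤' \ 𝓤, cost (SimpleGraph.edge x y) T w (tg' w) (ch' w) +
        ∑ w ∈ 𝓤' \ 𝓤, 2 * cnt (SimpleGraph.edge x y) w .ok T ≤ 2 := by
      rw [← sum_add_distrib]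
      refine le_trans ?_ (sum_out_edge hs hL x y (insert T 𝓤'))
      refine (sum_le_sum fun w h => outle _ w (mem_sdiff.1 h).1).trans ?_
      exact sum_le_sum_of_subset (sdiff_subset.trans (subset_insert _ _))
    have e3 := single_le_sum (f := fun w => 2 * cnt (SimpleGraph.edge x y) w .ok T)
      (fun _ _ => Nat.zero_le _) m0
    have e4 := single_le_sum (f := fun w => 2 * min 1 (cnt G w .ok T))
      (fun _ _ => Nat.zero_le _) m0
    have e5 := h1.trans (new_cnt hc hp hw.pos h0 .ok (hp.tag 0 hw.pos).1)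
    have e6 : cnt (G ⊔ SimpleGraph.edge x y) (u 0) .ok T ≤
        cnt G (u 0) .ok T + cnt (SimpleGraph.edge x y) (u 0) .ok T := cross_sup_le _ _ _ _
    rw [sum_add_distrib]
    exact partb_arith e1 e2 e3 e4 (e5.trans e6)
  refine ⟨𝓤', tg', ch', val', ?_, ?_, tag', chm', ?_, ?_, ?_, hsum⟩
  · rw [oval _ (Or.inr rfl), hc.nil]
  · refine card_le_of_small hs hL hsm hp.tok 𝓤' (fun w h => ⟨_, tag' w h⟩) ?_
      (hsum.trans (sum_le_sum fun w h => le_trans ?_ (outle G w h)))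
    · refine le_trans (Nat.mul_le_mul_right _ ?_) hLL
      have h2 := card_union_le 𝓤 ((range cl.length).image u)
      have h3 := card_image_le (s := range cl.length) (f := u)
      have h4 := hc.card
      rw [card_range] at h3
      rw [← h𝓤'] at h2
      omega
    · exact Nat.add_le_add_left (Nat.mul_le_mul_left _ (min_le_right _ _)) _
  · intro w h
    rcases cases' w h with h | ⟨i, hi, rfl, h'⟩
    · rw [oval _ (Or.inl h), otg _ h, och _ h, oval _ (hc.chm w h false).1,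
        oval _ (hc.chm w h true).1]
      exact hc.val_eq w h
    · obtain ⟨p, hk⟩ := hkid i hi h'
      rw [nval i hi, ntg i hi, nch i hi p hk, nnode i hi p hk, nnode i hi p hk]
      exact (hf i hi).2 h' p hk
  · intro w c hr a b hab hG hb
    rcases partb_edge hab with h | ⟨rfl, rfl⟩ | ⟨rfl, rfl⟩
    · exact sub (hc.bas w c hr a b h hG hb)
    · exact (mem' w).2 (Or.inr (hsrc w c hr (Or.inl hb)))
    · exact (mem' w).2 (Or.inr (hsrc w c hr (Or.inl hb.symm)))
  · intro w c hr a b hab hG k w' hne ha hb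
    by_cases h : K.Adj a b
    · obtain ⟨h2, h3, h4⟩ := hc.src w c hr a b h hG k w' hne ha hb
      rw [och w h2, oval w (Or.inl h2)]
      exact ⟨sub h2, h3, h4⟩
    · have hl : Loc x y w k w' := by
        rcases (partb_edge hab).resolve_left h with ⟨rfl, rfl⟩ | ⟨rfl, rfl⟩
        exacts [Or.inl ⟨ha, hb⟩, Or.inr ⟨ha, hb⟩]
      obtain ⟨i, hi, rfl⟩ := hsrc w c hr (Or.inr ⟨k, w', hne, hl⟩)
      refine ⟨memu i hi, ?_, ?_⟩
      · rintro a rfl
        obtain ⟨p, hk, h2⟩ := hlnk i hi a w' hl hne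
        rw [nch i hi p hk]
        exact h2
      · rintro rfl
        rw [nval i hi]
        rcases hok i hi w' hl hne with h2 | rfl
        exacts [hgood i hi h2, hgood0]

end Pool.Agent.HB

end FilePartB

section FileInvC

/-! A clause component keeps the invariant. -/

open Finset

namespace Pool.Agent.HB

variable {τ : Type} [Fintype τ] [Inhabited τ] {V : Type} [DecidableEq V] {G K : SimpleGraph V}
  {L0 L1 : ℕ} {Good : Term τ → Prop} {x y : V}

omit [Inhabited τ] in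
theorem invc_allok (hK : AllOK τ G L1 K) (h : OK1 τ G L1 x y ∨ OK1 τ G L1 y x) :
    AllOK τ G L1 (K ⊔ SimpleGraph.edge x y) := by
  intro a b hab hG
  rcases partb_edge hab with h' | ⟨rfl, rfl⟩ | ⟨rfl, rfl⟩
  exacts [hK a b h' hG, h, h.symm]

omit [Inhabited τ] in
theorem invc_loc {u u' : Bl τ G} {k : Kind τ} (hl : Loc x y u k u') (hne : u ≠ u')
    (hk : ∀ s, k ≠ .att s) (hr : (k = .anc ∨ ∃ c, k = .tag c) → Rel u k u') :
    OK1 τ G L1 x y ∨ OK1 τ G L1 y x :=
  hl.imp (fun h => Or.inr (Or.inl ⟨u, k, u', hne, h.1, h.2, hk, hr⟩))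
    fun h => Or.inr (Or.inl ⟨u, k, u', hne, h.1, h.2, hk, hr⟩)

theorem inv_clause (hs : Sparse (Gm τ) G (LL (Gm τ) L1)) (hsm : Small (Gm τ) G (LL (Gm τ) L1) L0)
    {cl : Clause τ} (hw : WF cl) (hso : Sound Good cl) (hL1 : cl.length + L0 + 2 ≤ L1) {j : ℕ}
    (hj : j < 300) (hI : Inv G Good L0 L1 K) {B : ℕ → Bl τ G} {z : Bool → V}
    (h : CopyD (clauseBP cl j) K x y B z) : Inv G Good L0 L1 (K ⊔ SimpleGraph.edge x y) := by
  have hL := LL_ge (Γ := Gm τ) L1
  have act : ∀ i, (clauseBP cl j).act i ↔ i < cl.length + 2 := fun _ => Iff.rfl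
  have a0 : (clauseBP cl j).act 0 := (act 0).2 (by omega)
  have a1 : (clauseBP cl j).act 1 := (act 1).2 (by omega)
  have a2 : ∀ i < cl.length, (clauseBP cl j).act (i + 2) := fun i hi => (act _).2 (by omega)
  have hne : ∀ i i', (clauseBP cl j).act i → (clauseBP cl j).act i' → i ≠ i' → B i ≠ B i' :=
    fun i i' h1 h2 h3 e => h3 (h.inj i i' h1 h2 e)
  have hanc : Rel (B 0) .anc (B 1) :=
    rel_of_cnt hs hI.ok (hne 0 1 a0 a1 (by omega)) (Or.inl rfl)
      (h.cn 0 .anc 1 3999 a0 a1 (by omega) (by omega) fun i hi => Or.inl ⟨rfl, rfl, rfl, hi⟩)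
  have ctag : ∀ i < cl.length,
      2300 ≤ cnt (K ⊔ SimpleGraph.edge x y) (B (i + 2)) (.tag (cl.tg i)) (B 0) := fun i hi =>
    h.cn (i + 2) _ 0 2300 (a2 i hi) a0 (by omega) (by omega) fun n hn =>
      Or.inr ⟨by omega, Or.inl ⟨rfl, rfl, hn⟩⟩
  have htag : ∀ i < cl.length, Rel (B (i + 2)) (.tag (cl.tg i)) (B 0) := fun i hi =>
    rel_of_cnt hs hI.ok (hne _ _ (a2 i hi) a0 (by omega)) (Or.inr ⟨_, rfl⟩) (ctag i hi)
  have hnode : ∀ n, B (nodeOf 0 (· + 2) n) = nodeOf (B 0) (fun i => B (i + 2)) n := fun n => by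
    unfold nodeOf
    split_ifs <;> rfl
  have hp : PartD cl (K ⊔ SimpleGraph.edge x y) (B 0) fun i => B (i + 2) := by
    refine ⟨⟨_, hanc⟩, fun i hi i' hi' e => ?_, htag, fun i hi => h.bas _ (a2 i hi), ctag,
      fun i hi p hk a => ?_, fun i hi ho => ?_⟩
    · have := h.inj _ _ (a2 i hi) (a2 i' hi') e
      omega
    · rw [← hnode]
      refine h.cn (i + 2) _ _ 100 (a2 i hi) ?_ ?_ (by omega) fun n hn =>
        Or.inr ⟨by omega, Or.inr (Or.inl ⟨p, a, hk, rfl, rfl, hn⟩)⟩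
      · rw [act, nodeOf]
        rcases hw.kids i hi p hk a with h1 | h1 <;> split_ifs <;> omega
      · rw [nodeOf]
        rcases hw.kids i hi p hk a with h1 | h1 <;> split_ifs <;> omega
    · exact h.cn (i + 2) _ 0 300 (a2 i hi) a0 (by omega) (by omega) fun n hn =>
        Or.inr ⟨by omega, Or.inr (Or.inr ⟨rfl, rfl, Or.inl ⟨ho, hn⟩⟩)⟩
  have hloc : (∃ u, (clauseBP cl j).act u ∧ (B u).Base x y) ∨
      ∃ u k u' i, (clauseBP cl j).act u ∧ (clauseBP cl j).act u' ∧ u ≠ u' ∧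
        (clauseBP cl j).arc u k u' i ∧ Loc x y (B u) k (B u') := by
    rcases h.loc with h1 | h1 | ⟨u, s, -, h1, -⟩ | ⟨h1, -⟩
    exacts [Or.inl h1, Or.inr h1, h1.elim, h1.elim]
  obtain ⟨u₀, hu₀, hsrc⟩ : ∃ u, (clauseBP cl j).act u ∧ Src x y (B u) := by
    rcases hloc with ⟨u, h1, h2⟩ | ⟨u, k, u', i, h1, h2, h3, -, h4⟩
    exacts [⟨u, h1, Or.inl h2⟩, ⟨u, h1, Or.inr ⟨k, _, hne _ _ h1 h2 h3, h4⟩⟩]
  have hown : Own (B u₀) (B 0) := by
    rw [act] at hu₀
    match u₀, hu₀ with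
    | 0, _ => exact Or.inl rfl
    | 1, _ => exact Or.inr (Or.inl hanc)
    | i + 2, hi => exact Or.inr (Or.inr ⟨_, htag i (by omega)⟩)
  have harc : ∀ i < cl.length, ∀ k w, Loc x y (B (i + 2)) k w → B (i + 2) ≠ w →
      ∃ u' n, w = B u' ∧ (clauseBP cl j).arc (i + 2) k u' n := by
    intro i hi k w hl hw'
    rcases hloc with ⟨u, -, h2⟩ | ⟨u, k', u', n, h1, -, -, h3, h4⟩
    · exact absurd (base_not_loc hs hL h2 hl) hw'
    · obtain ⟨e1, rfl, e3⟩ := loc_unique hs hL hl h4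
      obtain rfl := h.inj _ _ (a2 i hi) h1 e1
      exact ⟨u', n, e3, h3⟩
  refine ⟨hI.le.trans le_sup_left, invc_allok hI.ok ?_, fun T hT => ?_⟩
  · rcases hloc with ⟨u, -, h2⟩ | ⟨u, k, u', i, h1, h2, h3, h4, h5⟩
    · exact Or.inl (Or.inl ⟨_, h2⟩)
    · refine invc_loc h5 (hne _ _ h1 h2 h3) ?_ ?_
      · rintro s rfl
        rcases h4 with ⟨-, h6, -⟩ | ⟨-, ⟨h6, -⟩ | ⟨p, a, -, h6, -⟩ | ⟨h6, -⟩⟩ <;> cases h6
      · intro hk
        rcases h4 with ⟨rfl, rfl, rfl, -⟩ | ⟨h7, ⟨rfl, rfl, -⟩ | ⟨p, a, -, rfl, -⟩ | ⟨rfl, -⟩⟩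
        · exact hanc
        · obtain ⟨n, rfl⟩ : ∃ n, u = n + 2 := ⟨u - 2, by omega⟩
          exact htag n (by rw [act] at h1; omega)
        · rcases hk with h6 | ⟨c, h6⟩ <;> cases h6
        · rcases hk with h6 | ⟨c, h6⟩ <;> cases h6
  by_cases hd : Dirty L1 T
  · exact Or.inl hd
  have hc := (hI.tok T hT).resolve_left hd
  refine Or.inr ?_
  by_cases e : T = B 0
  · subst e
    refine part_step hs hL hsm (LL_ge' L1) hw hso hL1 hc hd hp ?_ ?_ ?_ ?_
    · exact h.c1 2 .ok 0 j (a2 0 hw.pos) a0 (by omega) (by omega)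
        (Or.inr ⟨le_rfl, Or.inr (Or.inr ⟨rfl, rfl, Or.inr ⟨rfl, rfl⟩⟩)⟩)
    · intro w c hr hw'
      obtain rfl := src_unique hs hL hw' hsrc
      rw [act] at hu₀
      match u₀, hu₀, hr with
      | 0, _, hr => exact absurd rfl hr.1
      | 1, _, hr => exact absurd rfl (tag_not_anc hs hL hr hT hanc).2
      | i + 2, hi, _ => exact ⟨i, by omega, rfl⟩
    · intro i hi a w hl hw'
      obtain ⟨u', n, rfl, h4⟩ := harc i hi _ w hl hw'
      rcases h4 with ⟨h6, -⟩ | ⟨-, ⟨h6, -⟩ | ⟨p, a', hk, h6, rfl, -⟩ | ⟨h6, -⟩⟩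
      · omega
      · cases h6
      · cases h6
        exact ⟨p, hk, hnode _⟩
      · cases h6
    · intro i hi w hl hw'
      obtain ⟨u', n, rfl, h4⟩ := harc i hi _ w hl hw'
      rcases h4 with ⟨h6, -⟩ | ⟨-, ⟨h6, -⟩ | ⟨p, a', hk, h6, -⟩ | ⟨-, -, h6 | h6⟩⟩
      · omega
      · cases h6
      · cases h6
      · exact Or.inl h6.1
      · exact Or.inr (by omega)
  · refine clean_other hc fun w c hr hw' => e ?_
    obtain rfl := src_unique hs hL hw' hsrc
    exact own_unique hs hL (Or.inr (Or.inr ⟨c, hr⟩)) hT hown ⟨_, hanc⟩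

end Pool.Agent.HB

end FileInvC

section FileInvF

/-! The final component keeps the invariant. -/

open Finset

namespace Pool.Agent.HB

variable {τ : Type} [Fintype τ] [Inhabited τ] {V : Type} [DecidableEq V] {G K : SimpleGraph V}
  {L0 L1 : ℕ} {Good : Term τ → Prop} {x y : V}

theorem inv_fin (hs : Sparse (Gm τ) G (LL (Gm τ) L1)) (hL1 : L0 + 3 ≤ L1) {halt : τ}
    (hG : ∀ l r, ¬ Good (.node halt l r)) (hI : Inv G Good L0 L1 K) {B : ℕ → Bl τ G}
    {z : Bool → V} (h : CopyD (finBP halt) K x y B z) :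
    Inv G Good L0 L1 (K ⊔ SimpleGraph.edge x y) := by
  have hL := LL_ge (Γ := Gm τ) L1
  have act : ∀ i, (finBP halt).act i ↔ i < 3 * rr (Gm τ) := fun _ => Iff.rfl
  have hne : ∀ i i', i < 3 * rr (Gm τ) → i' < 3 * rr (Gm τ) → i ≠ i' → B i ≠ B i' :=
    fun i i' h1 h2 h3 e => h3 (h.inj i i' h1 h2 e)
  have hanc : ∀ q < rr (Gm τ), Rel (B (3 * q)) .anc (B (3 * q + 1)) := fun q hq =>
    rel_of_cnt hs hI.ok (hne _ _ (by omega) (by omega) (by omega)) (Or.inl rfl)
      (h.cn _ .anc _ 3999 ((act _).2 (by omega)) ((act _).2 (by omega)) (by omega) (by omega)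
        fun i hi => Or.inl ⟨by omega, rfl, rfl, hi⟩)
  have ctag : ∀ q < rr (Gm τ),
      2300 ≤ cnt (K ⊔ SimpleGraph.edge x y) (B (3 * q + 2)) (.tag halt) (B (3 * q)) := fun q hq =>
    h.cn _ _ _ 2300 ((act _).2 (by omega)) ((act _).2 (by omega)) (by omega) (by omega)
      fun i hi => Or.inr ⟨by omega, rfl, Or.inl ⟨rfl, hi⟩⟩
  have htag : ∀ q < rr (Gm τ), Rel (B (3 * q + 2)) (.tag halt) (B (3 * q)) := fun q hq =>
    rel_of_cnt hs hI.ok (hne _ _ (by omega) (by omega) (by omega)) (Or.inr ⟨_, rfl⟩) (ctag q hq)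
  have hdirty : ∀ q < rr (Gm τ), Dirty L1 (B (3 * q)) := fun q hq => by
    refine (hI.tok _ ⟨_, hanc q hq⟩).elim id fun hc => ?_
    refine halt_dirty (u := fun _ => B (3 * q + 2)) (x := x) (y := y) hs hL hL1 hG hc
      ⟨⟨_, hanc q hq⟩, fun i hi i' hi' _ => ?_, fun i hi => ?_,
        fun i _ => h.bas _ ((act _).2 (by omega)), fun i hi => ?_, fun i hi p hk => ?_,
        fun i _ _ => ?_⟩
    · simp only [List.length_singleton] at hi hi'
      omega
    · obtain rfl : i = 0 := by simpa using hi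
      exact htag q hq
    · obtain rfl : i = 0 := by simpa using hi
      exact ctag q hq
    · obtain rfl : i = 0 := by simpa using hi
      cases hk
    · exact h.cn _ _ _ 300 ((act _).2 (by omega)) ((act _).2 (by omega)) (by omega) (by omega)
        fun i hi => Or.inr ⟨by omega, rfl, Or.inr ⟨rfl, hi⟩⟩
  have hatt : ∀ u < 3 * rr (Gm τ), u % 3 = 0 → ∀ s, Att (z s) s (B u) := fun u hu h0 s =>
    att_of_cnt hs hI.ok (h.att u s hu h0).1 (h.att u s hu h0).2
  have hfin : FinP τ G L1 (z false) (z true) := by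
    refine ⟨h.zne, (range (rr (Gm τ))).image fun q => B (3 * q), ?_, fun T hT => ?_⟩
    · rw [card_image_of_injOn, card_range]
      intro q hq q' hq' e
      have h1 := mem_range.1 (mem_coe.1 hq)
      have h2 := mem_range.1 (mem_coe.1 hq')
      have h3 := h.inj _ _ ((act _).2 (by omega)) ((act _).2 (by omega)) e
      omega
    · obtain ⟨q, hq, rfl⟩ := mem_image.1 hT
      have h1 := mem_range.1 hq
      exact ⟨hdirty q h1, hatt _ (by omega) (by omega) _, hatt _ (by omega) (by omega) _⟩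
  have hend : ∀ s, End τ G L1 (z s) := fun s => by
    cases s
    exacts [⟨_, Or.inl hfin⟩, ⟨_, Or.inr hfin⟩]
  have hown : ∀ u < 3 * rr (Gm τ), Own (B u) (B (3 * (u / 3))) := fun u hu => by
    obtain ⟨q, e | e | e⟩ : ∃ q, u = 3 * q ∨ u = 3 * q + 1 ∨ u = 3 * q + 2 := ⟨u / 3, by omega⟩
    all_goals
      rw [show u / 3 = q by omega, e]
    exacts [Or.inl rfl, Or.inr (Or.inl (hanc q (by omega))),
      Or.inr (Or.inr ⟨_, htag q (by omega)⟩)]
  refine ⟨hI.le.trans le_sup_left, invc_allok hI.ok ?_, fun T hT => ?_⟩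
  · rcases h.loc with ⟨u, -, h2⟩ | ⟨u, k, u', i, h1, h2, h3, h4, h5⟩ | ⟨u, s, h1, h2, h3⟩ | ⟨-, h1⟩
    · exact Or.inl (Or.inl ⟨_, h2⟩)
    · refine invc_loc h5 (hne _ _ h1 h2 h3) ?_ ?_
      · rintro s rfl
        rcases h4 with ⟨-, h6, -⟩ | ⟨-, -, ⟨h6, -⟩ | ⟨h6, -⟩⟩ <;> cases h6
      · intro hk
        rw [act] at h1
        rcases h4 with ⟨h7, rfl, rfl, -⟩ | ⟨h7, rfl, ⟨rfl, -⟩ | ⟨rfl, -⟩⟩
        · obtain ⟨q, rfl⟩ : ∃ q, u = 3 * q := ⟨u / 3, by omega⟩
          exact hanc q (by omega)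
        · obtain ⟨q, rfl⟩ : ∃ q, u' = 3 * q := ⟨u' / 3, by omega⟩
          exact htag q (by omega)
        · rcases hk with h6 | ⟨c, h6⟩ <;> cases h6
    · refine h3.imp ?_ ?_ <;> rintro ⟨rfl, h4⟩ <;>
        exact Or.inr (Or.inr (Or.inl ⟨s, _, hend s, hatt u h1 h2 s, h4⟩))
    · refine h1.imp ?_ ?_ <;> rintro ⟨rfl, rfl⟩ <;> exact Or.inr (Or.inr (Or.inr hfin))
  by_cases hd : Dirty L1 T
  · exact Or.inl hd
  refine Or.inr (clean_other ((hI.tok T hT).resolve_left hd) fun w c hr hw => ?_)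
  have key : ∀ u < 3 * rr (Gm τ), ¬ Src x y (B u) := fun u hu hsrc => by
    obtain rfl := src_unique hs hL hw hsrc
    have h1 : u / 3 < rr (Gm τ) := by omega
    rw [own_unique hs hL (Or.inr (Or.inr ⟨c, hr⟩)) hT (hown u hu) ⟨_, hanc _ h1⟩] at hd
    exact hd (hdirty _ h1)
  rcases h.loc with ⟨u, h1, h2⟩ | ⟨u, k, u', i, h1, h2, h3, -, h5⟩ | ⟨u, s, -, -, h3⟩ | ⟨-, h1⟩
  · exact key u h1 (Or.inl h2)
  · exact key u h1 (Or.inr ⟨k, _, hne _ _ h1 h2 h3, h5⟩)
  · rcases h3 with ⟨e, -⟩ | ⟨e, -⟩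
    · exact hw.not_plain.1 (e ▸ end_plain hs (hend s))
    · exact hw.not_plain.2 (e ▸ end_plain hs (hend s))
  · rcases h1 with ⟨e, -⟩ | ⟨e, -⟩
    · exact hw.not_plain.1 (e ▸ end_plain hs (hend false))
    · exact hw.not_plain.2 (e ▸ end_plain hs (hend false))

end Pool.Agent.HB

end FileInvF

section FileLower

/-! The deterministic lower bound. -/

open Finset

namespace Pool.Agent.HB

variable {τ : Type} [Fintype τ] [Inhabited τ] {ι : Type} {F : ι → Clause τ} {halt : τ} {Kn : ℕ}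
  {Good : Term τ → Prop}

/-- the invariant holds at the start -/
theorem lower_inv_self {V : Type} [DecidableEq V] (G : SimpleGraph V) (Good : Term τ → Prop)
    (L0 L1 : ℕ) : Inv G Good L0 L1 G where
  le := le_rfl
  ok := fun _ _ h h' => absurd h h'
  tok := fun T _ => Or.inr ⟨∅, fun _ => default, fun _ _ => T, fun _ => .nil,
    { nil := rfl
      card := by simp
      tag := fun u hu => absurd hu (notMem_empty u)
      chm := fun u hu => absurd hu (notMem_empty u)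
      val_eq := fun u hu => absurd hu (notMem_empty u)
      bas := fun _ _ _ _ _ h h' => absurd h h'
      src := fun _ _ _ _ _ h h' => absurd h h'
      sum := by simp }⟩

theorem lower_det {V : Type} [Fintype V] [DecidableEq V] {G : SimpleGraph V} {L0 : ℕ}
    (hw : ∀ c, WF (F c)) (hso : ∀ c, Sound Good (F c)) (hG : ∀ l r, ¬ Good (.node halt l r))
    (hF : ∀ c, (F c).length + 2 ≤ Kn) (hr : 3 * rr (Gm τ) ≤ Kn)
    (hs : Sparse (Gm τ) G (LL (Gm τ) (L0 + Kn))) (hsm : Small (Gm τ) G (LL (Gm τ) (L0 + Kn)) L0)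
    (Rt : Finset V) (h3 : Rt.card = 3) (hpl : ∀ v ∈ Rt, Plain (Gm τ) G v)
    (hna : ∀ u ∈ Rt, ∀ v ∈ Rt, ¬ G.Adj u v) : bootClosure (HG F halt Kn) G ≠ ⊤ := by
  intro htop
  have hr1 : 1 ≤ rr (Gm τ) := rr_pos
  obtain ⟨K, -, hK⟩ := Finite.exists_le_maximal (p := fun K => Inv G Good L0 (L0 + Kn) K)
    (lower_inv_self G Good L0 (L0 + Kn))
  have hI : Inv G Good L0 (L0 + Kn) K := hK.prop
  have hst : step (HG F halt Kn) K ≤ K := by
    intro x y hxy
    by_contra hn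
    obtain ⟨c, φ, hf⟩ := fire_of_step F halt hF hr hxy hn
    have hI' : Inv G Good L0 (L0 + Kn) (K ⊔ SimpleGraph.edge x y) := by
      rcases c with _ | ⟨c, j⟩
      · have h0 : (finBP halt).act 0 := by
          change 0 < 3 * rr (Gm τ)
          omega
        obtain ⟨B, z, hc⟩ := copy_of_fire hs hI.ok (β := finBP halt) h0 hf
        exact inv_fin hs (by omega) hG hI hc
      · have h0 : (clauseBP (F c) (j : ℕ)).act 0 := by
          change 0 < (F c).length + 2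
          omega
        obtain ⟨B, z, hc⟩ := copy_of_fire hs hI.ok (β := clauseBP (F c) (j : ℕ)) h0 hf
        have := hF c
        exact inv_clause hs hsm (hw c) (hso c) (by omega) j.2 hI hc
    have hle : K ⊔ SimpleGraph.edge x y ≤ K := hK.le_of_ge hI' le_sup_left
    refine hn (hle (Or.inr ?_))
    rw [SimpleGraph.edge_adj]
    exact ⟨Or.inl ⟨rfl, rfl⟩, hxy.ne⟩
  have hle : (⊤ : SimpleGraph V) ≤ K := htop ▸ bootClosure_le _ hst hI.le
  obtain ⟨a, b, c, hab, hac, hbc, rfl⟩ := card_eq_three.1 h3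
  have ha : a ∈ ({a, b, c} : Finset V) := by simp
  have hb : b ∈ ({a, b, c} : Finset V) := by simp
  have hc : c ∈ ({a, b, c} : Finset V) := by simp
  exact hbc (fin_match hs
    (extra_fin hI.ok (hle hab) (hna a ha b hb) (hpl a ha) (hpl b hb))
    (extra_fin hI.ok (hle hac) (hna a ha c hc) (hpl a ha) (hpl c hc)))

/-- the form that is used with the first moment bound -/
theorem lower_theta (hw : ∀ c, WF (F c)) (hso : ∀ c, Sound Good (F c))
    (hG : ∀ l r, ¬ Good (.node halt l r)) (hF : ∀ c, (F c).length + 2 ≤ Kn)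
    (hr : 3 * rr (Gm τ) ≤ Kn) {θ : ℝ} (h0 : 0 < θ) (hθ : 2 * (mm (Gm τ) : ℝ) * θ < AA (Gm τ)) :
    ∃ L : ℕ, ∀ (n : ℕ) (G : SimpleGraph (Fin n)) (Rt : Finset (Fin n)), Rt.card = 3 →
      (∀ X : Finset (Fin n), X.card ≤ L → (eIn G X : ℝ) ≤ θ * (X \ Rt).card) →
        bootClosure (HG F halt Kn) G ≠ ⊤ := by
  have hm1 : 400000 * sG (Gm τ) ≤ mm (Gm τ) := mm_ge
  have hm2 : 4000 ≤ sG (Gm τ) := sG_ge
  have hA : 100000 * mm (Gm τ) ≤ AA (Gm τ) := AA_ge'
  have hm : (1 : ℝ) ≤ mm (Gm τ) := by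
    have : 1 ≤ mm (Gm τ) := by omega
    exact_mod_cast this
  have hd : (0 : ℝ) < AA (Gm τ) - 2 * (mm (Gm τ) : ℝ) * θ := by linarith
  obtain ⟨L0, hL0⟩ := exists_nat_ge
    (4016 * (mm (Gm τ) : ℝ) * θ / (AA (Gm τ) - 2 * (mm (Gm τ) : ℝ) * θ))
  rw [div_le_iff₀ hd] at hL0
  refine ⟨LL (Gm τ) (L0 + Kn), fun n G Rt h3 h => ?_⟩
  have hL : 5 * mm (Gm τ) ≤ LL (Gm τ) (L0 + Kn) := LL_ge _
  have hec : ∀ X : Finset (Fin n), X.card ≤ LL (Gm τ) (L0 + Kn) →
      (ec G X : ℝ) ≤ 2 * θ * (X \ Rt).card := fun X hX => by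
    have := h X hX
    rw [ec_eq_eIn]
    push_cast
    linarith
  have hec' : ∀ X : Finset (Fin n), X.card ≤ LL (Gm τ) (L0 + Kn) →
      (ec G X : ℝ) ≤ 2 * θ * X.card := fun X hX => by
    refine (hec X hX).trans (mul_le_mul_of_nonneg_left ?_ (by linarith))
    exact_mod_cast card_le_card sdiff_subset
  refine lower_det (L0 := L0) hw hso hG hF hr (fun X hX => ?_) (fun X hX hp => ?_) Rt h3
    (fun v hv B hB => ?_) (fun u hu v hv huv => ?_)
  · have h1 := mul_le_mul_of_nonneg_left (hec' X hX) (le_trans zero_le_one hm)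
    have h2 := mul_nonneg hd.le (Nat.cast_nonneg (α := ℝ) X.card)
    have h4 : (0 : ℝ) ≤ (AA (Gm τ) : ℝ) * X.card - (mm (Gm τ) : ℝ) * ec G X := by nlinarith
    unfold pot
    exact_mod_cast h4
  · have h1 := hec' X hX
    have h4 : (AA (Gm τ) : ℝ) * X.card - (mm (Gm τ) : ℝ) * ec G X ≤ 2008 * (mm (Gm τ) : ℝ) := by
      unfold pot at hp
      exact_mod_cast hp
    have h5 := mul_le_mul_of_nonneg_left h1 (Nat.cast_nonneg (α := ℝ) (AA (Gm τ)))
    have h6 := mul_le_mul_of_nonneg_left h4 (by linarith : (0 : ℝ) ≤ 2 * θ)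
    have h7 : (ec G X : ℝ) * (AA (Gm τ) - 2 * (mm (Gm τ) : ℝ) * θ) ≤
        L0 * (AA (Gm τ) - 2 * (mm (Gm τ) : ℝ) * θ) := by nlinarith
    exact_mod_cast le_of_mul_le_mul_right h7 hd
  · have hc := B.card_eq
    have h1 := hec B.1 (by omega)
    have h2 : (B.1 \ Rt).card + 1 ≤ mm (Gm τ) := by
      rw [← hc]
      exact card_lt_card ⟨sdiff_subset, fun hsub => (mem_sdiff.1 (hsub hB)).2 hv⟩
    have h2' : ((B.1 \ Rt).card : ℝ) ≤ mm (Gm τ) - 1 := by
      have : ((B.1 \ Rt).card : ℝ) + 1 ≤ mm (Gm τ) := by exact_mod_cast h2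
      linarith
    have h4 : (AA (Gm τ) : ℝ) ≤ ec G B.1 + 5002 := by
      have := B.ec_ge
      have h5 : AA (Gm τ) ≤ ec G B.1 + 5002 := by
        unfold AA
        omega
      exact_mod_cast h5
    have hA' : (100000 : ℝ) * mm (Gm τ) ≤ AA (Gm τ) := by exact_mod_cast hA
    have h5 := mul_le_mul_of_nonneg_left h2' (by linarith : (0 : ℝ) ≤ 2 * θ)
    have h6 : (AA (Gm τ) : ℝ) - 5002 ≤ 2 * θ * (mm (Gm τ) - 1) := by linarith
    have h7 := mul_le_mul_of_nonneg_left h6 (le_trans zero_le_one hm)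
    have h8 := mul_le_mul_of_nonneg_right hθ.le (by linarith : (0 : ℝ) ≤ mm (Gm τ) - 1)
    nlinarith
  · have h1 := hec {u, v} (card_le_two.trans (by omega))
    have h2 : ({u, v} : Finset (Fin n)) \ Rt = ∅ := by
      rw [sdiff_eq_empty_iff_subset]
      intro w hw
      rcases mem_insert.1 hw with rfl | hw
      · exact hu
      · rw [mem_singleton.1 hw]
        exact hv
    have h4 : 1 ≤ ec G {u, v} := cross_pos.2 ⟨u, by simp, v, by simp, huv⟩
    have h5 : (1 : ℝ) ≤ ec G {u, v} := by exact_mod_cast h4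
    rw [h2] at h1
    simp only [card_empty, Nat.cast_zero, mul_zero] at h1
    linarith

end Pool.Agent.HB

end FileLower

section FileUpper

/-! The honest witness produces the edge between its roots. -/

open Finset

namespace Pool.Agent.HB

variable {τ : Type} [Fintype τ] [Inhabited τ] {ι : Type} [Fintype ι] {F : ι → Clause τ} {halt : τ}
  {Kn : ℕ} {𝒯 : Finset (Term τ)} {V : Type} {G : SimpleGraph V}

omit [Inhabited τ] in
theorem up_rel_ne {a b : Vx τ (NW τ 𝒯)} (h : (witBP 𝒯).rel a b) : a ≠ b := by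
  rcases a with s | ⟨u, t⟩ <;> rcases b with s' | ⟨u', t'⟩
  · exact h.1.elim
  · simp
  · simp
  · rintro e
    obtain ⟨rfl, rfl⟩ : u = u' ∧ t = t' := by simpa using e
    rcases h.2.2 with h | h
    · exact h.2.1 rfl
    · exact h.1 rfl

omit [Fintype ι] in
theorem up_wit (f : Vx τ (NW τ 𝒯) ⊕ VH τ ι Kn ↪ V) (hf : Emb (WG F halt Kn 𝒯) G f)
    {a b : Vx τ (NW τ 𝒯)} (h : (witBP 𝒯).rel a b) :
    (bootClosure (HG F halt Kn) G).Adj (f (.inl a)) (f (.inl b)) :=
  le_bootClosure _ _ (hf _ _ (SimpleGraph.sum_adj_inl.2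
    ((SimpleGraph.fromRel_adj _ _ _).2 ⟨up_rel_ne h, Or.inl h⟩)))

theorem up_fire (hF : ∀ c, (F c).length + 2 ≤ Kn) (hr : 3 * rr (Gm τ) ≤ Kn)
    (f : Vx τ (NW τ 𝒯) ⊕ VH τ ι Kn ↪ V) (hf : Emb (WG F halt Kn 𝒯) G f)
    (c : Option (ι × Fin 300)) (ν : ℕ → NW τ 𝒯) {x y : V} (hxy : x ≠ y)
    (hinj : ∀ u u', (compBP F halt c).act u → (compBP F halt c).act u' → ν u = ν u' → u = u')
    (harc : ∀ u k u' (i : Fin 4000), (compBP F halt c).act u → (compBP F halt c).act u' →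
      (compBP F halt c).arc u k u' i → (witBP 𝒯).arc (ν u) k (ν u') i ∨
        (bootClosure (HG F halt Kn) G ⊔ SimpleGraph.edge x y).Adj
          (f (.inl (.inr (ν u, .inl ((k, true), i))))) (f (.inl (.inr (ν u', .inl ((k, false), i))))))
    (hatt : ∀ u, (compBP F halt c).act u → (compBP F halt c).att u → (witBP 𝒯).att (ν u))
    (hfin : (compBP F halt c).fin → x = f (.inl (.inl false)) ∧ y = f (.inl (.inl true)))
    (huse : ∃ a b, (compBP F halt c).rel a b ∧ f (.inl (Sum.map id (Prod.map ν id) a)) = x ∧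
      f (.inl (Sum.map id (Prod.map ν id) b)) = y) :
    (bootClosure (HG F halt Kn) G).Adj x y := by
  refine step_bootClosure _ _ (step_of_fire F halt hF hr (Function.Embedding.inr.trans f)
    (fun a b h => le_bootClosure _ _ (hf _ _ (SimpleGraph.sum_adj_inr.2 h))) (c := c)
    (φ := fun a => f (.inl (Sum.map id (Prod.map ν id) a))) ⟨fun a b ha hb e => ?_,
      fun a b h => ?_, ?_⟩ (fun a w _ e => by simpa using f.injective e) hxy)
  · have e' := Sum.inl_injective (f.injective e)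
    rcases a with s | ⟨u, t⟩ <;> rcases b with s' | ⟨u', t'⟩
    · simpa using e'
    · simp at e'
    · simp at e'
    · obtain ⟨e1, rfl⟩ : ν u = ν u' ∧ t = t' := by simpa using e'
      rw [hinj u u' ha hb e1]
  · rcases a with s | ⟨u, t⟩ <;> rcases b with s' | ⟨u', t'⟩
    · obtain ⟨h1, rfl, rfl⟩ := h
      obtain ⟨rfl, rfl⟩ := hfin h1
      exact Or.inr ((SimpleGraph.edge_adj _ _ _ _).2 ⟨Or.inl ⟨rfl, rfl⟩, hxy⟩)
    · exact Or.inl (up_wit f hf (a := .inl s) (b := .inr (ν u', t')) ⟨trivial, hatt u' h.1 h.2.1, h.2.2⟩)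
    · exact h.elim
    · obtain ⟨h1, h2, ⟨h3, h4⟩ | ⟨h3, k, i, h4, h5, h6⟩⟩ := h
      · exact Or.inl (up_wit f hf (a := .inr (ν u, t)) (b := .inr (ν u', t'))
          ⟨trivial, trivial, Or.inl ⟨congrArg ν h3, h4⟩⟩)
      · obtain rfl : t = _ := h5
        obtain rfl : t' = _ := h6
        rcases harc u k u' i h1 h2 h4 with h7 | h7
        · exact Or.inl (up_wit f hf (a := .inr (ν u, _)) (b := .inr (ν u', _))
            ⟨trivial, trivial, Or.inr ⟨fun e => h3 (hinj u u' h1 h2 e), k, i, h7, rfl, rfl⟩⟩)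
        · exact h7
  · obtain ⟨a, b, h, rfl, rfl⟩ := huse
    exact ⟨a, b, h, rfl⟩

theorem upper_ok (hw : ∀ c, WF (F c)) (hF : ∀ c, (F c).length + 2 ≤ Kn)
    (hr : 3 * rr (Gm τ) ≤ Kn) (f : Vx τ (NW τ 𝒯) ⊕ VH τ ι Kn ↪ V)
    (hf : Emb (WG F halt Kn 𝒯) G f) (q : Fin (rr (Gm τ))) {t : Term τ} (h : Der F 𝒯 t) :
    ∃ ht : t ∈ 𝒯, ∀ j : Fin 4000, (j : ℕ) < 300 → (bootClosure (HG F halt Kn) G).Adj
      (f (.inl (.inr ((q, .inr ⟨t, ht⟩), .inl ((.ok, true), j)))))
      (f (.inl (.inr ((q, .inl false), .inl ((.ok, false), j))))) := by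
  classical
  induction h with
  | step c val fit inj mem _ ih =>
    have l0 := (hw c).pos
    refine ⟨mem 0 l0, fun j hj => ?_⟩
    let ν : ℕ → NW τ 𝒯 := fun u => (q, match u with
      | 0 => .inl false
      | 1 => .inl true
      | i + 2 => if h : val i ∈ 𝒯 then .inr ⟨val i, h⟩ else .inl false)
    have hν : ∀ i (hi : i < (F c).length), ν (i + 2) = (q, .inr ⟨val i, mem i hi⟩) :=
      fun i hi => by simp only [ν, dif_pos (mem i hi)]
    have ν0 : ν 0 = (q, .inl false) := rfl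
    have ν1 : ν 1 = (q, .inl true) := rfl
    have hxy : f (.inl (.inr ((q, .inr ⟨val 0, mem 0 l0⟩), .inl ((.ok, true), j)))) ≠
        f (.inl (.inr ((q, .inl false), .inl ((.ok, false), j)))) := fun e => by
      simpa using f.injective e
    refine up_fire hF hr f hf (some (c, ⟨j, hj⟩)) ν hxy (fun u u' hu hu' e => ?_)
      (fun u k u' i hu hu' ha => ?_) (fun _ _ h => h.elim) (fun h => h.elim)
      ⟨.inr (2, .inl ((.ok, true), j)), .inr (0, .inl ((.ok, false), j)),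
        ⟨show 2 < (F c).length + 2 by omega, show 0 < (F c).length + 2 by omega,
          Or.inr ⟨by simp, .ok, j, Or.inr ⟨le_rfl, Or.inr (Or.inr ⟨rfl, rfl, Or.inr ⟨rfl, rfl⟩⟩)⟩,
            rfl, rfl⟩⟩, by rw [← hν 0 l0]; rfl, rfl⟩
    · change u < (F c).length + 2 at hu
      change u' < (F c).length + 2 at hu'
      match u, u' with
      | 0, 0 => rfl
      | 0, 1 => simp [ν0, ν1] at e
      | 0, i + 2 => simp [ν0, hν i (by omega)] at e
      | 1, 0 => simp [ν0, ν1] at e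
      | 1, 1 => rfl
      | 1, i + 2 => simp [ν1, hν i (by omega)] at e
      | i + 2, 0 => simp [ν0, hν i (by omega)] at e
      | i + 2, 1 => simp [ν1, hν i (by omega)] at e
      | i + 2, i' + 2 =>
        rw [hν i (by omega), hν i' (by omega)] at e
        rw [inj i (by omega) i' (by omega) (by simpa using e)]
    · change u < (F c).length + 2 at hu
      change u' < (F c).length + 2 at hu'
      rcases ha with ⟨rfl, rfl, rfl, h1⟩ | ⟨h1, ha⟩
      · exact Or.inl ⟨rfl, Or.inl ⟨rfl, rfl, rfl, h1⟩⟩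
      obtain ⟨n, rfl⟩ : ∃ n, u = n + 2 := ⟨u - 2, by omega⟩
      have hn : n < (F c).length := by omega
      obtain ⟨l, r, e1, e2⟩ := fit n hn
      rw [Nat.add_sub_cancel] at ha
      rw [hν n hn]
      rcases ha with ⟨rfl, rfl, h2⟩ | ⟨p, a, h2, rfl, rfl, h3⟩ | ⟨rfl, rfl, ⟨h2, h3⟩ | ⟨h2, h3⟩⟩
      · exact Or.inl ⟨rfl, Or.inr ⟨_, _, l, r, rfl, e1, Or.inl ⟨rfl, rfl, h2⟩⟩⟩
      · obtain ⟨rfl, rfl⟩ := e2 p h2
        have e3 : (val n).kidT a = nodeOf .nil val (sel p a) := by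
          rw [e1]; cases a <;> rfl
        refine Or.inl ⟨rfl, Or.inr ⟨_, _, _, _, rfl, e1, Or.inr ⟨a, rfl, h3, ?_⟩⟩⟩
        unfold nodeOf at e3 hu' ⊢
        by_cases h0 : sel p a = 0
        · rw [if_pos h0] at e3 ⊢
          exact Or.inl ⟨e3, rfl⟩
        · rw [if_neg h0] at e3 hu' ⊢
          have h4 : sel p a < (F c).length := Nat.lt_of_add_lt_add_right hu'
          obtain ⟨l', r', e4, -⟩ := fit _ h4
          exact Or.inr ⟨⟨_, mem _ h4⟩, by simp [e4], e3, by rw [hν _ h4]⟩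
      · exact Or.inr (Or.inl ((ih n hn h2).2 i h3))
      · obtain rfl : n = 0 := by omega
        obtain rfl : i = j := Fin.ext h3
        exact Or.inr (Or.inr ((SimpleGraph.edge_adj _ _ _ _).2 ⟨Or.inl ⟨rfl, rfl⟩, hxy⟩))

theorem upper_det (hw : ∀ c, WF (F c)) (hF : ∀ c, (F c).length + 2 ≤ Kn)
    (hr : 3 * rr (Gm τ) ≤ Kn) (h : Der F 𝒯 (.node halt .nil .nil))
    (f : Vx τ (NW τ 𝒯) ⊕ VH τ ι Kn ↪ V) (hf : Emb (WG F halt Kn 𝒯) G f) :
    (bootClosure (HG F halt Kn) G).Adj (f (.inl (.inl false))) (f (.inl (.inl true))) := by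
  have r0 : 0 < rr (Gm τ) := rr_pos
  obtain ⟨ht, -⟩ := upper_ok hw hF hr f hf ⟨0, r0⟩ h
  let ν : ℕ → NW τ 𝒯 := fun u => (⟨u / 3 % rr (Gm τ), Nat.mod_lt _ r0⟩,
    if u % 3 = 0 then .inl false else if u % 3 = 1 then .inl true else .inr ⟨_, ht⟩)
  have hm : ∀ u < 3 * rr (Gm τ), u / 3 % rr (Gm τ) = u / 3 := fun u hu => Nat.mod_eq_of_lt (by omega)
  refine up_fire hF hr f hf none ν (fun e => by simpa using f.injective e)
    (fun u u' hu hu' e => ?_) (fun u k u' i hu hu' ha => ?_) (fun u _ h => if_pos h)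
    (fun _ => ⟨rfl, rfl⟩) ⟨.inl false, .inl true, ⟨trivial, rfl, rfl⟩, rfl, rfl⟩
  · have e1 : u / 3 % rr (Gm τ) = u' / 3 % rr (Gm τ) := congrArg (fun p => p.1.1) e
    have e2 := congrArg Prod.snd e
    rw [hm u hu, hm u' hu'] at e1
    simp only [ν] at e2
    split_ifs at e2 <;> first | omega | simp at e2
  · rcases ha with ⟨h1, rfl, rfl, h2⟩ | ⟨h1, rfl, ha⟩
    · refine Or.inl ⟨Fin.ext (show u / 3 % _ = (u + 1) / 3 % _ by congr 1; omega),
        Or.inl ⟨if_pos h1, rfl, ?_, h2⟩⟩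
      simp only [ν]
      rw [if_neg (by omega), if_pos (by omega)]
    · have e1 : (ν (u' + 2)).1 = (ν u').1 :=
        Fin.ext (show (u' + 2) / 3 % _ = u' / 3 % _ by congr 1; omega)
      have e2 : (ν (u' + 2)).2 = .inr ⟨_, ht⟩ := by
        simp only [ν]
        rw [if_neg (by omega), if_neg (by omega)]
      have e3 : (ν u').2 = .inl false := if_pos (by omega)
      rcases ha with ⟨rfl, h2⟩ | ⟨rfl, h2⟩
      · exact Or.inl ⟨e1, Or.inr ⟨_, _, _, _, e2, rfl, Or.inl ⟨rfl, e3, h2⟩⟩⟩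
      · obtain ⟨_, h3⟩ := upper_ok hw hF hr f hf (ν u').1 h
        rw [show ν (u' + 2) = ((ν u').1, .inr ⟨_, ht⟩) from Prod.ext e1 e2,
          show ν u' = ((ν u').1, .inl false) from Prod.ext rfl e3]
        exact Or.inr (Or.inl (h3 i h2))

end Pool.Agent.HB

end FileUpper
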