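import Pool.Agent.P.HB.G2

section FileSpA

/-! The potential of a set in a graph given by a blueprint. -/

open Finset

namespace Pool.Agent.HB

variable {τ : Type} [Fintype τ] {N : Type} [Fintype N]

open Classical in
/-- ordered related pairs inside a set -/
noncomputable def spa_pairs {V : Type} (r : V → V → Prop) (S : Finset V) : Finset (V × V) :=
  (S ×ˢ S).filter fun p => r p.1 p.2

theorem spa_mem_pairs {V : Type} {r : V → V → Prop} {S : Finset V} {p : V × V} :
    p ∈ spa_pairs r S ↔ p.1 ∈ S ∧ p.2 ∈ S ∧ r p.1 p.2 := by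
  classical
  simp [spa_pairs, and_assoc]

theorem spa_ec_le {V : Type} (rel B C : V → V → Prop) (hB : ∀ a b, B a b → B b a)
    (h : ∀ a b, rel a b → B a b ∨ C a b) (S : Finset V) :
    ec (SimpleGraph.fromRel rel) S ≤ (spa_pairs B S).card + 2 * (spa_pairs C S).card := by
  classical
  have hsub : spa_pairs (SimpleGraph.fromRel rel).Adj S ⊆
      spa_pairs B S ∪ (spa_pairs C S ∪ (spa_pairs C S).image Prod.swap) := by
    rintro ⟨a, b⟩ hp
    rw [spa_mem_pairs] at hp
    obtain ⟨ha, hb, hab⟩ := hp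
    rw [SimpleGraph.fromRel_adj] at hab
    rw [mem_union, mem_union, spa_mem_pairs, spa_mem_pairs, mem_image]
    rcases hab.2 with h1 | h1
    · rcases h _ _ h1 with h2 | h2
      · exact Or.inl ⟨ha, hb, h2⟩
      · exact Or.inr (Or.inl ⟨ha, hb, h2⟩)
    · rcases h _ _ h1 with h2 | h2
      · exact Or.inl ⟨ha, hb, hB _ _ h2⟩
      · exact Or.inr (Or.inr ⟨(b, a), spa_mem_pairs.2 ⟨hb, ha, h2⟩, rfl⟩)
  have h1 := card_le_card hsub
  have h2 := card_union_le (spa_pairs B S) (spa_pairs C S ∪ (spa_pairs C S).image Prod.swap)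
  have h3 := card_union_le (spa_pairs C S) ((spa_pairs C S).image Prod.swap)
  have h4 : ((spa_pairs C S).image Prod.swap).card ≤ (spa_pairs C S).card := card_image_le
  have h5 : ec (SimpleGraph.fromRel rel) S = (spa_pairs (SimpleGraph.fromRel rel).Adj S).card := rfl
  omega

open Classical in
/-- the part of a set inside one node -/
noncomputable def spa_fib (S : Finset (Vx τ N)) (u : N) : Finset (Tm (Gm τ)) :=
  univ.filter fun t => Sum.inr (u, t) ∈ S

omit [Fintype N] in
theorem spa_mem_fib {S : Finset (Vx τ N)} {u : N} {t : Tm (Gm τ)} :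
    t ∈ spa_fib S u ↔ Sum.inr (u, t) ∈ S := by
  classical
  simp [spa_fib]

theorem spa_mem_met {β : BP τ N} {S : Finset (Vx τ N)} {u : N} :
    u ∈ β.met S ↔ β.act u ∧ ∃ t, Sum.inr (u, t) ∈ S := by
  classical
  simp [BP.met]

theorem spa_card (β : BP τ N) (S : Finset (Vx τ N)) :
    S.card = pl S + β.junk S + ∑ u ∈ β.met S, (spa_fib S u).card := by
  classical
  have hA : ∀ X : Finset (Vx τ N), X.card = pl X + ∑ u : N, (spa_fib X u).card := by
    intro X
    have h1 : X.card = ∑ v : Vx τ N, if v ∈ X then 1 else 0 := by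
      rw [Finset.sum_ite_mem, univ_inter, card_eq_sum_ones]
    rw [h1, Fintype.sum_sum_type, Fintype.sum_prod_type]
    congr 1
    · unfold pl
      rw [card_filter]
      refine sum_congr rfl fun s _ => ?_
      by_cases hs : Sum.inl s ∈ X <;> simp [hs]
    · refine sum_congr rfl fun u _ => ?_
      unfold spa_fib
      rw [card_filter]
      refine sum_congr rfl fun s _ => ?_
      by_cases hs : Sum.inr (u, s) ∈ X <;> simp [hs]
  have hJ : β.junk S = ∑ u : N, if β.act u then 0 else (spa_fib S u).card := by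
    unfold BP.junk
    rw [hA]
    have h0 : ∀ X : Finset (Vx τ N), (∀ s, Sum.inl s ∉ X) → pl X = 0 := by
      intro X hX
      unfold pl
      rw [card_eq_zero, filter_eq_empty_iff]
      exact fun s _ => hX s
    rw [h0 (S.filter fun v => ¬ β.live v) (fun s hs => (mem_filter.1 hs).2 trivial), zero_add]
    refine sum_congr rfl fun u _ => ?_
    by_cases hu : β.act u
    · rw [if_pos hu, card_eq_zero, eq_empty_iff_forall_notMem]
      intro t ht
      exact (mem_filter.1 (spa_mem_fib.1 ht)).2 hu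
    · rw [if_neg hu]
      congr 1
      ext t
      rw [spa_mem_fib, spa_mem_fib, mem_filter]
      exact ⟨fun h => h.1, fun h => ⟨h, hu⟩⟩
  have hM : ∑ u ∈ β.met S, (spa_fib S u).card =
      ∑ u : N, if β.act u then (spa_fib S u).card else 0 := by
    rw [← sum_filter]
    refine sum_subset (fun u hu => mem_filter.2 ⟨mem_univ _, (spa_mem_met.1 hu).1⟩) ?_
    intro u hu hu'
    rw [card_eq_zero, eq_empty_iff_forall_notMem]
    intro t ht
    exact hu' (spa_mem_met.2 ⟨(mem_filter.1 hu).2, t, spa_mem_fib.1 ht⟩)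
  rw [hJ, hM, add_assoc, ← sum_add_distrib, hA S]
  congr 1
  refine sum_congr rfl fun u _ => ?_
  by_cases hu : β.act u <;> simp [hu]

theorem spa_fib_le (X : Finset (Tm (Gm τ))) (hX : X.Nonempty) :
    mm (Gm τ) * ec (TG (Gm τ)) X + 5000 * mm (Gm τ) ≤ AA (Gm τ) * X.card := by
  have h1 : 1 ≤ X.card := card_pos.2 hX
  have h2 : X.card ≤ mm (Gm τ) := by
    rw [← card_Tm]
    exact card_le_univ X
  rcases h2.lt_or_eq with h3 | h3
  · have h4 := part_le (Γ := Gm τ) h1 h3
    have h5 := Nat.mul_le_mul_left (mm (Gm τ)) (ec_le (TG (Gm τ)) X)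
    omega
  · have h4 : X = univ := by
      rw [← card_eq_iff_eq_univ, h3, card_Tm]
    rw [h3, h4]
    unfold AA E2
    rw [add_mul, mul_comm (mm (Gm τ))]

/-- edges inside a node -/
def spa_B (β : BP τ N) (a b : Vx τ N) : Prop :=
  ∃ u t t', β.act u ∧ base t t' ∧ a = .inr (u, t) ∧ b = .inr (u, t')

/-- bundle edges -/
def spa_A (β : BP τ N) (a b : Vx τ N) : Prop :=
  ∃ u u' k, ∃ i : Fin 4000, β.act u ∧ β.act u' ∧ β.arc u k u' i ∧
    a = .inr (u, .inl ((k, true), i)) ∧ b = .inr (u', .inl ((k, false), i))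

/-- attaching edges -/
def spa_T (β : BP τ N) (a b : Vx τ N) : Prop :=
  ∃ s u, ∃ i : Fin 4000, β.act u ∧ β.att u ∧ (i : ℕ) < 500 ∧
    a = .inl s ∧ b = .inr (u, .inl ((.att s, false), i))

/-- the final edge -/
def spa_F (β : BP τ N) (a b : Vx τ N) : Prop := β.fin ∧ a = .inl false ∧ b = .inl true

omit [Fintype N] in
theorem spa_rel (β : BP τ N) (a b : Vx τ N) (h : β.rel a b) :
    spa_B β a b ∨ (spa_A β a b ∨ spa_T β a b ∨ spa_F β a b) := by
  rcases a with s | ⟨u, t⟩ <;> rcases b with s' | ⟨u', t'⟩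
  · obtain ⟨h1, rfl, rfl⟩ := h
    exact Or.inr (Or.inr (Or.inr ⟨h1, rfl, rfl⟩))
  · obtain ⟨h1, h2, i, hi, h3⟩ := h
    dsimp only at h1 h2 h3
    subst h3
    exact Or.inr (Or.inr (Or.inl ⟨s, u', i, h1, h2, hi, rfl, rfl⟩))
  · exact h.elim
  · obtain ⟨h1, h2, ⟨h3, h4⟩ | ⟨_, k, i, h3, h4, h5⟩⟩ := h
    · dsimp only at h1 h2 h3 h4
      subst h3
      exact Or.inl ⟨u, t, t', h1, h4, rfl, rfl⟩
    · dsimp only at h1 h2 h3 h4 h5
      subst h4 h5
      exact Or.inr (Or.inl ⟨u, u', k, i, h1, h2, h3, rfl, rfl⟩)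

theorem spa_B_le (β : BP τ N) (S : Finset (Vx τ N)) :
    (spa_pairs (spa_B β) S).card ≤ ∑ u ∈ β.met S, ec (TG (Gm τ)) (spa_fib S u) := by
  classical
  have hsub : spa_pairs (spa_B β) S ⊆ (β.met S).biUnion fun u =>
      (spa_pairs (TG (Gm τ)).Adj (spa_fib S u)).image
        fun p => ((Sum.inr (u, p.1), Sum.inr (u, p.2)) : Vx τ N × Vx τ N) := by
    rintro ⟨a, b⟩ hp
    obtain ⟨ha, hb, u, t, t', hu, ht, h1, h2⟩ := spa_mem_pairs.1 hp
    dsimp only at ha hb h1 h2
    subst h1 h2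
    refine mem_biUnion.2 ⟨u, spa_mem_met.2 ⟨hu, t, ha⟩, mem_image.2 ⟨(t, t'), ?_, rfl⟩⟩
    exact spa_mem_pairs.2 ⟨spa_mem_fib.2 ha, spa_mem_fib.2 hb, ht⟩
  refine (card_le_card hsub).trans (card_biUnion_le.trans (sum_le_sum fun u _ => ?_))
  exact card_image_le

theorem spa_A_le (β : BP τ N) (S : Finset (Vx τ N)) :
    (spa_pairs (spa_A β) S).card ≤ β.na (β.met S) := by
  classical
  have hsub : spa_pairs (spa_A β) S ⊆ (β.met S).biUnion fun u => (β.met S).biUnion fun u' =>
      (univ : Finset (Kind τ)).biUnion fun k =>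
        (univ.filter fun i : Fin 4000 => β.arc u k u' i).image fun i =>
          ((Sum.inr (u, .inl ((k, true), i)), Sum.inr (u', .inl ((k, false), i))) :
            Vx τ N × Vx τ N) := by
    rintro ⟨a, b⟩ hp
    obtain ⟨ha, hb, u, u', k, i, hu, hu', hi, h1, h2⟩ := spa_mem_pairs.1 hp
    dsimp only at ha hb h1 h2
    subst h1 h2
    exact mem_biUnion.2 ⟨u, spa_mem_met.2 ⟨hu, _, ha⟩, mem_biUnion.2
      ⟨u', spa_mem_met.2 ⟨hu', _, hb⟩, mem_biUnion.2 ⟨k, mem_univ _,
        mem_image.2 ⟨i, mem_filter.2 ⟨mem_univ _, hi⟩, rfl⟩⟩⟩⟩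
  unfold BP.na
  refine (card_le_card hsub).trans (card_biUnion_le.trans (sum_le_sum fun u _ => ?_))
  refine card_biUnion_le.trans (sum_le_sum fun u' _ => ?_)
  refine card_biUnion_le.trans (sum_le_sum fun k _ => ?_)
  exact card_image_le

theorem spa_card_lt : (univ.filter fun i : Fin 4000 => (i : ℕ) < 500).card ≤ 500 := by
  have h : (univ.filter fun i : Fin 4000 => (i : ℕ) < 500).card ≤ (range 500).card := by
    refine card_le_card_of_injOn (fun i => (i : ℕ)) (fun i hi => ?_) fun i _ j _ hij => Fin.ext hij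
    exact mem_coe.2 (mem_range.2 (mem_filter.1 (mem_coe.1 hi)).2)
  rwa [card_range] at h

theorem spa_T_le (β : BP τ N) (S : Finset (Vx τ N)) :
    (spa_pairs (spa_T β) S).card ≤ pl S * (β.nt (β.met S) * 500) := by
  classical
  have hsub : spa_pairs (spa_T β) S ⊆ (univ.filter fun s : Bool => Sum.inl s ∈ S).biUnion fun s =>
      ((β.met S).filter β.att).biUnion fun u =>
        (univ.filter fun i : Fin 4000 => (i : ℕ) < 500).image fun i =>
          ((Sum.inl s, Sum.inr (u, .inl ((.att s, false), i))) : Vx τ N × Vx τ N) := by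
    rintro ⟨a, b⟩ hp
    obtain ⟨ha, hb, s, u, i, hu, hu', hi, h1, h2⟩ := spa_mem_pairs.1 hp
    dsimp only at ha hb h1 h2
    subst h1 h2
    exact mem_biUnion.2 ⟨s, mem_filter.2 ⟨mem_univ _, ha⟩, mem_biUnion.2
      ⟨u, mem_filter.2 ⟨spa_mem_met.2 ⟨hu, _, hb⟩, hu'⟩,
        mem_image.2 ⟨i, mem_filter.2 ⟨mem_univ _, hi⟩, rfl⟩⟩⟩
  have hpl : pl S = (univ.filter fun s : Bool => Sum.inl s ∈ S).card := by
    unfold pl
    congr 1
  have hnt : β.nt (β.met S) = ((β.met S).filter β.att).card := rfl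
  rw [hpl, hnt]
  refine (card_le_card hsub).trans (card_biUnion_le_card_mul _ _ _ fun s _ => ?_)
  refine card_biUnion_le_card_mul _ _ _ fun u _ => ?_
  exact card_image_le.trans spa_card_lt

omit [Fintype N] in
open Classical in
theorem spa_F_le (β : BP τ N) (S : Finset (Vx τ N)) :
    2 * (spa_pairs (spa_F β) S).card ≤ if β.fin ∧ pl S = 2 then 2 else 0 := by
  by_cases h : β.fin ∧ pl S = 2
  · rw [if_pos h]
    have h1 : (spa_pairs (spa_F β) S).card ≤ 1 := by
      refine card_le_one.2 ?_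
      rintro ⟨a, b⟩ hp ⟨a', b'⟩ hp'
      obtain ⟨-, -, -, h1, h2⟩ := spa_mem_pairs.1 hp
      obtain ⟨-, -, -, h3, h4⟩ := spa_mem_pairs.1 hp'
      dsimp only at h1 h2 h3 h4
      rw [h1, h2, h3, h4]
    omega
  · rw [if_neg h]
    have h1 : spa_pairs (spa_F β) S = ∅ := by
      rw [eq_empty_iff_forall_notMem]
      rintro ⟨a, b⟩ hp
      obtain ⟨ha, hb, hf, h1, h2⟩ := spa_mem_pairs.1 hp
      dsimp only at ha hb h1 h2
      subst h1 h2
      refine h ⟨hf, ?_⟩
      unfold pl
      rw [filter_true_of_mem, card_univ, Fintype.card_bool]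
      rintro (_ | _) _
      exacts [ha, hb]
    rw [h1, card_empty]

theorem spa_or_le {V : Type} (A B : V → V → Prop) (S : Finset V) :
    (spa_pairs (fun a b => A a b ∨ B a b) S).card ≤
      (spa_pairs A S).card + (spa_pairs B S).card := by
  classical
  refine le_trans (card_le_card fun p hp => ?_) (card_union_le (spa_pairs A S) (spa_pairs B S))
  obtain ⟨h1, h2, h3 | h3⟩ := spa_mem_pairs.1 hp
  · exact mem_union_left _ (spa_mem_pairs.2 ⟨h1, h2, h3⟩)
  · exact mem_union_right _ (spa_mem_pairs.2 ⟨h1, h2, h3⟩)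

open Classical in
theorem bp_pot (β : BP τ N) (S : Finset (Vx τ N)) :
    mm (Gm τ) * ec β.graph S + 5000 * mm (Gm τ) * (β.met S).card +
        AA (Gm τ) * (pl S + β.junk S) ≤
      AA (Gm τ) * S.card + mm (Gm τ) * (2 * β.na (β.met S) + 1000 * pl S * β.nt (β.met S) +
        if β.fin ∧ pl S = 2 then 2 else 0) := by
  have h1 := spa_ec_le β.rel (spa_B β) (fun a b => spa_A β a b ∨ spa_T β a b ∨ spa_F β a b)
    (by
      rintro a b ⟨u, t, t', hu, ht, h1, h2⟩
      exact ⟨u, t', t, hu, (TG (Gm τ)).adj_symm ht, h2, h1⟩) (spa_rel β) S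
  have h2 := spa_or_le (spa_A β) (fun a b => spa_T β a b ∨ spa_F β a b) S
  have h3 := spa_or_le (spa_T β) (spa_F β) S
  have hB := spa_B_le β S
  have hA := spa_A_le β S
  have hT := spa_T_le β S
  have hF := spa_F_le β S
  have hT' : pl S * (β.nt (β.met S) * 500) * 2 = 1000 * pl S * β.nt (β.met S) := by ring
  have hec : ec β.graph S ≤ ∑ u ∈ β.met S, ec (TG (Gm τ)) (spa_fib S u) +
      (2 * β.na (β.met S) + 1000 * pl S * β.nt (β.met S) +
        if β.fin ∧ pl S = 2 then 2 else 0) := by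
    have h0 : ec β.graph S = ec (SimpleGraph.fromRel β.rel) S := rfl
    omega
  have hsum : ∑ u ∈ β.met S, (mm (Gm τ) * ec (TG (Gm τ)) (spa_fib S u) + 5000 * mm (Gm τ)) ≤
      ∑ u ∈ β.met S, AA (Gm τ) * (spa_fib S u).card := by
    refine sum_le_sum fun u hu => spa_fib_le _ ?_
    obtain ⟨-, t, ht⟩ := spa_mem_met.1 hu
    exact ⟨t, spa_mem_fib.2 ht⟩
  rw [sum_add_distrib, sum_const, smul_eq_mul, mul_comm (β.met S).card, ← mul_sum,
    ← mul_sum] at hsum
  have h4 := Nat.mul_le_mul_left (mm (Gm τ)) hec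
  rw [mul_add] at h4
  rw [spa_card β S, mul_add (AA (Gm τ)) (pl S + β.junk S)]
  omega

omit [Fintype N] in
theorem pl_le (S : Finset (Vx τ N)) : pl S ≤ 2 := by
  unfold pl
  exact (card_le_univ _).trans (by simp)

theorem met_empty (β : BP τ N) (S : Finset (Vx τ N)) (h : β.met S = ∅) :
    pl S + β.junk S = S.card := by
  rw [spa_card β S, h, sum_empty, add_zero]

end Pool.Agent.HB

end FileSpA

section FileSpB

/-! Counting the bundle edges of the three blueprints. -/

open Finset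

namespace Pool.Agent.HB

variable {τ : Type} [Fintype τ]

open Classical in
/-- number of triples (target, kind, index) with a given property -/
noncomputable def spb_c {N : Type} (M : Finset N) (A : N → Kind τ → ℕ → Prop) : ℕ :=
  ∑ u' ∈ M, ∑ k : Kind τ, (univ.filter fun i : Fin 4000 => A u' k i).card

theorem spb_na {N : Type} (β : BP τ N) (M : Finset N) :
    β.na M = ∑ u ∈ M, spb_c M (fun u' k i => β.arc u k u' i) := rfl

theorem spb_or {N : Type} {M : Finset N} {A : N → Kind τ → ℕ → Prop}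
    (B C : N → Kind τ → ℕ → Prop) (h : ∀ u' ∈ M, ∀ k i, A u' k i → B u' k i ∨ C u' k i) :
    spb_c M A ≤ spb_c M B + spb_c M C := by
  classical
  unfold spb_c
  rw [← sum_add_distrib]
  refine sum_le_sum fun u' hu' => ?_
  rw [← sum_add_distrib]
  refine sum_le_sum fun k _ => ?_
  refine le_trans (card_le_card ?_) (card_union_le _ _)
  intro i hi
  simp only [mem_filter, mem_univ, true_and, mem_union] at hi ⊢
  exact h u' hu' k i hi

theorem spb_le {N : Type} {M : Finset N} {A : N → Kind τ → ℕ → Prop} (I : Finset ℕ)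
    (h : ∀ u' ∈ M, ∀ k i, A u' k i → i ∈ I)
    (hu : ∀ u' ∈ M, ∀ u'' ∈ M, ∀ k k' i, A u' k i → A u'' k' i → u' = u'' ∧ k = k') :
    spb_c M A ≤ I.card := by
  classical
  have e : spb_c M A = ((M ×ˢ (univ : Finset (Kind τ × Fin 4000))).filter
      fun x => A x.1 x.2.1 x.2.2).card := by
    unfold spb_c
    rw [card_filter, sum_product]
    refine sum_congr rfl fun u' _ => ?_
    rw [Fintype.sum_prod_type]
    refine sum_congr rfl fun k _ => ?_
    rw [card_filter]
  rw [e]
  refine card_le_card_of_injOn (fun x => (x.2.2 : ℕ)) ?_ ?_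
  · intro x hx
    simp only [coe_filter, mem_product, mem_univ, and_true, Set.mem_ofPred_eq] at hx
    exact h _ hx.1 _ _ hx.2
  · rintro ⟨u, k, i⟩ hx ⟨u', k', i'⟩ hy hxy
    simp only [coe_filter, mem_product, mem_univ, and_true, Set.mem_ofPred_eq] at hx hy hxy
    obtain rfl : i = i' := Fin.ext hxy
    obtain ⟨rfl, rfl⟩ := hu _ hx.1 _ hy.1 _ _ _ hx.2 hy.2
    rfl

theorem spb_one {N : Type} {M : Finset N} {A : N → Kind τ → ℕ → Prop} (u0 : N) (k0 : Kind τ)
    (n : ℕ) (h : ∀ u' ∈ M, ∀ k i, A u' k i → u' = u0 ∧ k = k0 ∧ i < n) : spb_c M A ≤ n := by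
  have := spb_le (M := M) (A := A) (range n) (fun u' hu' k i hA => mem_range.2 (h u' hu' k i hA).2.2)
    fun u' hu' u'' hu'' k k' i h1 h2 => by
      obtain ⟨rfl, rfl, -⟩ := h _ hu' _ _ h1
      obtain ⟨rfl, rfl, -⟩ := h _ hu'' _ _ h2
      exact ⟨rfl, rfl⟩
  rwa [card_range] at this

theorem spb_zero {N : Type} {M : Finset N} {A : N → Kind τ → ℕ → Prop}
    (h : ∀ u' ∈ M, ∀ k i, ¬ A u' k i) : spb_c M A ≤ 0 := by
  have := spb_le (M := M) (A := A) ∅ (fun u' hu' k i hA => (h u' hu' k i hA).elim)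
    fun u' hu' _ _ k _ i h1 _ => (h u' hu' k i h1).elim
  rwa [card_empty] at this

theorem spb_na_comap (β : BP τ ℕ) (Kn : ℕ) (M : Finset (Fin Kn)) :
    (β.comap Fin.val).na M = β.na (M.map Fin.valEmbedding) := by
  unfold BP.na
  rw [sum_map]
  refine sum_congr rfl fun u _ => ?_
  rw [sum_map]
  rfl

omit [Fintype τ] in
theorem spb_nt_comap (β : BP τ ℕ) (Kn : ℕ) (M : Finset (Fin Kn)) :
    (β.comap Fin.val).nt M = β.nt (M.map Fin.valEmbedding) := by
  classical
  unfold BP.nt
  rw [filter_map, card_map]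
  rfl

omit [Fintype τ] in
theorem spb_nt {N : Type} (β : BP τ N) (M : Finset N) (P : N → Prop) [DecidablePred P]
    (h : ∀ u, β.att u ↔ P u) : β.nt M = (M.filter P).card := by
  unfold BP.nt
  refine congrArg card (Finset.ext fun u => ?_)
  simp only [mem_filter, h]

theorem spb_sum_ite {N : Type} (M : Finset N) (P : N → Prop) [DecidablePred P] (n : ℕ) :
    ∑ u ∈ M, (if P u then n else 0) = n * (M.filter P).card := by
  rw [← sum_filter, sum_const, smul_eq_mul, mul_comm]

/-- the link bundles of a clause node -/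
theorem spb_clause_lnk [Inhabited τ] (cl : Clause τ) (M : Finset ℕ) (u : ℕ) :
    spb_c M (fun u' (k : Kind τ) i => ∃ p a, cl.kid (u - 2) = some p ∧ k = .lnk a ∧
      u' = nodeOf 0 (· + 2) (sel p a) ∧ i < 100) ≤ 200 := by
  rcases hk : cl.kid (u - 2) with _ | p
  · refine le_trans (spb_zero ?_) (Nat.zero_le _)
    rintro u' - k i ⟨p, a, h, -⟩
    exact absurd h (by simp)
  · refine le_trans (spb_or (fun u' k i => u' = nodeOf 0 (· + 2) (sel p false) ∧ k = .lnk false ∧
      i < 100) (fun u' k i => u' = nodeOf 0 (· + 2) (sel p true) ∧ k = .lnk true ∧ i < 100) ?_) ?_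
    · rintro u' - k i ⟨p', a, h, h1, h2, h3⟩
      obtain rfl : p = p' := Option.some.inj h
      cases a
      · exact Or.inl ⟨h2, h1, h3⟩
      · exact Or.inr ⟨h2, h1, h3⟩
    · exact Nat.add_le_add (spb_one _ _ 100 fun _ _ _ _ h => h) (spb_one _ _ 100 fun _ _ _ _ h => h)

theorem spb_clause [Inhabited τ] {cl : Clause τ} (hw : WF cl) (j : ℕ) (M : Finset ℕ)
    (hM : M.Nonempty) (hact : ∀ u ∈ M, u < cl.length + 2) :
    (clauseBP cl j).na M < 2500 * M.card := by
  classical
  rw [spb_na]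
  by_cases h0 : 0 ∈ M
  · have hb : ∀ u ∈ M, spb_c M (fun u' k i => (clauseBP cl j).arc u k u' i) ≤
        (if u = 0 ∧ 1 ∈ M then 3999 else 0) + (if 2 ≤ u then 2500 else 0) +
          (if 2 ≤ u ∧ cl.ok (u - 2) = true then 300 else 0) + (if u = 2 then 1 else 0) := by
      intro u hu
      by_cases h2 : 2 ≤ u
      · have e1 : spb_c M (fun u' (k : Kind τ) i =>
            u' = 0 ∧ k = .ok ∧ cl.ok (u - 2) = true ∧ i < 300) ≤
            if 2 ≤ u ∧ cl.ok (u - 2) = true then 300 else 0 := by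
          split_ifs with hc
          · exact spb_one 0 .ok 300 fun _ _ _ _ h => ⟨h.1, h.2.1, h.2.2.2⟩
          · exact spb_zero fun _ _ _ _ h => hc ⟨h2, h.2.2.1⟩
        have e2 : spb_c M (fun u' (k : Kind τ) i => u' = 0 ∧ k = .ok ∧ u = 2 ∧ i = j) ≤
            if u = 2 then 1 else 0 := by
          split_ifs with hc
          · refine le_trans (spb_le {j} ?_ ?_) (card_singleton j).le
            · intro _ _ _ _ h
              exact mem_singleton.2 h.2.2.2
            · intro _ _ _ _ _ _ _ h h'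
              exact ⟨h.1.trans h'.1.symm, h.2.1.trans h'.2.1.symm⟩
          · exact spb_zero fun _ _ _ _ h => hc h.2.2.1
        have e3 : spb_c M (fun u' (k : Kind τ) i =>
            u' = 0 ∧ k = .tag (cl.tg (u - 2)) ∧ i < 2300) ≤ 2300 :=
          spb_one _ _ 2300 fun _ _ _ _ h => h
        have e4 := spb_clause_lnk cl M u
        have e5 := spb_or (M := M) (A := fun u' (k : Kind τ) i =>
            k = .ok ∧ u' = 0 ∧ ((cl.ok (u - 2) = true ∧ i < 300) ∨ (u = 2 ∧ i = j)))
          (fun u' (k : Kind τ) i => u' = 0 ∧ k = .ok ∧ cl.ok (u - 2) = true ∧ i < 300)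
          (fun u' (k : Kind τ) i => u' = 0 ∧ k = .ok ∧ u = 2 ∧ i = j) (by
            rintro u' - k i ⟨h1, h2, h3 | h3⟩
            · exact Or.inl ⟨h2, h1, h3⟩
            · exact Or.inr ⟨h2, h1, h3⟩)
        have e6 := spb_or (M := M) (A := fun u' (k : Kind τ) i =>
            (∃ p a, cl.kid (u - 2) = some p ∧ k = .lnk a ∧
              u' = nodeOf 0 (· + 2) (sel p a) ∧ i < 100) ∨
            (k = .ok ∧ u' = 0 ∧ ((cl.ok (u - 2) = true ∧ i < 300) ∨ (u = 2 ∧ i = j))))
          _ _ (fun _ _ _ _ h => h)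
        have e7 := spb_or (M := M) (A := fun u' k i => (clauseBP cl j).arc u k u' i)
          (fun u' (k : Kind τ) i => u' = 0 ∧ k = .tag (cl.tg (u - 2)) ∧ i < 2300)
          (fun u' (k : Kind τ) i => (∃ p a, cl.kid (u - 2) = some p ∧ k = .lnk a ∧
              u' = nodeOf 0 (· + 2) (sel p a) ∧ i < 100) ∨
            (k = .ok ∧ u' = 0 ∧ ((cl.ok (u - 2) = true ∧ i < 300) ∨ (u = 2 ∧ i = j)))) (by
            rintro u' - k i (⟨h, -⟩ | ⟨-, ⟨h1, h2, h3⟩ | h⟩)
            · omega
            · exact Or.inl ⟨h2, h1, h3⟩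
            · exact Or.inr h)
        rw [if_pos h2]
        omega
      · have e1 : spb_c M (fun u' k i => (clauseBP cl j).arc u k u' i) ≤
            if u = 0 ∧ 1 ∈ M then 3999 else 0 := by
          split_ifs with hc
          · refine spb_one 1 .anc 3999 ?_
            rintro u' - k i (⟨-, h1, h2, h3⟩ | ⟨h, -⟩)
            · exact ⟨h2, h1, h3⟩
            · exact absurd h h2
          · refine spb_zero ?_
            rintro u' hu' k i (⟨h0, -, rfl, -⟩ | ⟨h, -⟩)
            · exact hc ⟨h0, hu'⟩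
            · exact h2 h
        omega
    refine lt_of_le_of_lt (sum_le_sum hb) ?_
    rw [sum_add_distrib, sum_add_distrib, sum_add_distrib, spb_sum_ite,
      spb_sum_ite M (fun u => 2 ≤ u), spb_sum_ite, spb_sum_ite]
    have c1 : (M.filter fun u => u = 2).card ≤ 1 := by
      refine card_le_one.2 fun a ha b hb => ?_
      rw [(mem_filter.1 ha).2, (mem_filter.1 hb).2]
    have c2 : (M.filter fun u => 2 ≤ u ∧ cl.ok (u - 2) = true).card ≤ 3 := by
      refine le_trans (card_le_card_of_injOn (fun u => u - 2) ?_ ?_) hw.few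
      · intro u hu
        have hu' := mem_filter.1 (mem_coe.1 hu)
        have := hact u hu'.1
        have h2 := hu'.2.1
        exact mem_coe.2 (mem_filter.2 ⟨mem_range.2 (show u - 2 < _ by omega), hu'.2.2⟩)
      · intro a ha b hb hab
        have ha' := (mem_filter.1 (mem_coe.1 ha)).2.1
        have hb' := (mem_filter.1 (mem_coe.1 hb)).2.1
        simp only at hab
        omega
    by_cases h1 : 1 ∈ M
    · have c3 : (M.filter fun u => u = 0 ∧ 1 ∈ M).card ≤ 1 := by
        refine card_le_one.2 fun a ha b hb => ?_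
        rw [(mem_filter.1 ha).2.1, (mem_filter.1 hb).2.1]
      have c4 : (M.filter fun u => 2 ≤ u).card + 2 ≤ M.card := by
        have hd : Disjoint (M.filter fun u => 2 ≤ u) {0, 1} := by
          rw [disjoint_left]
          intro a ha hb
          have := (mem_filter.1 ha).2
          simp only [mem_insert, mem_singleton] at hb
          omega
        have := card_le_card (s := (M.filter fun u => 2 ≤ u) ∪ {0, 1}) (t := M) (by
          intro a ha
          simp only [mem_union, mem_filter, mem_insert, mem_singleton] at ha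
          rcases ha with ha | rfl | rfl
          exacts [ha.1, h0, h1])
        rwa [card_union_of_disjoint hd, card_pair (by omega)] at this
      omega
    · have c3 : (M.filter fun u => u = 0 ∧ 1 ∈ M).card = 0 := by
        rw [card_eq_zero, filter_eq_empty_iff]
        exact fun _ _ h => h1 h.2
      have c4 : (M.filter fun u => 2 ≤ u).card < M.card := by
        refine card_lt_card ⟨filter_subset _ _, fun h => ?_⟩
        have := (mem_filter.1 (h h0)).2
        omega
      omega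
  · have hb : ∀ u ∈ M, spb_c M (fun u' k i => (clauseBP cl j).arc u k u' i) ≤ 200 := by
      intro u hu
      have e := spb_or (M := M) (A := fun u' k i => (clauseBP cl j).arc u k u' i)
        (fun u' (k : Kind τ) i => ∃ p a, cl.kid (u - 2) = some p ∧ k = .lnk a ∧
          u' = nodeOf 0 (· + 2) (sel p a) ∧ i < 100) (fun _ _ _ => False) (by
          rintro u' hu' k i (⟨rfl, -⟩ | ⟨-, ⟨-, rfl, -⟩ | h | ⟨-, rfl, -⟩⟩)
          · exact absurd hu h0
          · exact absurd hu' h0
          · exact Or.inl h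
          · exact absurd hu' h0)
      have e1 := spb_clause_lnk cl M u
      have e2 : spb_c M (fun _ (_ : Kind τ) _ => False) ≤ 0 := spb_zero fun _ _ _ _ h => h
      omega
    refine lt_of_le_of_lt (sum_le_sum hb) ?_
    rw [sum_const, smul_eq_mul]
    have := hM.card_pos
    omega

theorem na_clause [Inhabited τ] {cl : Clause τ} (hw : WF cl) (j Kn : ℕ) (M : Finset (Fin Kn))
    (hM : M.Nonempty) (hact : ∀ u ∈ M, (u : ℕ) < cl.length + 2) :
    ((clauseBP cl j).comap Fin.val).na M < 2500 * M.card := by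
  rw [spb_na_comap, ← card_map Fin.valEmbedding]
  refine spb_clause hw j _ hM.map fun u hu => ?_
  obtain ⟨v, hv, rfl⟩ := mem_map.1 hu
  exact hact v hv

theorem spb_fin (halt : τ) (M : Finset ℕ) : ∃ a h n1 n2 : ℕ,
    (finBP halt).na M ≤ 3999 * a + 2600 * h ∧ a ≤ (finBP halt).nt M ∧ a ≤ n1 ∧
      h ≤ (finBP halt).nt M ∧ h ≤ n2 ∧ (finBP halt).nt M + n1 + n2 = M.card := by
  classical
  have hnt : (finBP halt).nt M = (M.filter fun u => u % 3 = 0).card :=
    spb_nt _ _ _ fun _ => Iff.rfl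
  rw [hnt]
  refine ⟨(M.filter fun u => u % 3 = 0 ∧ u + 1 ∈ M).card,
    (M.filter fun u => u % 3 = 2 ∧ u - 2 ∈ M).card, (M.filter fun u => u % 3 = 1).card,
    (M.filter fun u => u % 3 = 2).card, ?_, ?_, ?_, ?_, ?_, ?_⟩
  · rw [spb_na, ← spb_sum_ite, ← spb_sum_ite, ← sum_add_distrib]
    refine sum_le_sum fun u hu => ?_
    have e := spb_or (M := M) (A := fun u' k i => (finBP halt).arc u k u' i) _ _
      (fun _ _ _ _ h => h)
    refine e.trans (Nat.add_le_add ?_ ?_)
    · split_ifs with hc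
      · exact spb_one (u + 1) .anc 3999 fun _ _ _ _ h => ⟨h.2.2.1, h.2.1, h.2.2.2⟩
      · refine spb_zero ?_
        rintro u' hu' k i ⟨h1, -, rfl, -⟩
        exact hc ⟨h1, hu'⟩
    · split_ifs with hc
      · refine le_trans (spb_or (fun u' k i => u' = u - 2 ∧ k = .tag halt ∧ i < 2300)
          (fun u' k i => u' = u - 2 ∧ k = .ok ∧ i < 300) ?_) ?_
        · rintro u' - k i ⟨-, rfl, h | h⟩
          · exact Or.inl ⟨by omega, h⟩
          · exact Or.inr ⟨by omega, h⟩
        · exact Nat.add_le_add (spb_one _ _ 2300 fun _ _ _ _ h => h)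
            (spb_one _ _ 300 fun _ _ _ _ h => h)
      · refine spb_zero ?_
        rintro u' hu' k i ⟨h1, rfl, -⟩
        exact hc ⟨h1, by simpa using hu'⟩
  · exact card_le_card fun u hu => mem_filter.2 ⟨(mem_filter.1 hu).1, (mem_filter.1 hu).2.1⟩
  · refine card_le_card_of_injOn (fun u => u + 1) ?_ ?_
    · intro u hu
      have hu' := (mem_filter.1 (mem_coe.1 hu)).2
      exact mem_coe.2 (mem_filter.2 ⟨hu'.2, by have := hu'.1; simp only; omega⟩)
    · intro a _ b _ hab
      simpa using hab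
  · refine card_le_card_of_injOn (fun u => u - 2) ?_ ?_
    · intro u hu
      have hu' := (mem_filter.1 (mem_coe.1 hu)).2
      exact mem_coe.2 (mem_filter.2 ⟨hu'.2, by have := hu'.1; simp only; omega⟩)
    · intro a ha b hb hab
      have ha' := (mem_filter.1 (mem_coe.1 ha)).2.1
      have hb' := (mem_filter.1 (mem_coe.1 hb)).2.1
      simp only at hab
      omega
  · exact card_le_card fun u hu => mem_filter.2 ⟨(mem_filter.1 hu).1, (mem_filter.1 hu).2.1⟩
  · rw [card_filter, card_filter, card_filter, ← sum_add_distrib, ← sum_add_distrib,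
      card_eq_sum_ones]
    refine sum_congr rfl fun u _ => ?_
    split_ifs <;> omega

/-- with at most one plain vertex -/
theorem na_fin1 (halt : τ) (Kn : ℕ) (M : Finset (Fin Kn)) (hM : M.Nonempty) :
    ((finBP halt).comap Fin.val).na M + 500 * ((finBP halt).comap Fin.val).nt M <
      2500 * M.card := by
  rw [spb_na_comap, spb_nt_comap]
  obtain ⟨a, h, n1, n2, h1, h2, h3, h4, h5, h6⟩ := spb_fin halt (M.map Fin.valEmbedding)
  rw [card_map] at h6
  have := hM.card_pos
  omega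

/-- with both plain vertices -/
theorem na_fin2 (halt : τ) (Kn : ℕ) (M : Finset (Fin Kn))
    (hact : ∀ u ∈ M, (u : ℕ) < 3 * rr (Gm τ)) :
    ((finBP halt).comap Fin.val).na M + 1000 * ((finBP halt).comap Fin.val).nt M ≤
      2500 * M.card + 99 * rr (Gm τ) := by
  classical
  rw [spb_na_comap, spb_nt_comap]
  obtain ⟨a, h, n1, n2, h1, h2, h3, h4, h5, h6⟩ := spb_fin halt (M.map Fin.valEmbedding)
  rw [card_map] at h6
  have hr : (finBP halt).nt (M.map Fin.valEmbedding) ≤ rr (Gm τ) := by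
    unfold BP.nt
    refine le_trans (card_le_card_of_injOn (t := range (rr (Gm τ))) (fun u => u / 3) ?_ ?_)
      (card_range _).le
    · intro u hu
      obtain ⟨v, hv, rfl⟩ := mem_map.1 (mem_filter.1 (mem_coe.1 hu)).1
      have := hact v hv
      refine mem_coe.2 (mem_range.2 ?_)
      simp only [Fin.valEmbedding_apply]
      omega
    · intro a ha b hb hab
      have ha' : a % 3 = 0 := (mem_filter.1 (mem_coe.1 ha)).2
      have hb' : b % 3 = 0 := (mem_filter.1 (mem_coe.1 hb)).2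
      simp only at hab
      omega
  omega

/-- the link bundles of a witness node -/
theorem spb_wit_lnk (𝒯 : Finset (Term τ)) (M : Finset (NW τ 𝒯)) (u : NW τ 𝒯) (t : 𝒯) (a : Bool) :
    spb_c M (fun u' (k : Kind τ) i => u.1 = u'.1 ∧ k = .lnk a ∧ i < 100 ∧
      ((t.1.kidT a = .nil ∧ u'.2 = .inl false) ∨
        ∃ t' : 𝒯, t'.1 ≠ .nil ∧ t.1.kidT a = t'.1 ∧ u'.2 = .inr t')) ≤ 100 := by
  refine le_trans (spb_le (range 100) (fun _ _ _ _ h => mem_range.2 h.2.2.1) ?_) (card_range _).le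
  rintro u' - u'' - k k' i ⟨h1, h2, -, h3⟩ ⟨h1', h2', -, h3'⟩
  refine ⟨Prod.ext (h1.symm.trans h1') ?_, h2.trans h2'.symm⟩
  rcases h3 with ⟨h3, h4⟩ | ⟨s, h3, h4, h5⟩ <;> rcases h3' with ⟨h3', h4'⟩ | ⟨s', h3', h4', h5'⟩
  · rw [h4, h4']
  · exact absurd (h4'.symm.trans h3) h3'
  · exact absurd (h4.symm.trans h3') h3
  · rw [h5, h5', Subtype.ext (h4.symm.trans h4')]

theorem spb_wit_out (𝒯 : Finset (Term τ)) (M : Finset (NW τ 𝒯)) (u : NW τ 𝒯) (t : 𝒯)
    (hu : u.2 = .inr t) (n : ℕ) (hn : n = 2300 ∨ ∀ u' ∈ M, u'.2 ≠ .inl false) :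
    spb_c M (fun u' k i => (witBP 𝒯).arc u k u' i) ≤ n + 200 := by
  have e1 := spb_wit_lnk 𝒯 M u t false
  have e2 := spb_wit_lnk 𝒯 M u t true
  have e3 : spb_c M (fun u' (k : Kind τ) i => u.1 = u'.1 ∧ u'.2 = .inl false ∧ i < 2300 ∧
      ∃ c l r, t.1 = .node c l r ∧ k = .tag c) ≤ n := by
    rcases hn with rfl | hn
    · refine le_trans (spb_le (range 2300) (fun _ _ _ _ h => mem_range.2 h.2.2.1) ?_)
        (card_range _).le
      rintro u' - u'' - k k' i ⟨h1, h2, -, c, l, r, h3, h4⟩ ⟨h1', h2', -, c', l', r', h3', h4'⟩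
      refine ⟨Prod.ext (h1.symm.trans h1') (h2.trans h2'.symm), ?_⟩
      rw [h3] at h3'
      rw [h4, h4', (Term.node.inj h3').1]
    · exact le_trans (spb_zero fun u' hu' _ _ h => hn u' hu' h.2.1) (Nat.zero_le _)
  have e4 := spb_or (M := M) (A := fun u' (k : Kind τ) i => ∃ a, u.1 = u'.1 ∧ k = .lnk a ∧
      i < 100 ∧ ((t.1.kidT a = .nil ∧ u'.2 = .inl false) ∨
        ∃ t' : 𝒯, t'.1 ≠ .nil ∧ t.1.kidT a = t'.1 ∧ u'.2 = .inr t')) _ _
    (fun _ _ _ _ h => Bool.exists_bool.1 h)
  have e5 := spb_or (M := M) (A := fun u' k i => (witBP 𝒯).arc u k u' i)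
    (fun u' (k : Kind τ) i => u.1 = u'.1 ∧ u'.2 = .inl false ∧ i < 2300 ∧
      ∃ c l r, t.1 = .node c l r ∧ k = .tag c)
    (fun u' (k : Kind τ) i => ∃ a, u.1 = u'.1 ∧ k = .lnk a ∧
      i < 100 ∧ ((t.1.kidT a = .nil ∧ u'.2 = .inl false) ∨
        ∃ t' : 𝒯, t'.1 ≠ .nil ∧ t.1.kidT a = t'.1 ∧ u'.2 = .inr t')) (by
      rintro u' - k i ⟨h1, ⟨h, -⟩ | ⟨s, c, l, r, h2, h3, h4⟩⟩
      · rw [hu] at h
        exact absurd h (by simp)
      · rw [hu] at h2
        obtain rfl : t = s := Sum.inr.inj h2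
        rcases h4 with ⟨h4, h5, h6⟩ | ⟨a, h4⟩
        · exact Or.inl ⟨h1, h5, h6, c, l, r, h3, h4⟩
        · exact Or.inr ⟨a, h1, h4⟩)
  omega

theorem na_wit (𝒯 : Finset (Term τ)) (M : Finset (NW τ 𝒯)) (hM : M.Nonempty) :
    (witBP 𝒯).na M + 1000 * (witBP 𝒯).nt M < 2500 * M.card := by
  classical
  have hnt : (witBP 𝒯).nt M = (M.filter fun u => u.2 = .inl false).card :=
    spb_nt _ _ _ fun _ => Iff.rfl
  have hl : ∀ u : NW τ 𝒯, ∀ b, u.2 = .inl b →
      spb_c M (fun u' k i => (witBP 𝒯).arc u k u' i) ≤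
        if u.2 = .inl false ∧ (u.1, Sum.inl true) ∈ M then 3999 else 0 := by
    intro u b hb
    split_ifs with hc
    · refine spb_one (u.1, Sum.inl true) .anc 3999 ?_
      rintro u' - k i ⟨h1, ⟨-, h2, h3, h4⟩ | ⟨s, c, l, r, h2, -⟩⟩
      · exact ⟨Prod.ext h1.symm h3, h2, h4⟩
      · rw [hb] at h2
        exact absurd h2 (by simp)
    · refine spb_zero ?_
      rintro u' hu' k i ⟨h1, ⟨h0, -, h3, -⟩ | ⟨s, c, l, r, h2, -⟩⟩
      · refine hc ⟨h0, ?_⟩
        rwa [h1, ← h3]
      · rw [hb] at h2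
        exact absurd h2 (by simp)
  rw [hnt, spb_na]
  have hpos := hM.card_pos
  by_cases h0 : ∀ u' ∈ M, u'.2 ≠ .inl false
  · have hb : ∀ u ∈ M, spb_c M (fun u' k i => (witBP 𝒯).arc u k u' i) ≤ 200 := by
      intro u hu
      rcases hu2 : u.2 with b | t
      · have := hl u b hu2
        rw [if_neg fun h => h0 u hu h.1] at this
        omega
      · exact spb_wit_out 𝒯 M u t hu2 0 (Or.inr h0)
    have h1 := sum_le_sum hb
    rw [sum_const, smul_eq_mul] at h1
    have h2 : (M.filter fun u => u.2 = .inl false).card = 0 := by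
      rw [card_eq_zero, filter_eq_empty_iff]
      exact fun u hu => h0 u hu
    omega
  · have hb : ∀ u ∈ M, spb_c M (fun u' k i => (witBP 𝒯).arc u k u' i) ≤
        (if u.2 = .inl false ∧ (u.1, Sum.inl true) ∈ M then 3999 else 0) +
          (if u.2.isRight = true then 2500 else 0) := by
      intro u hu
      rcases hu2 : u.2 with b | t
      · have := hl u b hu2
        rw [hu2] at this
        omega
      · have := spb_wit_out 𝒯 M u t hu2 2300 (Or.inl rfl)
        simp only [Sum.isRight_inr, if_true]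
        omega
    have h1 := sum_le_sum hb
    rw [sum_add_distrib, spb_sum_ite, spb_sum_ite] at h1
    have h2 : 0 < (M.filter fun u => u.2 = .inl false).card := by
      push Not at h0
      obtain ⟨u, hu, h⟩ := h0
      exact card_pos.2 ⟨u, mem_filter.2 ⟨hu, h⟩⟩
    have h3 : (M.filter fun u => u.2 = .inl false ∧ (u.1, Sum.inl true) ∈ M).card ≤
        (M.filter fun u => u.2 = .inl false).card :=
      card_le_card fun u hu => mem_filter.2 ⟨(mem_filter.1 hu).1, (mem_filter.1 hu).2.1⟩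
    have h4 : (M.filter fun u => u.2 = .inl false ∧ (u.1, Sum.inl true) ∈ M).card ≤
        (M.filter fun u => u.2 = .inl true).card := by
      refine card_le_card_of_injOn (fun u => (u.1, Sum.inl true)) ?_ ?_
      · intro u hu
        exact mem_coe.2 (mem_filter.2 ⟨(mem_filter.1 (mem_coe.1 hu)).2.2, rfl⟩)
      · intro a ha b hb hab
        have ha' := (mem_filter.1 (mem_coe.1 ha)).2.1
        have hb' := (mem_filter.1 (mem_coe.1 hb)).2.1
        exact Prod.ext (Prod.mk.inj hab).1 (ha'.trans hb'.symm)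
    have h5 : (M.filter fun u => u.2 = .inl false).card + (M.filter fun u => u.2 = .inl true).card +
        (M.filter fun u => u.2.isRight = true).card = M.card := by
      rw [card_filter, card_filter, card_filter, ← sum_add_distrib, ← sum_add_distrib,
        card_eq_sum_ones]
      refine sum_congr rfl fun u _ => ?_
      rcases u.2 with (_ | _) | t <;> simp
    omega

end Pool.Agent.HB

end FileSpB

section FileSpC

/-! The honest witness is strictly sparse over its roots. -/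

open Finset

namespace Pool.Agent.HB

variable {τ : Type} [Fintype τ] [Inhabited τ] {ι : Type} [Fintype ι] {F : ι → Clause τ}

omit [Inhabited τ] in
theorem spc_mm_pos : 0 < mm (Gm τ) := by
  have h1 := mm_ge (Γ := Gm τ)
  have h2 := sG_ge (Γ := Gm τ)
  omega

omit [Inhabited τ] in
theorem spc_AA_pos : 0 < AA (Gm τ) := by
  unfold AA
  omega

omit [Inhabited τ] in
theorem spc_na_empty {N : Type} (β : BP τ N) : β.na ∅ = 0 := by
  simp [BP.na]

omit [Fintype τ] [Inhabited τ] in
theorem spc_nt_empty {N : Type} (β : BP τ N) : β.nt ∅ = 0 := by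
  simp [BP.nt]

omit [Inhabited τ] in
theorem spc_met_act {N : Type} [Fintype N] (β : BP τ N) (S : Finset (Vx τ N)) :
    ∀ u ∈ β.met S, β.act u := by
  classical
  intro u hu
  unfold BP.met at hu
  exact (mem_filter.1 hu).2.1

omit [Inhabited τ] in
/-- the case in which the edge between the plain vertices is absent -/
theorem spc_gen {N : Type} [Fintype N] (β : BP τ N) (S : Finset (Vx τ N)) (hS : S.Nonempty)
    (hf : ¬ (β.fin ∧ pl S = 2))
    (h : (β.met S).Nonempty →
      2 * β.na (β.met S) + 1000 * pl S * β.nt (β.met S) < 5000 * (β.met S).card) :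
    mm (Gm τ) * ec β.graph S < AA (Gm τ) * S.card := by
  have hp := bp_pot β S
  rw [if_neg hf, add_zero] at hp
  have hm := spc_mm_pos (τ := τ)
  have hA := spc_AA_pos (τ := τ)
  rcases (β.met S).eq_empty_or_nonempty with he | hne
  · have h1 := met_empty β S he
    rw [he, spc_na_empty, spc_nt_empty, h1] at hp
    have h2 : 0 < AA (Gm τ) * S.card := Nat.mul_pos hA hS.card_pos
    simp only [card_empty, mul_zero, add_zero] at hp
    omega
  · have h1 := Nat.mul_lt_mul_of_pos_left (h hne) hm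
    have h2 : mm (Gm τ) * (5000 * (β.met S).card) = 5000 * mm (Gm τ) * (β.met S).card := by ring
    omega

theorem sparse_comp (hw : ∀ c, WF (F c)) (halt : τ) (Kn : ℕ) (c : Option (ι × Fin 300))
    (S : Finset (Vx τ (Fin Kn))) (hS : S.Nonempty) :
    mm (Gm τ) * ec ((compBP F halt c).comap (Fin.val : Fin Kn → ℕ)).graph S <
      AA (Gm τ) * S.card := by
  rcases c with _ | ⟨c, j⟩
  · show mm (Gm τ) * ec ((finBP halt).comap (Fin.val : Fin Kn → ℕ)).graph S < _
    by_cases h2 : pl S = 2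
    · have hp := bp_pot ((finBP halt).comap (Fin.val : Fin Kn → ℕ)) S
      have h1 := na_fin2 halt Kn _ (spc_met_act ((finBP halt).comap (Fin.val : Fin Kn → ℕ)) S)
      have h3 := rr_lt (Γ := Gm τ)
      rw [if_pos ⟨trivial, h2⟩, h2] at hp
      generalize ((finBP halt).comap (Fin.val : Fin Kn → ℕ)).na _ = a at hp h1
      generalize ((finBP halt).comap (Fin.val : Fin Kn → ℕ)).nt _ = t at hp h1
      generalize (((finBP halt).comap (Fin.val : Fin Kn → ℕ)).met S).card = n at hp h1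
      have h4 := Nat.mul_le_mul_left (mm (Gm τ)) h1
      nlinarith [Nat.zero_le (AA (Gm τ) * ((finBP halt).comap (Fin.val : Fin Kn → ℕ)).junk S)]
    · refine spc_gen _ S hS (fun h => h2 h.2) fun hne => ?_
      have h1 := na_fin1 halt Kn _ hne
      have h3 := pl_le S
      have h4 : pl S ≤ 1 := by omega
      have h5 := Nat.mul_le_mul_right (((finBP halt).comap (Fin.val : Fin Kn → ℕ)).nt
        (((finBP halt).comap (Fin.val : Fin Kn → ℕ)).met S)) (Nat.mul_le_mul_left 1000 h4)
      omega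
  · show mm (Gm τ) * ec ((clauseBP (F c) j).comap (Fin.val : Fin Kn → ℕ)).graph S < _
    refine spc_gen _ S hS (fun h => h.1) fun hne => ?_
    have h1 := na_clause (hw c) j Kn _ hne
      (spc_met_act ((clauseBP (F c) j).comap (Fin.val : Fin Kn → ℕ)) S)
    have h2 : ((clauseBP (F c) j).comap (Fin.val : Fin Kn → ℕ)).nt
        (((clauseBP (F c) j).comap (Fin.val : Fin Kn → ℕ)).met S) = 0 := by
      classical
      unfold BP.nt
      rw [card_eq_zero, filter_eq_empty_iff]
      exact fun _ _ h => h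
    rw [h2]
    omega

/-- a graph on a product all of whose edges lie in fibres -/
theorem spc_fib {C W : Type} [Fintype C] [Fintype W] (G : SimpleGraph (C × W))
    (Gc : C → SimpleGraph W) (h : ∀ a b, G.Adj a b → a.1 = b.1 ∧ (Gc a.1).Adj a.2 b.2) (m A : ℕ)
    (hc : ∀ c, ∀ S : Finset W, S.Nonempty → m * ec (Gc c) S < A * S.card)
    (S : Finset (C × W)) (hS : S.Nonempty) : m * ec G S < A * S.card := by
  classical
  have e1 : ec G S ≤ ∑ c, ec (Gc c) (univ.filter fun v => (c, v) ∈ S) := by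
    unfold ec cross
    rw [card_eq_sum_card_fiberwise (f := fun p : (C × W) × (C × W) => p.1.1) (t := univ)
      (fun _ _ => mem_coe.2 (mem_univ _))]
    refine sum_le_sum fun c _ => card_le_card_of_injOn (fun p => (p.1.2, p.2.2)) ?_ ?_
    · rintro ⟨⟨c1, v1⟩, ⟨c2, v2⟩⟩ hp
      simp only [coe_filter, mem_filter, mem_product, Set.mem_ofPred_eq, mem_univ, true_and] at hp ⊢
      obtain ⟨⟨⟨h1, h2⟩, h3⟩, rfl⟩ := hp
      obtain ⟨h4, h5⟩ := h _ _ h3
      simp only at h4 h5
      subst h4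
      exact ⟨⟨h1, h2⟩, h5⟩
    · rintro ⟨⟨c1, v1⟩, ⟨c2, v2⟩⟩ hp ⟨⟨c3, v3⟩, ⟨c4, v4⟩⟩ hq hpq
      simp only [coe_filter, mem_filter, mem_product, Set.mem_ofPred_eq] at hp hq
      have h1 := (h _ _ hp.1.2).1
      have h2 := (h _ _ hq.1.2).1
      have h3 := hp.2
      have h4 := hq.2
      simp only [Prod.mk.injEq] at h1 h2 h3 h4 hpq ⊢
      exact ⟨⟨h3.trans h4.symm, hpq.1⟩, h1.symm.trans (h3.trans (h4.symm.trans h2)), hpq.2⟩
  have e2 : ∑ c, (univ.filter fun v => (c, v) ∈ S).card ≤ S.card := by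
    rw [card_eq_sum_card_fiberwise (f := fun p : C × W => p.1) (s := S) (t := univ)
      (fun _ _ => mem_coe.2 (mem_univ _))]
    refine sum_le_sum fun c _ => card_le_card_of_injOn (fun v => (c, v)) ?_ ?_
    · intro v hv
      exact mem_coe.2 (mem_filter.2 ⟨(mem_filter.1 (mem_coe.1 hv)).2, rfl⟩)
    · intro v _ w _ hvw
      exact (Prod.mk.inj hvw).2
  refine lt_of_le_of_lt (Nat.mul_le_mul_left m e1) (lt_of_lt_of_le ?_ (Nat.mul_le_mul_left A e2))
  rw [mul_sum, mul_sum]
  refine sum_lt_sum (fun c _ => ?_) ?_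
  · rcases (univ.filter fun v => (c, v) ∈ S).eq_empty_or_nonempty with he | hne
    · rw [he, ec, cross_empty]
      simp
    · exact (hc c _ hne).le
  · obtain ⟨⟨c, v⟩, hv⟩ := hS
    exact ⟨c, mem_univ _, hc c _ ⟨v, mem_filter.2 ⟨mem_univ _, hv⟩⟩⟩

theorem sparse_H (hw : ∀ c, WF (F c)) (halt : τ) (Kn : ℕ) (S : Finset (VH τ ι Kn))
    (hS : S.Nonempty) : mm (Gm τ) * ec (HG F halt Kn) S < AA (Gm τ) * S.card := by
  refine spc_fib (HG F halt Kn) (fun c => ((compBP F halt c).comap (Fin.val : Fin Kn → ℕ)).graph)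
    ?_ _ _ (fun c S hS => sparse_comp hw halt Kn c S hS) S hS
  rintro ⟨c, v⟩ ⟨c', v'⟩ h
  rw [HG, SimpleGraph.fromRel_adj] at h
  obtain ⟨hne, h⟩ := h
  have hc : c = c' := h.elim (fun h => h.1) fun h => h.1.symm
  subst hc
  refine ⟨rfl, ?_⟩
  rw [BP.graph, SimpleGraph.fromRel_adj]
  exact ⟨fun hv => hne (congrArg (Prod.mk c) hv), h.imp (fun h => h.2) fun h => h.2⟩

theorem spc_sum {V W : Type} (G : SimpleGraph V) (H : SimpleGraph W) (X : Finset (V ⊕ W)) :
    ec (G ⊕g H) X ≤ ec G X.toLeft + ec H X.toRight := by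
  classical
  unfold ec cross
  have e : ((X ×ˢ X).filter fun p => (G ⊕g H).Adj p.1 p.2) ⊆
      ((X.toLeft ×ˢ X.toLeft).filter fun p => G.Adj p.1 p.2).image
        (fun p => ((Sum.inl p.1 : V ⊕ W), (Sum.inl p.2 : V ⊕ W))) ∪
      ((X.toRight ×ˢ X.toRight).filter fun p => H.Adj p.1 p.2).image
        (fun p => ((Sum.inr p.1 : V ⊕ W), (Sum.inr p.2 : V ⊕ W))) := by
    rintro ⟨a | a, b | b⟩ hp
    · simp only [mem_filter, mem_product, SimpleGraph.sum_adj] at hp
      refine mem_union_left _ (mem_image.2 ⟨(a, b), ?_, rfl⟩)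
      simpa using hp
    · simp at hp
    · simp at hp
    · simp only [mem_filter, mem_product, SimpleGraph.sum_adj] at hp
      refine mem_union_right _ (mem_image.2 ⟨(a, b), ?_, rfl⟩)
      simpa using hp
  exact (card_le_card e).trans ((card_union_le _ _).trans
    (Nat.add_le_add card_image_le card_image_le))

theorem sparse_W (hw : ∀ c, WF (F c)) (halt : τ) (Kn : ℕ) (𝒯 : Finset (Term τ))
    [DecidableEq (Vx τ (NW τ 𝒯) ⊕ VH τ ι Kn)]
    (S : Finset (Vx τ (NW τ 𝒯) ⊕ VH τ ι Kn)) (hS : S.Nonempty)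
    (hd : Disjoint S {.inl (.inl false), .inl (.inl true)}) :
    mm (Gm τ) * ec (WG F halt Kn 𝒯) (S ∪ {.inl (.inl false), .inl (.inl true)}) <
      AA (Gm τ) * S.card := by
  set X : Finset (Vx τ (NW τ 𝒯) ⊕ VH τ ι Kn) := S ∪ {.inl (.inl false), .inl (.inl true)} with hX
  have hXc : X.card = S.card + 2 := by
    rw [hX, card_union_of_disjoint hd, card_pair (by simp)]
  have hsum := card_toLeft_add_card_toRight (u := X)
  have e1 := Nat.mul_le_mul_left (mm (Gm τ)) (spc_sum (witBP 𝒯).graph (HG F halt Kn) X)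
  rw [mul_add] at e1
  have hpl : pl X.toLeft = 2 := by
    unfold pl
    refine (congrArg card (?_ : _ = (univ : Finset Bool))).trans rfl
    ext s
    cases s <;> simp [hX]
  have hj : (witBP 𝒯).junk X.toLeft = 0 := by
    classical
    unfold BP.junk
    rw [card_eq_zero, filter_eq_empty_iff]
    rintro (v | v) - h <;> exact h trivial
  have hp := bp_pot (witBP 𝒯) X.toLeft
  rw [if_neg fun h => h.1, hpl, hj, add_zero, add_zero] at hp
  have hm := spc_mm_pos (τ := τ)
  have hA : AA (Gm τ) * X.toLeft.card + AA (Gm τ) * X.toRight.card =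
      AA (Gm τ) * S.card + AA (Gm τ) * 2 := by
    rw [← mul_add, ← mul_add, hsum, hXc]
  show mm (Gm τ) * ec ((witBP 𝒯).graph ⊕g HG F halt Kn) X < _
  rcases ((witBP 𝒯).met X.toLeft).eq_empty_or_nonempty with he | hne
  · have h1 := met_empty _ _ he
    rw [hpl, hj] at h1
    rw [he, spc_na_empty, spc_nt_empty] at hp
    have h2 : X.toRight.Nonempty := by
      have := hS.card_pos
      exact card_pos.1 (by omega)
    have h3 := sparse_H hw halt Kn _ h2
    simp only [card_empty, mul_zero, add_zero] at hp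
    omega
  · have h1 := na_wit 𝒯 _ hne
    have h2 : mm (Gm τ) * ec (HG F halt Kn) X.toRight ≤ AA (Gm τ) * X.toRight.card := by
      rcases X.toRight.eq_empty_or_nonempty with he | hn
      · rw [he, ec, cross_empty]
        simp
      · exact (sparse_H hw halt Kn _ hn).le
    have h3 : 2 * (witBP 𝒯).na ((witBP 𝒯).met X.toLeft) +
        1000 * 2 * (witBP 𝒯).nt ((witBP 𝒯).met X.toLeft) <
          5000 * ((witBP 𝒯).met X.toLeft).card := by omega
    have h4 := Nat.mul_lt_mul_of_pos_left h3 hm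
    have h5 : mm (Gm τ) * (5000 * ((witBP 𝒯).met X.toLeft).card) =
        5000 * mm (Gm τ) * ((witBP 𝒯).met X.toLeft).card := by ring
    omega

omit [Fintype ι] in
theorem roots_not_adj (halt : τ) (Kn : ℕ) (𝒯 : Finset (Term τ)) :
    ¬ (WG F halt Kn 𝒯).Adj (.inl (.inl false)) (.inl (.inl true)) := by
  intro h
  have h' : (witBP 𝒯).graph.Adj (.inl false) (.inl true) := h
  rw [BP.graph, SimpleGraph.fromRel_adj] at h'
  exact h'.2.elim (fun h => h.1) fun h => h.1

theorem two_le_edges (halt : τ) {Kn : ℕ} (hr : 3 * rr (Gm τ) ≤ Kn) :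
    2 ≤ (HG F halt Kn).edgeSet.ncard := by
  have h1 := rr_pos (Γ := Gm τ)
  have h0 : 0 < Kn := by omega
  let a : VH τ ι Kn := (none, .inl false)
  let b : VH τ ι Kn := (none, .inl true)
  let c : VH τ ι Kn := (none, .inr (⟨0, h0⟩, .inl ((.att false, false), 0)))
  have hab : (HG F halt Kn).Adj a b := by
    rw [HG, SimpleGraph.fromRel_adj]
    exact ⟨by simp [a, b], Or.inl ⟨rfl, trivial, rfl, rfl⟩⟩
  have hac : (HG F halt Kn).Adj a c := by
    rw [HG, SimpleGraph.fromRel_adj]
    refine ⟨by simp [a, c], Or.inl ⟨rfl, ?_, rfl, 0, by simp, rfl⟩⟩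
    show 0 < 3 * rr (Gm τ)
    omega
  have hne : s(a, b) ≠ s(a, c) := by
    simp [a, b, c]
  rw [← Set.ncard_pair hne]
  refine Set.ncard_le_ncard ?_ (Set.toFinite _)
  rintro e (rfl | rfl)
  exacts [hab, hac]

end Pool.Agent.HB

end FileSpC
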