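import Pool.Agent.P.HB.G2
import Pool.Agent.Lib.PrimrecProp.Basic

section FileMachD

/-! The clauses that simulate a Turing machine. -/

open Turing

namespace Pool.Agent.HB

inductive Tg (Q A : Type) : Type
  | cfg (q : Q) (a : A)
  | cell (σ : Bool) (b : A)
  | bot (σ : Bool)
  | halt

instance {Q A : Type} [Finite Q] [Finite A] : Finite (Tg Q A) := by
  refine Finite.of_surjective (α := (Q × A) ⊕ (Bool × A) ⊕ Option Bool) (fun x => match x with
    | .inl c => .cfg c.1 c.2
    | .inr (.inl c) => .cell c.1 c.2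
    | .inr (.inr (some σ)) => .bot σ
    | .inr (.inr none) => .halt) ?_
  rintro (⟨q, a⟩ | ⟨σ, b⟩ | σ | _)
  exacts [⟨.inl (q, a), rfl⟩, ⟨.inr (.inl (σ, b)), rfl⟩, ⟨.inr (.inr (some σ)), rfl⟩,
    ⟨.inr (.inr none), rfl⟩]

instance {Q A : Type} : Inhabited (Tg Q A) := ⟨.halt⟩

variable {Q A : Type}

/-- the pair with `i` on side `σ` (`false` = left) and `j` on the other side -/
def sd (σ : Bool) (i j : ℕ) : ℕ × ℕ := cond σ (j, i) (i, j)

def dirOf (σ : Bool) : Dir := cond σ .right .left

def writeC (q q' : Q) (a b : A) (t₁ t₂ : Tg Q A) : Clause (Tg Q A) :=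
  [(.cfg q' b, some (2, 3), false), (.cfg q a, some (2, 3), true), (t₁, none, true),
    (t₂, none, true)]

/-- move towards side `σ`, where the top cell holds `b` -/
def popC (σ : Bool) (q q' : Q) (a b : A) (t₁ t₂ : Tg Q A) : Clause (Tg Q A) :=
  [(.cfg q' b, some (sd σ 5 2), false), (.cfg q a, some (sd σ 3 4), true),
    (.cell (!σ) a, some (4, 0), false), (.cell σ b, some (5, 0), false), (t₁, none, true),
    (t₂, none, true)]

/-- move towards side `σ`, which is empty -/
def botC [Inhabited A] (σ : Bool) (q q' : Q) (a : A) (t₁ : Tg Q A) : Clause (Tg Q A) :=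
  [(.cfg q' default, some (sd σ 3 2), false), (.cfg q a, some (sd σ 3 4), true),
    (.cell (!σ) a, some (4, 0), false), (.bot σ, none, true), (t₁, none, true)]

def cellC (σ : Bool) (b : A) (t₁ : Tg Q A) : Clause (Tg Q A) :=
  [(.cell σ b, some (1, 0), false), (t₁, none, true)]

def endC (σ : Bool) : Clause (Tg Q A) := [(.bot σ, some (0, 0), false)]

def haltC (q : Q) (a : A) : Clause (Tg Q A) :=
  [(.halt, some (0, 0), false), (.cfg q a, none, true)]

/-- the start configuration; node `i + 2` is the cell number `i` of the input -/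
def initC (q : Q) (a : A) (R : List A) : Clause (Tg Q A) :=
  (.cfg q a, some (1, 2), false) :: (.bot false, some (0, 0), false) ::
    (R.zipIdx.map (fun x => (Tg.cell true x.1, some (x.2 + 3, 0), false)) ++
      [(.bot true, some (0, 0), false)])

variable {Λ : Type} [Inhabited A] [Inhabited Λ]

abbrev Ix (S : Finset Λ) (A : Type) : Type :=
  Option (Fin 6 × Bool × S × S × A × A × Tg S A × Tg S A)

open Classical in
/-- all clauses -/
noncomputable def machF (M : TM0.Machine A Λ) (S : Finset Λ) (q₀ : S) (a₀ : A) (R : List A) :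
    Ix S A → Clause (Tg S A)
  | none => initC q₀ a₀ R
  | some (i, σ, q, q', a, b, t₁, t₂) =>
    if i = 0 ∧ M q.1 a = some (q'.1, .write b) then writeC q q' a b t₁ t₂
    else if i = 1 ∧ M q.1 a = some (q'.1, .move (dirOf σ)) then popC σ q q' a b t₁ t₂
    else if i = 2 ∧ M q.1 a = some (q'.1, .move (dirOf σ)) then botC σ q q' a t₁
    else if i = 3 then cellC σ b t₁
    else if i = 4 ∧ M q.1 a = none then haltC q a
    else endC σ

end Pool.Agent.HB

end FileMachD

section FileMachA

/-! The clauses are well formed, computable and sound. -/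

open Turing

namespace Pool.Agent.HB

section wf
variable {Q A : Type}

theorem ma_few {τ : Type} [Inhabited τ] (cl : Clause τ) (i j k : ℕ)
    (h : ∀ n < cl.length, cl.ok n = true → n = i ∨ n = j ∨ n = k) :
    ((Finset.range cl.length).filter fun i => cl.ok i = true).card ≤ 3 := by
  refine le_trans (Finset.card_le_card (t := {i, j, k}) fun n hn => ?_) Finset.card_le_three
  obtain ⟨h1, h2⟩ := Finset.mem_filter.1 hn
  simpa using h n (Finset.mem_range.1 h1) h2

theorem ma_writeC (q q' : Q) (a b : A) (t₁ t₂ : Tg Q A) : WF (writeC q q' a b t₁ t₂) := by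
  refine ⟨⟨fun i hi => ?_, fun i hi p hp x => ?_⟩, (by show 0 < 4; omega), rfl,
    fun i hi h0 hok => ?_, ma_few _ 1 2 3 fun i hi hok => ?_⟩
  all_goals have hi' : i < 4 := hi
  · interval_cases i <;> intro h <;> first | rfl | cases h
  · interval_cases i <;> cases hp <;> cases x <;> simp [sel, writeC]
  · interval_cases i <;> cases hok
  · interval_cases i <;> first | omega | cases hok

theorem ma_popC (σ : Bool) (q q' : Q) (a b : A) (t₁ t₂ : Tg Q A) :
    WF (popC σ q q' a b t₁ t₂) := by
  refine ⟨⟨fun i hi => ?_, fun i hi p hp x => ?_⟩, (by show 0 < 6; omega), rfl,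
    fun i hi h0 hok => ?_, ma_few _ 1 4 5 fun i hi hok => ?_⟩
  all_goals have hi' : i < 6 := hi
  · interval_cases i <;> intro h <;> first | rfl | cases h
  · interval_cases i <;> cases hp <;> cases x <;> cases σ <;> simp [sel, sd, popC]
  · interval_cases i
    · cases hok
    · exact ⟨0, by omega, _, !σ, rfl, by cases σ <;> rfl⟩
    · exact ⟨1, by omega, _, σ, rfl, by cases σ <;> rfl⟩
    · cases hok
    · cases hok
  · interval_cases i <;> first | omega | cases hok

theorem ma_botC [Inhabited A] (σ : Bool) (q q' : Q) (a : A) (t₁ : Tg Q A) :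
    WF (botC σ q q' a t₁) := by
  refine ⟨⟨fun i hi => ?_, fun i hi p hp x => ?_⟩, (by show 0 < 5; omega), rfl,
    fun i hi h0 hok => ?_, ma_few _ 1 3 4 fun i hi hok => ?_⟩
  all_goals have hi' : i < 5 := hi
  · interval_cases i <;> intro h <;> first | rfl | cases h
  · interval_cases i <;> cases hp <;> cases x <;> cases σ <;> simp [sel, sd, botC]
  · interval_cases i
    · cases hok
    · exact ⟨0, by omega, _, !σ, rfl, by cases σ <;> rfl⟩
    · cases hok
    · cases hok
  · interval_cases i <;> first | omega | cases hok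

theorem ma_cellC (σ : Bool) (b : A) (t₁ : Tg Q A) : WF (cellC σ b t₁) := by
  refine ⟨⟨fun i hi => ?_, fun i hi p hp x => ?_⟩, (by show 0 < 2; omega), rfl,
    fun i hi h0 hok => ?_, ma_few _ 1 1 1 fun i hi hok => ?_⟩
  all_goals have hi' : i < 2 := hi
  · interval_cases i <;> intro h <;> first | rfl | cases h
  · interval_cases i <;> cases hp <;> cases x <;> simp [sel, cellC]
  · interval_cases i <;> cases hok
  · interval_cases i <;> first | omega | cases hok

theorem ma_endC (σ : Bool) : WF (endC σ : Clause (Tg Q A)) := by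
  refine ⟨⟨fun i hi => ?_, fun i hi p hp x => ?_⟩, (by show 0 < 1; omega), rfl,
    fun i hi h0 hok => ?_, ma_few _ 0 0 0 fun i hi hok => ?_⟩
  all_goals have hi' : i < 1 := hi
  · interval_cases i; intro h; cases h
  · interval_cases i; cases hp; cases x <;> simp [sel]
  · omega
  · omega

theorem ma_haltC (q : Q) (a : A) : WF (haltC q a) := by
  refine ⟨⟨fun i hi => ?_, fun i hi p hp x => ?_⟩, (by show 0 < 2; omega), rfl,
    fun i hi h0 hok => ?_, ma_few _ 1 1 1 fun i hi hok => ?_⟩
  all_goals have hi' : i < 2 := hi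
  · interval_cases i <;> intro h <;> first | rfl | cases h
  · interval_cases i <;> cases hp <;> cases x <;> simp [sel]
  · interval_cases i <;> cases hok
  · interval_cases i <;> first | omega | cases hok

theorem ma_init_length (q : Q) (a : A) (R : List A) : (initC q a R).length = R.length + 3 := by
  simp [initC]

theorem ma_init_cell (q : Q) (a : A) (R : List A) {i : ℕ} (hi : i < R.length) :
    (initC q a R).getD (i + 2) default = (.cell true R[i], some (i + 3, 0), false) := by
  simp [initC, List.getElem?_append_left, hi]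

theorem ma_init_last (q : Q) (a : A) (R : List A) :
    (initC q a R).getD (R.length + 2) default = (.bot true, some (0, 0), false) := by
  simp [initC]

theorem ma_init_kid (q : Q) (a : A) (R : List A) {i : ℕ} (hi : i < R.length + 3) :
    (initC q a R).ok i = false ∧ (initC q a R).kid i =
      some (if i = 0 then (1, 2) else if i = 1 ∨ i = R.length + 2 then (0, 0) else (i + 1, 0)) := by
  match i, hi with
  | 0, _ => exact ⟨rfl, rfl⟩
  | 1, _ => exact ⟨rfl, rfl⟩
  | i + 2, hi =>
    by_cases h : i < R.length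
    · rw [Clause.ok, Clause.kid, ma_init_cell _ _ _ h, if_neg (by omega), if_neg (by omega)]
      exact ⟨rfl, rfl⟩
    · obtain rfl : i = R.length := by omega
      rw [Clause.ok, Clause.kid, ma_init_last, if_neg (by omega), if_pos (Or.inr rfl)]
      exact ⟨rfl, rfl⟩

theorem ma_initC (q : Q) (a : A) (R : List A) : WF (initC q a R) := by
  refine ⟨⟨fun i hi h => ?_, fun i hi p hp x => ?_⟩, (by rw [ma_init_length]; omega), rfl,
    fun i hi h0 hok => ?_, ma_few _ 0 0 0 fun i hi hok => ?_⟩
  all_goals rw [ma_init_length] at hi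
  · rw [(ma_init_kid q a R hi).2] at h
    cases h
  · rw [(ma_init_kid q a R hi).2] at hp
    rw [ma_init_length]
    obtain rfl := Option.some.inj hp
    split_ifs with h1 h2 <;> cases x <;> simp [sel] <;> omega
  · by_cases h1 : i = 1
    · exact ⟨0, by omega, _, false, rfl, h1.symm⟩
    by_cases h2 : i = 2
    · exact ⟨0, by omega, _, true, rfl, h2.symm⟩
    refine ⟨i - 1, by omega, _, false, (ma_init_kid q a R (by omega)).2, ?_⟩
    rw [if_neg (by omega), if_neg (by omega)]
    show i - 1 + 1 = i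
    omega
  · rw [(ma_init_kid q a R hi).1] at hok
    cases hok

/-- the stack stored in a term -/
noncomputable def stk (t : Term (Tg Q A)) : List A :=
  Term.rec (motive := fun _ => List A) []
    (fun c _ _ sl _ => Tg.rec (motive := fun _ => List A) (fun _ _ => []) (fun _ b => b :: sl)
      (fun _ => []) [] c) t

theorem stk_cell (σ : Bool) (b : A) (l r : Term (Tg Q A)) :
    stk (.node (.cell σ b) l r) = b :: stk l := rfl

theorem stk_bot (σ : Bool) (l r : Term (Tg Q A)) : stk (.node (.bot σ) l r) = [] := rfl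

theorem ma_fit {τ : Type} [Inhabited τ] {cl : Clause τ} {val : ℕ → Term τ} (h : Fit cl val)
    (i : ℕ) (hi : i < cl.length) (p : ℕ × ℕ) (hp : cl.kid i = some p) :
    val i = .node (cl.tg i) (nodeOf .nil val p.1) (nodeOf .nil val p.2) := by
  obtain ⟨l, r, h1, h2⟩ := h i hi
  obtain ⟨rfl, rfl⟩ := h2 p hp
  exact h1

theorem stk_init (q : Q) (a : A) (R : List A) {val : ℕ → Term (Tg Q A)}
    (h : Fit (initC q a R) val) (k : ℕ) :
    ∀ i, i + k = R.length → stk (val (i + 2)) = R.drop i := by
  induction k with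
  | zero =>
    intro i hi
    obtain rfl : i = R.length := by omega
    obtain ⟨l, r, h1, -⟩ := h (R.length + 2) (by rw [ma_init_length]; omega)
    rw [h1, Clause.tg, ma_init_last, List.drop_length]
    rfl
  | succ k ih =>
    intro i hi
    have h0 : i < R.length := by omega
    have h1 := ma_fit h (i + 2) (by rw [ma_init_length]; omega) (i + 3, 0)
      (by rw [Clause.kid, ma_init_cell _ _ _ h0])
    rw [h1, Clause.tg, ma_init_cell _ _ _ h0, List.drop_eq_getElem_cons h0, ← ih (i + 1) (by omega)]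
    rfl

end wf

variable {A Λ : Type} [Inhabited A] [Inhabited Λ] (M : TM0.Machine A Λ) (S : Finset Λ) (q₀ : S)
  (a₀ : A)

theorem machF_wf (R : List A) (c : Ix S A) : WF (machF M S q₀ a₀ R c) := by
  rcases c with _ | ⟨i, σ, q, q', a, b, t₁, t₂⟩
  · exact ma_initC _ _ _
  · rw [machF]
    split_ifs
    exacts [ma_writeC _ _ _ _ _ _, ma_popC _ _ _ _ _ _ _, ma_botC _ _ _ _ _, ma_cellC _ _ _,
      ma_haltC _ _, ma_endC _]

theorem ma_prim {B : Type} [Primcodable B] {L : ℕ → List B} (hL : Primrec L) (d : B)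
    (x y z : B × Option (ℕ × ℕ) × Bool) :
    Primrec fun n => x :: y :: ((List.range (L n).length).map (fun i =>
      (((L n).getD i d, some (i + 3, 0), false) : B × Option (ℕ × ℕ) × Bool)) ++ [z]) := by
  fun_prop

theorem machF_primrec [Finite A] (R : ℕ → List A)
    (hR : ∀ (B : Type) [Primcodable B] (χ : A → B), Primrec fun n => (R n).map χ) (c : Ix S A)
    (B : Type) [Primcodable B] (χ : Tg S A → B) :
    Primrec fun n => (machF M S q₀ a₀ (R n) c).map fun x => (χ x.1, x.2) := by
  rcases c with _ | ⟨i, σ, q, q', a, b, t₁, t₂⟩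
  · have hL : Primrec fun n => (R n).map fun b => χ (.cell true b) := hR B _
    have key := ma_prim hL (χ .halt) (χ (.cfg q₀ a₀), some (1, 2), false)
      (χ (.bot false), some (0, 0), false) (χ (.bot true), some (0, 0), false)
    refine key.of_eq fun n => ?_
    simp only [machF, initC, List.map_cons, List.map_append, List.map_map, List.map_nil]
    congr 3
    refine List.ext_getElem (by simp) fun i h1 h2 => ?_
    have h3 : i < (R n).length := by simpa using h1
    simp [h3]
  · exact (Primrec.const (α := ℕ)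
      ((machF M S q₀ a₀ [] (some (i, σ, q, q', a, b, t₁, t₂))).map fun x => (χ x.1, x.2))).of_eq
      fun n => rfl

/-- the machine does not halt from the configuration -/
def Runs (q : Λ) (a : A) (l r : List A) : Prop :=
  ¬ (StateTransition.eval (TM0.step M) ⟨q, ⟨a, ListBlank.mk l, ListBlank.mk r⟩⟩).Dom

theorem Runs.step {q q' : Λ} {a a' : A} {l r l' r' : List A} (h : Runs M q a l r)
    (hs : TM0.step M ⟨q, ⟨a, ListBlank.mk l, ListBlank.mk r⟩⟩ =
      some ⟨q', ⟨a', ListBlank.mk l', ListBlank.mk r'⟩⟩) : Runs M q' a' l' r' := by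
  unfold Runs at h ⊢
  rwa [← StateTransition.reaches_eval (Relation.ReflTransGen.single hs)]

theorem Runs.ne {q : Λ} {a : A} {l r : List A} (h : Runs M q a l r) : M q a ≠ none := by
  intro h0
  refine h (Part.dom_iff_mem.2 ⟨_, StateTransition.mem_eval.2 ⟨Relation.ReflTransGen.refl, ?_⟩⟩)
  show (M q a).map _ = none
  rw [h0]
  rfl

/-- the sound predicate -/
def GoodT (t : Term (Tg S A)) : Prop :=
  (∀ (q : S) a l r, t = .node (.cfg q a) l r → Runs M q.1 a (stk l) (stk r)) ∧
    ∀ l r, t ≠ .node .halt l r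

variable {M S}

theorem goodT_cfg {q : S} {a : A} {l r : Term (Tg S A)} :
    GoodT M S (.node (.cfg q a) l r) ↔ Runs M q.1 a (stk l) (stk r) := by
  refine ⟨fun h => h.1 q a l r rfl, fun h => ⟨fun q' a' l' r' e => ?_, fun l' r' e => ?_⟩⟩
  · cases e
    exact h
  · cases e

theorem goodT_cell {σ : Bool} {b : A} {l r : Term (Tg S A)} :
    GoodT M S (.node (.cell σ b) l r) :=
  ⟨fun _ _ _ _ e => (by cases e), fun _ _ e => (by cases e)⟩

theorem goodT_bot {σ : Bool} {l r : Term (Tg S A)} : GoodT M S (.node (.bot σ) l r) :=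
  ⟨fun _ _ _ _ e => (by cases e), fun _ _ e => (by cases e)⟩

theorem sound_write {q q' : S} {a b : A} (t₁ t₂ : Tg S A)
    (hM : M q.1 a = some (q'.1, .write b)) : Sound (GoodT M S) (writeC q q' a b t₁ t₂) := by
  intro val hf hg
  have h0 := ma_fit hf 0 (by show 0 < 4; omega) _ rfl
  have h1 := ma_fit hf 1 (by show 1 < 4; omega) _ rfl
  have g1 := hg 1 (by show 1 < 4; omega) rfl
  rw [h1] at g1
  rw [h0]
  refine goodT_cfg.2 ((goodT_cfg.1 g1).step M ?_)
  show (M q.1 a).map _ = _
  rw [hM]
  rfl

theorem sound_pop {σ : Bool} {q q' : S} {a : A} (b : A) (t₁ t₂ : Tg S A)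
    (hM : M q.1 a = some (q'.1, .move (dirOf σ))) :
    Sound (GoodT M S) (popC σ q q' a b t₁ t₂) := by
  intro val hf hg
  have h0 := ma_fit hf 0 (by show 0 < 6; omega) _ rfl
  have h1 := ma_fit hf 1 (by show 1 < 6; omega) _ rfl
  have h2 : stk (val 2) = a :: stk (val 4) :=
    congrArg stk (ma_fit hf 2 (by show 2 < 6; omega) _ rfl)
  have h3 : stk (val 3) = b :: stk (val 5) :=
    congrArg stk (ma_fit hf 3 (by show 3 < 6; omega) _ rfl)
  have g1 := hg 1 (by show 1 < 6; omega) rfl
  rw [h1] at g1
  rw [h0]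
  cases σ
  · have g2 : Runs M q.1 a (stk (val 3)) (stk (val 4)) := goodT_cfg.1 g1
    refine goodT_cfg.2 (show Runs M q'.1 b (stk (val 5)) (stk (val 2)) from ?_)
    rw [h3] at g2
    rw [h2]
    refine g2.step M ?_
    show (M q.1 a).map _ = _
    rw [hM]
    rfl
  · have g2 : Runs M q.1 a (stk (val 4)) (stk (val 3)) := goodT_cfg.1 g1
    refine goodT_cfg.2 (show Runs M q'.1 b (stk (val 2)) (stk (val 5)) from ?_)
    rw [h3] at g2
    rw [h2]
    refine g2.step M ?_
    show (M q.1 a).map _ = _
    rw [hM]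
    rfl

theorem sound_bot {σ : Bool} {q q' : S} {a : A} (t₁ : Tg S A)
    (hM : M q.1 a = some (q'.1, .move (dirOf σ))) : Sound (GoodT M S) (botC σ q q' a t₁) := by
  intro val hf hg
  have h0 := ma_fit hf 0 (by show 0 < 5; omega) _ rfl
  have h1 := ma_fit hf 1 (by show 1 < 5; omega) _ rfl
  have h2 : stk (val 2) = a :: stk (val 4) :=
    congrArg stk (ma_fit hf 2 (by show 2 < 5; omega) _ rfl)
  have h3 : stk (val 3) = [] := by
    obtain ⟨l, r, h, -⟩ := hf 3 (by show 3 < 5; omega)
    exact congrArg stk h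
  have g1 := hg 1 (by show 1 < 5; omega) rfl
  rw [h1] at g1
  rw [h0]
  cases σ
  · have g2 : Runs M q.1 a (stk (val 3)) (stk (val 4)) := goodT_cfg.1 g1
    refine goodT_cfg.2 (show Runs M q'.1 default (stk (val 3)) (stk (val 2)) from ?_)
    rw [h3] at g2
    rw [h2, h3]
    refine g2.step M ?_
    show (M q.1 a).map _ = _
    rw [hM]
    rfl
  · have g2 : Runs M q.1 a (stk (val 4)) (stk (val 3)) := goodT_cfg.1 g1
    refine goodT_cfg.2 (show Runs M q'.1 default (stk (val 2)) (stk (val 3)) from ?_)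
    rw [h3] at g2
    rw [h2, h3]
    refine g2.step M ?_
    show (M q.1 a).map _ = _
    rw [hM]
    rfl

variable (M S)

theorem machF_sound (hq : (q₀ : Λ) = default) (R : List A)
    (h : ¬ (TM0.eval M (a₀ :: R)).Dom) : ∃ Good : Term (Tg S A) → Prop,
      (∀ c, Sound Good (machF M S q₀ a₀ R c)) ∧ ∀ l r, ¬ Good (.node .halt l r) := by
  refine ⟨GoodT M S, fun c => ?_, fun l r hg => hg.2 l r rfl⟩
  rcases c with _ | ⟨i, σ, q, q', a, b, t₁, t₂⟩
  · intro val hf _
    have hf' : Fit (initC q₀ a₀ R) val := hf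
    have h0 := ma_fit hf' 0 (by rw [ma_init_length]; omega) _ rfl
    have h1 : stk (val 1) = [] :=
      congrArg stk (ma_fit hf' 1 (by rw [ma_init_length]; omega) _ rfl)
    have h2 : stk (val 2) = R := stk_init q₀ a₀ R hf' R.length 0 (by omega)
    rw [h0]
    refine goodT_cfg.2 (show Runs M q₀.1 a₀ (stk (val 1)) (stk (val 2)) from ?_)
    rw [h1, h2, hq]
    exact h
  · rw [machF]
    split_ifs with h0 h1 h2 h3 h4
    · exact sound_write _ _ h0.2
    · exact sound_pop _ _ _ h1.2
    · exact sound_bot _ h2.2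
    · intro val hf _
      rw [ma_fit hf 0 (by show 0 < 2; omega) _ rfl]
      exact goodT_cell
    · intro val hf hg
      obtain ⟨l, r, h1, -⟩ := hf 1 (by show 1 < 2; omega)
      have g1 := hg 1 (by show 1 < 2; omega) rfl
      rw [h1] at g1
      exact absurd h4.2 ((goodT_cfg.1 g1).ne M)
    · intro val hf _
      rw [ma_fit hf 0 (by show 0 < 1; omega) _ rfl]
      exact goodT_bot

end Pool.Agent.HB

end FileMachA

section FileMachB

/-! A halting computation gives a derivation. -/

open Turing

namespace Pool.Agent.HB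

theorem Der.mono {τ ι : Type} [Inhabited τ] {F : ι → Clause τ} {𝒯 𝒯' : Finset (Term τ)}
    (h : 𝒯 ⊆ 𝒯') {t : Term τ} (ht : Der F 𝒯 t) : Der F 𝒯' t := by
  induction ht with
  | step c val h1 h2 h3 _ ih => exact Der.step c val h1 h2 (fun i hi => h (h3 i hi)) ih

/-- derivable inside some finite set of terms -/
def DerE {τ ι : Type} [Inhabited τ] (F : ι → Clause τ) (t : Term τ) : Prop := ∃ 𝒯, Der F 𝒯 t

theorem DerE.step {τ ι : Type} [Inhabited τ] {F : ι → Clause τ} (c : ι) (cl : Clause τ)
    (hc : F c = cl) (val : ℕ → Term τ) (h1 : Fit cl val)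
    (h2 : ∀ i < cl.length, ∀ j < cl.length, val i = val j → i = j)
    (h3 : ∀ i < cl.length, cl.ok i = true → DerE F (val i)) : DerE F (val 0) := by
  classical
  subst hc
  have h4 : ∀ i, ∃ 𝒯 : Finset (Term τ), i < (F c).length → (F c).ok i = true →
      Der F 𝒯 (val i) := by
    intro i
    by_cases hi : i < (F c).length ∧ (F c).ok i = true
    · obtain ⟨𝒯, h⟩ := h3 i hi.1 hi.2
      exact ⟨𝒯, fun _ _ => h⟩
    · exact ⟨∅, fun a b => absurd ⟨a, b⟩ hi⟩
  choose T hT using h4
  refine ⟨(Finset.range (F c).length).biUnion fun i => insert (val i) (T i),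
    Der.step c val h1 h2 (fun i hi => ?_) fun i hi hok => Der.mono ?_ (hT i hi hok)⟩
  · exact Finset.mem_biUnion.2 ⟨i, Finset.mem_range.2 hi, Finset.mem_insert_self _ _⟩
  · exact fun x hx => Finset.mem_biUnion.2 ⟨i, Finset.mem_range.2 hi, Finset.mem_insert_of_mem hx⟩

/-- the term of a stack -/
def stT {Q A : Type} (σ : Bool) (l : List A) : Term (Tg Q A) :=
  l.foldr (fun b t => .node (.cell σ b) t .nil) (.node (.bot σ) .nil .nil)

theorem stT_nil {Q A : Type} (σ : Bool) :
    (stT σ [] : Term (Tg Q A)) = .node (.bot σ) .nil .nil := rfl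

theorem stT_cons {Q A : Type} (σ : Bool) (b : A) (l : List A) :
    (stT σ (b :: l) : Term (Tg Q A)) = .node (.cell σ b) (stT σ l) .nil := rfl

/-- the root tag of a stack -/
def rtT {Q A : Type} (σ : Bool) (l : List A) : Tg Q A :=
  l.head?.elim (.bot σ) (.cell σ)

theorem stT_root {Q A : Type} (σ : Bool) (l : List A) :
    ∃ x y, (stT σ l : Term (Tg Q A)) = .node (rtT σ l) x y := by
  cases l with
  | nil => exact ⟨_, _, rfl⟩
  | cons b l => exact ⟨_, _, rfl⟩

theorem stT_inj {Q A : Type} {σ σ' : Bool} {l l' : List A}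
    (h : (stT σ l : Term (Tg Q A)) = stT σ' l') : σ = σ' ∧ l = l' := by
  induction l generalizing l' with
  | nil =>
    cases l' with
    | nil =>
      rw [stT_nil, stT_nil] at h
      injection h with h1
      injection h1 with h1
      exact ⟨h1, rfl⟩
    | cons b l' =>
      rw [stT_nil, stT_cons] at h
      injection h with h1
      cases h1
  | cons a l ih =>
    cases l' with
    | nil =>
      rw [stT_nil, stT_cons] at h
      injection h with h1
      cases h1
    | cons b l' =>
      rw [stT_cons, stT_cons] at h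
      injection h with h1 h2
      injection h1 with h1 h3
      exact ⟨h1, by rw [h3, (ih h2).2]⟩

theorem stT_eq {Q A : Type} {σ σ' : Bool} {l l' : List A} :
    (stT σ l : Term (Tg Q A)) = stT σ' l' ↔ σ = σ' ∧ l = l' :=
  ⟨stT_inj, fun h => by rw [h.1, h.2]⟩

theorem stT_ne {Q A : Type} {σ : Bool} {l : List A} {q : Q} {a : A} {x y : Term (Tg Q A)} :
    stT σ l ≠ .node (.cfg q a) x y := by
  cases l with
  | nil => rw [stT_nil]; intro h; injection h with h1; cases h1
  | cons b l => rw [stT_cons]; intro h; injection h with h1; cases h1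

theorem stT_ne' {Q A : Type} {σ : Bool} {l : List A} {q : Q} {a : A} {x y : Term (Tg Q A)} :
    .node (.cfg q a) x y ≠ stT σ l := stT_ne.symm

/-- the term of a configuration, `l` on side `σ` and `o` on the other side -/
def cfT {Q A : Type} (σ : Bool) (q : Q) (a : A) (l o : List A) : Term (Tg Q A) :=
  .node (.cfg q a) (stT false (cond σ o l)) (stT true (cond σ l o))

variable {A Λ : Type} [Inhabited A] [Inhabited Λ] (M : TM0.Machine A Λ) (S : Finset Λ) (q₀ : S)
  (a₀ : A)

theorem derE_stT (R : List A) (σ : Bool) (l : List A) :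
    DerE (machF M S q₀ a₀ R) (stT σ l) := by
  induction l with
  | nil =>
    refine DerE.step (some (5, σ, q₀, q₀, a₀, a₀, .halt, .halt)) (endC σ) (by simp [machF])
      (fun _ => stT σ []) ?_ ?_ ?_
    · intro i hi
      obtain rfl : i = 0 := by simpa [endC] using hi
      exact ⟨.nil, .nil, rfl, fun p hp => by cases hp; exact ⟨rfl, rfl⟩⟩
    · intro i hi j hj _
      obtain rfl : i = 0 := by simpa [endC] using hi
      obtain rfl : j = 0 := by simpa [endC] using hj
      rfl
    · intro i hi h
      obtain rfl : i = 0 := by simpa [endC] using hi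
      cases h
  | cons b l ih =>
    refine DerE.step (some (3, σ, q₀, q₀, a₀, b, rtT σ l, .halt)) (cellC σ b (rtT σ l))
      (by simp [machF]) (fun i => [stT σ (b :: l), stT σ l].getD i .nil) ?_ ?_ ?_
    · intro i hi
      have hi' : i < 2 := hi
      interval_cases i
      · exact ⟨_, _, rfl, fun p hp => by cases hp; exact ⟨rfl, rfl⟩⟩
      · obtain ⟨x, y, h⟩ := stT_root (Q := S) σ l
        exact ⟨x, y, h, fun p hp => by cases hp⟩
    · intro i hi j hj h
      have hi' : i < 2 := hi
      have hj' : j < 2 := hj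
      interval_cases i <;> interval_cases j <;> simp [stT_eq] at h ⊢
    · intro i hi h
      have hi' : i < 2 := hi
      interval_cases i
      · cases h
      · exact ih

theorem derE_write (R : List A) {q q' : S} {a b : A} (hM : M q.1 a = some (q'.1, .write b))
    {l o : List A} (h : DerE (machF M S q₀ a₀ R) (cfT false q a l o)) :
    DerE (machF M S q₀ a₀ R) (cfT false q' b l o) := by
  by_cases he : q' = q ∧ b = a
  · rw [he.1, he.2]
    exact h
  refine DerE.step (some (0, false, q, q', a, b, rtT false l, rtT true o))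
    (writeC q q' a b (rtT false l) (rtT true o)) (by simp [machF, hM])
    (fun i => [cfT false q' b l o, cfT false q a l o, stT false l, stT true o].getD i .nil) ?_ ?_ ?_
  · intro i hi
    have hi' : i < 4 := hi
    interval_cases i
    · exact ⟨_, _, rfl, fun p hp => by cases hp; exact ⟨rfl, rfl⟩⟩
    · exact ⟨_, _, rfl, fun p hp => by cases hp; exact ⟨rfl, rfl⟩⟩
    · obtain ⟨x, y, h⟩ := stT_root (Q := S) false l
      exact ⟨x, y, h, fun p hp => by cases hp⟩
    · obtain ⟨x, y, h⟩ := stT_root (Q := S) true o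
      exact ⟨x, y, h, fun p hp => by cases hp⟩
  · intro i hi j hj h
    have hi' : i < 4 := hi
    have hj' : j < 4 := hj
    interval_cases i <;> interval_cases j <;> simp [stT_eq, cfT, stT_ne, stT_ne'] at h ⊢
    · exact he h
    · exact he ⟨h.1.symm, h.2.symm⟩
  · intro i hi hok
    have hi' : i < 4 := hi
    interval_cases i
    · cases hok
    · exact h
    · exact derE_stT M S q₀ a₀ R false l
    · exact derE_stT M S q₀ a₀ R true o

theorem derE_pop (R : List A) (σ : Bool) {q q' : S} {a b : A}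
    (hM : M q.1 a = some (q'.1, .move (dirOf σ))) {l o : List A}
    (h : DerE (machF M S q₀ a₀ R) (cfT σ q a (b :: l) o)) :
    DerE (machF M S q₀ a₀ R) (cfT σ q' b l (a :: o)) := by
  refine DerE.step (some (1, σ, q, q', a, b, rtT (!σ) o, rtT σ l))
    (popC σ q q' a b (rtT (!σ) o) (rtT σ l)) (by simp [machF, hM])
    (fun i => [cfT σ q' b l (a :: o), cfT σ q a (b :: l) o, stT (!σ) (a :: o), stT σ (b :: l),
      stT (!σ) o, stT σ l].getD i .nil) ?_ ?_ ?_
  · intro i hi
    have hi' : i < 6 := hi
    interval_cases i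
    · exact ⟨_, _, rfl, fun p hp => by cases hp; cases σ <;> exact ⟨rfl, rfl⟩⟩
    · exact ⟨_, _, rfl, fun p hp => by cases hp; cases σ <;> exact ⟨rfl, rfl⟩⟩
    · exact ⟨_, _, rfl, fun p hp => by cases hp; exact ⟨rfl, rfl⟩⟩
    · exact ⟨_, _, rfl, fun p hp => by cases hp; exact ⟨rfl, rfl⟩⟩
    · obtain ⟨x, y, h⟩ := stT_root (Q := S) (!σ) o
      exact ⟨x, y, h, fun p hp => by cases hp⟩
    · obtain ⟨x, y, h⟩ := stT_root (Q := S) σ l
      exact ⟨x, y, h, fun p hp => by cases hp⟩
  · intro i hi j hj h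
    have hi' : i < 6 := hi
    have hj' : j < 6 := hj
    cases σ <;> interval_cases i <;> interval_cases j <;>
      simp [stT_eq, cfT, stT_ne, stT_ne'] at h ⊢
  · intro i hi hok
    have hi' : i < 6 := hi
    interval_cases i
    · cases hok
    · exact h
    · cases hok
    · cases hok
    · exact derE_stT M S q₀ a₀ R (!σ) o
    · exact derE_stT M S q₀ a₀ R σ l

theorem derE_bot (R : List A) (σ : Bool) {q q' : S} {a : A}
    (hM : M q.1 a = some (q'.1, .move (dirOf σ))) {o : List A}
    (h : DerE (machF M S q₀ a₀ R) (cfT σ q a [] o)) :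
    DerE (machF M S q₀ a₀ R) (cfT σ q' default [] (a :: o)) := by
  refine DerE.step (some (2, σ, q, q', a, a, rtT (!σ) o, .halt))
    (botC σ q q' a (rtT (!σ) o)) (by simp [machF, hM])
    (fun i => [cfT σ q' default [] (a :: o), cfT σ q a [] o, stT (!σ) (a :: o), stT σ [],
      stT (!σ) o].getD i .nil) ?_ ?_ ?_
  · intro i hi
    have hi' : i < 5 := hi
    interval_cases i
    · exact ⟨_, _, rfl, fun p hp => by cases hp; cases σ <;> exact ⟨rfl, rfl⟩⟩
    · exact ⟨_, _, rfl, fun p hp => by cases hp; cases σ <;> exact ⟨rfl, rfl⟩⟩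
    · exact ⟨_, _, rfl, fun p hp => by cases hp; exact ⟨rfl, rfl⟩⟩
    · exact ⟨_, _, rfl, fun p hp => by cases hp⟩
    · obtain ⟨x, y, h⟩ := stT_root (Q := S) (!σ) o
      exact ⟨x, y, h, fun p hp => by cases hp⟩
  · intro i hi j hj h
    have hi' : i < 5 := hi
    have hj' : j < 5 := hj
    cases σ <;> interval_cases i <;> interval_cases j <;>
      simp [stT_eq, cfT, stT_ne, stT_ne'] at h ⊢
  · intro i hi hok
    have hi' : i < 5 := hi
    interval_cases i
    · cases hok
    · exact h
    · cases hok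
    · exact derE_stT M S q₀ a₀ R σ []
    · exact derE_stT M S q₀ a₀ R (!σ) o

theorem derE_halt (R : List A) {q : S} {a : A} (hM : M q.1 a = none) {l o : List A}
    (h : DerE (machF M S q₀ a₀ R) (cfT false q a l o)) :
    DerE (machF M S q₀ a₀ R) (.node .halt .nil .nil) := by
  refine DerE.step (F := machF M S q₀ a₀ R) (some (4, false, q, q, a, a, .halt, .halt))
    (haltC q a) (by simp [machF, hM])
    (fun i => [.node .halt .nil .nil, cfT false q a l o].getD i .nil) ?_ ?_ ?_
  · intro i hi
    have hi' : i < 2 := hi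
    interval_cases i
    · exact ⟨_, _, rfl, fun p hp => by cases hp; exact ⟨rfl, rfl⟩⟩
    · exact ⟨_, _, rfl, fun p hp => by cases hp⟩
  · intro i hi j hj h
    have hi' : i < 2 := hi
    have hj' : j < 2 := hj
    interval_cases i <;> interval_cases j <;> simp [cfT] at h ⊢
  · intro i hi hok
    have hi' : i < 2 := hi
    interval_cases i
    · cases hok
    · exact h

omit [Inhabited A] in
theorem initC_length {Q : Type} (q : Q) (a : A) (R : List A) :
    (initC q a R).length = R.length + 3 := by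
  simp [initC]

omit [Inhabited A] in
theorem initC_cell {Q : Type} (q : Q) (a : A) (R : List A) {i : ℕ} (hi : i < R.length) :
    (initC q a R).getD (i + 2) default = (.cell true R[i], some (i + 3, 0), false) := by
  simp [initC, List.getElem?_append_left, hi]

omit [Inhabited A] in
theorem initC_last {Q : Type} (q : Q) (a : A) (R : List A) :
    (initC q a R).getD (R.length + 2) default = (.bot true, some (0, 0), false) := by
  simp [initC]

theorem derE_init (R : List A) : DerE (machF M S q₀ a₀ R) (cfT false q₀ a₀ [] R) := by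
  refine DerE.step none (initC q₀ a₀ R) rfl
    (fun i => if i = 0 then cfT false q₀ a₀ [] R else if i = 1 then stT false []
      else stT true (R.drop (i - 2))) ?_ ?_ ?_
  · intro i hi
    rw [initC_length] at hi
    match i, hi with
    | 0, _ => exact ⟨_, _, rfl, fun p hp => by cases hp; exact ⟨rfl, rfl⟩⟩
    | 1, _ => exact ⟨_, _, rfl, fun p hp => by cases hp; exact ⟨rfl, rfl⟩⟩
    | i + 2, hi =>
      by_cases h : i < R.length
      · refine ⟨stT true (R.drop (i + 1)), .nil, ?_, fun p hp => ?_⟩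
        · rw [Clause.tg, initC_cell _ _ _ h]
          show stT true (R.drop i) = _
          rw [List.drop_eq_getElem_cons h, stT_cons]
        · rw [Clause.kid, initC_cell _ _ _ h] at hp
          cases hp
          exact ⟨rfl, rfl⟩
      · obtain rfl : i = R.length := by omega
        refine ⟨.nil, .nil, ?_, fun p hp => ?_⟩
        · rw [Clause.tg, initC_last]
          show stT true (R.drop R.length) = _
          rw [List.drop_length, stT_nil]
        · rw [Clause.kid, initC_last] at hp
          cases hp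
          exact ⟨rfl, rfl⟩
  · intro i hi j hj h
    rw [initC_length] at hi hj
    match i, j, hi, hj, h with
    | 0, 0, _, _, _ => rfl
    | 0, 1, _, _, h => exact absurd h stT_ne'
    | 0, j + 2, _, _, h => exact absurd h stT_ne'
    | 1, 0, _, _, h => exact absurd h stT_ne
    | 1, 1, _, _, _ => rfl
    | 1, j + 2, _, _, h => exact absurd (stT_inj h).1 (by decide)
    | i + 2, 0, _, _, h => exact absurd h stT_ne
    | i + 2, 1, _, _, h => exact absurd (stT_inj h).1 (by decide)
    | i + 2, j + 2, hi, hj, h =>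
      have h1 : (R.drop i).length = (R.drop j).length := congrArg List.length (stT_inj h).2
      rw [List.length_drop, List.length_drop] at h1
      omega
  · intro i hi hok
    rw [initC_length] at hi
    match i, hi, hok with
    | 0, _, hok => cases hok
    | 1, _, hok => cases hok
    | i + 2, hi, hok =>
      by_cases h : i < R.length
      · rw [Clause.ok, initC_cell _ _ _ h] at hok
        cases hok
      · obtain rfl : i = R.length := by omega
        rw [Clause.ok, initC_last] at hok
        cases hok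

theorem machF_der (hS : TM0.Supports M (S : Set Λ)) (hq : (q₀ : Λ) = default) (R : List A)
    (h : (TM0.eval M (a₀ :: R)).Dom) :
    ∃ 𝒯, Der (machF M S q₀ a₀ R) 𝒯 (.node .halt .nil .nil) := by
  have h1 : (StateTransition.eval (TM0.step M) (TM0.init (a₀ :: R))).Dom := h
  obtain ⟨c, hc⟩ := Part.dom_iff_mem.1 h1
  obtain ⟨hr, hn⟩ := StateTransition.mem_eval.1 hc
  have key : ∃ (q : S) (a : A) (l o : List A),
      c = ⟨q.1, ⟨a, ListBlank.mk l, ListBlank.mk o⟩⟩ ∧
        DerE (machF M S q₀ a₀ R) (cfT false q a l o) := by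
    clear hn hc
    induction hr with
    | refl => exact ⟨q₀, a₀, [], R, by rw [hq]; rfl, derE_init M S q₀ a₀ R⟩
    | tail _ hs ih =>
      obtain ⟨q, a, l, o, rfl, hd⟩ := ih
      obtain ⟨⟨q', s⟩, hM, rfl⟩ := Option.map_eq_some_iff.1 hs
      have hq' : q' ∈ S := hS.2 hM q.2
      cases s with
      | write b => exact ⟨⟨q', hq'⟩, b, l, o, rfl, derE_write M S q₀ a₀ R hM hd⟩
      | move d =>
        cases d with
        | left =>
          cases l with
          | nil => exact ⟨⟨q', hq'⟩, default, [], a :: o, rfl, derE_bot M S q₀ a₀ R false hM hd⟩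
          | cons b l => exact ⟨⟨q', hq'⟩, b, l, a :: o, rfl, derE_pop M S q₀ a₀ R false hM hd⟩
        | right =>
          cases o with
          | nil => exact ⟨⟨q', hq'⟩, default, a :: l, [], rfl, derE_bot M S q₀ a₀ R true hM hd⟩
          | cons b o => exact ⟨⟨q', hq'⟩, b, a :: l, o, rfl, derE_pop M S q₀ a₀ R true hM hd⟩
  obtain ⟨q, a, l, o, rfl, hd⟩ := key
  exact derE_halt M S q₀ a₀ R (Option.map_eq_none_iff.1 hn) hd

end Pool.Agent.HB

end FileMachB

section FileCompA

/-! Codes of graphs on `Fin K × T`. -/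

namespace Pool.Agent.HB

open Pool.Agent.Lib.PrimrecProp in
theorem code_edges {T : Type} (c : ℕ) (ix : T → ℕ) (Kf : ℕ → ℕ) (hK : Primrec Kf)
    (ρ : ℕ → ℕ × T → ℕ × T → Prop)
    (hρ : ∀ t t', PrimrecPred fun x : ℕ × ℕ × ℕ => ρ x.1 (x.2.1, t) (x.2.2, t'))
    (L : List (T × T)) : ∃ E : ℕ → List (ℕ × ℕ), Primrec E ∧ ∀ n p, p ∈ E n ↔
      ∃ q ∈ L, ∃ u < Kf n, ∃ u' < Kf n, ρ n (u, q.1) (u', q.2) ∧
        p = (u * c + ix q.1, u' * c + ix q.2) := by
  induction L with
  | nil => exact ⟨fun _ => [], Primrec.const _, by simp⟩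
  | cons q L ih =>
    obtain ⟨E, hE, h⟩ := ih
    obtain ⟨d, hd⟩ := hρ q.1 q.2
    obtain ⟨b, hb, hb'⟩ : ∃ b : ℕ × ℕ × ℕ → Bool, Primrec b ∧
        ∀ n u u', b (n, u, u') = true ↔ ρ n (u, q.1) (u', q.2) :=
      ⟨_, hd, fun n u u' => by simp⟩
    refine ⟨fun n => ((List.range (Kf n)).flatMap fun u =>
      ((List.range (Kf n)).filter fun u' => b (n, u, u')).map fun u' =>
        (u * c + ix q.1, u' * c + ix q.2)) ++ E n, by fun_prop, fun n p => ?_⟩
    simp only [List.mem_append, List.mem_flatMap, List.mem_range, List.mem_map, List.mem_filter,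
      hb', h, List.mem_cons, exists_eq_or_imp]
    refine or_congr_left ⟨?_, ?_⟩
    · rintro ⟨u, hu, u', ⟨h1, h2⟩, rfl⟩
      exact ⟨u, hu, u', h1, h2, rfl⟩
    · rintro ⟨u, hu, u', h1, h2, rfl⟩
      exact ⟨u, hu, u', ⟨h1, h2⟩, rfl⟩

open Pool.Agent.Lib.PrimrecProp in
theorem code_of_rel {T : Type} [Fintype T] (Kf : ℕ → ℕ) (hK : Primrec Kf)
    (ρ : ℕ → ℕ × T → ℕ × T → Prop)
    (hρ : ∀ t t', PrimrecPred fun x : ℕ × ℕ × ℕ => ρ x.1 (x.2.1, t) (x.2.2, t')) :
    ∃ code : ℕ → ℕ × List (ℕ × ℕ), Primrec code ∧ ∀ n, ∃ e : Fin (Kf n) × T ↪ Fin (code n).1,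
      codeGraph (code n) =
        (SimpleGraph.fromRel fun a b : Fin (Kf n) × T => ρ n (a.1, a.2) (b.1, b.2)).map e := by
  obtain ⟨E, hE, h⟩ := code_edges (Fintype.card T) (fun t => Fintype.equivFin T t) Kf hK ρ hρ
    (Finset.univ : Finset (T × T)).toList
  refine ⟨fun n => (Kf n * Fintype.card T, E n), by fun_prop, fun n => ?_⟩
  let e : Fin (Kf n) × T ≃ Fin (Kf n * Fintype.card T) :=
    ((Equiv.refl _).prodCongr (Fintype.equivFin T)).trans finProdFinEquiv
  have he : ∀ a, (e a : ℕ) = a.1 * Fintype.card T + Fintype.equivFin T a.2 := fun a => by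
    simp [e, mul_comm, add_comm]
  have key : ∀ a b, ((e a : ℕ), (e b : ℕ)) ∈ E n ↔ ρ n (a.1, a.2) (b.1, b.2) := by
    intro a b
    rw [h]
    constructor
    · rintro ⟨q, -, u, hu, u', hu', h1, h2⟩
      obtain ⟨h2, h3⟩ := Prod.mk.inj h2
      obtain rfl : a = (⟨u, hu⟩, q.1) := e.injective (Fin.ext (by rw [h2, he]))
      obtain rfl : b = (⟨u', hu'⟩, q.2) := e.injective (Fin.ext (by rw [h3, he]))
      exact h1
    · exact fun h1 => ⟨(a.2, b.2), by simp, a.1, a.1.2, b.1, b.1.2, h1, by rw [he, he]⟩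
  refine ⟨e.toEmbedding, ?_⟩
  ext x y
  obtain ⟨a, rfl⟩ := e.surjective x
  obtain ⟨b, rfl⟩ := e.surjective y
  rw [show e a = e.toEmbedding a from rfl, show e b = e.toEmbedding b from rfl,
    SimpleGraph.map_adj_apply, codeGraph, SimpleGraph.fromRel_adj, SimpleGraph.fromRel_adj]
  exact and_congr e.injective.ne_iff (or_congr (key a b) (key b a))

end Pool.Agent.HB

end FileCompA

section FileCompB

/-! The graphs `H` are computable. -/

namespace Pool.Agent.HB

theorem compb_const {α : Type} [Primcodable α] (p : Prop) : PrimrecPred fun _ : α => p := by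
  classical
  exact Primrec.primrecPred (Primrec.const (decide p))

theorem compb_exists {α β : Type} [Primcodable α] [Finite β] (p : β → α → Prop)
    (h : ∀ b, PrimrecPred (p b)) : PrimrecPred fun a => ∃ b, p b a := by
  classical
  have := Fintype.ofFinite β
  have h1 : ∀ s : Finset β, PrimrecPred fun a => ∃ b ∈ s, p b a := by
    intro s
    induction s using Finset.induction_on with
    | empty => exact (compb_const False).of_eq fun a => by simp
    | insert b s _ ih => exact ((h b).or ih).of_eq fun a => by simp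
  exact (h1 Finset.univ).of_eq fun a => by simp

theorem compb_sum {α β : Type} [Primcodable α] (s : Finset β) (f : β → α → ℕ)
    (h : ∀ b, Primrec (f b)) : Primrec fun a => ∑ b ∈ s, f b a := by
  classical
  induction s using Finset.induction_on with
  | empty => exact (Primrec.const 0).of_eq fun a => by simp
  | insert b s hb ih =>
    exact (Primrec.nat_add.comp (h b) ih).of_eq fun a => by rw [Finset.sum_insert hb]

theorem compb_eq {α β : Type} [Primcodable α] [Primcodable β] {f g : α → β} (hf : Primrec f)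
    (hg : Primrec g) : PrimrecPred fun a => f a = g a := Primrec.eq.comp hf hg

variable {τ : Type} [Fintype τ] [Inhabited τ] {ι : Type} [Fintype ι]

omit [Fintype τ] in
theorem compb_getD {B : Type} (χ : τ → B) (cl : Clause τ) (i : ℕ) :
    (cl.map fun x => (χ x.1, x.2)).getD i
        (χ (default : τ × Option (ℕ × ℕ) × Bool).1, (default : τ × Option (ℕ × ℕ) × Bool).2) =
      (χ (cl.tg i), cl.kid i, cl.ok i) := by
  have h := List.getD_map (l := cl) (n := i) (d := default)
    (fun x : τ × Option (ℕ × ℕ) × Bool => (χ x.1, x.2))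
  rw [h]
  rfl

omit [Fintype τ] in
theorem compb_entry (G : ℕ → Clause τ) {B : Type} [Primcodable B] (χ : τ → B)
    (hG : Primrec fun n => (G n).map fun x => (χ x.1, x.2)) :
    Primrec fun x : ℕ × ℕ × ℕ =>
      (χ ((G x.1).tg (x.2.1 - 2)), (G x.1).kid (x.2.1 - 2), (G x.1).ok (x.2.1 - 2)) := by
  have h1 : Primrec fun x : ℕ × ℕ × ℕ => x.2.1 - 2 :=
    Primrec.nat_sub.comp (Primrec.fst.comp Primrec.snd) (Primrec.const 2)
  exact ((Primrec.list_getD _).comp (hG.comp Primrec.fst) h1).of_eq fun x => compb_getD χ _ _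

omit [Fintype τ] [Inhabited τ] in
theorem compb_len (G : ℕ → Clause τ)
    (hG : Primrec fun n => (G n).map fun x => ((fun _ : τ => (0 : ℕ)) x.1, x.2)) :
    Primrec fun n => (G n).length + 2 :=
  (Primrec.nat_add.comp (Primrec.list_length.comp hG) (Primrec.const 2)).of_eq fun n => by simp

theorem compb_node (a : Bool) : Primrec fun p : ℕ × ℕ => nodeOf 0 (· + 2) (sel p a) := by
  have h1 : Primrec fun p : ℕ × ℕ => sel p a := by
    cases a
    · exact Primrec.fst
    · exact Primrec.snd
  exact Primrec.ite (compb_eq h1 (Primrec.const 0)) (Primrec.const 0)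
    (Primrec.nat_add.comp h1 (Primrec.const 2))

theorem arc_primrec (F : ℕ → ι → Clause τ) (hF : ∀ (c : ι) (B : Type) [Primcodable B] (χ : τ → B),
    Primrec fun n => (F n c).map fun x => (χ x.1, x.2)) (halt : τ) (c : Option (ι × Fin 300)) :
    (PrimrecPred fun x : ℕ × ℕ => (compBP (F x.1) halt c).act x.2) ∧
    (PrimrecPred fun x : ℕ × ℕ => (compBP (F x.1) halt c).att x.2) ∧
    (PrimrecPred fun n : ℕ => (compBP (F n) halt c).fin) ∧
    ∀ k i, PrimrecPred fun x : ℕ × ℕ × ℕ => (compBP (F x.1) halt c).arc x.2.1 k x.2.2 i := by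
  classical
  have hu : Primrec fun x : ℕ × ℕ × ℕ => x.2.1 := Primrec.fst.comp Primrec.snd
  have hv : Primrec fun x : ℕ × ℕ × ℕ => x.2.2 := Primrec.snd.comp Primrec.snd
  rcases c with _ | ⟨c, j⟩
  · refine ⟨Primrec.nat_lt.comp Primrec.snd (Primrec.const _),
      compb_eq (Primrec.nat_mod.comp Primrec.snd (Primrec.const 3)) (Primrec.const 0),
      compb_const True, fun k i => ?_⟩
    have hm : Primrec fun x : ℕ × ℕ × ℕ => x.2.1 % 3 := Primrec.nat_mod.comp hu (Primrec.const 3)
    exact ((compb_eq hm (Primrec.const 0)).and ((compb_const _).and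
      ((compb_eq hv (Primrec.nat_add.comp hu (Primrec.const 1))).and (compb_const _)))).or
      ((compb_eq hm (Primrec.const 2)).and
        ((compb_eq (Primrec.nat_add.comp hv (Primrec.const 2)) hu).and (compb_const _)))
  · refine ⟨Primrec.nat_lt.comp Primrec.snd
      ((compb_len (fun n => F n c) (hF c ℕ fun _ => 0)).comp Primrec.fst),
      compb_const False, compb_const False, fun k i => ?_⟩
    have he := compb_entry (fun n => F n c) (fun t => decide (k = Kind.tag t))
      (hF c Bool fun t => decide (k = Kind.tag t))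
    have h1 : PrimrecPred fun x : ℕ × ℕ × ℕ => k = Kind.tag ((F x.1 c).tg (x.2.1 - 2)) :=
      (compb_eq (Primrec.fst.comp he) (Primrec.const true)).of_eq fun x => by simp
    have he2 := Primrec.snd.comp he
    have he3 := Primrec.snd.comp he2
    have h2 : PrimrecPred fun x : ℕ × ℕ × ℕ => (F x.1 c).ok (x.2.1 - 2) = true :=
      (compb_eq he3 (Primrec.const true)).of_eq fun x => Iff.rfl
    have h3 : PrimrecPred fun x : ℕ × ℕ × ℕ => ∃ p a, (F x.1 c).kid (x.2.1 - 2) = some p ∧
        k = Kind.lnk a ∧ x.2.2 = nodeOf 0 (· + 2) (sel p a) ∧ i < 100 := by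
      have h4 : ∀ a : Bool, PrimrecPred fun x : ℕ × ℕ × ℕ =>
          ((F x.1 c).kid (x.2.1 - 2)).map (fun p => nodeOf 0 (· + 2) (sel p a)) = some x.2.2 ∧
            k = Kind.lnk a ∧ i < 100 := fun a =>
        (compb_eq ((Primrec.option_map₁ (compb_node a)).comp
          (Primrec.fst.comp he2)) (Primrec.option_some.comp hv)).and
          (compb_const _)
      refine (compb_exists _ h4).of_eq fun x => ?_
      simp only [Option.map_eq_some_iff]
      constructor
      · rintro ⟨a, ⟨p, hp, h5⟩, h6, h7⟩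
        exact ⟨p, a, hp, h6, h5.symm, h7⟩
      · rintro ⟨p, a, hp, h6, h5, h7⟩
        exact ⟨a, ⟨p, hp, h5.symm⟩, h6, h7⟩
    have h0 : PrimrecPred fun x : ℕ × ℕ × ℕ => x.2.2 = 0 := compb_eq hv (Primrec.const 0)
    exact ((compb_eq hu (Primrec.const 0)).and ((compb_const _).and
      ((compb_eq hv (Primrec.const 1)).and (compb_const _)))).or
      ((Primrec.nat_le.comp (Primrec.const 2) hu).and
        ((h1.and (h0.and (compb_const _))).or (h3.or ((compb_const _).and (h0.and
          ((h2.and (compb_const _)).or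
            ((compb_eq hu (Primrec.const 2)).and (compb_const _))))))))

/-- the vertex coded by a node and a template vertex -/
def compb_lift {N : Type} (u : N) : Bool ⊕ Tm (Gm τ) → Vx τ N
  | .inl s => .inl s
  | .inr t => .inr (u, t)

/-- plain vertices are coded with node `0` -/
def compb_valid (u : ℕ) : Bool ⊕ Tm (Gm τ) → Prop
  | .inl _ => u = 0
  | .inr _ => True

/-- the code of a vertex -/
def compb_enc {K : ℕ} (z : Fin K) : Vx τ (Fin K) → Fin K × (Bool ⊕ Tm (Gm τ))
  | .inl s => (z, .inl s)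
  | .inr p => (p.1, .inr p.2)

omit [Inhabited τ] in
theorem compb_lift_enc {K : ℕ} (z : Fin K) (v : Vx τ (Fin K)) :
    compb_lift (compb_enc z v).1 (compb_enc z v).2 = v := by
  rcases v with s | p <;> rfl

omit [Inhabited τ] in
theorem compb_valid_enc {K : ℕ} (z : Fin K) (hz : z.1 = 0) (v : Vx τ (Fin K)) :
    compb_valid (compb_enc z v).1.1 (compb_enc z v).2 := by
  rcases v with s | p
  · exact hz
  · trivial

omit [Inhabited τ] in
theorem compb_enc_lift {K : ℕ} (z : Fin K) (hz : z.1 = 0) (u : Fin K) (t : Bool ⊕ Tm (Gm τ))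
    (h : compb_valid u.1 t) : compb_enc z (compb_lift u t) = (u, t) := by
  rcases t with s | t
  · have : u = z := Fin.ext (by rw [hz]; exact h)
    rw [this]
    rfl
  · rfl

omit [Inhabited τ] in
theorem compb_rel_iff {K : ℕ} (β : BP τ ℕ) (u u' : Fin K) (t t' : Bool ⊕ Tm (Gm τ)) :
    (β.comap Fin.val).rel (compb_lift u t) (compb_lift u' t') ↔
      β.rel (compb_lift u.1 t) (compb_lift u'.1 t') := by
  rcases t with s | t <;> rcases t' with s' | t' <;>
    simp [compb_lift, BP.rel, BP.comap, Fin.ext_iff]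

theorem compb_rel_primrec (F : ℕ → ι → Clause τ)
    (hF : ∀ (c : ι) (B : Type) [Primcodable B] (χ : τ → B),
      Primrec fun n => (F n c).map fun x => (χ x.1, x.2)) (halt : τ) (c : Option (ι × Fin 300))
    (t t' : Bool ⊕ Tm (Gm τ)) : PrimrecPred fun x : ℕ × ℕ × ℕ =>
      (compBP (F x.1) halt c).rel (compb_lift x.2.1 t) (compb_lift x.2.2 t') := by
  obtain ⟨h1, h2, h3, h4⟩ := arc_primrec F hF halt c
  have hu : Primrec fun x : ℕ × ℕ × ℕ => x.2.1 := Primrec.fst.comp Primrec.snd
  have hv : Primrec fun x : ℕ × ℕ × ℕ => x.2.2 := Primrec.snd.comp Primrec.snd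
  have ha := h1.comp (Primrec.fst.pair hu)
  have hb := h1.comp (Primrec.fst.pair hv)
  rcases t with s | t <;> rcases t' with s' | t'
  · exact (h3.comp Primrec.fst).and (compb_const _)
  · exact (hb.and ((h2.comp (Primrec.fst.pair hv)).and (compb_const
      (∃ i : Fin 4000, (i : ℕ) < 500 ∧ t' = .inl ((.att s, false), i))))).of_eq fun x => Iff.rfl
  · exact compb_const False
  · exact (ha.and (hb.and (((compb_eq hu hv).and (compb_const (base t t'))).or
      ((compb_eq hu hv).not.and (compb_exists _ fun k => compb_exists _ fun i : Fin 4000 =>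
        (h4 k i).and (compb_const (t = .inl ((k, true), i) ∧
          t' = .inl ((k, false), i)))))))).of_eq fun x => Iff.rfl

omit [Inhabited τ] in
theorem compb_valid_primrec {α : Type} [Primcodable α] {f : α → ℕ} (hf : Primrec f)
    (t : Bool ⊕ Tm (Gm τ)) : PrimrecPred fun a => compb_valid (f a) t := by
  rcases t with s | t
  · exact compb_eq hf (Primrec.const 0)
  · exact compb_const True

theorem exists_code (F : ℕ → ι → Clause τ)
    (hF : ∀ (c : ι) (B : Type) [Primcodable B] (χ : τ → B),
      Primrec fun n => (F n c).map fun x => (χ x.1, x.2)) (halt : τ) :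
    ∃ (code : ℕ → ℕ × List (ℕ × ℕ)) (Kf : ℕ → ℕ), Primrec code ∧ ∀ n,
      (∀ c, (F n c).length + 2 ≤ Kf n) ∧ 3 * rr (Gm τ) ≤ Kf n ∧
      ∃ e : VH τ ι (Kf n) ↪ Fin (code n).1, codeGraph (code n) = (HG (F n) halt (Kf n)).map e := by
  have hu : Primrec fun x : ℕ × ℕ × ℕ => x.2.1 := Primrec.fst.comp Primrec.snd
  have hv : Primrec fun x : ℕ × ℕ × ℕ => x.2.2 := Primrec.snd.comp Primrec.snd
  have hK : Primrec fun n => 3 * rr (Gm τ) + ∑ c, ((F n c).length + 2) + 1 :=
    Primrec.nat_add.comp (Primrec.nat_add.comp (Primrec.const _)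
      (compb_sum Finset.univ (fun c n => (F n c).length + 2) fun c =>
        compb_len (fun n => F n c) (hF c ℕ fun _ => 0))) (Primrec.const 1)
  obtain ⟨code, hc, h⟩ := code_of_rel (T := Option (ι × Fin 300) × (Bool ⊕ Tm (Gm τ))) _ hK
    (fun n a b => a.2.1 = b.2.1 ∧ compb_valid a.1 a.2.2 ∧ compb_valid b.1 b.2.2 ∧
      (compBP (F n) halt a.2.1).rel (compb_lift a.1 a.2.2) (compb_lift b.1 b.2.2))
    (fun t t' => ((compb_const (t.1 = t'.1)).and ((compb_valid_primrec hu t.2).and
      ((compb_valid_primrec hv t'.2).and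
        (compb_rel_primrec F hF halt t.1 t.2 t'.2)))).of_eq fun x => Iff.rfl)
  refine ⟨code, fun n => 3 * rr (Gm τ) + ∑ c, ((F n c).length + 2) + 1, hc, fun n => ?_⟩
  beta_reduce
  refine ⟨fun c => ?_, by omega, ?_⟩
  · have := Finset.single_le_sum (f := fun c => (F n c).length + 2) (fun _ _ => Nat.zero_le _)
      (Finset.mem_univ c)
    omega
  · obtain ⟨e, he⟩ := h n
    generalize 3 * rr (Gm τ) + ∑ c, ((F n c).length + 2) = K at e he ⊢
    have hinj : Function.Injective fun a : VH τ ι (K + 1) =>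
        (((compb_enc 0 a.2).1, a.1, (compb_enc 0 a.2).2) :
          Fin (K + 1) × Option (ι × Fin 300) × (Bool ⊕ Tm (Gm τ))) := by
      intro a b hab
      simp only [Prod.mk.injEq] at hab
      refine Prod.ext hab.2.1 ?_
      rw [← compb_lift_enc 0 a.2, ← compb_lift_enc 0 b.2, hab.1, hab.2.2]
    refine ⟨(Function.Embedding.mk _ hinj).trans e, ?_⟩
    rw [he, Function.Embedding.coe_trans, ← SimpleGraph.map_map]
    refine congrArg (SimpleGraph.map e) ?_
    ext a b
    rw [SimpleGraph.map_adj, SimpleGraph.fromRel_adj]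
    constructor
    · rintro ⟨hne, hab⟩
      have hva : compb_valid a.1.1 a.2.2 := hab.elim (fun h => h.2.1) fun h => h.2.2.1
      have hvb : compb_valid b.1.1 b.2.2 := hab.elim (fun h => h.2.2.1) fun h => h.2.1
      have ea : (Function.Embedding.mk _ hinj) (a.2.1, compb_lift a.1 a.2.2) = a := by
        simp only [Function.Embedding.coeFn_mk, compb_enc_lift 0 rfl _ _ hva]
      have eb : (Function.Embedding.mk _ hinj) (b.2.1, compb_lift b.1 b.2.2) = b := by
        simp only [Function.Embedding.coeFn_mk, compb_enc_lift 0 rfl _ _ hvb]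
      refine ⟨_, _, ?_, ea, eb⟩
      rw [HG, SimpleGraph.fromRel_adj]
      refine ⟨fun h => hne (by rw [← ea, ← eb, h]), ?_⟩
      exact hab.imp (fun h => ⟨h.1, (compb_rel_iff _ _ _ _ _).2 h.2.2.2⟩)
        fun h => ⟨h.1, (compb_rel_iff _ _ _ _ _).2 h.2.2.2⟩
    · rintro ⟨a', b', hab, rfl, rfl⟩
      rw [HG, SimpleGraph.fromRel_adj] at hab
      refine ⟨fun h => hab.1 (hinj h), hab.2.imp (fun h => ?_) fun h => ?_⟩
      · refine ⟨h.1, compb_valid_enc 0 rfl _, compb_valid_enc 0 rfl _,
          (compb_rel_iff _ _ _ _ _).1 ?_⟩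
        simp only [Function.Embedding.coeFn_mk, compb_lift_enc]
        exact h.2
      · refine ⟨h.1, compb_valid_enc 0 rfl _, compb_valid_enc 0 rfl _,
          (compb_rel_iff _ _ _ _ _).1 ?_⟩
        simp only [Function.Embedding.coeFn_mk, compb_lift_enc]
        exact h.2

end Pool.Agent.HB

end FileCompB
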