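import Pool.Agent.P.HB.G5
import Pool.Agent.P.HB.G6
import Pool.Agent.P.HB.G1
import Pool.Agent.P.HB.G7
import Pool.Agent.P.MP_067fd8_lc.TM

/-! The main theorem. -/

open Filter Topology

namespace Pool.Agent.HB

section
variable {τ : Type} [Fintype τ] [Inhabited τ] {ι : Type} [Fintype ι] {F : ι → Clause τ} {halt : τ}
  {Kn : ℕ}

omit [Inhabited τ] in
theorem main_pos : (0 : ℝ) < mm (Gm τ) ∧ 2 * (mm (Gm τ) : ℝ) < AA (Gm τ) := by
  have h1 := sG_ge (Γ := Gm τ)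
  have h2 := mm_ge (Γ := Gm τ)
  have h3 := AA_ge' (Γ := Gm τ)
  constructor
  · exact_mod_cast (by omega : 0 < mm (Gm τ))
  · exact_mod_cast (by omega : 2 * mm (Gm τ) < AA (Gm τ))

omit [Fintype ι] in
theorem main_lower {Good : Term τ → Prop} (hw : ∀ c, WF (F c)) (hso : ∀ c, Sound Good (F c))
    (hG : ∀ l r, ¬ Good (.node halt l r)) (hF : ∀ c, (F c).length + 2 ≤ Kn)
    (hr : 3 * rr (Gm τ) ≤ Kn) {β : ℝ} (hβ : 2 * (mm (Gm τ) : ℝ) / AA (Gm τ) < β) :
    ∀ᶠ n : ℕ in atTop, -β ≤ expo (HG F halt Kn) n := by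
  obtain ⟨hm, hA⟩ := main_pos (τ := τ)
  have hA0 : (0 : ℝ) < AA (Gm τ) := by linarith
  have hβ0 : 0 < β := lt_trans (by positivity) hβ
  have h1 : 1 / β < AA (Gm τ) / (2 * (mm (Gm τ) : ℝ)) := by
    rw [div_lt_iff₀ hA0] at hβ
    rw [div_lt_div_iff₀ hβ0 (by positivity)]
    linarith
  obtain ⟨θ, h2, h3⟩ := exists_between h1
  have hθ : 0 < θ := lt_trans (by positivity) h2
  rw [div_lt_iff₀ hβ0] at h2
  rw [lt_div_iff₀ (by positivity)] at h3
  obtain ⟨L, hL⟩ := lower_theta hw hso hG hF hr hθ (by linarith)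
  filter_upwards [first_rooted hθ (β := β) (by linarith) L (δ := 1 / 4) (by norm_num),
    eventually_ge_atTop 3] with n h4 hn
  refine le_expo _ (by omega) fun p hp => ?_
  obtain ⟨Rt, -, hRt⟩ := Finset.exists_subset_card_eq
    (s := (Finset.univ : Finset (Fin n))) (n := 3) (by simpa using hn)
  refine lt_of_le_of_lt ((Pr_mono fun G hG => ?_).trans (h4 p hp Rt hRt.le)) (by norm_num)
  by_contra hc
  refine hL n G Rt hRt (fun X hX => ?_) hG
  by_contra hc'
  exact hc ⟨X, hX, not_le.1 hc'⟩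

theorem main_upper (hw : ∀ c, WF (F c)) (hF : ∀ c, (F c).length + 2 ≤ Kn)
    (hr : 3 * rr (Gm τ) ≤ Kn) {𝒯 : Finset (Term τ)} (h : Der F 𝒯 (.node halt .nil .nil)) :
    ∃ β : ℝ, 2 * (mm (Gm τ) : ℝ) / AA (Gm τ) < β ∧
      ∀ᶠ n : ℕ in atTop, expo (HG F halt Kn) n ≤ -β := by
  classical
  obtain ⟨hm, hA⟩ := main_pos (τ := τ)
  have hA0 : (0 : ℝ) < AA (Gm τ) := by linarith
  have h2 := two_le_edges (F := F) halt hr
  obtain ⟨a, b, hab⟩ : ∃ a b, (HG F halt Kn).Adj a b := by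
    have h3 : (HG F halt Kn).edgeSet.Nonempty := Set.nonempty_of_ncard_ne_zero (by omega)
    obtain ⟨e, he⟩ := h3
    induction e using Sym2.ind with
    | _ a b => exact ⟨a, b, he⟩
  have h4 : ∀ S : Finset (Vx τ (NW τ 𝒯) ⊕ VH τ ι Kn),
      ∀ᶠ β : ℝ in 𝓝 (2 * (mm (Gm τ) : ℝ) / AA (Gm τ)), S.Nonempty →
        Disjoint S {.inl (.inl false), .inl (.inl true)} →
        β * eIn (WG F halt Kn 𝒯) (S ∪ {.inl (.inl false), .inl (.inl true)}) < S.card := by
    intro S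
    by_cases hS : S.Nonempty ∧ Disjoint S {.inl (.inl false), .inl (.inl true)}
    · have h5 := sparse_W hw halt Kn 𝒯 S hS.1 hS.2
      rw [ec_eq_eIn] at h5
      have h6 : (mm (Gm τ) : ℝ) * (2 * eIn (WG F halt Kn 𝒯)
          (S ∪ {.inl (.inl false), .inl (.inl true)})) < AA (Gm τ) * S.card := by exact_mod_cast h5
      have h7 : 2 * (mm (Gm τ) : ℝ) / AA (Gm τ) * eIn (WG F halt Kn 𝒯)
          (S ∪ {.inl (.inl false), .inl (.inl true)}) < S.card := by
        rw [div_mul_eq_mul_div, div_lt_iff₀ hA0]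
        linarith
      have h8 : Continuous fun β : ℝ => β * eIn (WG F halt Kn 𝒯)
          (S ∪ {.inl (.inl false), .inl (.inl true)}) := continuous_id.mul continuous_const
      exact ((h8.tendsto _).eventually (gt_mem_nhds h7)).mono fun β hβ _ _ => hβ
    · exact Eventually.of_forall fun β h1 h2 => absurd ⟨h1, h2⟩ hS
  have h9 : 2 * (mm (Gm τ) : ℝ) / AA (Gm τ) < 1 := (div_lt_one hA0).2 hA
  have h10 := ((eventually_all.2 h4).and (gt_mem_nhds h9)).filter_mono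
    (nhdsWithin_le_nhds (s := Set.Ioi (2 * (mm (Gm τ) : ℝ) / AA (Gm τ))))
  obtain ⟨β, ⟨h11, h12⟩, h13⟩ := (h10.and self_mem_nhdsWithin).exists
  have hβ0 : 0 < β := lt_trans (by positivity) h13
  refine ⟨β, h13, ?_⟩
  filter_upwards [upper_whp (HG F halt Kn) hab (WG F halt Kn 𝒯) (by simp)
    (roots_not_adj halt Kn 𝒯) hβ0 h12 h11 fun n G f hf => upper_det hw hF hr h f hf,
    eventually_ge_atTop 2] with n h14 hn
  exact expo_le _ h2 hn hβ0 h14

end

open Turing in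
theorem main : ∃ a : ℚ, ∀ v : ℕ × List (ℕ × ℕ) → EReal,
    (∀ c, 2 ≤ (codeGraph c).edgeSet.ncard →
      liminf (fun n => (expo (codeGraph c) n : EReal)) atTop ≤ v c ∧
        v c ≤ limsup (fun n => (expo (codeGraph c) n : EReal)) atTop) →
    ¬ REPred fun c => ((a : ℝ) : EReal) ≤ v c := by
  classical
  obtain ⟨A, Λ, _, _, _, M, S, a₀, R, hS, hR, hU⟩ := Pool.Agent.P.MP_067fd8_lc.tm0_undec
  let _ : Fintype A := Fintype.ofFinite A
  let _ : Fintype (Tg S A) := Fintype.ofFinite _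
  let _ : Fintype (Ix S A) := inferInstance
  let q₀ : S := ⟨default, hS.1⟩
  obtain ⟨code, Kf, hcode, hK⟩ := exists_code (fun n => machF M S q₀ a₀ (R n))
    (fun c B _ χ => machF_primrec M S q₀ a₀ R hR c B χ) Tg.halt
  refine ⟨-(2 * (mm (Gm (Tg S A)) : ℚ) / AA (Gm (Tg S A))), fun v hv h => hU ?_⟩
  refine REPred.of_eq (h.comp hcode.to_comp) fun n => ?_
  obtain ⟨hF, hr, e, he⟩ := hK n
  have hw := machF_wf M S q₀ a₀ (R n)
  obtain ⟨h1, h2⟩ := hv (code n) (by rw [he, ncard_map]; exact two_le_edges _ hr)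
  have h3 : ∀ᶠ N : ℕ in atTop, expo (codeGraph (code n)) N =
      expo (HG (machF M S q₀ a₀ (R n)) Tg.halt (Kf n)) N := by
    filter_upwards [eventually_ge_atTop (code n).1] with N hN
    rw [he]
    exact expo_map _ _ (by simpa using hN)
  push_cast
  constructor
  · intro h4 h5
    obtain ⟨𝒯, h6⟩ := machF_der M S q₀ a₀ hS rfl (R n) h5
    obtain ⟨β, h7, h8⟩ := main_upper hw hF hr h6
    have h9 : limsup (fun N => (expo (codeGraph (code n)) N : EReal)) atTop ≤ ((-β : ℝ) : EReal) := by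
      refine limsup_le_of_le (h := ?_)
      filter_upwards [h3, h8] with N h10 h11
      exact EReal.coe_le_coe_iff.2 (h10 ▸ h11)
    have h10 := EReal.coe_le_coe_iff.1 (h4.trans (h2.trans h9))
    linarith
  · intro h4
    obtain ⟨Good, h5, h6⟩ := machF_sound M S q₀ a₀ rfl (R n) h4
    refine le_trans (EReal.ge_of_forall_gt_iff_ge.1 fun z hz => ?_) h1
    have h7 := EReal.coe_lt_coe_iff.1 hz
    refine le_liminf_of_le (h := ?_)
    filter_upwards [h3, main_lower hw h5 h6 hF hr (β := -z) (by linarith)] with N h8 h9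
    rw [neg_neg] at h9
    exact EReal.coe_le_coe_iff.2 (h8 ▸ h9)

end Pool.Agent.HB
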