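import Pool.Agent.P.HB.Defs

/-! The finite rule that locates the exponent. -/

set_option autoImplicit false

noncomputable section

namespace Pool.Agent.HB

/-- The number of edges of `B` with both ends in `S`. -/
def edgesIn {k : ℕ} (B : SimpleGraph (Fin k)) (S : Finset (Fin k)) : ℕ :=
  {e ∈ B.edgeSet | ∀ v ∈ e, v ∈ S}.ncard

/-- Every enlargement of `A` adds at least `β` new vertices per new edge of `B`. -/
def Strong {k : ℕ} (β : ℝ) (B : SimpleGraph (Fin k)) (A : Finset (Fin k)) : Prop :=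
  ∀ S : Finset (Fin k), A ⊆ S → β * ((edgesIn B S : ℝ) - edgesIn B A) ≤ (S.card : ℝ) - A.card

/-- One inference: the triple `(B, u, v)` follows from the set `D` of triples. -/
def Infer {W : Type} (H : SimpleGraph W) (β : ℝ) {k : ℕ}
    (D : Set (SimpleGraph (Fin k) × Fin k × Fin k)) (B : SimpleGraph (Fin k)) (u v : Fin k) : Prop :=
  ∃ (A : Finset (Fin k)) (B' : SimpleGraph (Fin k)) (f : W ↪ Fin k),
    u ∈ A ∧ v ∈ A ∧ (∀ x ∈ A, ∀ y ∈ A, (B.Adj x y ↔ B'.Adj x y)) ∧ Strong β B' A ∧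
    (∃ a b, H.Adj a b ∧ s(f a, f b) = s(u, v)) ∧
    ∀ a b, H.Adj a b → B'.Adj (f a) (f b) ∨ s(f a, f b) = s(u, v) ∨ (B', f a, f b) ∈ D

/-- Every set of triples closed under the inference contains a triple whose graph has no edge. -/
def Feasible {W : Type} (H : SimpleGraph W) (β : ℝ) (k : ℕ) : Prop :=
  ∀ D : Set (SimpleGraph (Fin k) × Fin k × Fin k),
    (∀ B u v, Infer H β D B u v → (B, u, v) ∈ D) → ∃ u v, (⊥, u, v) ∈ D

end Pool.Agent.HB
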