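import Pool.Agent.P.HB.G1

/-! Independence and the extension property for all root tuples at once. -/

set_option autoImplicit false

noncomputable section

open Filter Topology

namespace Pool.Agent.HB

/-- The event `T` depends only on the pairs in `E`. -/
def Dep {n : ℕ} (E : Finset (Sym2 (Fin n))) (T : Set (SimpleGraph (Fin n))) : Prop :=
  ∀ G G' : SimpleGraph (Fin n), (∀ e ∈ E, (e ∈ G.edgeSet ↔ e ∈ G'.edgeSet)) → G ∈ T → G' ∈ T

theorem rext_pre {n : ℕ} {E : Finset (Sym2 (Fin n))} {T : Set (SimpleGraph (Fin n))}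
    (h : Dep E T) : ∃ T' : Set (E → Prop),
      (fun q : Sym2 (Fin n) → Prop => {i | q i}) ⁻¹' (SimpleGraph.fromEdgeSet ⁻¹' T) =
        (fun (q : Sym2 (Fin n) → Prop) (i : E) => q i) ⁻¹' T' := by
  refine ⟨{g | SimpleGraph.fromEdgeSet {e | ∃ he : e ∈ E, g ⟨e, he⟩} ∈ T}, ?_⟩
  ext q
  simp only [Set.mem_preimage, Set.mem_ofPred_eq]
  constructor
  · refine h _ _ fun e he => ?_
    simp [SimpleGraph.edgeSet_fromEdgeSet, he]
  · refine h _ _ fun e he => ?_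
    simp [SimpleGraph.edgeSet_fromEdgeSet, he]

theorem Pr_inter {n : ℕ} {p : unitInterval} {E E' : Finset (Sym2 (Fin n))} (hd : Disjoint E E')
    {T U : Set (SimpleGraph (Fin n))} (hT : Dep E T) (hU : Dep E' U) :
    Pr n p (T ∩ U) = Pr n p T * Pr n p U := by
  obtain ⟨T', h1⟩ := rext_pre hT
  obtain ⟨U', h2⟩ := rext_pre hU
  unfold Pr
  simp only [MeasureTheory.measureReal_def, SimpleGraph.binomialRandom_eq_map,
    MeasureTheory.Measure.map_apply SimpleGraph.measurable_fromEdgeSet (prob_meas _),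
    ProbabilityTheory.setBernoulli_apply']
  rw [← ENNReal.toReal_mul, Set.preimage_inter, Set.preimage_inter, h1, h2]
  refine congrArg ENNReal.toReal ?_
  have m1 : MeasurableSet T' := T'.toFinite.measurableSet
  have m2 : MeasurableSet U' := U'.toFinite.measurableSet
  have h3 := (ProbabilityTheory.iIndepFun_infinitePi (X := fun (_ : Sym2 (Fin n)) (q : Prop) => q)
    (P := fun i : Sym2 (Fin n) => unitInterval.toNNReal p • MeasureTheory.Measure.dirac
      (i ∈ (Sym2.diagSetᶜ : Set (Sym2 (Fin n)))) +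
      unitInterval.toNNReal (unitInterval.symm p) • MeasureTheory.Measure.dirac False)
    fun _ => measurable_id).indepFun_finset E E' hd fun i => measurable_pi_apply i
  exact h3.measure_inter_preimage_eq_mul T' U' m1 m2

theorem Pr_iInter {n : ℕ} {p : unitInterval} {ι : Type} [DecidableEq ι] (I : Finset ι)
    (E : ι → Finset (Sym2 (Fin n))) (T : ι → Set (SimpleGraph (Fin n)))
    (hd : ∀ i j, i ≠ j → Disjoint (E i) (E j)) (hT : ∀ i, Dep (E i) (T i)) {q : ℝ}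
    (hq : ∀ i, Pr n p (T i) ≤ q) (hq0 : 0 ≤ q) :
    Pr n p {G | ∀ i ∈ I, G ∈ T i} ≤ q ^ I.card := by
  classical
  induction I using Finset.induction_on with
  | empty => simpa using Pr_le_one _
  | insert a I ha ih =>
    have e : {G | ∀ i ∈ insert a I, G ∈ T i} = T a ∩ {G | ∀ i ∈ I, G ∈ T i} := by
      ext G
      simp
    have h1 : Dep (I.biUnion E) {G | ∀ i ∈ I, G ∈ T i} := fun G G' h hG i hi =>
      hT i G G' (fun e he => h e (Finset.mem_biUnion.2 ⟨i, hi, he⟩)) (hG i hi)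
    have h2 : Disjoint (E a) (I.biUnion E) :=
      (Finset.disjoint_biUnion_right _ _ _).2 fun i hi => hd a i fun e => ha (e ▸ hi)
    rw [e, Pr_inter h2 (hT a) h1, Finset.card_insert_of_notMem ha, pow_succ']
    exact mul_le_mul (hq a) ih (Pr_nonneg _) hq0

/-- The second moment bound inside one block. -/
theorem rext_block {W : Type} [Fintype W] [DecidableEq W] (F : SimpleGraph W) (R : Finset W)
    {n N : ℕ} (hN : 0 < N) (p : unitInterval) (hp : 0 < (p : ℝ)) {f₀ : W → Fin n}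
    {ι : W × Fin N → Fin n} (h₀ : Set.InjOn f₀ R) (hι : Function.Injective ι)
    (hd : ∀ x, ∀ w ∈ R, ι x ≠ f₀ w) (E : Finset (Sym2 W)) (hE : ∀ e, e ∈ E ↔ e ∈ F.edgeSet) :
    Pr n p {G | ∀ φ ∈ (Finset.univ : Finset (W → Fin N)),
        G ∉ {G : SimpleGraph (Fin n) | ∀ e ∈ E.image (Sym2.map (secF R f₀ ι φ)), e ∈ G.edgeSet}} ≤
      ∑ S ∈ Rᶜ.powerset, ((p : ℝ) ^ eIn F (S ∪ R))⁻¹ / (N : ℝ) ^ S.card - 1 := by
  classical
  have hN' : (0 : ℝ) < N := by exact_mod_cast hN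
  obtain ⟨D, hD⟩ : ∃ D : (W → Fin N) → Finset (Sym2 (Fin n)),
      ∀ φ, D φ = E.image (Sym2.map (secF R f₀ ι φ)) := ⟨_, fun _ => rfl⟩
  simp only [← hD]
  have hcard : ∀ φ, (D φ).card = E.card := fun φ => by
    rw [hD]
    exact Finset.card_image_of_injective _ (Sym2.map.injective (secF_inj h₀ hι hd φ))
  have hdiag : ∀ φ, ∀ e ∈ D φ, ¬ e.IsDiag := fun φ e he => by
    rw [hD, Finset.mem_image] at he
    obtain ⟨e, he, rfl⟩ := he
    rw [Sym2.isDiag_map (secF_inj h₀ hι hd φ)]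
    exact F.not_isDiag_of_mem_edgeSet ((hE e).1 he)
  have : Nonempty (Fin N) := ⟨⟨0, hN⟩⟩
  have hmain := Pr_none_le (n := n) (p := p) (Finset.univ : Finset (W → Fin N))
    Finset.univ_nonempty (fun φ => {G | ∀ e ∈ D φ, e ∈ G.edgeSet}) (μ := (p : ℝ) ^ E.card)
    (pow_pos hp _) (fun φ _ => by rw [Pr_sub _ (hdiag φ), hcard])
  refine hmain.trans ?_
  have hpair : ∀ φ ψ : W → Fin N,
      Pr n p ({G | ∀ e ∈ D φ, e ∈ G.edgeSet} ∩ {G | ∀ e ∈ D ψ, e ∈ G.edgeSet}) ≤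
        ((p : ℝ) ^ E.card) ^ 2 *
          ((p : ℝ) ^ eIn F ((Rᶜ.filter fun w => φ w = ψ w) ∪ R))⁻¹ := by
    intro φ ψ
    have h1 : ({G | ∀ e ∈ D φ, e ∈ G.edgeSet} ∩ {G | ∀ e ∈ D ψ, e ∈ G.edgeSet} :
        Set (SimpleGraph (Fin n))) = {G | ∀ e ∈ D φ ∪ D ψ, e ∈ G.edgeSet} := by
      ext G
      simp only [Set.mem_inter_iff, Set.mem_ofPred_eq, Finset.mem_union]
      exact ⟨fun h e he => he.elim (h.1 e) (h.2 e),
        fun h => ⟨fun e he => h e (Or.inl he), fun e he => h e (Or.inr he)⟩⟩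
    rw [h1, Pr_sub _ fun e he => (Finset.mem_union.1 he).elim (hdiag φ e) (hdiag ψ e)]
    have h2 := sec_inter h₀ hι hd F E (fun e he => (hE e).1 he) φ ψ
    rw [← hD, ← hD] at h2
    have h3 := Finset.card_union_add_card_inter (D φ) (D ψ)
    rw [hcard, hcard] at h3
    rw [← div_eq_mul_inv, le_div_iff₀ (pow_pos hp _), ← pow_add, ← pow_mul]
    exact pow_le_pow_of_le_one hp.le p.2.2 (by omega)
  have hI : ((Finset.univ : Finset (W → Fin N)).card : ℝ) = (N : ℝ) ^ Fintype.card W := by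
    rw [Finset.card_univ, Fintype.card_fun, Fintype.card_fin, Nat.cast_pow]
  rw [hI]
  refine sub_le_sub_right ?_ 1
  rw [div_le_iff₀ (by positivity)]
  calc ∑ φ : W → Fin N, ∑ ψ : W → Fin N,
        Pr n p ({G | ∀ e ∈ D φ, e ∈ G.edgeSet} ∩ {G | ∀ e ∈ D ψ, e ∈ G.edgeSet})
      ≤ ∑ φ : W → Fin N, ((p : ℝ) ^ E.card) ^ 2 * ((N : ℝ) ^ Fintype.card W *
          ∑ S ∈ Rᶜ.powerset, ((p : ℝ) ^ eIn F (S ∪ R))⁻¹ / (N : ℝ) ^ S.card) := by
        refine Finset.sum_le_sum fun φ _ => ?_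
        refine le_trans (Finset.sum_le_sum fun ψ _ => hpair φ ψ) ?_
        rw [← Finset.mul_sum]
        exact mul_le_mul_of_nonneg_left
          (sec_avg hN φ R (fun S => ((p : ℝ) ^ eIn F (S ∪ R))⁻¹) fun S => by positivity)
          (by positivity)
    _ = _ := by
        rw [Finset.sum_const, nsmul_eq_mul, hI]
        ring

/-- `m` disjoint blocks fail independently. -/
theorem rext_blocks {W : Type} [Fintype W] [DecidableEq W] (F : SimpleGraph W) (R : Finset W)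
    (hR : eIn F R = 0) {n N m : ℕ} (hN : 0 < N) (p : unitInterval) (hp : 0 < (p : ℝ))
    {f₀ : W → Fin n} (h₀ : Set.InjOn f₀ R) (hn : (m * N + 1) * Fintype.card W ≤ n) {q : ℝ}
    (hq : ∑ S ∈ Rᶜ.powerset, ((p : ℝ) ^ eIn F (S ∪ R))⁻¹ / (N : ℝ) ^ S.card - 1 ≤ q) :
    Pr n p {G | ¬ ∃ f : W ↪ Fin n, (∀ w ∈ R, f w = f₀ w) ∧ Emb F G f} ≤ q ^ m := by
  classical
  obtain ⟨E, hE⟩ : ∃ E : Finset (Sym2 W), ∀ e, e ∈ E ↔ e ∈ F.edgeSet :=
    ⟨(Set.toFinite F.edgeSet).toFinset, fun e => Set.Finite.mem_toFinset _⟩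
  have hc : Fintype.card (Fin m × W × Fin N) ≤ (R.image f₀)ᶜ.card := by
    rw [Fintype.card_prod, Fintype.card_prod, Fintype.card_fin, Fintype.card_fin,
      Finset.card_compl, Fintype.card_fin]
    have h1 : (R.image f₀).card ≤ Fintype.card W :=
      Finset.card_image_le.trans (Finset.card_le_univ _)
    have h2 : (m * N + 1) * Fintype.card W = m * (Fintype.card W * N) + Fintype.card W := by ring
    omega
  obtain ⟨ι, hι⟩ := Function.Embedding.exists_of_card_le_finset hc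
  have hd : ∀ x, ∀ w ∈ R, ι x ≠ f₀ w := fun x w hw he => by
    have h1 : ι x ∈ (R.image f₀)ᶜ := Finset.mem_coe.1 (hι ⟨x, rfl⟩)
    rw [Finset.mem_compl, he] at h1
    exact h1 (Finset.mem_image_of_mem _ hw)
  have hinj : ∀ i : Fin m, Function.Injective fun x : W × Fin N => ι (i, x) := fun i x y e =>
    congrArg Prod.snd (ι.injective e)
  have hout : ∀ e ∈ E, ∃ w ∈ e, w ∉ R := by
    intro e he
    by_contra hc
    have h1 : e ∈ {e ∈ F.edgeSet | ∀ v ∈ e, v ∈ R} :=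
      ⟨(hE e).1 he, fun v hv => by_contra fun h => hc ⟨v, hv, h⟩⟩
    unfold eIn at hR
    rw [Set.ncard_eq_zero (Set.toFinite _)] at hR
    rw [hR] at h1
    exact h1
  have hb := fun i : Fin m => (rext_block F R hN p hp h₀ (hinj i) (fun x => hd (i, x)) E hE).trans hq
  have hq0 : 0 ≤ q := by
    refine le_trans ?_ hq
    rw [← Finset.add_sum_erase _ _ (Finset.empty_mem_powerset Rᶜ), Finset.empty_union, hR,
      pow_zero, Finset.card_empty, pow_zero, inv_one, div_one, add_sub_cancel_left]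
    exact Finset.sum_nonneg fun S _ => by positivity
  have hmain := Pr_iInter (p := p) (Finset.univ : Finset (Fin m))
    (fun i => (Finset.univ : Finset (W → Fin N)).biUnion fun φ =>
      E.image (Sym2.map (secF R f₀ (fun x => ι (i, x)) φ))) _ ?_ ?_ hb hq0
  · rw [Finset.card_univ, Fintype.card_fin] at hmain
    rcases Nat.eq_zero_or_pos m with hm | hm
    · rw [hm, pow_zero]
      exact Pr_le_one _
    refine le_trans (Pr_mono ?_) hmain
    intro G hG i _ φ _ hφ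
    refine hG ⟨⟨secF R f₀ (fun x => ι (i, x)) φ, secF_inj h₀ (hinj i) (fun x => hd (i, x)) φ⟩,
      fun w hw => if_pos hw, fun a b hab => ?_⟩
    exact hφ _ (Finset.mem_image_of_mem _ ((hE s(a, b)).2 hab))
  · intro i j hij
    refine Finset.disjoint_left.2 fun x h1 h2 => ?_
    obtain ⟨φ, -, h1⟩ := Finset.mem_biUnion.1 h1
    obtain ⟨ψ, -, h2⟩ := Finset.mem_biUnion.1 h2
    obtain ⟨e, he, rfl⟩ := Finset.mem_image.1 h1
    obtain ⟨e', -, h3⟩ := Finset.mem_image.1 h2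
    obtain ⟨w, hw, hw'⟩ := hout e he
    have h4 : secF R f₀ (fun x => ι (i, x)) φ w ∈ Sym2.map (secF R f₀ (fun x => ι (j, x)) ψ) e' := by
      rw [h3]
      exact Sym2.mem_map.2 ⟨w, hw, rfl⟩
    obtain ⟨b, -, hb'⟩ := Sym2.mem_map.1 h4
    unfold secF at hb'
    rw [if_neg hw'] at hb'
    by_cases h5 : b ∈ R
    · rw [if_pos h5] at hb'
      exact hd _ b h5 hb'.symm
    · rw [if_neg h5] at hb'
      exact hij (congrArg Prod.fst (ι.injective hb')).symm
  · intro i G G' h hG φ hφ hG'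
    refine hG φ hφ fun e he => (h e (Finset.mem_biUnion.2 ⟨φ, hφ, he⟩)).2 (hG' e he)

/-- Safe extensions exist over all root tuples at once. -/
theorem ext_all {W : Type} [Fintype W] [DecidableEq W] (F : SimpleGraph W) (R : Finset W)
    (hR : eIn F R = 0) {β : ℝ}
    (h : ∀ S : Finset W, S.Nonempty → Disjoint S R → β * eIn F (S ∪ R) < S.card)
    {δ : ℝ} (hδ : 0 < δ) :
    ∀ᶠ n : ℕ in atTop, ∀ p : unitInterval, (n : ℝ) ^ (-β) ≤ p →
      Pr n p {G | ∃ f₀ : W → Fin n, Set.InjOn f₀ R ∧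
        ¬ ∃ f : W ↪ Fin n, (∀ w ∈ R, f w = f₀ w) ∧ Emb F G f} ≤ δ := by
  classical
  obtain ⟨k, hk⟩ : ∃ k, k = Fintype.card W := ⟨_, rfl⟩
  have hm : ∀ S : Finset W, ∀ᶠ m : ℕ in atTop, S ∈ Rᶜ.powerset.erase ∅ →
      (k : ℝ) / m < S.card - β * eIn F (S ∪ R) := by
    intro S
    by_cases hS : S ∈ Rᶜ.powerset.erase ∅
    · have hS' := hS
      rw [Finset.mem_erase, Finset.mem_powerset] at hS'
      have h1 := h S (Finset.nonempty_iff_ne_empty.2 hS'.1)
        (Finset.disjoint_left.2 fun a ha => Finset.mem_compl.1 (hS'.2 ha))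
      exact ((tendsto_const_div_atTop_nhds_zero_nat (k : ℝ)).eventually
        (gt_mem_nhds (sub_pos.2 h1))).mono fun m hm _ => hm
    · exact Eventually.of_forall fun m h1 => absurd h1 hS
  obtain ⟨m, hm1, hm0⟩ := ((eventually_all.2 hm).and (eventually_gt_atTop 0)).exists
  obtain ⟨c, hc⟩ : ∃ c, c = (m + 1) * (k + 1) := ⟨_, rfl⟩
  have hlim : Tendsto (fun n : ℕ => ∑ S ∈ Rᶜ.powerset.erase ∅,
      (2 * (c : ℝ)) ^ S.card * (n : ℝ) ^ (-((S.card : ℝ) - β * eIn F (S ∪ R) - k / m))) atTop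
      (𝓝 (∑ S ∈ Rᶜ.powerset.erase ∅, (2 * (c : ℝ)) ^ S.card * 0)) := by
    refine tendsto_finsetSum _ fun S hS => Tendsto.const_mul _ ?_
    exact (tendsto_rpow_neg_atTop (sub_pos.2 (hm1 S hS))).comp tendsto_natCast_atTop_atTop
  simp only [mul_zero, Finset.sum_const_zero] at hlim
  have hlim2 := hlim.pow m
  rw [zero_pow hm0.ne'] at hlim2
  filter_upwards [hlim2.eventually (gt_mem_nhds hδ), eventually_ge_atTop c] with n hn1 hn2 p hp
  have hc0 : 0 < c := by rw [hc]; positivity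
  obtain ⟨N, hNd⟩ : ∃ N, N = n / c := ⟨_, rfl⟩
  have hN : 0 < N := by
    rw [hNd]
    exact Nat.div_pos hn2 hc0
  have hNn : N * c ≤ n := by
    rw [hNd]
    exact Nat.div_mul_le_self _ _
  have hnN : n < (N + 1) * c := by
    rw [hNd, mul_comm]
    exact Nat.lt_mul_div_succ n hc0
  have hn0 : 0 < n := lt_of_lt_of_le hc0 hn2
  have hn' : (0 : ℝ) < n := by exact_mod_cast hn0
  have hN' : (0 : ℝ) < N := by exact_mod_cast hN
  have hp0 : 0 < (p : ℝ) := lt_of_lt_of_le (Real.rpow_pos_of_pos hn' _) hp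
  have hsz : (m * N + 1) * Fintype.card W ≤ n := by
    rw [← hk]
    refine le_trans ?_ hNn
    rw [hc]
    nlinarith [Nat.mul_le_mul_left k hN, Nat.zero_le (m * N), Nat.zero_le N]
  have hq : ∑ S ∈ Rᶜ.powerset, ((p : ℝ) ^ eIn F (S ∪ R))⁻¹ / (N : ℝ) ^ S.card - 1 ≤
      ∑ S ∈ Rᶜ.powerset.erase ∅,
        (2 * (c : ℝ)) ^ S.card * (n : ℝ) ^ (-((S.card : ℝ) - β * eIn F (S ∪ R))) := by
    rw [← Finset.add_sum_erase _ _ (Finset.empty_mem_powerset Rᶜ), Finset.empty_union, hR,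
      pow_zero, Finset.card_empty, pow_zero, inv_one, div_one, add_sub_cancel_left]
    refine Finset.sum_le_sum fun S _ => ?_
    have h1 : ((p : ℝ) ^ eIn F (S ∪ R))⁻¹ ≤ (n : ℝ) ^ (β * eIn F (S ∪ R)) := by
      rw [Real.rpow_mul hn'.le, Real.rpow_natCast, ← inv_pow]
      refine pow_le_pow_left₀ (by positivity) ?_ _
      rw [Real.rpow_neg hn'.le] at hp
      exact inv_le_of_inv_le₀ (Real.rpow_pos_of_pos hn' _) hp
    have h2 : (n : ℝ) ≤ 2 * (c : ℝ) * N := by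
      have h3 : n ≤ 2 * c * N := by nlinarith
      exact_mod_cast h3
    have h3 : (n : ℝ) ^ S.card ≤ (2 * (c : ℝ)) ^ S.card * (N : ℝ) ^ S.card := by
      rw [← mul_pow]
      exact pow_le_pow_left₀ hn'.le h2 _
    rw [neg_sub, Real.rpow_sub hn', Real.rpow_natCast, ← mul_div_assoc,
      div_le_div_iff₀ (pow_pos hN' _) (pow_pos hn' _)]
    calc ((p : ℝ) ^ eIn F (S ∪ R))⁻¹ * (n : ℝ) ^ S.card
        ≤ (n : ℝ) ^ (β * eIn F (S ∪ R)) * ((2 * (c : ℝ)) ^ S.card * (N : ℝ) ^ S.card) :=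
          mul_le_mul h1 h3 (by positivity) (by positivity)
      _ = _ := by ring
  obtain ⟨q, hqd⟩ : ∃ q, q = ∑ S ∈ Rᶜ.powerset.erase ∅,
        (2 * (c : ℝ)) ^ S.card * (n : ℝ) ^ (-((S.card : ℝ) - β * eIn F (S ∪ R))) := ⟨_, rfl⟩
  have e1 : ∑ S ∈ Rᶜ.powerset.erase ∅,
      (2 * (c : ℝ)) ^ S.card * (n : ℝ) ^ (-((S.card : ℝ) - β * eIn F (S ∪ R) - k / m)) =
        (n : ℝ) ^ ((k : ℝ) / m) * q := by
    rw [hqd, Finset.mul_sum]
    refine Finset.sum_congr rfl fun S _ => ?_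
    rw [mul_left_comm, ← Real.rpow_add hn']
    exact congrArg (fun t : ℝ => (2 * (c : ℝ)) ^ S.card * (n : ℝ) ^ t) (by ring)
  have e2 : ((n : ℝ) ^ ((k : ℝ) / m)) ^ m = (n : ℝ) ^ k := by
    have hm' : (m : ℝ) ≠ 0 := by exact_mod_cast hm0.ne'
    rw [← Real.rpow_natCast, ← Real.rpow_mul hn'.le, div_mul_cancel₀ _ hm', Real.rpow_natCast]
  rw [e1, mul_pow, e2] at hn1
  rw [← hqd] at hq
  refine (Pr_le_sum ((Finset.univ : Finset (W → Fin n)).filter fun f₀ => Set.InjOn f₀ R)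
    (fun f₀ => {G | ¬ ∃ f : W ↪ Fin n, (∀ w ∈ R, f w = f₀ w) ∧ Emb F G f})
    fun G hG => ?_).trans ?_
  · obtain ⟨f₀, h1, h2⟩ := hG
    exact ⟨f₀, Finset.mem_filter.2 ⟨Finset.mem_univ _, h1⟩, h2⟩
  refine (Finset.sum_le_card_nsmul _ _ _ fun f₀ hf =>
    rext_blocks F R hR hN p hp0 (Finset.mem_filter.1 hf).2 hsz hq).trans (le_trans ?_ hn1.le)
  rw [nsmul_eq_mul]
  have hq0 : 0 ≤ q := by
    rw [hqd]
    exact Finset.sum_nonneg fun S _ => by positivity
  refine mul_le_mul_of_nonneg_right ?_ (pow_nonneg hq0 _)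
  have h4 := Finset.card_filter_le (Finset.univ : Finset (W → Fin n)) fun f₀ => Set.InjOn f₀ R
  rw [Finset.card_univ, Fintype.card_fun, Fintype.card_fin, ← hk] at h4
  exact_mod_cast h4

end Pool.Agent.HB
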