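import Pool.Agent.P.HB.RDefs
import Pool.Agent.P.HB.RExt

/-! The finite rule is sound and complete up to an explicit error; the limit exists. -/

set_option autoImplicit false

noncomputable section

open Filter Topology

namespace Pool.Agent.HB

theorem edgesIn_eq {k : ℕ} (B : SimpleGraph (Fin k)) (S : Finset (Fin k)) :
    edgesIn B S = eIn B S := rfl

theorem eIn_comap {V V' : Type} (G : SimpleGraph V) (ψ : V' ↪ V) (S : Finset V') :
    eIn (G.comap ψ) S = eIn G (S.map ψ) := by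
  unfold eIn
  rw [← Set.ncard_image_of_injective _ (Sym2.map.injective ψ.injective)]
  refine congrArg Set.ncard (Set.ext fun e => ⟨?_, ?_⟩)
  · rintro ⟨e, ⟨h1, h2⟩, rfl⟩
    induction e using Sym2.ind with
    | _ a b =>
      refine ⟨h1, fun v hv => ?_⟩
      obtain ⟨w, hw, rfl⟩ := Sym2.mem_map.1 hv
      exact Finset.mem_map_of_mem ψ (h2 w hw)
  · rintro ⟨h1, h2⟩
    induction e using Sym2.ind with
    | _ a b =>
      obtain ⟨a', ha, rfl⟩ := Finset.mem_map.1 (h2 a (Sym2.mem_mk_left _ _))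
      obtain ⟨b', hb, rfl⟩ := Finset.mem_map.1 (h2 b (Sym2.mem_mk_right _ _))
      refine ⟨s(a', b'), ⟨h1, fun v hv => ?_⟩, rfl⟩
      rcases Sym2.mem_iff.1 hv with rfl | rfl
      · exact ha
      · exact hb

/-- The graph `B` without the edges inside `A`. -/
def rOut {k : ℕ} (B : SimpleGraph (Fin k)) (A : Finset (Fin k)) : SimpleGraph (Fin k) where
  Adj x y := B.Adj x y ∧ ¬ (x ∈ A ∧ y ∈ A)
  symm := ⟨fun _ _ h => ⟨h.1.symm, fun h' => h.2 h'.symm⟩⟩
  loopless := ⟨fun _ h => B.irrefl h.1⟩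

theorem eIn_rOut {k : ℕ} (B : SimpleGraph (Fin k)) {A S : Finset (Fin k)} (h : A ⊆ S) :
    eIn (rOut B A) S + eIn B A = eIn B S := by
  unfold eIn
  rw [← Set.ncard_union_eq]
  · refine congrArg Set.ncard (Set.ext fun e => ?_)
    induction e using Sym2.ind with
    | _ a b =>
      simp only [Set.mem_union, Set.mem_ofPred_eq, SimpleGraph.mem_edgeSet, Sym2.mem_iff,
        forall_eq_or_imp, forall_eq]
      constructor
      · rintro (h1 | h1)
        · exact ⟨h1.1.1, h1.2⟩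
        · exact ⟨h1.1, h h1.2.1, h h1.2.2⟩
      · intro h1
        by_cases h2 : a ∈ A ∧ b ∈ A
        · exact Or.inr ⟨h1.1, h2⟩
        · exact Or.inl ⟨⟨h1.1, h2⟩, h1.2⟩
  · refine Set.disjoint_left.2 fun e h1 h2 => ?_
    induction e using Sym2.ind with
    | _ a b => exact h1.1.2 ⟨h2.2 a (Sym2.mem_mk_left _ _), h2.2 b (Sym2.mem_mk_right _ _)⟩

/-- The extension property of level `k`. -/
def ExtP (β : ℝ) (k : ℕ) {V : Type} (G : SimpleGraph V) : Prop :=
  ∀ (B : SimpleGraph (Fin k)) (A : Finset (Fin k)), Strong β B A → ∀ φ : Fin k ↪ V,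
    ∃ ψ : Fin k ↪ V, (∀ x ∈ A, ψ x = φ x) ∧ Emb (rOut B A) G ψ

theorem extP_whp {β β' : ℝ} (h0 : 0 < β') (h1 : β' < β) (k : ℕ) :
    ∀ᶠ n : ℕ in atTop, ∀ p : unitInterval, (n : ℝ) ^ (-β') ≤ p →
      Pr n p {G | ¬ ExtP β k G} ≤ 1 / 2 := by
  classical
  obtain ⟨I, hI⟩ : ∃ I : Finset (SimpleGraph (Fin k) × Finset (Fin k)),
      ∀ x, x ∈ I ↔ Strong β x.1 x.2 := ⟨Finset.univ.filter fun x => Strong β x.1 x.2, by simp⟩
  have h2 : ∀ x ∈ I, ∀ᶠ n : ℕ in atTop, ∀ p : unitInterval, (n : ℝ) ^ (-β') ≤ p →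
      Pr n p {G | ∃ f₀ : Fin k → Fin n, Set.InjOn f₀ x.2 ∧
        ¬ ∃ f : Fin k ↪ Fin n, (∀ w ∈ x.2, f w = f₀ w) ∧ Emb (rOut x.1 x.2) G f} ≤
          1 / (2 * ((I.card : ℝ) + 1)) := by
    intro x hx
    refine ext_all (rOut x.1 x.2) x.2 ?_ (fun S hS hd => ?_) (by positivity)
    · have := eIn_rOut x.1 (Finset.Subset.refl x.2)
      omega
    · have h3 := (hI x).1 hx (S ∪ x.2) Finset.subset_union_right
      have h4 : ((eIn (rOut x.1 x.2) (S ∪ x.2) : ℝ) + eIn x.1 x.2) = eIn x.1 (S ∪ x.2) := by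
        exact_mod_cast eIn_rOut x.1 Finset.subset_union_right
      rw [edgesIn_eq, edgesIn_eq, ← h4, Finset.card_union_of_disjoint hd] at h3
      push_cast at h3
      have h5 : (0 : ℝ) < S.card := by exact_mod_cast hS.card_pos
      rcases Nat.eq_zero_or_pos (eIn (rOut x.1 x.2) (S ∪ x.2)) with h6 | h6
      · rw [h6]
        simpa using h5
      · have h7 : (0 : ℝ) < eIn (rOut x.1 x.2) (S ∪ x.2) := by exact_mod_cast h6
        nlinarith
  filter_upwards [(eventually_all_finset I).2 h2] with n hn p hp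
  refine (Pr_le_sum I _ fun G hG => ?_).trans
    ((Finset.sum_le_card_nsmul _ _ _ fun x hx => hn x hx p hp).trans ?_)
  · by_contra hc
    refine hG fun B A hs φ => ?_
    by_contra hc'
    exact hc ⟨(B, A), (hI _).2 hs, φ, φ.injective.injOn, hc'⟩
  · rw [nsmul_eq_mul, mul_one_div, div_le_div_iff₀ (by positivity) (by positivity)]
    linarith

theorem exists_emb_pair {k n : ℕ} (hk : k ≤ n) {u v : Fin k} (huv : u ≠ v) {x y : Fin n}
    (hxy : x ≠ y) : ∃ φ : Fin k ↪ Fin n, φ u = x ∧ φ v = y := by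
  obtain ⟨σ, hσ⟩ := Equiv.Perm.exists_extending_pair
    (fun b : Bool => Fin.castLEEmb hk (cond b u v)) (fun b : Bool => cond b x y)
    (by
      intro a b h
      have h1 := (Fin.castLEEmb hk).injective h
      cases a <;> cases b <;> simp_all)
    (by
      intro a b h
      cases a <;> cases b <;> simp_all)
  exact ⟨(Fin.castLEEmb hk).trans σ.toEmbedding, hσ true, hσ false⟩

theorem sound_det {W : Type} [Finite W] (H : SimpleGraph W) {β : ℝ} {k n : ℕ} (hk : k ≤ n)
    (hF : Feasible H β k) {G : SimpleGraph (Fin n)} (hG : ExtP β k G) : bootClosure H G = ⊤ := by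
  obtain ⟨u, v, h⟩ := hF {x | ∀ φ : Fin k ↪ Fin n, Emb x.1 G φ →
      (bootClosure H G).Adj (φ x.2.1) (φ x.2.2)} (by
    rintro B u v ⟨A, B', f, hu, hv, hag, hs, ⟨a, b, hab, e⟩, hall⟩ φ hφ
    obtain ⟨ψ, h1, h2⟩ := hG B' A hs φ
    have h3 : Emb B' G ψ := by
      intro x y hxy
      by_cases h4 : x ∈ A ∧ y ∈ A
      · rw [h1 x h4.1, h1 y h4.2]
        exact hφ x y ((hag x h4.1 y h4.2).2 hxy)
      · exact h2 x y ⟨hxy, h4⟩
    have h5 : ∀ c d, s(f c, f d) = s(u, v) →
        s((f.trans ψ) c, (f.trans ψ) d) = s(φ u, φ v) := by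
      intro c d e
      rw [← h1 u hu, ← h1 v hv]
      exact congrArg (Sym2.map ψ) e
    have h6 : u ≠ v := by
      rintro rfl
      rcases Sym2.eq_iff.1 e with h7 | h7 <;> exact hab.ne (f.injective (h7.1.trans h7.2.symm))
    refine step_bootClosure H G (Or.inr ⟨fun e' => h6 (φ.injective e'), f.trans ψ,
      ⟨a, b, hab, h5 a b e⟩, fun c d hcd => ?_⟩)
    rcases hall c d hcd with h7 | h7 | h7
    · exact Or.inl (le_bootClosure H G (h3 _ _ h7))
    · exact Or.inr (h5 c d h7)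
    · exact Or.inl (h7 ψ h3))
  have h1 : u ≠ v := by
    rintro rfl
    exact (bootClosure H G).irrefl (h (Fin.castLEEmb hk) fun a b hab => hab.elim)
  refine eq_top_iff.2 fun x y hxy => ?_
  obtain ⟨φ, rfl, rfl⟩ := exists_emb_pair hk h1 hxy
  exact h φ fun a b hab => hab.elim

theorem rule_upper {W : Type} [Finite W] (H : SimpleGraph W) (h2 : 2 ≤ H.edgeSet.ncard)
    {β β' : ℝ} {k : ℕ} (hF : Feasible H β k) (h0 : 0 < β') (h1 : β' < β) :
    ∀ᶠ n : ℕ in atTop, expo H n ≤ -β' := by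
  filter_upwards [extP_whp h0 h1 k, eventually_ge_atTop k, eventually_ge_atTop 2] with n h3 h4 h5
  refine expo_le H h2 h5 h0 fun p hp => ?_
  have h6 : Pr n p {G | ¬ ExtP β k G}ᶜ ≤ Pr n p {G | bootClosure H G = ⊤} :=
    Pr_mono fun G hG => sound_det H h4 hF (not_not.1 hG)
  rw [Pr_compl] at h6
  linarith [h3 p hp]

/-- `M` minimises the potential among the sets of at most `k` vertices containing `u, v`. -/
def MinP (β : ℝ) (k : ℕ) {V : Type} (G : SimpleGraph V) (e : Sym2 V) (M : Finset V) : Prop :=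
  (∀ x ∈ e, x ∈ M) ∧ M.card ≤ k ∧ ∀ S : Finset V, (∀ x ∈ e, x ∈ S) → S.card ≤ k →
    (M.card : ℝ) - β * eIn G M ≤ S.card - β * eIn G S

theorem exists_minP (β : ℝ) {k n : ℕ} (hk : 2 ≤ k) (G : SimpleGraph (Fin n)) (e : Sym2 (Fin n)) :
    ∃ M, MinP β k G e M := by
  classical
  induction e using Sym2.ind with
  | _ u v =>
    obtain ⟨M, h1, h2⟩ := Finset.exists_min_image
      (Finset.univ.filter fun S : Finset (Fin n) => (∀ x ∈ s(u, v), x ∈ S) ∧ S.card ≤ k)
      (fun S => (S.card : ℝ) - β * eIn G S)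
      ⟨{u, v}, Finset.mem_filter.2 ⟨Finset.mem_univ _, by simp, Finset.card_le_two.trans hk⟩⟩
    exact ⟨M, (Finset.mem_filter.1 h1).2.1, (Finset.mem_filter.1 h1).2.2, fun S h3 h4 =>
      h2 S (Finset.mem_filter.2 ⟨Finset.mem_univ _, h3, h4⟩)⟩

theorem minP_card {α β : ℝ} (h0 : 0 < β) (h1 : β < α) {k n : ℕ} (hk : 2 ≤ k)
    {G : SimpleGraph (Fin n)} (hG : ∀ X : Finset (Fin n), X.card ≤ k → α * eIn G X ≤ X.card)
    {e : Sym2 (Fin n)} {M : Finset (Fin n)} (h : MinP β k G e M) :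
    (M.card : ℝ) - 2 ≤ 2 * β / (α - β) := by
  induction e using Sym2.ind with
  | _ u v =>
    have h2 := h.2.2 {u, v} (by simp) (Finset.card_le_two.trans hk)
    have h3 : ((({u, v} : Finset (Fin n)).card : ℕ) : ℝ) ≤ 2 := by
      exact_mod_cast Finset.card_le_two
    have h4 := hG M h.2.1
    have h5 : 0 ≤ β * eIn G {u, v} := by positivity
    rw [le_div_iff₀ (by linarith)]
    have h6 : (M.card : ℝ) - β * eIn G M ≤ 2 := by linarith
    nlinarith [mul_le_mul_of_nonneg_left h4 h0.le,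
      mul_le_mul_of_nonneg_left h6 (h0.trans h1).le]

theorem exists_reemb {k n : ℕ} (hk : k ≤ n) (φ : Fin k ↪ Fin n) (A : Finset (Fin k))
    (Y : Finset (Fin n)) (hY : Y.card ≤ k) (hA : ∀ x ∈ A, φ x ∈ Y) :
    ∃ ψ : Fin k ↪ Fin n, (∀ x ∈ A, ψ x = φ x) ∧ ∀ y ∈ Y, ∃ x, ψ x = y := by
  obtain ⟨Z, h1, h2⟩ := Finset.exists_superset_card_eq hY (by simpa using hk)
  let g : Fin k ≃ Z := (Z.equivFinOfCardEq h2).symm
  obtain ⟨σ, hσ⟩ := Equiv.Perm.exists_extending_pair (fun x : A => (x : Fin k))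
    (fun x : A => g.symm ⟨φ x, h1 (hA x x.2)⟩) Subtype.val_injective (by
      intro x y h
      exact Subtype.ext (φ.injective (congrArg Subtype.val (g.symm.injective h))))
  refine ⟨(σ.trans g).toEmbedding.trans (Function.Embedding.subtype _), fun x hx => ?_,
    fun y hy => ⟨(σ.trans g).symm ⟨y, h1 hy⟩, by simp⟩⟩
  have h3 := hσ ⟨x, hx⟩
  simp only at h3
  simp [h3]

theorem complete_det {W : Type} [Fintype W] (H : SimpleGraph W) {α β : ℝ} (h0 : 0 < β)
    (h1 : β < α) {k n : ℕ} (hk : k ≤ n) (hk2 : 2 ≤ k)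
    (hsz : (Fintype.card W : ℝ) + H.edgeSet.ncard * (2 * β / (α - β)) ≤ k)
    {G : SimpleGraph (Fin n)} {x y : Fin n} (hxy : x ≠ y)
    (hG : ∀ X : Finset (Fin n), X.card ≤ k → α * eIn G X ≤ (X \ {x, y}).card)
    (ht : bootClosure H G = ⊤) : Feasible H β k := by
  classical
  intro D hD
  have hG' : ∀ X : Finset (Fin n), X.card ≤ k → α * eIn G X ≤ X.card := fun X hX =>
    (hG X hX).trans (by exact_mod_cast Finset.card_le_card Finset.sdiff_subset)
  let P : Fin n → Fin n → Prop := fun u v => ∀ M, MinP β k G s(u, v) M →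
    ∀ (φ : Fin k ↪ Fin n) (B : SimpleGraph (Fin k)) (i j : Fin k), φ i = u → φ j = v →
      (∀ z ∈ M, ∃ a, φ a = z) →
      (∀ a b, φ a ∈ M → φ b ∈ M → (B.Adj a b ↔ G.Adj (φ a) (φ b))) → (B, i, j) ∈ D
  let Γ : SimpleGraph (Fin n) :=
    { Adj := fun u v => G.Adj u v ∨ (u ≠ v ∧ P u v ∧ P v u)
      symm := ⟨fun u v h => h.elim (fun h => Or.inl h.symm) fun h =>
        Or.inr ⟨h.1.symm, h.2.2, h.2.1⟩⟩
      loopless := ⟨fun u h => h.elim G.irrefl fun h => h.1 rfl⟩ }
  have key : ∀ (u v : Fin n) (f : W ↪ Fin n), (∃ a b, H.Adj a b ∧ s(f a, f b) = s(u, v)) →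
      (∀ a b, H.Adj a b → Γ.Adj (f a) (f b) ∨ s(f a, f b) = s(u, v)) → P u v := by
    rintro u v f ⟨a₀, b₀, hab₀, e₀⟩ hall M hM φ B i j hi hj hMφ hB
    have hch : ∀ e : Sym2 W, ∃ N, MinP β k G (e.map f) N ∧ (e = s(a₀, b₀) → N = M) := by
      intro e
      by_cases he : e = s(a₀, b₀)
      · refine ⟨M, ?_, fun _ => rfl⟩
        rw [he, Sym2.map_mk, e₀]
        exact hM
      · obtain ⟨N, hN⟩ := exists_minP β hk2 G (e.map f)
        exact ⟨N, hN, fun h => absurd h he⟩
    choose N hN hN₀ using hch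
    obtain ⟨E, hE⟩ : ∃ E : Finset (Sym2 W), ∀ e, e ∈ E ↔ e ∈ H.edgeSet :=
      ⟨(Set.toFinite H.edgeSet).toFinset, fun e => Set.Finite.mem_toFinset _⟩
    have hEc : H.edgeSet.ncard = E.card := by
      rw [← Set.ncard_coe_finset]
      exact congrArg Set.ncard (Set.ext fun e => (hE e).symm)
    let Y : Finset (Fin n) := Finset.univ.map f ∪ E.biUnion fun e => N e \ Finset.univ.map f
    have hNY : ∀ e ∈ H.edgeSet, ∀ z ∈ N e, z ∈ Y := by
      intro e he z hz
      by_cases h2 : z ∈ Finset.univ.map f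
      · exact Finset.mem_union_left _ h2
      · exact Finset.mem_union_right _
          (Finset.mem_biUnion.2 ⟨e, (hE e).2 he, Finset.mem_sdiff.2 ⟨hz, h2⟩⟩)
    have hY : Y.card ≤ k := by
      have h2 : ∀ e ∈ E, (((N e \ Finset.univ.map f).card : ℕ) : ℝ) ≤ 2 * β / (α - β) := by
        intro e he
        refine le_trans ?_ (minP_card h0 h1 hk2 hG' (hN e))
        induction e using Sym2.ind with
        | _ c d =>
          have h3 : H.Adj c d := (hE _).1 he
          have h4 : ({f c, f d} : Finset (Fin n)) ⊆ N s(c, d) ∩ Finset.univ.map f := by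
            intro z hz
            refine Finset.mem_inter.2 ⟨(hN s(c, d)).1 z (by simpa using hz), ?_⟩
            rcases Finset.mem_insert.1 hz with rfl | hz
            · simp
            · rw [Finset.mem_singleton.1 hz]
              simp
          have h5 := Finset.card_le_card h4
          rw [Finset.card_pair fun e => h3.ne (f.injective e)] at h5
          have h6 := Finset.card_sdiff_add_card_inter (N s(c, d)) (Finset.univ.map f)
          have h7 : (N s(c, d) \ Finset.univ.map f).card + 2 ≤ (N s(c, d)).card := by omega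
          have h8 : (((N s(c, d) \ Finset.univ.map f).card : ℕ) : ℝ) + 2 ≤ (N s(c, d)).card := by
            exact_mod_cast h7
          linarith
      have h3 : Y.card ≤ Fintype.card W + ∑ e ∈ E, (N e \ Finset.univ.map f).card := by
        refine (Finset.card_union_le _ _).trans (Nat.add_le_add ?_ Finset.card_biUnion_le)
        simp
      have h4 : (Y.card : ℝ) ≤ Fintype.card W +
          ∑ e ∈ E, (((N e \ Finset.univ.map f).card : ℕ) : ℝ) := by exact_mod_cast h3
      have h5 := Finset.sum_le_card_nsmul _ _ _ h2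
      rw [nsmul_eq_mul, ← hEc] at h5
      have h6 : (Y.card : ℝ) ≤ k := by linarith
      exact_mod_cast h6
    have hMY : ∀ z ∈ M, z ∈ Y := fun z hz => hNY s(a₀, b₀) hab₀ z (by rw [hN₀ _ rfl]; exact hz)
    obtain ⟨ψ, hψ, hψY⟩ := exists_reemb hk φ (Finset.univ.filter fun a => φ a ∈ M) Y hY
      fun a ha => hMY _ (Finset.mem_filter.1 ha).2
    have hf : ∀ w, ∃ a, ψ a = f w := fun w => hψY _ (Finset.mem_union_left _ (by simp))
    choose g hg using hf
    have hginj : Function.Injective g := fun c d e => f.injective (by rw [← hg, ← hg, e])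
    have hiA : i ∈ Finset.univ.filter fun a => φ a ∈ M :=
      Finset.mem_filter.2 ⟨Finset.mem_univ _, hM.1 _ (by rw [hi]; simp)⟩
    have hjA : j ∈ Finset.univ.filter fun a => φ a ∈ M :=
      Finset.mem_filter.2 ⟨Finset.mem_univ _, hM.1 _ (by rw [hj]; simp)⟩
    have hs : ∀ c d, s(f c, f d) = s(u, v) → s(g c, g d) = s(i, j) := by
      intro c d e
      refine Sym2.map.injective ψ.injective ?_
      rw [Sym2.map_mk, Sym2.map_mk, hg, hg, hψ i hiA, hψ j hjA, hi, hj, e]
    have hAM : (Finset.univ.filter fun a => φ a ∈ M).map ψ = M := by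
      ext z
      constructor
      · intro hz
        obtain ⟨a, ha, rfl⟩ := Finset.mem_map.1 hz
        rw [hψ a ha]
        exact (Finset.mem_filter.1 ha).2
      · intro hz
        obtain ⟨a, rfl⟩ := hMφ z hz
        have ha : a ∈ Finset.univ.filter fun a => φ a ∈ M :=
          Finset.mem_filter.2 ⟨Finset.mem_univ _, hz⟩
        exact Finset.mem_map.2 ⟨a, ha, hψ a ha⟩
    refine hD B i j ⟨Finset.univ.filter fun a => φ a ∈ M, G.comap ψ, ⟨g, hginj⟩, hiA, hjA,
      fun a ha b hb => ?_, fun S hS => ?_, ⟨a₀, b₀, hab₀, hs _ _ e₀⟩, fun c d hcd => ?_⟩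
    · rw [SimpleGraph.comap_adj, hψ a ha, hψ b hb]
      exact hB a b (Finset.mem_filter.1 ha).2 (Finset.mem_filter.1 hb).2
    · have h2 := hM.2.2 (S.map ψ) (fun z hz => by
        have h3 := hM.1 z hz
        rw [← hAM] at h3
        exact Finset.map_subset_map.2 hS h3) (by
        rw [Finset.card_map]
        simpa using Finset.card_le_univ S)
      have h3 : (M.card : ℝ) = (Finset.univ.filter fun a => φ a ∈ M).card := by
        rw [← Finset.card_map ψ, hAM]
      rw [edgesIn_eq, edgesIn_eq, eIn_comap, eIn_comap, hAM, ← h3]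
      rw [Finset.card_map] at h2
      linarith
    · rcases hall c d hcd with (h2 | h2) | h2
      · refine Or.inl ?_
        show G.Adj (ψ (g c)) (ψ (g d))
        rw [hg, hg]
        exact h2
      · exact Or.inr (Or.inr (h2.2.1 (N s(c, d)) (hN s(c, d)) ψ _ _ _ (hg c) (hg d)
          (fun z hz => hψY z (hNY _ hcd z hz)) fun _ _ _ _ => Iff.rfl))
      · exact Or.inr (Or.inl (hs c d h2))
  have hΓ : step H Γ ≤ Γ := by
    rintro u v (h | ⟨h, f, h2, h3⟩)
    · exact h
    · refine Or.inr ⟨h, key u v f h2 h3, key v u f ?_ ?_⟩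
      · rw [Sym2.eq_swap (a := v)]
        exact h2
      · rw [Sym2.eq_swap (a := v)]
        exact h3
  have h2 := bootClosure_le H hΓ (G := G) fun _ _ h => Or.inl h
  rw [ht] at h2
  have hα : 0 < α := h0.trans h1
  have h3 : eIn G {x, y} = 0 := by
    have h4 := hG {x, y} (Finset.card_le_two.trans hk2)
    rw [Finset.sdiff_self, Finset.card_empty, Nat.cast_zero] at h4
    have h5 : (eIn G {x, y} : ℝ) ≤ 0 := by
      by_contra h6
      exact absurd h4 (not_le.2 (mul_pos hα (not_le.1 h6)))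
    exact_mod_cast le_antisymm h5 (Nat.cast_nonneg _)
  have h4 : ¬ G.Adj x y := by
    intro h
    unfold eIn at h3
    rw [Set.ncard_eq_zero (Set.toFinite _)] at h3
    have h5 : s(x, y) ∈ {e ∈ G.edgeSet | ∀ v ∈ e, v ∈ ({x, y} : Finset (Fin n))} :=
      ⟨h, by simp⟩
    rw [h3] at h5
    exact h5
  have h5 : P x y := ((h2 (v := x) (w := y) hxy).resolve_left h4).2.1
  have h6 : (⟨0, by omega⟩ : Fin k) ≠ ⟨1, by omega⟩ := by simp
  obtain ⟨φ, h7, h8⟩ := exists_emb_pair hk h6 hxy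
  refine ⟨_, _, h5 {x, y} ⟨by simp, Finset.card_le_two.trans hk2, fun S hS hSk => ?_⟩ φ ⊥ _ _ h7 h8
    (fun z hz => ?_) fun a b ha hb => ?_⟩
  · have h9 : ({x, y} : Finset (Fin n)) ⊆ S := fun z hz => hS z (by simpa using hz)
    have h10 := hG S hSk
    have h11 : (((S \ {x, y}).card : ℕ) : ℝ) + ({x, y} : Finset (Fin n)).card = S.card := by
      exact_mod_cast Finset.card_sdiff_add_card_eq_card h9
    have h12 : β * eIn G S ≤ α * eIn G S := mul_le_mul_of_nonneg_right h1.le (Nat.cast_nonneg _)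
    rw [h3]
    push_cast
    linarith
  · rcases Finset.mem_insert.1 hz with rfl | hz
    · exact ⟨_, h7⟩
    · exact ⟨_, h8.trans (Finset.mem_singleton.1 hz).symm⟩
  · refine ⟨fun h => h.elim, fun h => ?_⟩
    simp only [Finset.mem_insert, Finset.mem_singleton] at ha hb
    rcases ha with ha | ha <;> rcases hb with hb | hb <;> rw [ha, hb] at h
    · exact G.irrefl h
    · exact h4 h
    · exact h4 h.symm
    · exact G.irrefl h

theorem rule_lower {W : Type} [Fintype W] (H : SimpleGraph W) {α α' β : ℝ} (h0 : 0 < β)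
    (h1 : β < α) (h2 : α < α') {k : ℕ} (hk2 : 2 ≤ k)
    (hsz : (Fintype.card W : ℝ) + H.edgeSet.ncard * (2 * β / (α - β)) ≤ k)
    (hF : ¬ Feasible H β k) : ∀ᶠ n : ℕ in atTop, -α' ≤ expo H n := by
  have hα : 0 < α := h0.trans h1
  filter_upwards [first_rooted (θ := 1 / α) (β := α') (by positivity)
    (by rw [mul_one_div, one_lt_div hα]; exact h2) k (δ := 1 / 4) (by norm_num),
    eventually_ge_atTop k] with n h3 hn
  refine le_expo _ (by omega) fun p hp => ?_
  have hxy : (⟨0, by omega⟩ : Fin n) ≠ ⟨1, by omega⟩ := by simp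
  refine lt_of_le_of_lt ((Pr_mono fun G hG => ?_).trans
    (h3 p hp {⟨0, by omega⟩, ⟨1, by omega⟩} (Finset.card_le_two.trans (by norm_num))))
    (by norm_num)
  by_contra hc
  refine hF (complete_det H h0 h1 hn hk2 hsz hxy (fun X hX => ?_) hG)
  by_contra hc'
  refine hc ⟨X, hX, ?_⟩
  rw [one_div_mul_eq_div, div_lt_iff₀ hα, mul_comm]
  exact not_le.1 hc'

theorem expo_ge {W : Type} (H : SimpleGraph W) (h2 : 2 ≤ H.edgeSet.ncard) :
    ∀ᶠ n : ℕ in atTop, -3 ≤ expo H n := by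
  filter_upwards [first_rooted (θ := 2 / 5) (β := 3) (by norm_num) (by norm_num) 2
    (δ := 1 / 4) (by norm_num), eventually_ge_atTop 2] with n h3 hn
  refine le_expo _ hn fun p hp => ?_
  refine lt_of_le_of_lt ((Pr_mono fun G hG => ?_).trans (h3 p hp ∅ (by simp))) (by norm_num)
  by_contra hc
  have h4 : G ≤ ⊥ := by
    intro u v huv
    refine hc ⟨{u, v}, Finset.card_le_two, ?_⟩
    have h5 : 0 < eIn G {u, v} :=
      (Set.ncard_pos (Set.toFinite _)).2 ⟨s(u, v), huv, by simp⟩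
    have h6 : (1 : ℝ) ≤ eIn G {u, v} := by exact_mod_cast h5
    have h7 : ((({u, v} : Finset (Fin n)).card : ℕ) : ℝ) ≤ 2 := by
      exact_mod_cast Finset.card_le_two
    rw [Finset.sdiff_empty]
    linarith
  have h5 := bootClosure_le H (pra_bot H h2) h4
  rw [show bootClosure H G = ⊤ from hG] at h5
  exact h5 (v := ⟨0, by omega⟩) (w := ⟨1, by omega⟩) (by simp)

theorem expo_nonpos {W : Type} (H : SimpleGraph W) (h2 : 2 ≤ H.edgeSet.ncard) {n : ℕ}
    (hn : 2 ≤ n) : expo H n ≤ 0 := by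
  have hn1 : (1 : ℝ) < n := by exact_mod_cast hn
  have h1 : critProb H n ≤ 1 :=
    csInf_le ⟨0, by rintro x ⟨p, rfl, -⟩; exact p.2.1⟩ (pra_one H n)
  exact div_nonpos_of_nonpos_of_nonneg (Real.log_nonpos (critProb_pos H h2 hn).le h1)
    (Real.log_pos hn1).le

theorem two_le_card {W : Type} [Fintype W] (H : SimpleGraph W) (h2 : 2 ≤ H.edgeSet.ncard) :
    2 ≤ Fintype.card W := by
  obtain ⟨e, he⟩ : H.edgeSet.Nonempty := Set.nonempty_of_ncard_ne_zero (by omega)
  induction e using Sym2.ind with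
  | _ a b => exact Fintype.one_lt_card_iff.2 ⟨a, b, SimpleGraph.Adj.ne he⟩

theorem rule_main {W : Type} [Fintype W] (H : SimpleGraph W) (h2 : 2 ≤ H.edgeSet.ncard) :
    ∃ γ : ℝ, Tendsto (expo H) atTop (𝓝 (-γ)) ∧ ∀ (β : ℝ) (k : ℕ), 0 < β →
      (Feasible H β k → β ≤ γ) ∧
      (¬ Feasible H β k → Fintype.card W < k →
        γ ≤ β * (1 + 2 * H.edgeSet.ncard / ((k : ℝ) - Fintype.card W))) := by
  have hW := two_le_card H h2
  let T : Set ℝ := {β | β = 0 ∨ ∃ k, Feasible H β k}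
  have hb : BddAbove T := by
    refine ⟨4, ?_⟩
    rintro β (rfl | ⟨k, hk⟩)
    · norm_num
    · by_contra hc
      obtain ⟨n, h3, h4⟩ := ((rule_upper H h2 hk (β' := 4) (by norm_num) (not_le.1 hc)).and
        (expo_ge H h2)).exists
      linarith
  have h0 : 0 ≤ sSup T := le_csSup hb (Or.inl rfl)
  have hlim : Tendsto (expo H) atTop (𝓝 (-sSup T)) := by
    refine tendsto_order.2 ⟨fun a ha => ?_, fun a ha => ?_⟩
    · obtain ⟨β, h3, h4⟩ := exists_between (show sSup T < -a by linarith)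
      obtain ⟨α, h5, h6⟩ := exists_between h4
      obtain ⟨α', h7, h8⟩ := exists_between h6
      obtain ⟨k, hk⟩ := exists_nat_ge
        ((Fintype.card W : ℝ) + H.edgeSet.ncard * (2 * β / (α - β)))
      have hβ : 0 < β := lt_of_le_of_lt h0 h3
      have h9 : 0 ≤ (H.edgeSet.ncard : ℝ) * (2 * β / (α - β)) :=
        mul_nonneg (Nat.cast_nonneg _) (div_nonneg (by linarith) (by linarith))
      have h10 : 2 ≤ k := by
        have : (Fintype.card W : ℝ) ≤ k := by linarith
        exact hW.trans (by exact_mod_cast this)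
      refine (rule_lower H hβ h5 h7 h10 hk fun hF => ?_).mono fun n hn => by linarith
      exact absurd (le_csSup hb (Or.inr ⟨k, hF⟩)) (not_le.2 h3)
    · rcases lt_or_ge 0 a with h3 | h3
      · filter_upwards [eventually_ge_atTop 2] with n hn
        exact lt_of_le_of_lt (expo_nonpos H h2 hn) h3
      · have hne : T.Nonempty := ⟨0, Or.inl rfl⟩
        obtain ⟨β, hβ, h4⟩ := exists_lt_of_lt_csSup hne (show -a < sSup T by linarith)
        obtain ⟨β', h5, h6⟩ := exists_between h4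
        rcases hβ with rfl | ⟨k, hk⟩
        · linarith
        · exact (rule_upper H h2 hk (by linarith) h6).mono fun n hn => by linarith
  refine ⟨sSup T, hlim, fun β k hβ => ⟨fun hF => le_csSup hb (Or.inr ⟨k, hF⟩), fun hF hk => ?_⟩⟩
  by_contra hc
  obtain ⟨α, h3, h4⟩ := exists_between (not_le.1 hc)
  obtain ⟨α', h5, h6⟩ := exists_between h4
  have h7 : (0 : ℝ) < (k : ℝ) - Fintype.card W := by
    have : (Fintype.card W : ℝ) < k := by exact_mod_cast hk
    linarith
  have h8 : 0 ≤ β * (2 * H.edgeSet.ncard / ((k : ℝ) - Fintype.card W)) := by positivity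
  have h9 : β < α := by linarith
  have h10 : (H.edgeSet.ncard : ℝ) * (2 * β / (α - β)) ≤ (k : ℝ) - Fintype.card W := by
    have h11 : β * (2 * H.edgeSet.ncard / ((k : ℝ) - Fintype.card W)) < α - β := by linarith
    rw [← mul_div_assoc, div_lt_iff₀ h7] at h11
    rw [← mul_div_assoc, div_le_iff₀ (by linarith)]
    linarith
  have h11 := ge_of_tendsto hlim (rule_lower H hβ h9 h5 (by omega) (by linarith) hF)
  linarith

end Pool.Agent.HB
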